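import Pool.Agent.RS.Core
import Pool.Agent.Helper21.LinSys.Regular
import Pool.Agent.QuadSys.Cert

/-!
# Mixed clauses: definitions

Points of the cube are functions `ι → Bool`. `Apx p d s f` says that the restriction of `f` to
every cube has good approximations by functions of low degree modulo `p`; circuits with `AND`,
`OR`, `NOT` and `MOD_p` gates have this property. Linear forms have coefficients modulo `m`
(`ev`, `off`, `Reg`, `fibz` in `LinSys`).
-/

set_option autoImplicit false

namespace Pool.Agent.MXC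

open Finset Pool.Agent.RS Pool.Agent.Helper21.LinSys

/-- Every coordinate of `φ z` is constant, or a variable or its negation. -/
def SMap {U ι : Type} [DecidableEq U] (φ : Finset U → ι → Bool) : Prop :=
  ∀ i, (∃ b, ∀ z, φ z i = b) ∨ ∃ (u : U) (b : Bool), ∀ z, φ z i = xor b (decide (u ∈ z))

/-- Every coordinate of `ψ y` is constant, or a variable or its negation. -/
def CMap {κ ι : Type} (ψ : (κ → Bool) → ι → Bool) : Prop :=
  ∀ i, (∃ b, ∀ y, ψ y i = b) ∨ ∃ (j : κ) (b : Bool), ∀ y, ψ y i = xor b (y j)

/-- On every cube and for every `ℓ`, `f` agrees with a function of degree at most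
`((p - 1) * ℓ) ^ d` modulo `p`, except for a fraction `s / p ^ ℓ` of the points. -/
def Apx (p : ℕ) [Fact p.Prime] (d s : ℕ) {ι : Type} (f : (ι → Bool) → Bool) : Prop :=
  ∀ (U : Type) [Fintype U] [DecidableEq U] (φ : Finset U → ι → Bool), SMap φ →
    ∀ ℓ : ℕ, 1 ≤ ℓ → ∃ (P : Finset U → ZMod p) (E : Finset (Finset U)),
      P ∈ lowDeg (ZMod p) U (((p - 1) * ℓ) ^ d) ∧ E.card * p ^ ℓ ≤ s * 2 ^ Fintype.card U ∧
      ∀ z, z ∉ E → P z = ind p (f (φ z))

variable {ι : Type} [Fintype ι] [DecidableEq ι] {m : ℕ}

/-- The points of `A` at which `f` is true. -/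
def tr (A : Finset (ι → Bool)) (f : (ι → Bool) → Bool) : Finset (ι → Bool) :=
  A.filter fun x => f x = true

/-- The number of ones. -/
def ones (x : ι → Bool) : ℕ := (univ.filter fun i => x i = true).card

/-- The combination of the forms `L a` with coefficients `h a`. -/
def comb {w : ℕ} (h : Fin w → ZMod m) (L : Fin w → ι → ZMod m) : ι → ZMod m :=
  fun i => ∑ a, h a * L a i

/-- The values of the forms `L a` at the point `x`. -/
def vals {w : ℕ} (L : Fin w → ι → ZMod m) (x : ι → Bool) : Fin w → ZMod m :=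
  fun a => ev (L a) x

/-- The pairing of coefficients and values. -/
def pair {w : ℕ} (h v : Fin w → ZMod m) : ZMod m := ∑ a, h a * v a

/-- Every character which gives a form of support less than `R` modulo `Γ` gives one of support
less than `r`. -/
def Act {w : ℕ} (r R : ℕ) (Γ : AddSubgroup (ι → ZMod m)) (L : Fin w → ι → ZMod m) : Prop :=
  ∀ h, (∃ l ∈ Γ, off ∅ (comb h L + l) < R) → ∃ l ∈ Γ, off ∅ (comb h L + l) < r

/-- The points at which all forms in `Γ` have the same values as at `y` and `B` holds. -/
noncomputable def cell (Γ : AddSubgroup (ι → ZMod m)) (y : ι → Bool) (B : (ι → Bool) → Bool) :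
    Finset (ι → Bool) := tr (fibz Γ ∅ y y) B

/-- The data of a state: `Γ` is small, `B` has approximations and `T` is dense in the cell. -/
structure Stt (p : ℕ) [Fact p.Prime] (d X : ℕ) (Γ : AddSubgroup (ι → ZMod m))
    (y : ι → Bool) (B : (ι → Bool) → Bool) (T : Finset (ι → Bool)) : Prop where
  cardΓ : Nat.card Γ ≤ 2 ^ X
  apx : Apx p d (2 ^ X) B
  dense : 2 ^ Fintype.card ι ≤ 2 ^ X * (T ∩ cell Γ y B).card

end Pool.Agent.MXC
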