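import Pool.Agent.MXC.Stmts

/-!
# The number of ones modulo `r` takes all values on a large cell
-/

set_option autoImplicit false

namespace Pool.Agent.MXC

open Finset Pool.Agent.RS Pool.Agent.Helper21.LinSys Pool.Agent.QuadSys

theorem mem_tr {ι : Type} [Fintype ι] [DecidableEq ι] {A : Finset (ι → Bool)}
    {f : (ι → Bool) → Bool} {x : ι → Bool} : x ∈ tr A f ↔ x ∈ A ∧ f x = true := by
  unfold tr
  exact mem_filter

theorem mem_cell' {ι : Type} [Fintype ι] [DecidableEq ι] {m : ℕ}
    {Γ : AddSubgroup (ι → ZMod m)} {y x : ι → Bool} {B : (ι → Bool) → Bool} :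
    x ∈ cell Γ y B ↔ (∀ L ∈ Γ, ev L x = ev L y) ∧ B x = true := by
  unfold cell
  rw [mem_tr, mem_fibz]
  simp

/-- Multiplication by `r`, from residues modulo `m` to residues modulo `m * r`. -/
def up (m r : ℕ) : ZMod m →+ ZMod (m * r) :=
  ZMod.lift m ⟨zmultiplesHom (ZMod (m * r)) (r : ZMod (m * r)), by
    rw [zmultiplesHom_apply]
    have : ((m : ℤ) • (r : ZMod (m * r))) = ((m * r : ℕ) : ZMod (m * r)) := by
      push_cast
      rw [zsmul_eq_mul]
      push_cast
      ring
    rw [this]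
    exact ZMod.natCast_self _⟩

theorem up_intCast (m r : ℕ) (k : ℤ) : up m r (k : ZMod m) = k * r := by
  unfold up
  rw [ZMod.lift_coe]
  change (zmultiplesHom (ZMod (m * r)) (r : ZMod (m * r))) k = _
  rw [zmultiplesHom_apply, zsmul_eq_mul]

theorem up_injective (m r : ℕ) (hr : 0 < r) : Function.Injective (up m r) := by
  rw [injective_iff_map_eq_zero]
  intro a ha
  obtain ⟨k, rfl⟩ := ZMod.intCast_surjective a
  rw [up_intCast] at ha
  have h1 : ((k * r : ℤ) : ZMod (m * r)) = 0 := by
    push_cast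
    exact ha
  rw [ZMod.intCast_zmod_eq_zero_iff_dvd] at h1
  push_cast at h1
  rw [ZMod.intCast_zmod_eq_zero_iff_dvd]
  exact Int.dvd_of_mul_dvd_mul_right (by exact_mod_cast hr.ne') h1

theorem up_mul (m r : ℕ) (a : ZMod m) : (m : ZMod (m * r)) * up m r a = 0 := by
  obtain ⟨k, rfl⟩ := ZMod.intCast_surjective a
  rw [up_intCast]
  have : (m : ZMod (m * r)) * (k * r) = k * ((m * r : ℕ) : ZMod (m * r)) := by
    push_cast
    ring
  rw [this, ZMod.natCast_self, mul_zero]

/-- Multiplication by `r` of forms. -/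
def upf (m r : ℕ) (ι : Type) : (ι → ZMod m) →+ (ι → ZMod (m * r)) where
  toFun L i := up m r (L i)
  map_zero' := by
    funext i
    simp
  map_add' L L' := by
    funext i
    simp

theorem ev_upf {ι : Type} [Fintype ι] {m r : ℕ} (L : ι → ZMod m) (x : ι → Bool) :
    ev (upf m r ι L) x = up m r (ev L x) := by
  unfold ev
  rw [map_sum]
  refine Finset.sum_congr rfl fun i _ => ?_
  by_cases h : x i = true
  · rw [if_pos h, if_pos h]
    rfl
  · rw [if_neg h, if_neg h, map_zero]

theorem cell_up {ι : Type} [Fintype ι] [DecidableEq ι] {m r : ℕ} (hr : 0 < r)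
    (Γ : AddSubgroup (ι → ZMod m)) (y : ι → Bool) (B : (ι → Bool) → Bool) :
    cell (Γ.map (upf m r ι)) y B = cell Γ y B := by
  ext x
  rw [mem_cell', mem_cell']
  refine and_congr ?_ Iff.rfl
  constructor
  · intro h L hL
    have h1 := h _ (AddSubgroup.mem_map_of_mem _ hL)
    rw [ev_upf, ev_upf] at h1
    exact up_injective m r hr h1
  · rintro h _ ⟨L, hL, rfl⟩
    rw [ev_upf, ev_upf, h L hL]

theorem ev_const {ι : Type} [Fintype ι] [DecidableEq ι] {m : ℕ} (c : ZMod m) (x : ι → Bool) :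
    ev (fun _ : ι => c) x = ones x * c := by
  unfold ev ones
  rw [← Finset.sum_filter, Finset.sum_const, nsmul_eq_mul]

/-- **A large cell contains points with every residue of the number of ones modulo `r`.** -/
theorem cell_mod (p : ℕ) [Fact p.Prime] (hW : St_Wlb p) (m : ℕ) [NeZero m] (r d : ℕ)
    (hmp : Nat.Coprime m p) (hr0 : 0 < r) (hrp : Nat.Coprime r p) (hcopr : Nat.Coprime r m) :
    ∃ K : ℕ, ∀ (ι : Type) [Fintype ι] [DecidableEq ι] (f : (ι → Bool) → Bool) (X : ℕ)
      (Γ : AddSubgroup (ι → ZMod m)) (y : ι → Bool), Nat.card Γ ≤ 2 ^ X →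
      Apx p d (2 ^ X) f → 2 ^ Fintype.card ι ≤ 2 ^ X * (cell Γ y f).card →
      pb K (X + 1) ≤ Fintype.card ι → ∀ a : ℕ, ∃ x ∈ cell Γ y f, ones x % r = a % r := by
  classical
  have hm0 : 0 < m := Nat.pos_of_ne_zero (NeZero.ne m)
  have hmr : NeZero (m * r) := ⟨(Nat.mul_pos hm0 hr0).ne'⟩
  have hcop : Nat.Coprime (m * r) p := Nat.Coprime.mul_left hmp hrp
  obtain ⟨K, hK⟩ := hW (m * r) 1 d hcop
  refine ⟨K, ?_⟩
  intro ι _ _ f X Γ y hΓ hf hdense hbig a
  let Kn : AddSubgroup (Fin 1 → ZMod (m * r)) :=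
    { carrier := {h | h 0 * (m : ZMod (m * r)) = 0}
      add_mem' := fun {h h'} hh hh' => by
        change (h + h') 0 * (m : ZMod (m * r)) = 0
        rw [Pi.add_apply, add_mul, show h 0 * (m : ZMod (m * r)) = 0 from hh,
          show h' 0 * (m : ZMod (m * r)) = 0 from hh', add_zero]
      zero_mem' := by
        change (0 : Fin 1 → ZMod (m * r)) 0 * (m : ZMod (m * r)) = 0
        simp
      neg_mem' := fun {h} hh => by
        change (-h) 0 * (m : ZMod (m * r)) = 0
        rw [Pi.neg_apply, neg_mul, show h 0 * (m : ZMod (m * r)) = 0 from hh, neg_zero] }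
  have hKn : ∀ h, h ∈ Kn ↔ h 0 * (m : ZMod (m * r)) = 0 := fun h => Iff.rfl
  let L : Fin 1 → ι → ZMod (m * r) := fun _ _ => (m : ZMod (m * r))
  let v : Fin 1 → ZMod (m * r) := fun _ => (a : ZMod (m * r)) * m
  have hvals : ∀ x, vals L x = fun _ => (ones x : ZMod (m * r)) * m := by
    intro x
    funext j
    exact ev_const _ x
  have hcard : Nat.card (Γ.map (upf m r ι)) ≤ 2 ^ X := by
    refine le_trans ?_ hΓ
    exact Nat.card_le_card_of_surjective (fun l : Γ => (⟨upf m r ι l,
      AddSubgroup.mem_map_of_mem _ l.2⟩ : Γ.map (upf m r ι))) (by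
        rintro ⟨_, ⟨l, hl, rfl⟩⟩
        exact ⟨⟨l, hl⟩, rfl⟩)
  have hfull : ∀ h, h ∉ Kn → ∀ l ∈ Γ.map (upf m r ι),
      Fintype.card ι ≤ off ∅ (MXC.comb h L + l) := by
    rintro h hh _ ⟨l, hl, rfl⟩
    unfold off
    have h1 : (univ.filter fun i : ι => i ∉ (∅ : Finset ι) ∧
        (MXC.comb h L + upf m r ι l) i ≠ 0) = univ := by
      refine Finset.filter_true_of_mem fun i _ => ⟨by simp, fun h0 => hh ?_⟩
      rw [hKn]
      rw [Pi.add_apply] at h0
      have h2 : MXC.comb h L i = h 0 * m := by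
        unfold MXC.comb
        rw [Fin.sum_univ_one]
      have h3 : upf m r ι l i = up m r (l i) := rfl
      rw [h2, h3] at h0
      have h4 : (m : ZMod (m * r)) * (h 0 * m) = 0 := by
        have h5 := congrArg (fun t => (m : ZMod (m * r)) * t) h0
        simp only [mul_add, up_mul, add_zero, mul_zero] at h5
        exact h5
      -- in terms of natural numbers
      have h5 : ((m * ((h 0).val * m) : ℕ) : ZMod (m * r)) = 0 := by
        push_cast
        rw [ZMod.natCast_zmod_val]
        exact h4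
      rw [ZMod.natCast_eq_zero_iff] at h5
      have h6 : r ∣ (h 0).val * m := Nat.dvd_of_mul_dvd_mul_left hm0 h5
      have h7 : r ∣ (h 0).val := hcopr.dvd_of_dvd_mul_right h6
      have h8 : m * r ∣ (h 0).val * m := by
        obtain ⟨e, he⟩ := h7
        exact ⟨e, by rw [he]; ring⟩
      have h9 : (((h 0).val * m : ℕ) : ZMod (m * r)) = 0 := (ZMod.natCast_eq_zero_iff _ _).2 h8
      push_cast at h9
      rwa [ZMod.natCast_zmod_val] at h9
    rw [h1, card_univ]
  have hmain := hK ι f X (Fintype.card ι) (Γ.map (upf m r ι)) y Kn L v hcard hfull hbig hf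
    (by
      intro x _ h hh
      rw [hvals]
      unfold pair
      rw [Fin.sum_univ_one, Fin.sum_univ_one]
      have h1 := (hKn h).1 hh
      calc h 0 * ((ones x : ZMod (m * r)) * m) = ones x * (h 0 * m) := by ring
        _ = 0 := by rw [h1, mul_zero]
        _ = a * (h 0 * m) := by rw [h1, mul_zero]
        _ = h 0 * (a * m) := by ring)
    (by rw [cell_up hr0]; exact hdense)
  rw [cell_up hr0] at hmain
  have hpos : 0 < (cell Γ y f).card := by
    rcases Nat.eq_zero_or_pos (cell Γ y f).card with h0 | h0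
    · rw [h0, mul_zero] at hdense
      have : 0 < 2 ^ Fintype.card ι := by positivity
      omega
    · exact h0
  have hne : ((cell Γ y f).filter fun x => vals L x = v).Nonempty := by
    rw [← card_pos]
    by_contra h0
    have h1 : ((cell Γ y f).filter fun x => vals L x = v).card = 0 := by omega
    rw [h1, mul_zero] at hmain
    omega
  obtain ⟨x, hx⟩ := hne
  obtain ⟨hxc, hxv⟩ := mem_filter.1 hx
  refine ⟨x, hxc, ?_⟩
  rw [hvals] at hxv
  have h1 : (ones x : ZMod (m * r)) * m = a * m := congrFun hxv 0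
  have h2 : ((ones x * m : ℕ) : ZMod (m * r)) = ((a * m : ℕ) : ZMod (m * r)) := by
    push_cast
    exact h1
  rw [ZMod.natCast_eq_natCast_iff] at h2
  have h3 : ones x * m ≡ a * m [MOD r * m] := by rwa [mul_comm r m]
  exact Nat.ModEq.mul_right_cancel' hm0.ne' h3

end Pool.Agent.MXC
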