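import Pool.Agent.MXC.Stmts

/-!
# Mixed clauses: module All
-/

set_option autoImplicit false

namespace Pool.Agent.MXC

open Finset Pool.Agent.RS Pool.Agent.Helper21.LinSys Pool.Agent.QuadSys

/-- the characters that give forms of small support -/
def All_small {ι : Type} [Fintype ι] [DecidableEq ι] {m w : ℕ} (Γ : AddSubgroup (ι → ZMod m))
    (L : Fin w → ι → ZMod m) (r : ℕ) : Set (Fin w → ZMod m) :=
  {h | ∃ l ∈ Γ, off ∅ (comb h L + l) < r}

theorem All_small_mono {ι : Type} [Fintype ι] [DecidableEq ι] {m w : ℕ}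
    {Γ Γ' : AddSubgroup (ι → ZMod m)} (hΓ : Γ ≤ Γ') (L : Fin w → ι → ZMod m) {r r' : ℕ}
    (hr : r ≤ r') : All_small Γ L r ⊆ All_small Γ' L r' := by
  rintro h ⟨l, hl, hl'⟩
  exact ⟨l, hΓ hl, lt_of_lt_of_le hl' hr⟩

theorem All_stt_mono {p : ℕ} [Fact p.Prime] (hB : ApxBasic p) {ι : Type} [Fintype ι]
    [DecidableEq ι] {m d X X' : ℕ} {Γ : AddSubgroup (ι → ZMod m)} {y : ι → Bool}
    {B : (ι → Bool) → Bool} {T : Finset (ι → Bool)} (h : Stt p d X Γ y B T) (hX : X ≤ X') :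
    Stt p d X' Γ y B T where
  cardΓ := h.cardΓ.trans (Nat.pow_le_pow_right (by norm_num) hX)
  apx := hB.mono ι d d _ _ B le_rfl (Nat.pow_le_pow_right (by norm_num) hX) h.apx
  dense := h.dense.trans (Nat.mul_le_mul_right _ (Nat.pow_le_pow_right (by norm_num) hX))

theorem All_iter (p : ℕ) [Fact p.Prime] (hB : ApxBasic p) (hP : St_Phase p) (m : ℕ) [NeZero m]
    (w d : ℕ) (hm : Nat.Coprime m p) (hd : 2 ≤ d) (i : ℕ) : ∃ d' K : ℕ, d ≤ d' ∧
    ∀ (ι : Type) [Fintype ι] [DecidableEq ι] (X N : ℕ) (T : Finset (ι → Bool))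
      (L : Fin N → Fin w → ι → ZMod m) (Φ : Fin N → (Fin w → ZMod m) → (ι → Bool) → Bool),
      1 ≤ X → N ≤ 2 ^ X → (∀ c v, Apx p d (2 ^ X) (Φ c v)) →
      (∀ x ∈ T, ∀ c, Φ c (vals (L c) x) x = true) → 2 ^ Fintype.card ι ≤ 2 ^ X * T.card →
      ∃ Y : ℕ, X ≤ Y ∧ Y ≤ pb K X ∧
      ∃ (Γ : AddSubgroup (ι → ZMod m)) (y : ι → Bool) (B : (ι → Bool) → Bool),
        Stt p d' Y Γ y B T ∧ ∀ c, (∀ x ∈ cell Γ y B, Φ c (vals (L c) x) x = true) ∨
          i + 1 ≤ (All_small Γ (L c) Y).ncard := by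
  induction i with
  | zero =>
    refine ⟨d, 2, le_rfl, ?_⟩
    intro ι _ _ X N T L Φ hX hN hΦ hT hdense
    refine ⟨X, le_rfl, ?_, ⊥, fun _ => false, fun _ => true, ?_, ?_⟩
    · have := mul_le_pb 1 hX
      simpa using this
    · refine ⟨?_, ?_, ?_⟩
      · rw [AddSubgroup.card_bot]
        exact Nat.one_le_pow _ _ (by norm_num)
      · exact hB.mono ι d d 0 _ _ le_rfl (Nat.zero_le _) (hB.const ι d true)
      · have hcell : T ∩ cell (⊥ : AddSubgroup (ι → ZMod m)) (fun _ => false) (fun _ => true) =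
            T := by
          refine Finset.inter_eq_left.2 fun x _ => ?_
          unfold cell tr
          rw [mem_filter, mem_fibz]
          refine ⟨⟨fun i hi => absurd hi (Finset.notMem_empty i), ?_⟩, rfl⟩
          intro l hl
          rw [AddSubgroup.mem_bot] at hl
          subst hl
          simp [ev]
        rw [hcell]
        exact hdense
    · intro c
      right
      have h0 : (0 : Fin w → ZMod m) ∈
          All_small (⊥ : AddSubgroup (ι → ZMod m)) (L c) X := by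
        refine ⟨0, AddSubgroup.zero_mem _, ?_⟩
        have : off ∅ (comb (0 : Fin w → ZMod m) (L c) + 0) = 0 := by
          unfold off comb
          simp
        omega
      have h1 : 0 < (All_small (⊥ : AddSubgroup (ι → ZMod m)) (L c) X).ncard :=
        (Set.ncard_pos (Set.toFinite _)).2 ⟨0, h0⟩
      omega
  | succ i ih =>
    obtain ⟨d₁, K₁, hd₁, h₁⟩ := ih
    obtain ⟨K₂, h₂⟩ := hP m w d₁ hm (hd.trans hd₁)
    refine ⟨d₁ + 3, (K₁ + 1) * (K₂ + 2 + 1), by omega, ?_⟩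
    intro ι _ _ X N T L Φ hX hN hΦ hT hdense
    obtain ⟨Y, hXY, hY, Γ, y, B, hS, hc⟩ := h₁ ι X N T L Φ hX hN hΦ hT hdense
    have hY1 : 1 ≤ Y := hX.trans hXY
    have hR : pb K₂ Y ≤ pb (K₂ + 2) Y := pb_mono (by omega) hY1 le_rfl
    have hYR : Y ≤ pb (K₂ + 2) Y := by
      have h3 := mul_le_pb 1 hY1
      rw [one_mul] at h3
      exact h3.trans (pb_mono (by omega) hY1 le_rfl)
    have hΦ' : ∀ c v, Apx p d₁ (2 ^ Y) (Φ c v) := fun c v =>
      hB.mono ι d d₁ _ _ _ hd₁ (Nat.pow_le_pow_right (by norm_num) hXY) (hΦ c v)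
    obtain ⟨Γ', y', B', hΓ, hcell, hS', hact⟩ := h₂ ι Y (pb (K₂ + 2) Y) N Γ y B T L Φ hS hY1
      (hN.trans (Nat.pow_le_pow_right (by norm_num) hXY)) hR hΦ' hT
    refine ⟨pb (K₂ + 2) Y, hXY.trans hYR, ?_, Γ', y', B', All_stt_mono hB hS' hR, ?_⟩
    · exact (pb_mono le_rfl hY1 hY).trans (pb_pb K₁ (K₂ + 2) hX)
    · intro c
      rcases hc c with h3 | h3
      · left
        intro x hx
        exact h3 x (hcell hx)
      · by_cases ha : Act Y (pb (K₂ + 2) Y) Γ' (L c)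
        · left
          exact hact c ha
        · right
          unfold Act at ha
          push Not at ha
          obtain ⟨h, ⟨l, hl, hlR⟩, hno⟩ := ha
          have hmem : h ∈ All_small Γ' (L c) (pb (K₂ + 2) Y) := ⟨l, hl, hlR⟩
          have hnot : h ∉ All_small Γ' (L c) Y := by
            rintro ⟨l', hl', hl''⟩
            exact absurd hl'' (not_lt.2 (hno l' hl'))
          have hss : All_small Γ (L c) Y ⊂ All_small Γ' (L c) (pb (K₂ + 2) Y) := by
            refine ⟨All_small_mono hΓ (L c) hYR, fun hcon => ?_⟩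
            exact hnot (All_small_mono hΓ (L c) le_rfl (hcon hmem))
          have hlt := Set.ncard_lt_ncard hss (Set.toFinite _)
          omega

theorem st_All (p : ℕ) [Fact p.Prime] (hB : ApxBasic p) (hP : St_Phase p) : St_All p := by
  intro m _ w d hm hd
  obtain ⟨d', K, -, h⟩ := All_iter p hB hP m w d hm hd (m ^ w)
  refine ⟨d', K, ?_⟩
  intro ι _ _ X N T L Φ hX hN hΦ hT hdense
  obtain ⟨Y, hXY, hY, Γ, y, B, hS, hc⟩ := h ι X N T L Φ hX hN hΦ hT hdense
  refine ⟨Γ, y, B, All_stt_mono hB hS hY, ?_⟩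
  intro x hx c
  rcases hc c with h3 | h3
  · exact h3 x hx
  · exfalso
    have h4 : (All_small Γ (L c) Y).ncard ≤ Nat.card (Fin w → ZMod m) := by
      rw [← Set.ncard_univ]
      exact Set.ncard_le_ncard (Set.subset_univ _) (Set.toFinite _)
    rw [Nat.card_fun, Nat.card_zmod, Nat.card_eq_fintype_card, Fintype.card_fin] at h4
    omega

end Pool.Agent.MXC
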