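import Pool.Agent.MXC.Stmts

/-!
# Mixed clauses: module ApxBasic
-/

set_option autoImplicit false

namespace Pool.Agent.MXC

open Finset Pool.Agent.RS Pool.Agent.Helper21.LinSys Pool.Agent.QuadSys

theorem apxBasic_one_le (p : ℕ) [hp : Fact p.Prime] (d ℓ : ℕ) (hℓ : 1 ≤ ℓ) :
    1 ≤ ((p - 1) * ℓ) ^ d := by
  have h2 := hp.out.two_le
  refine Nat.one_le_pow _ _ (Nat.mul_pos (by omega) (by omega))

theorem apxBasic_ind_not (p : ℕ) (b : Bool) : ind p (!b) = 1 - ind p b := by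
  unfold ind
  cases b <;> simp

theorem st_ApxBasic (p : ℕ) [Fact p.Prime] : ApxBasic p := by
  refine ⟨?_, ?_, ?_, ?_, ?_⟩
  · intro ι d b U _ _ φ _ ℓ _
    exact ⟨fun _ => ind p b, ∅, const_mem_lowDeg _ _, by simp, fun _ _ => rfl⟩
  · intro ι d i b U _ _ φ hφ ℓ hℓ
    rcases hφ i with ⟨b', hb'⟩ | ⟨u, b', hb'⟩
    · refine ⟨fun _ => ind p (xor b b'), ∅, const_mem_lowDeg _ _, by simp, fun z _ => ?_⟩
      simp only [hb' z]
    · refine ⟨fun z => ind p (xor b (xor b' (decide (u ∈ z)))), ∅, ?_, by simp, fun z _ => ?_⟩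
      · have h1 : (fun z : Finset U => ind p (xor b (xor b' (decide (u ∈ z))))) =
            (ind p (xor b (xor b' true))) • (fun z : Finset U => if u ∈ z then (1 : ZMod p) else 0) +
            (ind p (xor b (xor b' false))) •
              (fun z : Finset U => if u ∈ z then (0 : ZMod p) else 1) := by
          funext z
          by_cases h : u ∈ z <;> simp [h]
        rw [h1]
        refine lowDeg_mono (apxBasic_one_le p d ℓ hℓ) ?_
        exact Submodule.add_mem _ (Submodule.smul_mem _ _ (mem_lit u))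
          (Submodule.smul_mem _ _ (notMem_lit u))
      · simp only [hb' z]
  · intro ι d d' s s' f hd hs hf U _ _ φ hφ ℓ hℓ
    obtain ⟨P, E, h1, h2, h3⟩ := hf U φ hφ ℓ hℓ
    refine ⟨P, E, lowDeg_mono ?_ h1, h2.trans (Nat.mul_le_mul_right _ hs), h3⟩
    have h4 := apxBasic_one_le p 1 ℓ hℓ
    rw [pow_one] at h4
    exact Nat.pow_le_pow_right h4 hd
  · intro ι d s f hf U _ _ φ hφ ℓ hℓ
    obtain ⟨P, E, h1, h2, h3⟩ := hf U φ hφ ℓ hℓ
    refine ⟨1 - P, E, Submodule.sub_mem _ (one_mem_lowDeg _) h1, h2, fun z hz => ?_⟩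
    rw [apxBasic_ind_not, ← h3 z hz]
    rfl
  · intro κ ι d s f ψ hψ hf U _ _ φ hφ ℓ hℓ
    refine hf U (fun z => ψ (φ z)) ?_ ℓ hℓ
    intro i
    rcases hψ i with ⟨b, hb⟩ | ⟨j, b, hb⟩
    · exact Or.inl ⟨b, fun z => hb (φ z)⟩
    · rcases hφ j with ⟨c, hc⟩ | ⟨u, c, hc⟩
      · refine Or.inl ⟨xor b c, fun z => ?_⟩
        simp only [hb (φ z), hc z]
      · refine Or.inr ⟨u, xor b c, fun z => ?_⟩
        simp only [hb (φ z), hc z, Bool.xor_assoc]

end Pool.Agent.MXC
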