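import Pool.Agent.MXC.Stmts

/-!
# Mixed clauses: module ApxGate
-/

set_option autoImplicit false

namespace Pool.Agent.MXC

open Finset Pool.Agent.RS Pool.Agent.Helper21.LinSys Pool.Agent.QuadSys

lemma apxGate_card {J U : Type} [Fintype J] [Fintype U] [DecidableEq U] (q : ℕ) (s : J → ℕ)
    (E : J → Finset (Finset U)) (B : Finset (Finset U))
    (hE : ∀ j, (E j).card * q ≤ s j * 2 ^ Fintype.card U)
    (hB : B.card * q ≤ 2 ^ Fintype.card U) :
    (univ.biUnion E ∪ B).card * q ≤ (∑ j, s j + 1) * 2 ^ Fintype.card U := by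
  calc (univ.biUnion E ∪ B).card * q ≤ ((∑ j, (E j).card) + B.card) * q :=
        Nat.mul_le_mul_right _ ((card_union_le _ _).trans
          (Nat.add_le_add_right card_biUnion_le _))
    _ = (∑ j, (E j).card * q) + B.card * q := by rw [Nat.add_mul, Finset.sum_mul]
    _ ≤ (∑ j, s j * 2 ^ Fintype.card U) + 2 ^ Fintype.card U :=
        Nat.add_le_add (Finset.sum_le_sum fun j _ => hE j) hB
    _ = (∑ j, s j + 1) * 2 ^ Fintype.card U := by rw [← Finset.sum_mul]; ring

theorem st_ApxGate (p : ℕ) [Fact p.Prime] : ApxGate p := by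
  classical
  constructor
  · intro ι J _ d s f hf g hg U _ _ φ hφ ℓ hℓ
    choose P E hP hE hPE using fun j => hf j U φ hφ ℓ hℓ
    obtain ⟨c, hc⟩ := exists_coeff (p := p) (Z := Finset U) ℓ fun (j : J) z => !f j (φ z)
    rw [Fintype.card_finset] at hc
    refine ⟨fun z => 1 - orPoly c fun j => 1 - P j z, _, ?_, apxGate_card (p ^ ℓ) s E _ hE hc,
      ?_⟩
    · rw [pow_succ, mul_comm]
      exact Submodule.sub_mem _ (one_mem_lowDeg _) (orPoly_mem c (fun j z => 1 - P j z)
        fun j _ => Submodule.sub_mem _ (one_mem_lowDeg _) (hP j))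
    · intro z hz
      rw [mem_union, not_or, mem_biUnion, mem_filter] at hz
      have h1 : (fun j => 1 - P j z) = fun j => ind p (!f j (φ z)) := by
        funext j
        rw [hPE j z fun h => hz.1 ⟨j, mem_univ j, h⟩]
        cases f j (φ z) <;> simp [ind]
      change 1 - orPoly c (fun j => 1 - P j z) = _
      rw [h1, orPoly_good c (fun j => !f j (φ z)) fun h => hz.2 ⟨mem_univ z, h⟩]
      by_cases h : ∃ j, (!f j (φ z)) = true
      · rw [if_pos h]
        have h2 : g (φ z) ≠ true := by
          intro h3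
          obtain ⟨j, hj⟩ := h
          rw [(hg (φ z)).mp h3 j] at hj
          exact Bool.false_ne_true hj
        simp [ind, h2]
      · rw [if_neg h]
        have h2 : g (φ z) = true := (hg (φ z)).mpr fun j => by
          by_contra h3
          exact h ⟨j, by simpa using h3⟩
        simp [ind, h2]
  · intro ι J _ d s f hf g hg U _ _ φ hφ ℓ hℓ
    choose P E hP hE hPE using fun j => hf j U φ hφ ℓ hℓ
    obtain ⟨c, hc⟩ := exists_coeff (p := p) (Z := Finset U) ℓ fun (j : J) z => f j (φ z)
    rw [Fintype.card_finset] at hc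
    refine ⟨fun z => orPoly c fun j => P j z, _, ?_, apxGate_card (p ^ ℓ) s E _ hE hc, ?_⟩
    · rw [pow_succ, mul_comm]
      exact orPoly_mem c P fun j _ => hP j
    · intro z hz
      rw [mem_union, not_or, mem_biUnion, mem_filter] at hz
      have h1 : (fun j => P j z) = fun j => ind p (f j (φ z)) := by
        funext j
        exact hPE j z fun h => hz.1 ⟨j, mem_univ j, h⟩
      change orPoly c (fun j => P j z) = _
      rw [h1, orPoly_good c (fun j => f j (φ z)) fun h => hz.2 ⟨mem_univ z, h⟩]
      by_cases h : ∃ j, f j (φ z) = true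
      · rw [if_pos h]
        simp [ind, (hg (φ z)).mpr h]
      · rw [if_neg h]
        have h2 : g (φ z) ≠ true := fun h3 => h ((hg (φ z)).mp h3)
        simp [ind, h2]
  · intro ι J _ d s f c A hf U _ _ φ hφ ℓ hℓ
    choose P E hP hE hPE using fun j => hf j U φ hφ ℓ hℓ
    refine ⟨fun z => modPoly A (∑ j, (c j : ZMod p) * P j z), _, ?_,
      apxGate_card (p ^ ℓ) s E ∅ hE (by simp), ?_⟩
    · have h := modPoly_mem (p := p) (U := U) A (∑ j, (c j : ZMod p) • P j)
        (Submodule.sum_mem _ fun j _ => Submodule.smul_mem _ _ (hP j))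
      refine lowDeg_mono ?_ (by simpa [Finset.sum_apply] using h)
      rw [pow_succ, mul_comm]
      refine Nat.mul_le_mul_left _ ?_
      exact Nat.le_mul_of_pos_right _ hℓ
    · intro z hz
      rw [union_empty, mem_biUnion] at hz
      have h1 : ∑ j, (c j : ZMod p) * P j z =
          ((∑ j, if f j (φ z) = true then c j else 0 : ℕ) : ZMod p) := by
        push_cast
        refine Finset.sum_congr rfl fun j _ => ?_
        rw [hPE j z fun h => hz ⟨j, mem_univ j, h⟩]
        cases f j (φ z) <;> simp [ind]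
      change modPoly A (∑ j, (c j : ZMod p) * P j z) = _
      rw [h1, modPoly_eq, ZMod.val_natCast]

end Pool.Agent.MXC
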