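import Pool.Agent.MXC.Stmts

/-!
# Mixed clauses: module ApxMore
-/

set_option autoImplicit false

namespace Pool.Agent.MXC

open Finset Pool.Agent.RS Pool.Agent.Helper21.LinSys Pool.Agent.QuadSys

/-- coordinates of substitution maps have degree at most one -/
theorem apxmore_smap {p : ℕ} [Fact p.Prime] {U ι : Type} [Fintype U] [DecidableEq U]
    {φ : Finset U → ι → Bool} (hφ : SMap φ) (i : ι) :
    (fun z => ind p (φ z i)) ∈ lowDeg (ZMod p) U 1 := by
  rcases hφ i with ⟨b, hb⟩ | ⟨u, b, hb⟩
  · have h1 : (fun z => ind p (φ z i)) = fun _ : Finset U => ind p b := by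
      funext z
      rw [hb z]
    rw [h1]
    exact const_mem_lowDeg 1 (ind p b)
  · cases b with
    | false =>
      have h1 : (fun z => ind p (φ z i)) = fun z : Finset U => if u ∈ z then (1 : ZMod p) else 0 := by
        funext z
        rw [hb z]
        by_cases hu : u ∈ z <;> simp [ind, hu]
      rw [h1]
      exact mem_lit u
    | true =>
      have h1 : (fun z => ind p (φ z i)) = fun z : Finset U => if u ∈ z then (0 : ZMod p) else 1 := by
        funext z
        rw [hb z]
        by_cases hu : u ∈ z <;> simp [ind, hu]
      rw [h1]
      exact notMem_lit u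

/-- arbitrary functions of few functions -/
theorem apxmore_fn {p : ℕ} [Fact p.Prime] (hB : ApxBasic p) (hG : ApxGate p) (ι J : Type)
    [Fintype J] [DecidableEq J] (d s : ℕ) (f : J → (ι → Bool) → Bool) (F : (J → Bool) → Bool)
    (hf : ∀ j, Apx p d s (f j)) :
    Apx p (d + 2) (2 ^ Fintype.card J * (Fintype.card J * s + 1) + 1)
      (fun x => F fun j => f j x) := by
  classical
  have h1 : ∀ b : J → Bool, Apx p (d + 1) (Fintype.card J * s + 1)
      (fun x => F b && decide (∀ j, f j x = b j)) := by
    intro b
    cases hb : F b with
    | false =>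
      have h2 : (fun x : ι → Bool => false && decide (∀ j, f j x = b j)) = fun _ => false := by
        funext x
        rfl
      rw [h2]
      exact hB.mono ι (d + 1) (d + 1) 0 _ _ le_rfl (Nat.zero_le _) (hB.const ι (d + 1) false)
    | true =>
      have h3 : ∀ j, Apx p d s (fun x => xor (!b j) (f j x)) := by
        intro j
        cases b j with
        | false =>
          have h4 : (fun x => xor (!false) (f j x)) = fun x => !(f j x) := by
            funext x
            simp
          rw [h4]
          exact hB.not ι d s _ (hf j)
        | true =>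
          have h4 : (fun x => xor (!true) (f j x)) = f j := by
            funext x
            simp
          rw [h4]
          exact hf j
      have h5 := hG.all ι J d (fun _ => s) (fun j x => xor (!b j) (f j x)) h3
        (fun x => true && decide (∀ j, f j x = b j)) (fun x => by
          rw [Bool.true_and, decide_eq_true_eq]
          refine forall_congr' fun j => ?_
          cases b j <;> cases f j x <;> simp)
      rw [Finset.sum_const, Finset.card_univ, smul_eq_mul] at h5
      exact h5
  have h6 := hG.any ι (J → Bool) (d + 1) (fun _ => Fintype.card J * s + 1)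
    (fun b x => F b && decide (∀ j, f j x = b j)) h1 (fun x => F fun j => f j x) (fun x => by
      constructor
      · intro h
        refine ⟨fun j => f j x, ?_⟩
        rw [Bool.and_eq_true, decide_eq_true_eq]
        exact ⟨h, fun j => rfl⟩
      · rintro ⟨b, hb⟩
        rw [Bool.and_eq_true, decide_eq_true_eq] at hb
        have h7 : (fun j => f j x) = b := funext hb.2
        rw [h7]
        exact hb.1)
  rw [Finset.sum_const, Finset.card_univ, smul_eq_mul, Fintype.card_fun, Fintype.card_bool] at h6
  exact h6

theorem st_ApxMore (p : ℕ) [Fact p.Prime] (hB : ApxBasic p) (hG : ApxGate p) : ApxMore p := by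
  classical
  refine ⟨?_, ?_, fun ι J _ _ d s f F hf => apxmore_fn hB hG ι J d s f F hf⟩
  · intro ι _ _ d s C hd g hg U _ _ φ hφ ℓ hℓ
    obtain ⟨P, E, hP, hE, hPE⟩ := circuit_approx (p := p) C φ
      (fun v => apxmore_smap (p := p) hφ v) ℓ hℓ
    refine ⟨P, E, lowDeg_mono ?_ hP, hE, fun z hz => ?_⟩
    · have ha : 1 ≤ (p - 1) * ℓ := by
        have := (Fact.out : p.Prime).two_le
        exact Nat.mul_pos (by omega) hℓ
      exact Nat.pow_le_pow_right ha hd
    · by_cases h : C.Accepts p (φ z)
      · rw [(hPE z hz).1 h, (hg _).2 h]
        simp [ind]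
      · have h1 : g (φ z) ≠ true := fun h' => h ((hg _).1 h')
        rw [(hPE z hz).2 h]
        simp [ind, h1]
  · intro ι _ J f hf
    have h1 : ∀ j : J, Apx p 0 0 (fun x : ι → Bool => x j.1) := by
      intro j
      have h2 := hB.lit ι 0 j.1 false
      have h3 : (fun x : ι → Bool => xor false (x j.1)) = fun x => x j.1 := by
        funext x
        simp
      rwa [h3] at h2
    have h4 := apxmore_fn hB hG ι J 0 0 (fun j x => x j.1)
      (fun b => f fun i => if h : i ∈ J then b ⟨i, h⟩ else false) h1
    have h5 : (fun x : ι → Bool => f fun i => if h : i ∈ J then x i else false) = f := by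
      funext x
      refine hf _ _ fun i hi => ?_
      rw [dif_pos hi]
    rw [Fintype.card_coe, Nat.mul_zero, Nat.zero_add, Nat.mul_one] at h4
    have h6 : (fun x : ι → Bool => f fun i => if h : i ∈ J then x i else false) =
        fun x => (fun b : J → Bool => f fun i => if h : i ∈ J then b ⟨i, h⟩ else false)
          fun j => x j.1 := rfl
    rw [← h5, h6]
    exact h4

end Pool.Agent.MXC
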