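import Mathlib

/-!
# Disjoint blocks meeting all good characters
-/

set_option autoImplicit false

namespace Pool.Agent.MXC

open Finset

/-- A small set of coordinates outside `U` which meets the supports of all good elements. -/
theorem exists_hit {ι G : Type} [Fintype ι] [DecidableEq ι] [AddCommGroup G] [Finite G] {m : ℕ}
    (F : G →+ (ι → ZMod m)) (good : G → Prop) (U : Finset ι) (R : ℕ) (hU : U.card < R)
    (hgood : ∀ g, good g → R ≤ (univ.filter fun i => F g i ≠ 0).card) :
    ∀ (a : ℕ) (H : AddSubgroup G), Nat.card H ≤ 2 ^ a → ∃ W : Finset ι, Disjoint W U ∧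
      W.card ≤ a ∧ ∀ g ∈ H, good g → ∃ i ∈ W, F g i ≠ 0 := by
  have hi : ∀ g, good g → ∃ i, i ∉ U ∧ F g i ≠ 0 := by
    intro g hg
    by_contra hcon
    push Not at hcon
    have h1 : (univ.filter fun i => F g i ≠ 0) ⊆ U := by
      intro i hi
      rw [Finset.mem_filter] at hi
      by_contra hiU
      exact hi.2 (hcon i hiU)
    have h2 := Finset.card_le_card h1
    have h3 := hgood g hg
    omega
  intro a
  induction a with
  | zero =>
    intro H hH
    refine ⟨∅, Finset.disjoint_empty_left _, le_rfl, fun g hg hgg => ?_⟩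
    exfalso
    have h1 : Subsingleton H := by
      rw [← Finite.card_le_one_iff_subsingleton]
      simpa using hH
    have h2 : g = 0 := congrArg Subtype.val (Subsingleton.elim (⟨g, hg⟩ : H) 0)
    obtain ⟨i, _, hi⟩ := hi g hgg
    rw [h2, map_zero] at hi
    exact hi rfl
  | succ a ih =>
    intro H hH
    by_cases hex : ∃ g ∈ H, good g
    · obtain ⟨g₀, hg₀, hgg₀⟩ := hex
      obtain ⟨i₀, hi₀U, hi₀⟩ := hi g₀ hgg₀
      -- the subgroup of elements vanishing at `i₀`
      let φ : G →+ ZMod m := (Pi.evalAddMonoidHom (fun _ : ι => ZMod m) i₀).comp F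
      have hφ : ∀ g, φ g = F g i₀ := fun g => rfl
      have hlt : H ⊓ φ.ker < H := by
        refine lt_of_le_of_ne inf_le_left fun hEq => ?_
        have : g₀ ∈ H ⊓ φ.ker := by rw [hEq]; exact hg₀
        exact hi₀ ((hφ g₀).symm.trans (AddMonoidHom.mem_ker.1 this.2))
      have hcard : 2 * Nat.card (H ⊓ φ.ker : AddSubgroup G) ≤ Nat.card H := by
        have h1 : Nat.card (H ⊓ φ.ker : AddSubgroup G) ∣ Nat.card H :=
          AddSubgroup.card_dvd_of_le hlt.le
        obtain ⟨c, hc⟩ := h1
        have h2 : Nat.card (H ⊓ φ.ker : AddSubgroup G) < Nat.card H :=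
          Set.Finite.card_lt_card (Set.toFinite (H : Set G)) (SetLike.coe_ssubset_coe.2 hlt)
        have h3 : 2 ≤ c := by
          by_contra hc2
          have : c = 0 ∨ c = 1 := by omega
          rcases this with h | h <;> subst h <;> omega
        calc 2 * Nat.card (H ⊓ φ.ker : AddSubgroup G) =
            Nat.card (H ⊓ φ.ker : AddSubgroup G) * 2 := mul_comm _ _
          _ ≤ Nat.card (H ⊓ φ.ker : AddSubgroup G) * c := Nat.mul_le_mul_left _ h3
          _ = Nat.card H := hc.symm
      obtain ⟨W, hW1, hW2, hW3⟩ := ih (H ⊓ φ.ker) (by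
        rw [pow_succ] at hH
        omega)
      refine ⟨insert i₀ W, ?_, ?_, ?_⟩
      · rw [Finset.disjoint_insert_left]
        exact ⟨hi₀U, hW1⟩
      · exact (Finset.card_insert_le _ _).trans (by omega)
      · intro g hg hgg
        by_cases h : F g i₀ = 0
        · obtain ⟨i, hi1, hi2⟩ := hW3 g ⟨hg, AddMonoidHom.mem_ker.2 ((hφ g).trans h)⟩ hgg
          exact ⟨i, Finset.mem_insert_of_mem hi1, hi2⟩
        · exact ⟨i₀, Finset.mem_insert_self _ _, h⟩
    · push Not at hex
      exact ⟨∅, Finset.disjoint_empty_left _, Nat.zero_le _, fun g hg hgg => absurd hgg (hex g hg)⟩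

/-- Disjoint sets meeting the supports of all good elements, given by a colouring of some of the coordinates. -/
theorem exists_col_one {ι G : Type} [Fintype ι] [DecidableEq ι] [AddCommGroup G] [Finite G]
    {m : ℕ} (F : G →+ (ι → ZMod m)) (good : G → Prop) (R a : ℕ)
    (hG : Nat.card G ≤ 2 ^ a) (hgood : ∀ g, good g → R ≤ (univ.filter fun i => F g i ≠ 0).card) :
    ∀ k : ℕ, k * a < R → ∃ c : ι → Option (Fin k),
      (∀ j g, good g → ∃ i, c i = some j ∧ F g i ≠ 0) ∧
      (univ.filter fun i => c i ≠ none).card ≤ k * a := by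
  intro k
  induction k with
  | zero =>
    intro _
    refine ⟨fun _ => none, fun j => j.elim0, ?_⟩
    simp
  | succ k ih =>
    intro hk
    have hk' : k * a < R := lt_of_le_of_lt (Nat.mul_le_mul_right _ (Nat.le_succ k)) hk
    obtain ⟨c, hc1, hc2⟩ := ih hk'
    obtain ⟨W, hW1, hW2, hW3⟩ := exists_hit F good (univ.filter fun i => c i ≠ none) R
      (lt_of_le_of_lt hc2 hk') hgood a ⊤ (by rwa [AddSubgroup.card_top])
    refine ⟨fun i => if i ∈ W then some (Fin.last k) else (c i).map Fin.castSucc, ?_, ?_⟩
    · intro j g hg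
      induction j using Fin.lastCases with
      | last =>
        obtain ⟨i, hi1, hi2⟩ := hW3 g trivial hg
        exact ⟨i, by simp [hi1], hi2⟩
      | cast j =>
        obtain ⟨i, hi1, hi2⟩ := hc1 j g hg
        refine ⟨i, ?_, hi2⟩
        have hiW : i ∉ W := by
          intro hiW
          exact Finset.disjoint_left.1 hW1 hiW (by simp [hi1])
        simp [hiW, hi1]
    · have hsub : (univ.filter fun i =>
          (if i ∈ W then some (Fin.last k) else (c i).map Fin.castSucc) ≠ none) ⊆
          (univ.filter fun i => c i ≠ none) ∪ W := by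
        intro i hi
        rw [Finset.mem_filter] at hi
        rw [Finset.mem_union, Finset.mem_filter]
        by_cases hiW : i ∈ W
        · exact Or.inr hiW
        · left
          refine ⟨Finset.mem_univ _, fun h => hi.2 ?_⟩
          simp [hiW, h]
      refine (Finset.card_le_card hsub).trans ((Finset.card_union_le _ _).trans ?_)
      rw [Nat.succ_mul]
      omega

/-- Disjoint blocks, in each of which every good element has at least `t` nonzero
coordinates. -/
theorem exists_col {ι G : Type} [Fintype ι] [DecidableEq ι] [AddCommGroup G] [Finite G]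
    {m : ℕ} (F : G →+ (ι → ZMod m)) (good : G → Prop) (R a N t : ℕ)
    (hG : Nat.card G ≤ 2 ^ a) (hgood : ∀ g, good g → R ≤ (univ.filter fun i => F g i ≠ 0).card)
    (hR : N * t * a < R) : ∃ c : ι → Option (Fin N),
      ∀ j g, good g → t ≤ (univ.filter fun i => c i = some j ∧ F g i ≠ 0).card := by
  obtain ⟨c, hc, -⟩ := exists_col_one F good R a hG hgood (N * t) hR
  refine ⟨fun i => (c i).map fun u => (finProdFinEquiv.symm u).1, fun j g hg => ?_⟩
  choose s hs1 hs2 using fun u : Fin t => hc (finProdFinEquiv (j, u)) g hg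
  have hinj : Function.Injective s := by
    intro u u' huu
    have h1 := hs1 u
    rw [huu, hs1 u'] at h1
    have h2 := finProdFinEquiv.injective (Option.some.inj h1)
    exact (congrArg Prod.snd h2).symm
  calc t = (univ.map ⟨s, hinj⟩ : Finset ι).card := by simp
    _ ≤ _ := by
      refine Finset.card_le_card fun i hi => ?_
      rw [Finset.mem_map] at hi
      obtain ⟨u, -, rfl⟩ := hi
      rw [Finset.mem_filter]
      refine ⟨Finset.mem_univ _, ?_, hs2 u⟩
      simp only [Function.Embedding.coeFn_mk]
      rw [hs1 u, Option.map_some, Equiv.symm_apply_apply]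

end Pool.Agent.MXC
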