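import Pool.Agent.MXC.Stmts
import Pool.Agent.Helper21.LinSys.DenseLeaf

/-!
# The one-sided Razborov-Smolensky bound on a fibre, for functions with approximations
-/

set_option autoImplicit false
set_option linter.unusedSectionVars false

namespace Pool.Agent.MXC

open Finset Pool.Agent.RS Pool.Agent.Helper21.LinSys Pool.Agent.QuadSys

/-- **One-sided Razborov-Smolensky bound**, for functions with approximations. -/
theorem coreA_center {U : Type} [Fintype U] [DecidableEq U] {p : ℕ} [Fact p.Prime]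
    (f : Finset U → Bool) {s M σ ℓ : ℕ} (P : Finset U → ZMod p) (E : Finset (Finset U)) (D : ℕ)
    (hP : P ∈ lowDeg (ZMod p) U D) (hE : E.card * p ^ ℓ ≤ s * 2 ^ Fintype.card U)
    (hPE : ∀ z, z ∉ E → P z = ind p (f z))
    (hU : Fintype.card U = 2 * M) (hrej : ∀ z, f z = true → M ≤ z.card)
    (S : Finset (Finset U)) (hS : ∀ z ∈ S, f z = true)
    (hcard : (2 * M).choose M ≤ σ * S.card) (hdeg : 2 * (D + 1) ^ 2 ≤ M) :
    p ^ ℓ ≤ 8 * M ^ 2 * σ * s := by
  classical
  have hM : 0 < M := by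
    have : 0 < 2 * (D + 1) ^ 2 := by positivity
    omega
  have hDM : D < M := by nlinarith
  have h1 := one_sided (F := ZMod p) hDM (fun z => f z = true) hrej P hP E
    (fun z hz => by
      rw [hPE z hz]
      rfl) S hS
  -- the size of the ball
  have h2 : (2 * M).choose M ≤
      2 * ((univ : Finset (Finset U)).filter fun z => z.card ≤ M - 1 - D).card := by
    refine (choose_half M (D + 1) hdeg).trans (Nat.mul_le_mul_left _ ?_)
    have h3 : (2 * M).choose (M - (D + 1)) =
        (Finset.powersetCard (M - (D + 1)) (univ : Finset U)).card := by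
      rw [Finset.card_powersetCard, Finset.card_univ, hU]
    rw [h3]
    refine Finset.card_le_card fun z hz => ?_
    rw [Finset.mem_powersetCard] at hz
    rw [mem_filter]
    exact ⟨mem_univ z, by rw [hz.2]; omega⟩
  rw [hU] at h1 hE
  have h4 : (4 : ℕ) ^ M ≤ 2 * M * (2 * M).choose M := by
    have := Nat.four_pow_le_two_mul_self_mul_centralBinom M hM
    rwa [Nat.centralBinom] at this
  have h5 : (2 : ℕ) ^ (2 * M) = 4 ^ M := by rw [pow_mul]; norm_num
  rw [h5] at h1 hE
  set B := ((univ : Finset (Finset U)).filter fun z => z.card ≤ M - 1 - D).card with hB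
  set c := (2 * M).choose M with hc
  -- combine
  have h6 : (4 ^ M * 4 ^ M) * p ^ ℓ ≤ (8 * M ^ 2 * σ * s) * (4 ^ M * 4 ^ M) := by
    calc (4 ^ M * 4 ^ M) * p ^ ℓ ≤ ((2 * M * c) * (2 * M * c)) * p ^ ℓ :=
          Nat.mul_le_mul_right _ (Nat.mul_le_mul h4 h4)
      _ = (4 * M ^ 2) * (c * c) * p ^ ℓ := by ring
      _ ≤ (4 * M ^ 2) * ((σ * S.card) * (2 * B)) * p ^ ℓ :=
          Nat.mul_le_mul_right _ (Nat.mul_le_mul_left _ (Nat.mul_le_mul hcard h2))
      _ = (8 * M ^ 2 * σ) * (S.card * B) * p ^ ℓ := by ring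
      _ ≤ (8 * M ^ 2 * σ) * (E.card * 4 ^ M) * p ^ ℓ :=
          Nat.mul_le_mul_right _ (Nat.mul_le_mul_left _ h1)
      _ = (8 * M ^ 2 * σ) * 4 ^ M * (E.card * p ^ ℓ) := by ring
      _ ≤ (8 * M ^ 2 * σ) * 4 ^ M * (s * 4 ^ M) := Nat.mul_le_mul_left _ hE
      _ = (8 * M ^ 2 * σ * s) * (4 ^ M * 4 ^ M) := by ring
  rw [mul_comm] at h6
  exact Nat.le_of_mul_le_mul_right h6 (by positivity)

section aux

variable {p : ℕ} [Fact p.Prime] {ι G : Type} [Fintype ι]
  [DecidableEq ι] [AddCommGroup G] [Fintype G] [DecidableEq G]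

theorem coreA_aux (F : Finset ι → Bool) (s d : ℕ)
    (hF : ∀ (U : Type) [Fintype U] [DecidableEq U] (ψ : Finset U → Finset ι),
      (∀ i, (∃ q : Prop, ∀ z, (i ∈ ψ z ↔ q)) ∨
        ∃ (u : U) (q q' : Prop), ∀ z, (i ∈ ψ z ↔ if u ∈ z then q else q')) →
      ∀ ℓ : ℕ, 1 ≤ ℓ → ∃ (P : Finset U → ZMod p) (E : Finset (Finset U)),
        P ∈ lowDeg (ZMod p) U (((p - 1) * ℓ) ^ d) ∧ E.card * p ^ ℓ ≤ s * 2 ^ Fintype.card U ∧
        ∀ z, z ∉ E → P z = ind p (F (ψ z)))
    (m : ℕ) (hm : 0 < m) (g : ι → G) (hg : ∀ i, m • g i = 0) (c : G) (k lam : ℕ)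
    (hrej : ∀ z, ∑ i ∈ z, g i = c → F z = true → k ≤ z.card)
    (T : Finset (Finset ι))
    (hT : ∀ z ∈ T, z.card = k ∧ ∑ i ∈ z, g i = c ∧ F z = true)
    (hcard : 2 ^ Fintype.card ι ≤ 2 ^ lam * T.card) (hG : Fintype.card G ≤ 2 ^ lam)
    (hs1 : 1 ≤ s) (hs : s * (Fintype.card ι + 1) ^ 2 ≤ 2 ^ lam)
    (b a t M : ℕ) (hb : b = m ^ 2 * (lam + 4)) (ha : a = 3 * (b + 1) ^ 2) (ht : t = 2 * lam + 3)
    (hM : M = 2 * (((p - 1) * (2 * lam + 5)) ^ d + 1) ^ 2) :
    Fintype.card ι < (b + 1) ^ 2 * (M * (a * t)) * b := by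
  classical
  by_contra hcon
  push Not at hcon
  have hb1 : 1 ≤ b := by
    rw [hb]; exact Nat.mul_pos (by positivity) (by omega)
  have ha1 : 1 ≤ a := by rw [ha]; have : 0 < (b + 1) ^ 2 := by positivity
                         omega
  have hM1 : 1 ≤ M := by
    rw [hM]; have : 0 < (((p - 1) * (2 * lam + 5)) ^ d + 1) ^ 2 := by positivity
    omega
  have hMn : M ≤ Fintype.card ι := by
    refine le_trans ?_ hcon
    calc M = 1 * (M * (1 * 1)) * 1 := by ring
      _ ≤ (b + 1) ^ 2 * (M * (a * t)) * b := by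
        refine Nat.mul_le_mul (Nat.mul_le_mul (Nat.one_le_pow _ _ (by omega)) ?_) hb1
        exact Nat.mul_le_mul_left _ (Nat.mul_le_mul ha1 (by omega))
  have hMM : M ^ 2 * s ≤ 2 ^ lam := by
    refine le_trans ?_ hs
    rw [mul_comm]
    exact Nat.mul_le_mul_left _ (Nat.pow_le_pow_left (by omega) 2)
  have hMlam : M ≤ 2 ^ lam := by
    refine le_trans ?_ hMM
    calc M = M * 1 * 1 := by ring
      _ ≤ M * M * s := Nat.mul_le_mul (Nat.mul_le_mul_left _ hM1) hs1
      _ = M ^ 2 * s := by ring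
  -- the block system
  obtain ⟨W, hW1, hW2, hW3⟩ := exists_sys (β := Fin M × Fin (a * t)) m (lam + 4) hm g hg
    (by rw [pow_add]; exact Nat.mul_le_mul hG (by norm_num))
    (by rw [Fintype.card_prod, Fintype.card_fin, Fintype.card_fin, ← hb]; exact hcon)
  rw [← hb] at hW1 hW2 hW3
  rw [← ha] at hW2 hW3
  -- the bad set
  let row : Fin M → Finset (Fin M × Fin (a * t)) := fun j => ({j} : Finset (Fin M)) ×ˢ univ
  have hrow : ∀ j, (row j).card = a * t := by
    intro j
    simp only [row, card_product, card_singleton, card_univ, Fintype.card_fin, one_mul]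
  let B1 : Fin M → Finset (Finset ι) := fun j =>
    univ.filter fun x => ∀ B ∈ row j, x ∩ W.blk B ∉ W.heavy B
  let B2 : Fin M → Finset (Finset ι) := fun j =>
    univ.filter fun x => ∀ B ∈ row j, x ∩ W.blk B ∉ W.light B
  have hB1 : ∀ j, (B1 j).card * 2 ^ t ≤ 2 ^ Fintype.card ι := by
    intro j
    have h := avoid_bound W.blk W.disj W.heavy W.heavy_sub a ha1
      (fun B => by rw [hW1 B]; exact hW3 B) (row j) t (hrow j)
    convert h
  have hB2 : ∀ j, (B2 j).card * 2 ^ t ≤ 2 ^ Fintype.card ι := by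
    intro j
    have h := avoid_bound W.blk W.disj W.light W.light_sub a ha1
      (fun B => by rw [hW1 B]; exact hW2 B) (row j) t (hrow j)
    convert h
  let Bad : Finset (Finset ι) := univ.biUnion B1 ∪ univ.biUnion B2
  have hBad1 : Bad.card * 2 ^ t ≤ 2 * M * 2 ^ Fintype.card ι := by
    have h1 : Bad.card ≤ ∑ j, (B1 j).card + ∑ j, (B2 j).card :=
      (card_union_le _ _).trans (Nat.add_le_add card_biUnion_le card_biUnion_le)
    have h2 : ∀ f : Fin M → Finset (Finset ι), (∀ j, (f j).card * 2 ^ t ≤ 2 ^ Fintype.card ι) →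
        (∑ j, (f j).card) * 2 ^ t ≤ M * 2 ^ Fintype.card ι := by
      intro f hf
      rw [Finset.sum_mul]
      refine (Finset.sum_le_sum fun j _ => hf j).trans ?_
      rw [Finset.sum_const, card_univ, Fintype.card_fin, smul_eq_mul]
    calc Bad.card * 2 ^ t ≤ (∑ j, (B1 j).card + ∑ j, (B2 j).card) * 2 ^ t :=
          Nat.mul_le_mul_right _ h1
      _ = (∑ j, (B1 j).card) * 2 ^ t + (∑ j, (B2 j).card) * 2 ^ t := add_mul _ _ _
      _ ≤ M * 2 ^ Fintype.card ι + M * 2 ^ Fintype.card ι := Nat.add_le_add (h2 B1 hB1) (h2 B2 hB2)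
      _ = _ := by ring
  have hBad2 : 4 * Bad.card ≤ T.card := by
    have h1 : Bad.card * 2 ^ (lam + 2) ≤ 2 ^ Fintype.card ι := by
      refine Nat.le_of_mul_le_mul_right ?_ (show 0 < 2 ^ (lam + 1) by positivity)
      calc Bad.card * 2 ^ (lam + 2) * 2 ^ (lam + 1) = Bad.card * 2 ^ t := by
            rw [mul_assoc, ← pow_add, ht]; congr 2; ring
        _ ≤ 2 * M * 2 ^ Fintype.card ι := hBad1
        _ ≤ 2 * 2 ^ lam * 2 ^ Fintype.card ι :=
            Nat.mul_le_mul_right _ (Nat.mul_le_mul_left _ hMlam)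
        _ = 2 ^ Fintype.card ι * 2 ^ (lam + 1) := by rw [pow_succ]; ring
    refine Nat.le_of_mul_le_mul_left ?_ (show 0 < 2 ^ lam by positivity)
    calc 2 ^ lam * (4 * Bad.card) = Bad.card * 2 ^ (lam + 2) := by rw [pow_add]; ring
      _ ≤ 2 ^ Fintype.card ι := h1
      _ ≤ _ := hcard
  set T' := T \ Bad with hT'
  have hT'c : 2 ^ Fintype.card ι ≤ 2 ^ (lam + 1) * T'.card := by
    have h1 : T.card - Bad.card ≤ T'.card := le_card_sdiff _ _
    have h2 : T.card ≤ 2 * T'.card := by omega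
    calc 2 ^ Fintype.card ι ≤ 2 ^ lam * T.card := hcard
      _ ≤ 2 ^ lam * (2 * T'.card) := Nat.mul_le_mul_left _ h2
      _ = _ := by rw [pow_succ]; ring
  have hT'T : ∀ x ∈ T', x ∈ T := fun x hx => (mem_sdiff.1 hx).1
  have hHv : ∀ x ∈ T', M ≤ (W.Hv x).card := by
    intro x hx
    have hx' := (mem_sdiff.1 hx).2
    have h1 : ∀ j : Fin M, ∃ B ∈ row j, x ∩ W.blk B ∈ W.heavy B := by
      intro j
      by_contra h
      push Not at h
      exact hx' (mem_union_left _ (mem_biUnion.2 ⟨j, mem_univ _, mem_filter.2 ⟨mem_univ _, h⟩⟩))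
    choose B hB1 hB2 using h1
    have h2 : (univ.image B).card = M := by
      rw [card_image_of_injective, card_univ, Fintype.card_fin]
      intro j j' hjj
      have e1 := (mem_product.1 (hB1 j)).1
      have e2 := (mem_product.1 (hB1 j')).1
      rw [mem_singleton] at e1 e2
      rw [← e1, ← e2, hjj]
    refine h2.symm.le.trans (card_le_card fun u hu => ?_)
    obtain ⟨j, _, rfl⟩ := mem_image.1 hu
    exact Sys.mem_Hv.2 (hB2 j)
  have hLt : ∀ x ∈ T', M ≤ (W.Lt x).card := by
    intro x hx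
    have hx' := (mem_sdiff.1 hx).2
    have h1 : ∀ j : Fin M, ∃ B ∈ row j, x ∩ W.blk B ∈ W.light B := by
      intro j
      by_contra h
      push Not at h
      exact hx' (mem_union_right _ (mem_biUnion.2 ⟨j, mem_univ _, mem_filter.2 ⟨mem_univ _, h⟩⟩))
    choose B hB1 hB2 using h1
    have h2 : (univ.image B).card = M := by
      rw [card_image_of_injective, card_univ, Fintype.card_fin]
      intro j j' hjj
      have e1 := (mem_product.1 (hB1 j)).1
      have e2 := (mem_product.1 (hB1 j')).1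
      rw [mem_singleton] at e1 e2
      rw [← e1, ← e2, hjj]
    refine h2.symm.le.trans (card_le_card fun u hu => ?_)
    obtain ⟨j, _, rfl⟩ := mem_image.1 hu
    exact Sys.mem_Lt.2 (hB2 j)
  obtain ⟨y, h, hy, hMh, hMhL, hyk, hch⟩ := Sys.exists_fibre (W := W) k M (2 ^ (lam + 1)) T'
    (fun x hx => (hT x (hT'T x hx)).1) hHv hLt hT'c
  -- the fibre as a cube
  let J := {B // B ∈ W.Lt y}
  let eJ : J ↪ Fin M × Fin (a * t) := Function.Embedding.subtype _
  have hJc : Fintype.card J = (W.Lt y).card := Fintype.card_coe _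
  have hmap : ∀ z : Finset J, z.map eJ ⊆ W.Lt y := by
    intro z B hB
    obtain ⟨u, _, rfl⟩ := mem_map.1 hB
    exact u.2
  let T₀ : Finset (Finset J) := univ.filter fun z => z.card = h ∧ W.raise y (z.map eJ) ∈ T'
  have hT₀c : (((W.Lt y).powersetCard h).filter fun Z => W.raise y Z ∈ T').card ≤ T₀.card := by
    have h1 : (((W.Lt y).powersetCard h).filter fun Z => W.raise y Z ∈ T') ⊆
        T₀.image fun z => z.map eJ := by
      intro Z hZ
      rw [mem_filter, mem_powersetCard] at hZ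
      have e1 : (Z.subtype (· ∈ W.Lt y)).map eJ = Z := by
        refine Finset.subtype_map_of_mem fun B hB => hZ.1.1 hB
      rw [mem_image]
      refine ⟨Z.subtype (· ∈ W.Lt y), ?_, e1⟩
      rw [mem_filter]
      refine ⟨mem_univ _, ?_, ?_⟩
      · rw [← card_map eJ, e1]; exact hZ.1.2
      · rw [e1]; exact hZ.2
    exact (card_le_card h1).trans card_image_le
  obtain ⟨A, Y, hAY, hA, hY, hAc⟩ := recenter (J := J) h M hMh (by rw [hJc]; exact hMhL) T₀
    (fun z hz => (mem_filter.1 hz).2.1) (2 ^ (lam + 1)) (by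
      rw [hJc]
      exact hch.trans (Nat.mul_le_mul_left _ hT₀c))
  let U := {B // B ∈ A}
  let eU : U ↪ J := Function.Embedding.subtype _
  have hUc : Fintype.card U = 2 * M := by rw [Fintype.card_coe]; exact hA
  let Z : Finset U → Finset (Fin M × Fin (a * t)) := fun z => (Y ∪ z.map eU).map eJ
  have hZsub : ∀ z, Z z ⊆ W.Lt y := fun z => hmap _
  have hdisjYz : ∀ z : Finset U, Disjoint Y (z.map eU) := by
    intro z
    refine hAY.symm.mono_right ?_
    intro B hB
    obtain ⟨u, _, rfl⟩ := mem_map.1 hB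
    exact u.2
  have hZcard : ∀ z, (Z z).card = h - M + z.card := by
    intro z
    rw [card_map, card_union_of_disjoint (hdisjYz z), hY, card_map]
  let S : Finset (Finset U) := univ.filter fun z => z.card = M ∧ Y ∪ z.map eU ∈ T₀
  have hSc : ((A.powersetCard M).filter fun z => Y ∪ z ∈ T₀).card ≤ S.card := by
    have h1 : ((A.powersetCard M).filter fun z => Y ∪ z ∈ T₀) ⊆ S.image fun z => z.map eU := by
      intro z hz
      rw [mem_filter, mem_powersetCard] at hz
      have e1 : (z.subtype (· ∈ A)).map eU = z := by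
        refine Finset.subtype_map_of_mem fun B hB => hz.1.1 hB
      rw [mem_image]
      refine ⟨z.subtype (· ∈ A), ?_, e1⟩
      rw [mem_filter]
      refine ⟨mem_univ _, ?_, ?_⟩
      · rw [← card_map eU, e1]; exact hz.1.2
      · rw [e1]; exact hz.2
    exact (card_le_card h1).trans card_image_le
  have hSc' : (2 * M).choose M ≤ 2 ^ (lam + 1) * S.card :=
    hAc.trans (Nat.mul_le_mul_left _ hSc)
  have hST : ∀ z ∈ S, W.raise y (Z z) ∈ T := by
    intro z hz
    have h1 := (mem_filter.1 hz).2.2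
    exact hT'T _ (mem_filter.1 h1).2.2
  -- the value of the forms
  have hyc : ∑ i ∈ y, g i = c := by
    have hSne : S.Nonempty := by
      rw [Finset.nonempty_iff_ne_empty]
      intro h0
      rw [h0, card_empty, mul_zero] at hSc'
      have : 0 < (2 * M).choose M := Nat.choose_pos (by omega)
      omega
    obtain ⟨z, hz⟩ := hSne
    rw [← Sys.sum_raise (W := W) (hZsub z)]
    exact (hT _ (hST z hz)).2.1
  have hwpos : 0 < W.w' - W.w := by have := W.hw; omega
  -- the literals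
  have hmemZ : ∀ B : Fin M × Fin (a * t), (∃ q : Prop, ∀ z, (B ∈ Z z ↔ q)) ∨
      ∃ u : U, ∀ z, (B ∈ Z z ↔ u ∈ z) := by
    intro B
    have hBZ : ∀ z, B ∈ Z z ↔ ∃ h : B ∈ W.Lt y, (⟨B, h⟩ : J) ∈ Y ∪ z.map eU := by
      intro z
      constructor
      · intro hB
        obtain ⟨u, hu, rfl⟩ := mem_map.1 hB
        exact ⟨u.2, hu⟩
      · rintro ⟨h1, h2⟩
        exact mem_map.2 ⟨⟨B, h1⟩, h2, rfl⟩
    by_cases hBJ : B ∈ W.Lt y
    · by_cases hBA : (⟨B, hBJ⟩ : J) ∈ A
      · right
        refine ⟨⟨⟨B, hBJ⟩, hBA⟩, fun z => ?_⟩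
        rw [hBZ]
        constructor
        · rintro ⟨_, h2⟩
          rcases mem_union.1 h2 with h3 | h3
          · exact absurd hBA ((Finset.disjoint_right.1 hAY) h3)
          · obtain ⟨u, hu, huB⟩ := mem_map.1 h3
            have : u = ⟨⟨B, hBJ⟩, hBA⟩ := Subtype.ext huB
            rwa [← this]
        · intro h1
          exact ⟨hBJ, mem_union_right _ (mem_map.2 ⟨_, h1, rfl⟩)⟩
      · left
        refine ⟨(⟨B, hBJ⟩ : J) ∈ Y, fun z => ?_⟩
        rw [hBZ]
        constructor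
        · rintro ⟨_, h2⟩
          rcases mem_union.1 h2 with h3 | h3
          · exact h3
          · obtain ⟨u, hu, huB⟩ := mem_map.1 h3
            exfalso
            apply hBA
            rw [← huB]
            exact u.2
        · intro h1
          exact ⟨hBJ, mem_union_left _ h1⟩
    · left
      refine ⟨False, fun z => ?_⟩
      rw [hBZ]
      exact ⟨fun ⟨h1, _⟩ => hBJ h1, fun h => h.elim⟩
  have hmem : ∀ i : ι, (∃ q : Prop, ∀ z, (i ∈ W.raise y (Z z) ↔ q)) ∨
      ∃ (u : U) (q q' : Prop), ∀ z, (i ∈ W.raise y (Z z) ↔ if u ∈ z then q else q') := by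
    intro i
    rcases Sys.mem_raise (W := W) y i with ⟨q, hq⟩ | ⟨B, q, q', hq⟩
    · exact Or.inl ⟨q, fun z => hq _ (hZsub z)⟩
    · rcases hmemZ B with ⟨r, hr⟩ | ⟨u, hu⟩
      · left
        refine ⟨if r then q else q', fun z => ?_⟩
        rw [hq _ (hZsub z)]
        by_cases h1 : r
        · rw [if_pos h1, if_pos ((hr z).2 h1)]
        · rw [if_neg h1, if_neg fun h2 => h1 ((hr z).1 h2)]
      · right
        refine ⟨u, q, q', fun z => ?_⟩
        rw [hq _ (hZsub z)]
        by_cases h1 : u ∈ z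
        · rw [if_pos h1, if_pos ((hu z).2 h1)]
        · rw [if_neg h1, if_neg fun h2 => h1 ((hu z).1 h2)]
  obtain ⟨P, E, hP, hE, hPE⟩ := hF U (fun z => W.raise y (Z z)) hmem (2 * lam + 5) (by omega)
  have hbound := coreA_center (p := p) (fun z => F (W.raise y (Z z))) P E
    (((p - 1) * (2 * lam + 5)) ^ d) hP hE hPE hUc (by
      intro z hz
      have h1 := hrej (W.raise y (Z z)) (by rw [Sys.sum_raise (hZsub z)]; exact hyc) hz
      rw [Sys.card_raise (hZsub z), ← hyk, hZcard z] at h1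
      have h2 : h * (W.w' - W.w) ≤ (h - M + z.card) * (W.w' - W.w) := by omega
      have h3 := Nat.le_of_mul_le_mul_right h2 hwpos
      omega) S (fun z hz => (hT _ (hST z hz)).2.2) hSc' (by rw [hM])
  have h1 : 8 * M ^ 2 * 2 ^ (lam + 1) * s ≤ 16 * (2 ^ lam * 2 ^ lam) := by
    calc 8 * M ^ 2 * 2 ^ (lam + 1) * s = 16 * (2 ^ lam * (M ^ 2 * s)) := by rw [pow_succ]; ring
      _ ≤ 16 * (2 ^ lam * 2 ^ lam) := Nat.mul_le_mul_left _ (Nat.mul_le_mul_left _ hMM)
  have h2 : 32 * (2 ^ lam * 2 ^ lam) ≤ p ^ (2 * lam + 5) := by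
    calc 32 * (2 ^ lam * 2 ^ lam) = 2 ^ (2 * lam + 5) := by rw [pow_add, two_mul, pow_add]; ring
      _ ≤ p ^ (2 * lam + 5) := Nat.pow_le_pow_left (Fact.out : p.Prime).two_le _
  have h3 : 0 < 2 ^ lam * 2 ^ lam := by positivity
  omega

end aux

/-! ### numbers -/

theorem coreA_pow_le (E a : ℕ) : (a + 1) ^ E ≤ E.factorial * 2 ^ E * 2 ^ a := by
  have h1 := Nat.pow_succ_le_ascFactorial a E
  have h2 := Nat.ascFactorial_eq_factorial_mul_choose a E
  calc (a + 1) ^ E ≤ (a + 1).ascFactorial E := Nat.pow_succ_le_ascFactorial (a + 1) E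
    _ = E.factorial * (a + E).choose E := Nat.ascFactorial_eq_factorial_mul_choose a E
    _ ≤ E.factorial * 2 ^ (a + E) := Nat.mul_le_mul_left _ (Nat.choose_le_two_pow _ _)
    _ = E.factorial * 2 ^ E * 2 ^ a := by rw [pow_add]; ring

theorem coreA_num (K0 e : ℕ) : ∃ K : ℕ, ∀ n X : ℕ, 1 ≤ X → 1 ≤ n →
    n < K0 * (X + 2 * (Nat.log 2 n + 1)) ^ e → n ≤ pb K X := by
  set C1 := 2 ^ (2 * e) * ((2 * e).factorial * 2 ^ (2 * e)) with hC1
  set K := 2 * C1 * K0 ^ 2 + 2 * e + 1 with hK
  refine ⟨K, fun n X hX hn h => ?_⟩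
  set a := Nat.log 2 n + 1 with ha
  have h1 : 2 ^ a ≤ 2 * n := by
    rw [ha, pow_succ]
    have := Nat.pow_log_le_self 2 (show n ≠ 0 by omega)
    omega
  have h2 : n < K0 * (X ^ e * (1 + 2 * a) ^ e) := by
    refine lt_of_lt_of_le h (Nat.mul_le_mul_left _ ?_)
    rw [← mul_pow]
    refine Nat.pow_le_pow_left ?_ e
    nlinarith
  have h3 : (1 + 2 * a) ^ (2 * e) ≤ C1 * (2 * n) := by
    calc (1 + 2 * a) ^ (2 * e) ≤ (2 * (a + 1)) ^ (2 * e) := Nat.pow_le_pow_left (by omega) _
      _ = 2 ^ (2 * e) * (a + 1) ^ (2 * e) := mul_pow _ _ _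
      _ ≤ 2 ^ (2 * e) * ((2 * e).factorial * 2 ^ (2 * e) * 2 ^ a) :=
          Nat.mul_le_mul_left _ (coreA_pow_le _ _)
      _ = C1 * 2 ^ a := by rw [hC1]; ring
      _ ≤ C1 * (2 * n) := Nat.mul_le_mul_left _ h1
  have h4 : n * n < (2 * C1 * K0 ^ 2 * X ^ (2 * e)) * n := by
    calc n * n < (K0 * (X ^ e * (1 + 2 * a) ^ e)) * (K0 * (X ^ e * (1 + 2 * a) ^ e)) :=
          Nat.mul_lt_mul_of_lt_of_lt h2 h2
      _ = K0 ^ 2 * X ^ (2 * e) * (1 + 2 * a) ^ (2 * e) := by
          rw [mul_comm 2 e, pow_mul, pow_mul]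
          ring
      _ ≤ K0 ^ 2 * X ^ (2 * e) * (C1 * (2 * n)) := Nat.mul_le_mul_left _ h3
      _ = _ := by ring
  have h5 : n < 2 * C1 * K0 ^ 2 * X ^ (2 * e) := lt_of_mul_lt_mul_right h4 (Nat.zero_le n)
  have hK1 : 1 ≤ K * X := Nat.mul_pos (by omega) hX
  unfold pb
  calc n ≤ 2 * C1 * K0 ^ 2 * X ^ (2 * e) := h5.le
    _ ≤ K * X ^ (2 * e) := Nat.mul_le_mul_right _ (by omega)
    _ ≤ (K * X) ^ (2 * e + 1) := by
        rw [mul_pow, pow_succ K, pow_succ X]
        have e1 : 1 ≤ K ^ (2 * e) := Nat.one_le_pow _ _ (by omega)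
        calc K * X ^ (2 * e) = 1 * K * (X ^ (2 * e) * 1) := by ring
          _ ≤ K ^ (2 * e) * K * (X ^ (2 * e) * X) :=
              Nat.mul_le_mul (Nat.mul_le_mul_right _ e1) (Nat.mul_le_mul_left _ hX)
    _ ≤ (K * X) ^ K := Nat.pow_le_pow_right hK1 (by omega)

/-! ### points and sets -/

section pts

variable {ι : Type} [Fintype ι] [DecidableEq ι] {m : ℕ}

/-- the point of a set -/
def coreAP (z : Finset ι) : ι → Bool := fun i => decide (i ∈ z)

theorem coreAP_inj : Function.Injective (coreAP : Finset ι → ι → Bool) := by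
  intro z z' h
  ext i
  have := congrFun h i
  simpa [coreAP] using this

theorem coreAP_surj (x : ι → Bool) : ∃ z : Finset ι, coreAP z = x := by
  refine ⟨univ.filter fun i => x i = true, ?_⟩
  funext i
  simp [coreAP]

theorem coreAP_ones (z : Finset ι) : ones (coreAP z) = z.card := by
  unfold ones
  congr 1
  ext i
  simp [coreAP]

theorem coreAP_sum {M : Type*} [AddCommMonoid M] (z : Finset ι) (g : ι → M) :
    (∑ i, if coreAP z i = true then g i else 0) = ∑ i ∈ z, g i := by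
  rw [← Finset.sum_filter]
  congr 1
  ext i
  simp [coreAP]

theorem coreAP_mem (Γ : AddSubgroup (ι → ZMod m)) (y : ι → Bool) (z : Finset ι) :
    coreAP z ∈ fibz Γ ∅ y y ↔
      ∑ i ∈ z, coef Γ i = ∑ i, if y i = true then coef Γ i else 0 := by
  rw [mem_fibz, ← coreAP_sum z (coef Γ)]
  constructor
  · rintro ⟨_, h⟩
    ext L
    rw [sum_coef_apply, sum_coef_apply]
    exact h L L.2
  · intro h
    refine ⟨fun i hi => absurd hi (by simp), fun L hL => ?_⟩
    have := DFunLike.congr_fun h (⟨L, hL⟩ : Γ)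
    rwa [sum_coef_apply, sum_coef_apply] at this

end pts

theorem st_CoreA (p : ℕ) [Fact p.Prime] (_hB : ApxBasic p) : St_CoreA p := by
  classical
  intro m _ d
  obtain ⟨K, hK⟩ := coreA_num (777600 * m ^ 10 * (7 * (p - 1)) ^ (2 * d)) (2 * d + 6)
  refine ⟨K, ?_⟩
  intro ι _ _ X h Γ y f T hX hΓ hf hrej hT hdense
  rcases Nat.eq_zero_or_pos (Fintype.card ι) with h0 | h0
  · rw [h0]
    exact Nat.zero_le _
  refine hK _ X hX h0 ?_
  have : Finite (Val Γ) := finite_hom m Γ
  have : Fintype (Val Γ) := Fintype.ofFinite _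
  set a := Nat.log 2 (Fintype.card ι) + 1 with ha
  have hn : Fintype.card ι + 1 ≤ 2 ^ a := Nat.lt_pow_succ_log_self (by norm_num) _
  set lam := X + 2 * a with hlam
  have hXl : 2 ^ X ≤ 2 ^ lam := Nat.pow_le_pow_right (by norm_num) (by omega)
  have key := coreA_aux (p := p) (G := Val Γ) (fun z : Finset ι => f (coreAP z)) (2 ^ X) d
    (by
      intro U _ _ ψ hψ ℓ hℓ
      refine hf U (fun z => coreAP (ψ z)) ?_ ℓ hℓ
      intro i
      rcases hψ i with ⟨q, hq⟩ | ⟨u, q, q', hq⟩
      · left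
        exact ⟨decide q, fun z => decide_eq_decide.2 (hq z)⟩
      · by_cases h1 : q
        · by_cases h2 : q'
          · left
            refine ⟨true, fun z => ?_⟩
            unfold coreAP
            rw [decide_eq_true_iff, hq z]
            by_cases h3 : u ∈ z
            · rw [if_pos h3]; exact h1
            · rw [if_neg h3]; exact h2
          · right
            refine ⟨u, false, fun z => ?_⟩
            rw [Bool.false_xor]
            unfold coreAP
            refine decide_eq_decide.2 ?_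
            rw [hq z]
            by_cases h3 : u ∈ z
            · rw [if_pos h3]; exact iff_of_true h1 h3
            · rw [if_neg h3]; exact iff_of_false h2 h3
        · by_cases h2 : q'
          · right
            refine ⟨u, true, fun z => ?_⟩
            rw [Bool.true_xor]
            unfold coreAP
            rw [← decide_not]
            refine decide_eq_decide.2 ?_
            rw [hq z]
            by_cases h3 : u ∈ z
            · rw [if_pos h3]; exact iff_of_false h1 (fun h4 => h4 h3)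
            · rw [if_neg h3]; exact iff_of_true h2 h3
          · left
            refine ⟨false, fun z => ?_⟩
            unfold coreAP
            rw [decide_eq_false_iff_not, hq z]
            by_cases h3 : u ∈ z
            · rw [if_pos h3]; exact h1
            · rw [if_neg h3]; exact h2)
    m (Nat.pos_of_ne_zero (NeZero.ne m)) (fun i => coef Γ i) (by
      intro i
      ext L
      rw [AddMonoidHom.nsmul_apply, AddMonoidHom.zero_apply, nsmul_eq_mul, ZMod.natCast_self,
        zero_mul]) (∑ i, if y i = true then coef Γ i else 0) h lam (by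
      intro z hz hacc
      rw [← coreAP_ones z]
      refine hrej _ ?_
      unfold cell tr
      rw [mem_filter]
      exact ⟨(coreAP_mem Γ y z).2 hz, hacc⟩)
    (univ.filter fun z : Finset ι => coreAP z ∈ T ∩ cell Γ y f) (by
      intro z hz
      have hz' := (Finset.mem_filter.1 hz).2
      obtain ⟨hzT, hzc⟩ := Finset.mem_inter.1 hz'
      unfold cell tr at hzc
      rw [mem_filter] at hzc
      exact ⟨(coreAP_ones z).symm.trans (hT _ hzT), (coreAP_mem Γ y z).1 hzc.1, hzc.2⟩)
    (by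
      have h1 : (univ.filter fun z : Finset ι => coreAP z ∈ T ∩ cell Γ y f).card =
          (T ∩ cell Γ y f).card := by
        rw [← Finset.card_image_of_injective _ coreAP_inj]
        congr 1
        ext x
        rw [mem_image]
        constructor
        · rintro ⟨z, hz, rfl⟩
          exact (mem_filter.1 hz).2
        · intro hx
          obtain ⟨z, rfl⟩ := coreAP_surj x
          exact ⟨z, mem_filter.2 ⟨mem_univ _, hx⟩, rfl⟩
      rw [h1]
      exact hdense.trans (Nat.mul_le_mul_right _ hXl)) (by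
      rw [← Nat.card_eq_fintype_card]
      exact ((card_hom_le m Γ).trans hΓ).trans hXl) (Nat.one_le_two_pow) (by
      calc 2 ^ X * (Fintype.card ι + 1) ^ 2 ≤ 2 ^ X * (2 ^ a) ^ 2 :=
            Nat.mul_le_mul_left _ (Nat.pow_le_pow_left hn 2)
        _ = 2 ^ lam := by rw [← pow_mul, ← pow_add, hlam]; congr 1; ring) _ _ _ _ rfl rfl rfl rfl
  exact lt_of_lt_of_le key (core_num p m lam d (Fact.out : p.Prime).two_le
    (Nat.pos_of_ne_zero (NeZero.ne m)) (by omega) _ _ _ _ rfl rfl rfl rfl)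

end Pool.Agent.MXC
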