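import Pool.Agent.MXC.DistAux

/-!
# Sampling: acceptance rates are almost constant
-/

set_option autoImplicit false

namespace Pool.Agent.MXC

open Finset Pool.Agent.RS Pool.Agent.QuadSys

open Classical in
/-- The sampling argument, with a fixed choice of the seeds: from threshold functions which decide
a periodic predicate at most points to a contradiction with Smolensky's bound. -/
theorem smol_contra {p : ℕ} [Fact p.Prime] (hS : St_Smol) {N o r₁ D : ℕ} (ho : 2 ≤ o)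
    (hop : Nat.Coprime o p) (U : ℕ → Prop) (hper : ∀ a, U (a + o) ↔ U a) (hU1 : ∃ a, U a)
    (hU2 : ∃ a, ¬ U a) (b : Fin o × Fin r₁ → Finset (Fin N) → Bool)
    (P : Fin o × Fin r₁ → Finset (Fin N) → ZMod p) (E : Fin o × Fin r₁ → Finset (Finset (Fin N)))
    (hP : ∀ j, P j ∈ lowDeg (ZMod p) (Fin N) D)
    (hPb : ∀ j z, z ∉ E j → P j z = ind p (b j z))
    (hE : ∀ j, 20 * (o * r₁) * (E j).card ≤ 2 ^ N)
    (G : (Fin r₁ → Bool) → Prop)
    (hG : 20 * (univ.filter fun z : Finset (Fin N) =>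
      ∃ i : Fin o, ¬ (G (fun a => b (i, a) z) ↔ U (z.card + i))).card ≤ 2 ^ N)
    (hN : 100 * (o * r₁ * D + 1) ^ 2 ≤ N) : False := by
  classical
  obtain ⟨ω, hω0, hω1, hω⟩ := exists_root p ho hop U hper hU1 hU2
  let Ψ : (Fin o × Fin r₁ → Bool) → AlgebraicClosure (ZMod p) := fun β =>
    if h : ∃ a : ℕ, ∀ i : Fin o, G (fun a' => β (i, a')) ↔ U (a + i) then ω ^ h.choose else 0
  obtain ⟨Q, hQ, hQb⟩ := exists_poly_bits (F := AlgebraicClosure (ZMod p)) b P hP Ψ
  rw [Fintype.card_prod, Fintype.card_fin, Fintype.card_fin] at hQ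
  set A : Finset (Finset (Fin N)) := univ.filter fun z => Q z = ω ^ z.card with hA
  have h1 := hS (AlgebraicClosure (ZMod p)) N (o * r₁ * D) ω Q A hω0 hω1 hQ hN
    fun z hz => (mem_filter.1 hz).2
  -- the exceptional points
  set B₁ := univ.filter fun z : Finset (Fin N) =>
      ∃ i : Fin o, ¬ (G (fun a => b (i, a) z) ↔ U (z.card + i)) with hB₁
  have h2 : (univ : Finset (Finset (Fin N))) ⊆ A ∪ (B₁ ∪ univ.biUnion E) := by
    intro z _
    by_cases hz1 : z ∈ B₁
    · exact mem_union_right _ (mem_union_left _ hz1)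
    by_cases hz2 : z ∈ univ.biUnion E
    · exact mem_union_right _ (mem_union_right _ hz2)
    refine mem_union_left _ (mem_filter.2 ⟨mem_univ _, ?_⟩)
    have hz2' : ∀ j, z ∉ E j := fun j hj => hz2 (mem_biUnion.2 ⟨j, mem_univ _, hj⟩)
    rw [hQb z fun j => hPb j z (hz2' j)]
    have hz1' : ∀ i : Fin o, G (fun a => b (i, a) z) ↔ U (z.card + i) := by
      intro i
      by_contra hi
      exact hz1 (mem_filter.2 ⟨mem_univ _, i, hi⟩)
    have hex : ∃ a : ℕ, ∀ i : Fin o, G (fun a' => (fun j => b j z) (i, a')) ↔ U (a + i) :=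
      ⟨z.card, hz1'⟩
    simp only [Ψ]
    rw [dif_pos hex]
    refine hω _ _ fun i hi => ?_
    exact (hex.choose_spec ⟨i, hi⟩).symm.trans (hz1' ⟨i, hi⟩)
  have h3 := card_le_card h2
  rw [card_univ, Fintype.card_finset, Fintype.card_fin] at h3
  have h4 := h3.trans (card_union_le _ _)
  have h5 := card_union_le B₁ (univ.biUnion E)
  have h6 : (univ.biUnion E).card ≤ ∑ j, (E j).card := card_biUnion_le
  have h7 : 20 * (o * r₁) * ∑ j, (E j).card ≤ o * r₁ * 2 ^ N := by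
    rw [Finset.mul_sum]
    refine (Finset.sum_le_sum fun j _ => hE j).trans ?_
    rw [Finset.sum_const, card_univ, Fintype.card_prod, Fintype.card_fin, Fintype.card_fin,
      smul_eq_mul]
  have h8 : 20 * ∑ j, (E j).card ≤ 2 ^ N := by
    rcases Nat.eq_zero_or_pos (o * r₁) with h0 | h0
    · have h9 : ∑ j, (E j).card = 0 := by
        have : IsEmpty (Fin o × Fin r₁) := by
          rw [← Fintype.card_eq_zero_iff, Fintype.card_prod, Fintype.card_fin, Fintype.card_fin]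
          exact h0
        exact Finset.sum_of_isEmpty _
      rw [h9]
      simp
    · have h9 : 20 * (o * r₁) * ∑ j, (E j).card = (o * r₁) * (20 * ∑ j, (E j).card) := by ring
      rw [h9] at h7
      exact Nat.le_of_mul_le_mul_left h7 h0
  have h9 : 0 < 2 ^ N := by positivity
  omega

theorem dist_num (p d c : ℕ) : ∃ K : ℕ, ∀ X N : ℕ, pb K (X + 1) ≤ N →
    100 * (c * ((p - 1) * (2 * X + 1 + c)) ^ (d + 1) + 1) ^ 2 ≤ N := by
  set C := 100 * (c + 1) ^ 2 * (((p - 1) * (c + 2)) ^ (d + 1) + 1) ^ 2 + 2 * (d + 1) with hC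
  refine ⟨C, fun X N hN => le_trans ?_ hN⟩
  have hX : 1 ≤ X + 1 := by omega
  have h1 : (p - 1) * (2 * X + 1 + c) ≤ (p - 1) * (c + 2) * (X + 1) := by
    rw [mul_assoc]
    refine Nat.mul_le_mul_left _ ?_
    nlinarith
  have h2 := Nat.pow_le_pow_left h1 (d + 1)
  rw [mul_pow ((p - 1) * (c + 2)) (X + 1)] at h2
  have h3 : 1 ≤ (X + 1) ^ (d + 1) := Nat.one_le_pow _ _ hX
  have h4 : c * ((p - 1) * (2 * X + 1 + c)) ^ (d + 1) + 1 ≤
      (c + 1) * (((p - 1) * (c + 2)) ^ (d + 1) + 1) * (X + 1) ^ (d + 1) := by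
    calc c * ((p - 1) * (2 * X + 1 + c)) ^ (d + 1) + 1
        ≤ c * (((p - 1) * (c + 2)) ^ (d + 1) * (X + 1) ^ (d + 1)) + (X + 1) ^ (d + 1) :=
          Nat.add_le_add (Nat.mul_le_mul_left _ h2) h3
      _ ≤ (c + 1) * (((p - 1) * (c + 2)) ^ (d + 1) + 1) * (X + 1) ^ (d + 1) := by
          have : c * ((p - 1) * (c + 2)) ^ (d + 1) + 1 ≤
              (c + 1) * (((p - 1) * (c + 2)) ^ (d + 1) + 1) := by
            generalize ((p - 1) * (c + 2)) ^ (d + 1) = t
            have : (c + 1) * (t + 1) = c * t + 1 + (c + t) := by ring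
            omega
          calc c * (((p - 1) * (c + 2)) ^ (d + 1) * (X + 1) ^ (d + 1)) + (X + 1) ^ (d + 1)
              = (c * ((p - 1) * (c + 2)) ^ (d + 1) + 1) * (X + 1) ^ (d + 1) := by ring
            _ ≤ _ := Nat.mul_le_mul_right _ this
  have h5 := Nat.pow_le_pow_left h4 2
  unfold pb
  calc 100 * (c * ((p - 1) * (2 * X + 1 + c)) ^ (d + 1) + 1) ^ 2
      ≤ 100 * ((c + 1) * (((p - 1) * (c + 2)) ^ (d + 1) + 1) * (X + 1) ^ (d + 1)) ^ 2 :=
        Nat.mul_le_mul_left _ h5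
    _ = (100 * (c + 1) ^ 2 * (((p - 1) * (c + 2)) ^ (d + 1) + 1) ^ 2) *
        (X + 1) ^ (2 * (d + 1)) := by
        rw [mul_pow, mul_pow, ← pow_mul, mul_comm (d + 1) 2]
        ring
    _ ≤ C ^ 1 * (X + 1) ^ (2 * (d + 1)) := by
        rw [pow_one]
        exact Nat.mul_le_mul_right _ (by omega)
    _ ≤ C ^ C * (X + 1) ^ C := by
        have hC1 : 1 ≤ C := by omega
        exact Nat.mul_le_mul (Nat.pow_le_pow_right hC1 hC1)
          (Nat.pow_le_pow_right hX (by omega))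
    _ = (C * (X + 1)) ^ C := (mul_pow _ _ _).symm

/-- The difference of the rates of the ORs. -/
theorem or_rate_diff {rm : ℝ} {r₀ : ℕ} (hrm : 0 < rm)
    (h : ∀ x y : ℝ, 0 ≤ x → x ≤ y → y ≤ rm →
      y - x ≤ 6 * rm * ((1 - x) ^ r₀ - (1 - y) ^ r₀) ∧
      rm * ((1 - x) ^ r₀ - (1 - y) ^ r₀) ≤ y - x) {K₀ : ℝ} (hK₀ : 0 < K₀) {x y : ℝ}
    (hx0 : 0 ≤ x) (hx : x ≤ rm) (hy0 : 0 ≤ y) (hy : y ≤ rm) (hxy : K₀ * |x - y| ≤ rm) :
    |(1 - (1 - x) ^ r₀) - (1 - (1 - y) ^ r₀)| ≤ 1 / K₀ := by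
  wlog hle : x ≤ y generalizing x y
  · rw [abs_sub_comm]
    exact this hy0 hy hx0 hx (by rw [abs_sub_comm]; exact hxy) (le_of_not_ge hle)
  obtain ⟨h1, h2⟩ := h x y hx0 hle hy
  have h3 : 0 ≤ (1 - x) ^ r₀ - (1 - y) ^ r₀ := by
    have h4 : 0 ≤ 6 * rm * ((1 - x) ^ r₀ - (1 - y) ^ r₀) := le_trans (by linarith) h1
    by_contra h5
    push Not at h5
    nlinarith
  have h4 : (1 - (1 - x) ^ r₀) - (1 - (1 - y) ^ r₀) = -((1 - x) ^ r₀ - (1 - y) ^ r₀) := by ring
  rw [h4, abs_neg, abs_of_nonneg h3, le_div_iff₀ hK₀]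
  rw [abs_sub_comm, abs_of_nonneg (by linarith)] at hxy
  have h5 : rm * (((1 - x) ^ r₀ - (1 - y) ^ r₀) * K₀) ≤ rm * 1 := by nlinarith
  exact le_of_mul_le_mul_left h5 hrm

open Classical in
/-- An index for which few points are bad. -/
theorem exists_good {Z Ω : Type} [Fintype Z] [DecidableEq Z] [Fintype Ω] [Nonempty Ω] {o : ℕ}
    (ho : 0 < o) (Bad : Fin o → Z → Finset Ω)
    (h : ∀ i z, 20 * o * (Bad i z).card ≤ Fintype.card Ω) :
    ∃ (w : Ω) (S : Finset Z), 20 * S.card ≤ Fintype.card Z ∧ ∀ i z, w ∈ Bad i z → z ∈ S := by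
  suffices hmain : ∃ w : Ω,
      20 * (univ.filter fun z : Z => ∃ i, w ∈ Bad i z).card ≤ Fintype.card Z by
    obtain ⟨w, hw⟩ := hmain
    exact ⟨w, _, hw, fun i z hz => mem_filter.2 ⟨mem_univ _, i, hz⟩⟩
  by_contra hcon
  push Not at hcon
  have h1 : Fintype.card Ω * Fintype.card Z <
      ∑ w : Ω, 20 * (univ.filter fun z : Z => ∃ i, w ∈ Bad i z).card := by
    calc Fintype.card Ω * Fintype.card Z = ∑ _w : Ω, Fintype.card Z := by
          rw [Finset.sum_const, card_univ, smul_eq_mul]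
      _ < _ := Finset.sum_lt_sum_of_nonempty univ_nonempty fun w _ => hcon w
  have h2 : ∑ w : Ω, (univ.filter fun z : Z => ∃ i, w ∈ Bad i z).card ≤
      ∑ z : Z, ∑ i : Fin o, (Bad i z).card := by
    have h3 : ∀ w : Ω, (univ.filter fun z : Z => ∃ i, w ∈ Bad i z).card ≤
        ∑ z : Z, ∑ i : Fin o, if w ∈ Bad i z then 1 else 0 := by
      intro w
      rw [Finset.card_filter]
      refine Finset.sum_le_sum fun z _ => ?_
      by_cases hz : ∃ i, w ∈ Bad i z
      · rw [if_pos hz]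
        obtain ⟨i, hi⟩ := hz
        calc 1 = (if w ∈ Bad i z then 1 else 0) := by rw [if_pos hi]
          _ ≤ _ := Finset.single_le_sum (f := fun i => if w ∈ Bad i z then 1 else 0)
            (fun _ _ => Nat.zero_le _) (mem_univ i)
      · rw [if_neg hz]
        exact Nat.zero_le _
    refine (Finset.sum_le_sum fun w _ => h3 w).trans (le_of_eq ?_)
    rw [Finset.sum_comm]
    refine Finset.sum_congr rfl fun z _ => ?_
    rw [Finset.sum_comm]
    refine Finset.sum_congr rfl fun i _ => ?_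
    simp
  have h3 : o * (20 * ∑ z : Z, ∑ i : Fin o, (Bad i z).card) ≤
      o * (Fintype.card Ω * Fintype.card Z) := by
    calc o * (20 * ∑ z : Z, ∑ i : Fin o, (Bad i z).card)
        = ∑ z : Z, ∑ i : Fin o, 20 * o * (Bad i z).card := by
          rw [← mul_assoc, Finset.mul_sum]
          refine Finset.sum_congr rfl fun z _ => ?_
          rw [Finset.mul_sum]
          refine Finset.sum_congr rfl fun i _ => ?_
          ring
      _ ≤ ∑ _z : Z, ∑ _i : Fin o, Fintype.card Ω :=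
          Finset.sum_le_sum fun z _ => Finset.sum_le_sum fun i _ => h i z
      _ = o * (Fintype.card Ω * Fintype.card Z) := by
          simp only [Finset.sum_const, card_univ, Fintype.card_fin, smul_eq_mul]
          ring
  have h4 := Nat.le_of_mul_le_mul_left h3 ho
  rw [← Finset.mul_sum] at h1
  have h5 := Nat.mul_le_mul_left 20 h2
  omega

/-- **Sampling plus Smolensky.** -/
theorem st_Dist (p : ℕ) [Fact p.Prime] (hB : ApxBasic p) (hGt : ApxGate p) (hSm : St_Smol)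
    (hOr : St_OrRate) (hGap : St_Gap) (hSa : St_Sample) : St_Dist p := by
  classical
  intro d o W ho hop hW
  set K₀ : ℕ := 24 * o * W with hK₀
  set r₁ : ℕ := 5 * o * K₀ ^ 2 with hr₁
  set c : ℕ := 20 * (o * r₁) with hc
  obtain ⟨K, hK⟩ := dist_num p d c
  refine ⟨K₀, K, ?_⟩
  intro ι _ _ f X N Ω _ _ _ φ r rm hf hφ hrate hle hrm0 hrm1 hXrm hr hN u hu v hv
  by_contra hcon
  push Not at hcon
  have ho0 : 0 < o := by omega
  have hK₀1 : 1 ≤ K₀ := Nat.mul_pos (Nat.mul_pos (by norm_num) ho0) hW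
  have hr₁1 : 1 ≤ r₁ := Nat.mul_pos (Nat.mul_pos (by norm_num) ho0) (by positivity)
  have hoR : (0 : ℝ) < o := by exact_mod_cast ho0
  have hWR : (1 : ℝ) ≤ W := by exact_mod_cast hW
  have hK₀R : (0 : ℝ) < K₀ := by exact_mod_cast hK₀1
  have hK₀eq : (K₀ : ℝ) = 24 * o * W := by rw [hK₀]; push_cast; ring
  have hr₁eq : (r₁ : ℝ) = 5 * o * K₀ ^ 2 := by rw [hr₁]; push_cast; ring
  obtain ⟨r₀, hr₀1, hr₀rm, hOrr⟩ := hOr rm hrm0 hrm1
  -- the rates of the ORs
  let G' : ℕ → ℝ := fun a => 1 - (1 - r (a % o)) ^ r₀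
  set δ : ℝ := 1 / (6 * W) with hδ
  have hδ0 : 0 < δ := by positivity
  have hδo : δ / (2 * o) = 2 / K₀ := by
    rw [hδ, hK₀eq]
    field_simp
    norm_num
  have hspread : ∃ i j : Fin o, δ ≤ G' i - G' j := by
    have key : ∀ i j : ℕ, i < o → j < o → r j ≤ r i → rm < W * |r i - r j| →
        ∃ i j : Fin o, δ ≤ G' i - G' j := by
      intro i j hi hj hle' hlt
      refine ⟨⟨i, hi⟩, ⟨j, hj⟩, ?_⟩
      simp only [G']
      rw [Nat.mod_eq_of_lt hi, Nat.mod_eq_of_lt hj]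
      obtain ⟨h1, h2⟩ := hOrr (r j) (r i) (hr j hj).1 hle' (hr i hi).2
      rw [abs_of_nonneg (by linarith)] at hlt
      have h3 : rm * 1 < rm * (6 * W * ((1 - r j) ^ r₀ - (1 - r i) ^ r₀)) := by
        have h4 := mul_le_mul_of_nonneg_left h1 (by linarith : (0 : ℝ) ≤ W)
        calc rm * 1 < W * (r i - r j) := by linarith
          _ ≤ W * (6 * rm * ((1 - r j) ^ r₀ - (1 - r i) ^ r₀)) := h4
          _ = rm * (6 * W * ((1 - r j) ^ r₀ - (1 - r i) ^ r₀)) := by ring
      have h4 := lt_of_mul_lt_mul_left h3 hrm0.le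
      rw [hδ, div_le_iff₀ (by positivity)]
      have h5 : (1 - (1 - r i) ^ r₀ - (1 - (1 - r j) ^ r₀)) * (6 * W) =
          6 * W * ((1 - r j) ^ r₀ - (1 - r i) ^ r₀) := by ring
      rw [h5]
      exact h4.le
    rcases le_total (r u) (r v) with h | h
    · exact key v u hv hu h (by rw [abs_sub_comm]; exact hcon)
    · exact key u v hu hv h hcon
  obtain ⟨θ, hθ, ⟨i₁, hi₁⟩, ⟨i₂, hi₂⟩⟩ := hGap o (fun i => G' i) δ hδ0 hspread
  rw [hδo] at hi₁ hi₂
  simp only [hδo] at hθ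
  have h2K : (0 : ℝ) < 2 / K₀ := by positivity
  let U : ℕ → Prop := fun a => θ + 2 / K₀ ≤ G' a
  have hG'per : ∀ a, G' (a + o) = G' a := fun a => by simp only [G', Nat.add_mod_right]
  have hper : ∀ a, U (a + o) ↔ U a := fun a => by simp only [U, hG'per]
  have hnU : ∀ a, ¬ U a → G' a + 2 / K₀ ≤ θ := by
    intro a ha
    have h1 := hθ ⟨a % o, Nat.mod_lt _ ho0⟩
    have h2 : G' (a % o) = G' a := by simp only [G', Nat.mod_mod]
    simp only [h2] at h1
    rcases h1 with h1 | h1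
    · exact h1
    · exact absurd h1 ha
  have hU1 : ∃ a, U a := ⟨i₂, hi₂⟩
  have hU2 : ∃ a, ¬ U a := ⟨i₁, fun h => by
    have h3 : θ + 2 / K₀ ≤ G' i₁ := h
    linarith⟩
  -- the samples
  have hΩ0 : (0 : ℝ) < Fintype.card Ω := by exact_mod_cast Fintype.card_pos
  let A : Finset (Fin (N + o)) → Finset (Fin r₀ → Ω) := fun z' =>
    univ.filter fun h => ∃ j, f (φ (h j) z') = true
  have hA : ∀ z', |((A z').card : ℝ) / (Fintype.card (Fin r₀ → Ω) : ℝ) - G' z'.card| ≤
      1 / K₀ := by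
    intro z'
    set x : ℝ := ((univ.filter fun ω => f (φ ω z') = true).card : ℝ) / Fintype.card Ω with hx
    have h1 : ((A z').card : ℝ) / (Fintype.card (Fin r₀ → Ω) : ℝ) = 1 - (1 - x) ^ r₀ := by
      have h2 : ((A z').card : ℝ) = (Fintype.card Ω : ℝ) ^ r₀ -
          ((Fintype.card Ω : ℝ) - ((univ.filter fun ω => f (φ ω z') = true).card : ℝ)) ^ r₀ :=
        card_or r₀ fun ω => f (φ ω z') = true
      rw [h2, Fintype.card_fun, Fintype.card_fin]
      push_cast
      rw [sub_div, div_self (by positivity), ← div_pow, sub_div, div_self hΩ0.ne']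
    rw [h1]
    have hx0 : 0 ≤ x := by positivity
    have hxrm : x ≤ rm := by
      rw [hx, div_le_iff₀ hΩ0]
      exact hle z'
    have hm : z'.card % o < o := Nat.mod_lt _ ho0
    refine or_rate_diff hrm0 hOrr hK₀R hx0 hxrm (hr _ hm).1 (hr _ hm).2 ?_
    have h3 : |x - r (z'.card % o)| = |((univ.filter fun ω => f (φ ω z') = true).card : ℝ) -
        r (z'.card % o) * Fintype.card Ω| / Fintype.card Ω := by
      rw [hx, ← abs_of_pos hΩ0, ← abs_div, abs_of_pos hΩ0, sub_div,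
        mul_div_cancel_right₀ _ hΩ0.ne']
    rw [h3, ← mul_div_assoc, div_le_iff₀ hΩ0]
    exact hrate z'
  have : Nonempty (Fin r₀ → Ω) := inferInstance
  let Bad : Finset (Fin (N + o)) → Finset (Fin r₁ → Fin r₀ → Ω) := fun z' =>
    univ.filter fun w => 1 / K₀ * r₁ ≤ |((univ.filter fun a => w a ∈ A z').card : ℝ) -
      ((A z').card : ℝ) / (Fintype.card (Fin r₀ → Ω) : ℝ) * r₁|
  have hBad : ∀ z', 20 * o * (Bad z').card ≤ Fintype.card (Fin r₁ → Fin r₀ → Ω) := by
    intro z'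
    have h1 := hSa (Fin r₀ → Ω) (A z') r₁ (1 / K₀) (by positivity) hr₁1
    have h2 : 4 * (1 / (K₀ : ℝ)) ^ 2 * r₁ = 20 * o := by
      rw [hr₁eq]
      field_simp
      norm_num
    rw [h2] at h1
    have h3 : ((20 * o * (Bad z').card : ℕ) : ℝ) ≤
        ((Fintype.card (Fin r₁ → Fin r₀ → Ω) : ℕ) : ℝ) := by
      rw [Fintype.card_fun (α := Fin r₁), Fintype.card_fin]
      push_cast
      rw [mul_comm]
      refine le_trans (le_of_eq ?_) (h1.trans (le_of_eq ?_))
      · rfl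
      · rfl
    exact_mod_cast h3
  obtain ⟨w, S₀, hw, hwS⟩ := exists_good (Z := Finset (Fin N)) ho0
    (fun (i : Fin o) z => Bad (padd N o i z)) fun i z => hBad _
  rw [Fintype.card_finset, Fintype.card_fin] at hw
  -- the bits
  let b : Fin o × Fin r₁ → Finset (Fin N) → Bool := fun q z =>
    decide (w q.2 ∈ A (padd N o q.1 z))
  let G : (Fin r₁ → Bool) → Prop := fun β => θ * r₁ ≤ ((univ.filter fun a => β a = true).card : ℝ)
  have hr₁R : (0 : ℝ) < r₁ := by exact_mod_cast hr₁1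
  have hGU : ∀ (i : Fin o) (z : Finset (Fin N)), w ∉ Bad (padd N o i z) →
      (G (fun a => b (i, a) z) ↔ U (z.card + i)) := by
    intro i z hwi
    have h1 : ¬ (1 / K₀ * r₁ ≤ |((univ.filter fun a => w a ∈ A (padd N o i z)).card : ℝ) -
        ((A (padd N o i z)).card : ℝ) / (Fintype.card (Fin r₀ → Ω) : ℝ) * r₁|) :=
      fun h => hwi (mem_filter.2 ⟨mem_univ _, h⟩)
    push Not at h1
    have h2 : (univ.filter fun a => b (i, a) z = true) =
        univ.filter fun a => w a ∈ A (padd N o i z) := by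
      ext a
      simp only [b, mem_filter, mem_univ, true_and, decide_eq_true_eq]
    have h3 := hA (padd N o i z)
    rw [card_padd i.2.le] at h3
    simp only [G]
    rw [h2]
    set cnt : ℝ := ((univ.filter fun a => w a ∈ A (padd N o i z)).card : ℝ)
    set q : ℝ := ((A (padd N o i z)).card : ℝ) / (Fintype.card (Fin r₀ → Ω) : ℝ)
    have h4 := abs_lt.1 h1
    have h5 := abs_le.1 h3
    have hκ : 2 / (K₀ : ℝ) = 1 / K₀ + 1 / K₀ := by ring
    constructor
    · intro h6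
      by_contra hnot
      have h7 := hnU _ hnot
      have h8 : q ≤ θ - 1 / K₀ := by linarith [h5.2]
      have h9 := mul_le_mul_of_nonneg_right h8 hr₁R.le
      linarith [h4.2]
    · intro h6
      have h7 : θ + 2 / K₀ ≤ G' (z.card + i) := h6
      have h8 : θ + 1 / K₀ ≤ q := by linarith [h5.1]
      have h9 := mul_le_mul_of_nonneg_right h8 hr₁R.le
      linarith [h4.1]
  -- the approximations
  set ℓ : ℕ := 2 * X + 1 + c with hℓ
  have hr₀X : r₀ ≤ 2 ^ X := by
    have h1 : (r₀ : ℝ) * rm ≤ 2 ^ X * rm := hr₀rm.trans hXrm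
    have h2 : (r₀ : ℝ) ≤ 2 ^ X := le_of_mul_le_mul_right h1 hrm0
    exact_mod_cast h2
  have happ : ∀ q : Fin o × Fin r₁, ∃ (P : Finset (Fin N) → ZMod p) (E : Finset (Finset (Fin N))),
      P ∈ lowDeg (ZMod p) (Fin N) (((p - 1) * ℓ) ^ (d + 1)) ∧
        20 * (o * r₁) * E.card ≤ 2 ^ N ∧ ∀ z, z ∉ E → P z = ind p (b q z) := by
    intro q
    have h1 : Apx p (d + 1) (∑ _j : Fin r₀, 2 ^ X + 1) (fun y : Fin N → Bool =>
        decide (w q.2 ∈ A (padd N o q.1 (univ.filter fun k => y k = true)))) :=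
      hGt.any (Fin N) (Fin r₀) d (fun _ => 2 ^ X)
        (fun j y => f (φ (w q.2 j) (padd N o q.1 (univ.filter fun k => y k = true))))
        (fun j => hB.comp (Fin N) ι d (2 ^ X) f _ (cmap_padd (hφ _)) hf) _ (fun y => by
          simp only [A, mem_filter, mem_univ, true_and, decide_eq_true_eq])
    obtain ⟨P, E, hP, hE, hPE⟩ := h1 (Fin N) (fun z k => decide (k ∈ z))
      (fun k => Or.inr ⟨k, false, fun z => by simp⟩) ℓ (by omega)
    refine ⟨P, E, hP, ?_, fun z hz => ?_⟩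
    · rw [Finset.sum_const, card_univ, Fintype.card_fin, Fintype.card_fin, smul_eq_mul] at hE
      have h2 : r₀ * 2 ^ X + 1 ≤ 2 ^ (2 * X + 1) := by
        have h3 : r₀ * 2 ^ X ≤ 2 ^ X * 2 ^ X := Nat.mul_le_mul_right _ hr₀X
        have h4 : 2 ^ X * 2 ^ X = 2 ^ (2 * X) := by rw [← pow_add, two_mul]
        have h5 : 1 ≤ 2 ^ (2 * X) := Nat.one_le_pow _ _ (by norm_num)
        rw [pow_succ]
        omega
      have h3 : 2 ^ (2 * X + 1) * 2 ^ c ≤ p ^ ℓ := by
        rw [← pow_add]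
        exact Nat.pow_le_pow_left (Fact.out : p.Prime).two_le _
      have h4 : E.card * (2 ^ (2 * X + 1) * 2 ^ c) ≤ 2 ^ (2 * X + 1) * 2 ^ N :=
        (Nat.mul_le_mul_left _ h3).trans (hE.trans (Nat.mul_le_mul_right _ h2))
      have h5 : 2 ^ (2 * X + 1) * (2 ^ c * E.card) ≤ 2 ^ (2 * X + 1) * 2 ^ N := by
        calc 2 ^ (2 * X + 1) * (2 ^ c * E.card) = E.card * (2 ^ (2 * X + 1) * 2 ^ c) := by ring
          _ ≤ _ := h4
      have h6 := Nat.le_of_mul_le_mul_left h5 (by positivity)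
      refine (Nat.mul_le_mul_right _ ?_).trans h6
      rw [← hc]
      exact (Nat.lt_two_pow_self).le
    · rw [hPE z hz]
      simp only [b]
      have h2 : (univ.filter fun k => decide (k ∈ z) = true) = z := by
        ext k
        simp
      rw [h2]
  choose P E hP hE hPE using happ
  refine smol_contra hSm (N := N) (o := o) (r₁ := r₁) (D := ((p - 1) * ℓ) ^ (d + 1)) ho hop U hper
    hU1 hU2 b P E hP hPE hE G ?_ ?_
  · refine le_trans (Nat.mul_le_mul_left _ (card_le_card ?_)) hw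
    intro z hz
    obtain ⟨i, hi⟩ := (mem_filter.1 hz).2
    refine hwS i z ?_
    by_contra hnot
    exact hi (hGU i z hnot)
  · refine le_trans ?_ (hK X N hN)
    have h1 : o * r₁ ≤ c := by rw [hc]; omega
    refine Nat.mul_le_mul_left _ (Nat.pow_le_pow_left (Nat.add_le_add_right ?_ 1) 2)
    exact Nat.mul_le_mul_right _ h1

end Pool.Agent.MXC
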