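import Mathlib

/-!
# Decoding the number of ones modulo a divisor of `o`
-/

set_option autoImplicit false

namespace Pool.Agent.MXC

/-- A nontrivial root of unity `ω` in characteristic `p` such that `ω ^ a` is determined by the
values of an `o`-periodic nonconstant predicate at `a, a + 1, ..., a + o - 1`. -/
theorem exists_root (p : ℕ) [Fact p.Prime] {o : ℕ} (ho : 2 ≤ o) (hop : Nat.Coprime o p)
    (U : ℕ → Prop) (hper : ∀ a, U (a + o) ↔ U a) (h1 : ∃ a, U a) (h2 : ∃ a, ¬ U a) :
    ∃ ω : AlgebraicClosure (ZMod p), ω ≠ 0 ∧ ω ≠ 1 ∧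
      ∀ a b : ℕ, (∀ i < o, U (a + i) ↔ U (b + i)) → ω ^ a = ω ^ b := by
  classical
  have ho0 : (o : ℤ) ≠ 0 := by exact_mod_cast (by omega : o ≠ 0)
  have hoZ : (0 : ℤ) < o := by exact_mod_cast (by omega : 0 < o)
  -- the predicate on the integers
  let V : ℤ → Prop := fun k => U (k % o).toNat
  have hperk : ∀ (k a : ℕ), U (a + o * k) ↔ U a := by
    intro k a
    induction k with
    | zero => simp
    | succ k ih => rw [Nat.mul_succ, ← add_assoc, hper, ih]
  have hmod : ∀ a : ℕ, U (a % o) ↔ U a := by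
    intro a
    conv_rhs => rw [← Nat.mod_add_div a o]
    rw [hperk]
  have hVU : ∀ a : ℕ, V a ↔ U a := by
    intro a
    change U ((a : ℤ) % o).toNat ↔ U a
    rw [← Int.natCast_mod, Int.toNat_natCast]
    exact hmod a
  have hVper : ∀ k : ℤ, V (k + o) ↔ V k := by
    intro k
    change U ((k + o) % o).toNat ↔ U (k % o).toNat
    rw [Int.add_emod_right]
  let H : AddSubgroup ℤ :=
    { carrier := {h | ∀ k : ℤ, V (k + h) ↔ V k}
      add_mem' := fun {a b} ha hb k => by rw [← add_assoc, hb, ha]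
      zero_mem' := fun k => by rw [add_zero]
      neg_mem' := fun {a} ha k => by
        have := ha (k + -a)
        rw [neg_add_cancel_right] at this
        exact this.symm }
  have hH : ∀ h, h ∈ H ↔ ∀ k : ℤ, V (k + h) ↔ V k := fun h => Iff.rfl
  obtain ⟨g, hg⟩ := Int.subgroup_cyclic H
  have hmem : ∀ h, h ∈ H ↔ g ∣ h := by
    intro h
    rw [hg, ← AddSubgroup.zmultiples_eq_closure, Int.mem_zmultiples_iff]
  have hgo : g ∣ o := (hmem _).1 ((hH _).2 hVper)
  have hg1 : ¬ g ∣ 1 := by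
    intro h
    have h3 : (1 : ℤ) ∈ H := (hmem _).2 h
    have h4 : ∀ k : ℕ, V k ↔ V 0 := by
      intro k
      induction k with
      | zero => simp
      | succ k ih =>
        rw [← ih]
        have := (hH 1).1 h3 (k : ℤ)
        exact_mod_cast this
    obtain ⟨a, ha⟩ := h1
    obtain ⟨b, hb⟩ := h2
    exact hb ((hVU b).1 ((h4 b).2 ((h4 a).1 ((hVU a).2 ha))))
  set g' := g.natAbs with hg'
  have hg'o : g' ∣ o := by
    have := Int.natAbs_dvd_natAbs.2 hgo
    rwa [Int.natAbs_natCast] at this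
  have hg'0 : g' ≠ 0 := by
    intro h
    rw [h, Nat.zero_dvd] at hg'o
    omega
  have hg'1 : g' ≠ 1 := by
    intro h
    apply hg1
    have : (g.natAbs : ℤ) ∣ 1 := by rw [← hg', h]; simp
    exact Int.natAbs_dvd.1 this
  have hcop : Nat.Coprime g' p := Nat.Coprime.coprime_dvd_left hg'o hop
  have hne : NeZero ((g' : ℕ) : AlgebraicClosure (ZMod p)) := by
    refine ⟨fun h => ?_⟩
    rw [CharP.cast_eq_zero_iff (AlgebraicClosure (ZMod p)) p] at h
    have h3 : Nat.gcd g' p = p := Nat.gcd_eq_right h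
    rw [Nat.Coprime] at hcop
    rw [hcop] at h3
    exact (Fact.out : p.Prime).one_lt.ne h3
  obtain ⟨ω, hω⟩ := HasEnoughRootsOfUnity.exists_primitiveRoot (AlgebraicClosure (ZMod p)) g'
  refine ⟨ω, hω.ne_zero hg'0, hω.ne_one (by omega), ?_⟩
  intro a b hab
  have hVab : ∀ k : ℤ, V (k + (a - b)) ↔ V k := by
    intro k
    set i := ((k - b) % o).toNat with hi
    have hi' : (i : ℤ) = (k - b) % o := Int.toNat_of_nonneg (Int.emod_nonneg _ ho0)
    have hio : i < o := by
      have := Int.emod_lt_of_pos (k - b) hoZ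
      omega
    have e1 : V k ↔ V ((b + i : ℕ) : ℤ) := by
      change U (k % o).toNat ↔ U (((b + i : ℕ) : ℤ) % o).toNat
      have : k % o = ((b + i : ℕ) : ℤ) % o := by
        push_cast
        rw [hi', Int.add_emod, Int.emod_emod_of_dvd _ (dvd_refl _), ← Int.add_emod]
        congr 1
        ring
      rw [this]
    have e2 : V (k + (a - b)) ↔ V ((a + i : ℕ) : ℤ) := by
      change U ((k + (a - b)) % o).toNat ↔ U (((a + i : ℕ) : ℤ) % o).toNat
      have : (k + (a - b)) % o = ((a + i : ℕ) : ℤ) % o := by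
        push_cast
        rw [hi', Int.add_emod (a : ℤ), Int.emod_emod_of_dvd _ (dvd_refl _), ← Int.add_emod]
        congr 1
        ring
      rw [this]
    rw [e1, e2, hVU, hVU]
    exact hab i hio
  have h3 : g ∣ (a - b : ℤ) := (hmem _).1 ((hH _).2 hVab)
  have h4 : ((g' : ℕ) : ℤ) ∣ (a - b : ℤ) := Int.natAbs_dvd.2 h3
  have h5 : a ≡ b [MOD g'] := by
    refine (Nat.modEq_iff_dvd.2 ?_).symm
    exact_mod_cast h4
  exact (pow_eq_pow_of_modEq h5 hω.pow_eq_one)

end Pool.Agent.MXC
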