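import Pool.Agent.MXC.Defs

/-!
# Functions of many approximable bits
-/

set_option autoImplicit false

namespace Pool.Agent.MXC

open Finset Pool.Agent.RS

variable {p : ℕ} [Fact p.Prime] {V : Type} [Fintype V] [DecidableEq V]

/-- Functions of low degree modulo `p` are functions of low degree over every field of
characteristic `p`. -/
theorem map_mem_lowDeg {F : Type} [Field F] [Algebra (ZMod p) F] {D : ℕ}
    {P : Finset V → ZMod p} (hP : P ∈ lowDeg (ZMod p) V D) :
    (fun z => algebraMap (ZMod p) F (P z)) ∈ lowDeg F V D := by
  unfold lowDeg at hP
  induction hP using Submodule.span_induction with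
  | mem f hf =>
    obtain ⟨S, hS, rfl⟩ := hf
    have : (fun z => algebraMap (ZMod p) F (mono (ZMod p) S z)) = mono F S := by
      funext z
      unfold mono
      split_ifs <;> simp
    rw [this]
    exact mono_mem _ hS
  | zero =>
    have : (fun z : Finset V => algebraMap (ZMod p) F ((0 : Finset V → ZMod p) z)) = 0 := by
      funext z
      simp
    rw [this]
    exact Submodule.zero_mem _
  | add f g _ _ hf hg =>
    have : (fun z => algebraMap (ZMod p) F ((f + g) z)) =
        (fun z => algebraMap (ZMod p) F (f z)) + fun z => algebraMap (ZMod p) F (g z) := by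
      funext z
      simp
    rw [this]
    exact Submodule.add_mem _ hf hg
  | smul c f _ hf =>
    have : (fun z => algebraMap (ZMod p) F ((c • f) z)) =
        (algebraMap (ZMod p) F c) • fun z => algebraMap (ZMod p) F (f z) := by
      funext z
      simp
    rw [this]
    exact Submodule.smul_mem _ _ hf

/-- An arbitrary function of bits which agree with functions of low degree outside small sets. -/
theorem exists_poly_bits {F : Type} [Field F] [Algebra (ZMod p) F] {J : Type} [Fintype J]
    [DecidableEq J] {D : ℕ} (b : J → Finset V → Bool) (P : J → Finset V → ZMod p)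
    (hP : ∀ j, P j ∈ lowDeg (ZMod p) V D) (Ψ : (J → Bool) → F) :
    ∃ Q : Finset V → F, Q ∈ lowDeg F V (Fintype.card J * D) ∧
      ∀ z, (∀ j, P j z = ind p (b j z)) → Q z = Ψ fun j => b j z := by
  classical
  refine ⟨∑ β : J → Bool, Ψ β • ∏ j : J, fun z => if β j = true then algebraMap (ZMod p) F (P j z)
    else 1 - algebraMap (ZMod p) F (P j z), ?_, ?_⟩
  · refine Submodule.sum_mem _ fun β _ => Submodule.smul_mem _ _ ?_
    have h := prod_mem_lowDeg (F := F) (V := V) (D := D) (univ : Finset J) (fun j => fun z =>
      if β j = true then algebraMap (ZMod p) F (P j z) else 1 - algebraMap (ZMod p) F (P j z))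
      fun j _ => by
        have h1 := map_mem_lowDeg (F := F) (hP j)
        by_cases hj : β j = true
        · simp only [hj, if_true]
          exact h1
        · simp only [hj, if_false, Bool.false_eq_true]
          exact Submodule.sub_mem _ (one_mem_lowDeg D) h1
    rwa [card_univ] at h
  · intro z hz
    rw [Finset.sum_apply, Finset.sum_eq_single fun j => b j z]
    · rw [Pi.smul_apply, Finset.prod_apply, Finset.prod_eq_one, smul_eq_mul, mul_one]
      intro j _
      by_cases h1 : b j z = true
      · simp only [h1, if_true]
        rw [hz j]
        unfold ind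
        rw [if_pos h1, map_one]
      · simp only [h1, if_false, Bool.false_eq_true]
        rw [hz j]
        unfold ind
        rw [if_neg h1, map_zero, sub_zero]
    · intro β _ hβ
      obtain ⟨j, hj⟩ := Function.ne_iff.1 hβ
      rw [Pi.smul_apply, Finset.prod_apply, Finset.prod_eq_zero (mem_univ j), smul_zero]
      rw [hz j]
      unfold ind
      cases h1 : b j z <;> cases h2 : β j <;> simp_all
    · intro h
      exact absurd (mem_univ _) h

end Pool.Agent.MXC
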