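import Pool.Agent.MXC.Stmts
import Pool.Agent.MXC.DistPoly
import Pool.Agent.MXC.DistDec

/-!
# Auxiliary facts for the sampling argument
-/

set_option autoImplicit false

namespace Pool.Agent.MXC

open Finset Pool.Agent.RS

/-- The number of tuples with at least one element in a given set. -/
theorem card_or {Ω : Type} [Fintype Ω] [DecidableEq Ω] (r₀ : ℕ) (g : Ω → Prop)
    [DecidablePred g] :
    ((univ.filter fun h : Fin r₀ → Ω => ∃ j, g (h j)).card : ℝ) =
      (Fintype.card Ω : ℝ) ^ r₀ -
        ((Fintype.card Ω : ℝ) - ((univ.filter fun ω => g ω).card : ℝ)) ^ r₀ := by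
  classical
  have h1 : (univ.filter fun h : Fin r₀ → Ω => ∃ j, g (h j)).card +
      (univ.filter fun h : Fin r₀ → Ω => ¬ ∃ j, g (h j)).card = Fintype.card Ω ^ r₀ := by
    rw [Finset.card_filter_add_card_filter_not, card_univ, Fintype.card_fun, Fintype.card_fin]
  have h2 : (univ.filter fun h : Fin r₀ → Ω => ¬ ∃ j, g (h j)) =
      Fintype.piFinset fun _ => univ.filter fun ω => ¬ g ω := by
    ext h
    simp [Fintype.mem_piFinset]
  have h3 : (univ.filter fun h : Fin r₀ → Ω => ¬ ∃ j, g (h j)).card =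
      (univ.filter fun ω => ¬ g ω).card ^ r₀ := by
    rw [h2, Fintype.card_piFinset, Finset.prod_const, card_univ, Fintype.card_fin]
  have h4 : (univ.filter fun ω => g ω).card + (univ.filter fun ω => ¬ g ω).card =
      Fintype.card Ω := by
    rw [Finset.card_filter_add_card_filter_not, card_univ]
  have h5 : (((univ.filter fun ω => ¬ g ω).card : ℕ) : ℝ) =
      (Fintype.card Ω : ℝ) - ((univ.filter fun ω => g ω).card : ℝ) := by
    rw [← h4]
    push_cast
    ring
  rw [← h5]
  have h6 : (((univ.filter fun h : Fin r₀ → Ω => ∃ j, g (h j)).card : ℕ) : ℝ) +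
      (((univ.filter fun ω => ¬ g ω).card : ℕ) : ℝ) ^ r₀ = (Fintype.card Ω : ℝ) ^ r₀ := by
    rw [h3] at h1
    exact_mod_cast h1
  linarith

/-- Adding `i` of the last points. -/
def padd (N o i : ℕ) (z : Finset (Fin N)) : Finset (Fin (N + o)) :=
  z.map (Fin.castAddEmb o) ∪ (univ.filter fun j : Fin o => (j : ℕ) < i).map (Fin.natAddEmb N)

theorem castAdd_mem_padd {N o i : ℕ} {z : Finset (Fin N)} {k : Fin N} :
    Fin.castAdd o k ∈ padd N o i z ↔ k ∈ z := by
  unfold padd
  rw [mem_union, mem_map, mem_map]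
  constructor
  · rintro (⟨k', hk', he⟩ | ⟨j, _, he⟩)
    · have : k' = k := Fin.castAdd_injective N o he
      rwa [← this]
    · exfalso
      have := congrArg Fin.val he
      simp at this
      have h2 := k.2
      omega
  · intro hk
    exact Or.inl ⟨k, hk, rfl⟩

theorem natAdd_mem_padd {N o i : ℕ} {z : Finset (Fin N)} {j : Fin o} :
    Fin.natAdd N j ∈ padd N o i z ↔ (j : ℕ) < i := by
  unfold padd
  rw [mem_union, mem_map, mem_map]
  constructor
  · rintro (⟨k', hk', he⟩ | ⟨j', hj', he⟩)
    · exfalso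
      have := congrArg Fin.val he
      simp at this
      have h2 := k'.2
      omega
    · have : j' = j := Fin.natAdd_injective o N he
      rw [← this]
      exact (mem_filter.1 hj').2
  · intro hj
    exact Or.inr ⟨j, mem_filter.2 ⟨mem_univ _, hj⟩, rfl⟩

theorem card_padd {N o i : ℕ} (hi : i ≤ o) (z : Finset (Fin N)) :
    (padd N o i z).card = z.card + i := by
  unfold padd
  rw [card_union_of_disjoint, card_map, card_map]
  · congr 1
    have h1 : (univ.filter fun j : Fin o => (j : ℕ) < i).card = (range i).card := by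
      refine card_bij (fun j _ => (j : ℕ)) (fun j hj => ?_) (fun j _ j' _ h => Fin.ext h) ?_
      · exact mem_range.2 (mem_filter.1 hj).2
      · intro a ha
        have ha' := mem_range.1 ha
        exact ⟨⟨a, by omega⟩, mem_filter.2 ⟨mem_univ _, ha'⟩, rfl⟩
    rw [h1, card_range]
  · rw [Finset.disjoint_left]
    intro u hu hu'
    obtain ⟨k, _, rfl⟩ := mem_map.1 hu
    obtain ⟨j, _, he⟩ := mem_map.1 hu'
    have := congrArg Fin.val he
    simp at this
    have h2 := k.2
    omega

theorem cmap_padd {ι : Type} {N o i : ℕ} {φ : Finset (Fin (N + o)) → ι → Bool} (hφ : SMap φ) :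
    CMap fun y : Fin N → Bool => φ (padd N o i (univ.filter fun k => y k = true)) := by
  intro c
  rcases hφ c with ⟨b, hb⟩ | ⟨u, b, hu⟩
  · exact Or.inl ⟨b, fun y => hb _⟩
  · obtain ⟨k, rfl⟩ | ⟨j, rfl⟩ : (∃ k, Fin.castAdd o k = u) ∨ ∃ j, Fin.natAdd N j = u :=
      Fin.addCases (motive := fun u => (∃ k, Fin.castAdd o k = u) ∨ ∃ j, Fin.natAdd N j = u)
        (fun k => Or.inl ⟨k, rfl⟩) (fun j => Or.inr ⟨j, rfl⟩) u
    · refine Or.inr ⟨k, b, fun y => ?_⟩
      change φ _ c = _
      rw [hu]
      congr 1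
      rw [show decide (Fin.castAdd o k ∈ padd N o i (univ.filter fun k => y k = true)) =
        decide (y k = true) from decide_eq_decide.2 (by rw [castAdd_mem_padd]; simp)]
      cases y k <;> rfl
    · refine Or.inl ⟨xor b (decide ((j : ℕ) < i)), fun y => ?_⟩
      change φ _ c = _
      rw [hu]
      congr 1
      exact decide_eq_decide.2 natAdd_mem_padd

end Pool.Agent.MXC
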