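import Pool.Agent.MXC.Stmts

/-!
# Mixed clauses: module Gap
-/

set_option autoImplicit false

namespace Pool.Agent.MXC

open Finset Pool.Agent.RS Pool.Agent.Helper21.LinSys Pool.Agent.QuadSys

theorem st_Gap : St_Gap := by
  intro o g δ hδ hij
  obtain ⟨i0, j0, hij⟩ := hij
  by_contra hno
  have ho : 0 < o := Fin.pos i0
  haveI : Nonempty (Fin o) := ⟨i0⟩
  have ho' : (0 : ℝ) < o := by exact_mod_cast ho
  have hη : 0 < δ / o := div_pos hδ ho'
  have hη2 : δ / (2 * o) = δ / o / 2 := by
    field_simp
  obtain ⟨jm, hjm⟩ := Finite.exists_min g
  have key : ∀ n : ℕ, ∀ i : Fin o, (univ.filter fun k => g k < g i).card = n →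
      g i ≤ g jm + n * (δ / o) := by
    intro n
    induction n using Nat.strong_induction_on with
    | _ n ih =>
      intro i hi
      rcases (univ.filter fun k => g k < g i).eq_empty_or_nonempty with he | hne
      · have h1 : g i ≤ g jm := by
          by_contra h
          have : jm ∈ (univ.filter fun k => g k < g i) := by
            rw [mem_filter]
            exact ⟨mem_univ _, not_le.1 h⟩
          rw [he] at this
          exact absurd this (notMem_empty _)
        have h2 : 0 ≤ (n : ℝ) * (δ / o) := by positivity
        linarith
      · obtain ⟨i', hi', hmax⟩ := exists_max_image _ g hne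
        rw [mem_filter] at hi'
        have hlt : g i' < g i := hi'.2
        have hsub : (univ.filter fun k => g k < g i') ⊂ (univ.filter fun k => g k < g i) := by
          rw [Finset.ssubset_iff_of_subset]
          · refine ⟨i', ?_, ?_⟩
            · rw [mem_filter]
              exact hi'
            · rw [mem_filter]
              exact fun h => lt_irrefl _ h.2
          · intro k hk
            rw [mem_filter] at hk ⊢
            exact ⟨hk.1, hk.2.trans hlt⟩
        have hcard := Finset.card_lt_card hsub
        rw [hi] at hcard
        have h1 := ih _ hcard i' rfl
        have h2 : g i - g i' < δ / o := by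
          by_contra hge
          rw [not_lt] at hge
          apply hno
          refine ⟨(g i + g i') / 2, ?_, ⟨i', ?_⟩, ⟨i, ?_⟩⟩
          · intro k
            rw [hη2]
            by_cases hk : g k < g i
            · left
              have := hmax k (by rw [mem_filter]; exact ⟨mem_univ _, hk⟩)
              linarith
            · right
              rw [not_lt] at hk
              linarith
          · rw [hη2]
            linarith
          · rw [hη2]
            linarith
        have h3 : (((univ.filter fun k => g k < g i').card : ℕ) : ℝ) + 1 ≤ n := by
          exact_mod_cast hcard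
        nlinarith
  have h1 := key _ i0 rfl
  have h2 : (univ.filter fun k => g k < g i0).card < o := by
    have h3 : (univ.filter fun k => g k < g i0) ⊂ (univ : Finset (Fin o)) := by
      rw [Finset.ssubset_iff_of_subset (subset_univ _)]
      refine ⟨i0, mem_univ _, ?_⟩
      rw [mem_filter]
      exact fun h => lt_irrefl _ h.2
    have h4 := Finset.card_lt_card h3
    rwa [card_univ, Fintype.card_fin] at h4
  have h3 : (((univ.filter fun k => g k < g i0).card : ℕ) : ℝ) + 1 ≤ o := by
    exact_mod_cast h2
  have h4 : (o : ℝ) * (δ / o) = δ := by
    field_simp
  have h5 := hjm j0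
  nlinarith

end Pool.Agent.MXC
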