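import Pool.Agent.MXC.Stmts
import Pool.Agent.Helper21.LinSys.Joint

/-!
# Mixed clauses: module One
-/

set_option autoImplicit false

namespace Pool.Agent.MXC

open Finset Pool.Agent.RS Pool.Agent.Helper21.LinSys Pool.Agent.QuadSys

/-- size of the sums modulo `p ^ e` -/
private theorem One_pb (KP : ℕ) {n X : ℕ} (hX : 1 ≤ X) (hn : n + 1 ≤ 2 ^ X) :
    pb KP (n + 1) ≤ 2 ^ ((KP * (KP + 1) + 1) * X) := by
  unfold pb
  have h1 : KP * (n + 1) ≤ 2 ^ (KP + X) := by
    rw [pow_add]
    exact Nat.mul_le_mul Nat.lt_two_pow_self.le hn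
  calc (KP * (n + 1)) ^ KP ≤ (2 ^ (KP + X)) ^ KP := Nat.pow_le_pow_left h1 _
    _ = 2 ^ ((KP + X) * KP) := (pow_mul _ _ _).symm
    _ ≤ _ := by
      apply Nat.pow_le_pow_right (by norm_num)
      have h2 : KP ≤ KP * X := Nat.le_mul_of_pos_right _ hX
      have h3 : (KP + X) * KP ≤ (KP * X + X) * KP := Nat.mul_le_mul_right _ (by omega)
      calc (KP + X) * KP ≤ (KP * X + X) * KP := h3
        _ = KP * (KP + 1) * X := by ring
        _ ≤ (KP * (KP + 1) + 1) * X := Nat.mul_le_mul_right _ (by omega)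

/-- the size of a function of `κ` functions -/
private theorem One_size (κ K₁ X : ℕ) (hX : 1 ≤ X) :
    2 ^ κ * (κ * 2 ^ (K₁ * X) + 1) + 1 ≤ 2 ^ ((2 * κ + 2 + K₁) * X) := by
  set s := 2 ^ (K₁ * X) with hs
  have hs1 : 1 ≤ s := Nat.one_le_two_pow
  have h1 : κ * s + 1 ≤ 2 ^ κ * s := by
    have h2 : κ + 1 ≤ 2 ^ κ := Nat.lt_two_pow_self
    calc κ * s + 1 ≤ κ * s + s := by omega
      _ = (κ + 1) * s := by ring
      _ ≤ 2 ^ κ * s := Nat.mul_le_mul_right _ h2
  have h3 : 1 ≤ 2 ^ κ * (2 ^ κ * s) := Nat.mul_pos (by positivity) (by positivity)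
  calc 2 ^ κ * (κ * s + 1) + 1 ≤ 2 ^ κ * (2 ^ κ * s) + 2 ^ κ * (2 ^ κ * s) :=
        Nat.add_le_add (Nat.mul_le_mul_left _ h1) h3
    _ = 2 ^ (2 * κ + 1 + K₁ * X) := by
        rw [hs, pow_add, pow_add, two_mul κ, pow_add]
        ring
    _ ≤ 2 ^ ((2 * κ + 2 + K₁) * X) := by
        apply Nat.pow_le_pow_right (by norm_num)
        have h4 : 2 * κ + 1 ≤ (2 * κ + 1) * X := Nat.le_mul_of_pos_right _ hX
        calc 2 * κ + 1 + K₁ * X ≤ (2 * κ + 1) * X + K₁ * X := by omega
          _ ≤ (2 * κ + 2 + K₁) * X := by nlinarith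

/-- functions of circuits and of sums modulo `p ^ e` have approximations -/
private theorem One_apx (p : ℕ) [Fact p.Prime] (hB : ApxBasic p) (hM : ApxMore p)
    (hP : St_PPart p) (e w d : ℕ) : ∃ K : ℕ, 2 ≤ K ∧
    ∀ (n s X : ℕ), 1 ≤ X → s ≤ 2 ^ X → n + 1 ≤ 2 ^ X →
    ∀ (C : Fin w → Circuit (Fin n) s) (c : Fin w → Fin n → ZMod (p ^ e))
      (H : (Fin w → Prop) → (Fin w → ZMod (p ^ e)) → Prop) (g : (Fin n → Bool) → Bool),
      (∀ a, (C a).level (C a).out + 1 ≤ d) →
      (∀ x, g x = true ↔ H (fun a => (C a).Accepts p x) (fun a => ev (c a) x)) →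
      Apx p (max d 4 + 2) (2 ^ (K * X)) g := by
  classical
  have : NeZero (p ^ e) := ⟨pow_ne_zero _ (Fact.out : p.Prime).ne_zero⟩
  obtain ⟨KP, hKP⟩ := hP e
  set J := Fin w ⊕ (Fin w × ZMod (p ^ e)) with hJ
  refine ⟨2 * Fintype.card J + 2 + (KP * (KP + 1) + 1), by omega, ?_⟩
  intro n s X hX hs hn C c H g hlev hg
  set K₁ := KP * (KP + 1) + 1 with hK₁
  let f : J → (Fin n → Bool) → Bool :=
    Sum.elim (fun a x => decide ((C a).Accepts p x)) (fun q x => decide (ev (c q.1) x = q.2))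
  let F : (J → Bool) → Bool := fun b => decide (H (fun a => b (Sum.inl a) = true)
    (fun a => if h : ∃ u, b (Sum.inr (a, u)) = true then h.choose else 0))
  have hgF : g = fun x => F fun j => f j x := by
    funext x
    rw [Bool.eq_iff_iff, hg]
    have h1 : (fun a => f (Sum.inl a) x = true) = fun a => (C a).Accepts p x := by
      funext a
      exact propext (by simp [f])
    have h2 : (fun a => if h : ∃ u, f (Sum.inr (a, u)) x = true then h.choose else 0) =
        fun a => ev (c a) x := by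
      funext a
      have h3 : ∃ u, f (Sum.inr (a, u)) x = true := ⟨ev (c a) x, by simp [f]⟩
      rw [dif_pos h3]
      have h4 : ev (c a) x = h3.choose := of_decide_eq_true h3.choose_spec
      exact h4.symm
    show _ ↔ decide (H (fun a => f (Sum.inl a) x = true)
      (fun a => if h : ∃ u, f (Sum.inr (a, u)) x = true then h.choose else 0)) = true
    rw [h1, h2, decide_eq_true_eq]
  have hf : ∀ j, Apx p (max d 4) (2 ^ (K₁ * X)) (f j) := by
    intro j
    rcases j with a | q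
    · refine hB.mono _ d _ s _ _ (le_max_left _ _) ?_
        (hM.circuit (Fin n) d s (C a) (hlev a) _ fun x => by simp [f])
      refine hs.trans (Nat.pow_le_pow_right (by norm_num) ?_)
      exact Nat.le_mul_of_pos_left _ (by rw [hK₁]; omega)
    · refine hB.mono _ 4 _ _ _ _ (le_max_right _ _) ?_
        (hKP (Fin n) (c q.1) q.2 _ fun x => by simp [f])
      rw [Fintype.card_fin]
      exact One_pb KP hX hn
  rw [hgF]
  exact hB.mono _ _ _ _ _ _ le_rfl (One_size _ _ _ hX)
    (hM.fn (Fin n) J (max d 4) (2 ^ (K₁ * X)) f F hf)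

theorem st_One (p : ℕ) [Fact p.Prime] (hB : ApxBasic p) (hM : ApxMore p) (hP : St_PPart p)
    (hA : St_All p) (hC : St_CoreA p) : St_One p := by
  classical
  intro m w d hm
  have hp : p.Prime := Fact.out
  obtain ⟨e, m', hnd, rfl⟩ := Nat.exists_eq_pow_mul_and_not_dvd (n := m) (by omega) p hp.ne_one
  have hm' : NeZero m' := ⟨by
    rintro rfl
    exact hnd (dvd_zero p)⟩
  have hcop : Nat.Coprime m' p := ((Nat.Prime.coprime_iff_not_dvd hp).2 hnd).symm
  have hcop' : Nat.Coprime (p ^ e) m' := Nat.Coprime.pow_left e hcop.symm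
  let E : ZMod (p ^ e * m') ≃+* ZMod (p ^ e) × ZMod m' := ZMod.chineseRemainder hcop'
  obtain ⟨K₂, hK₂, hapx⟩ := One_apx p hB hM hP e w d
  obtain ⟨d', KA, hall⟩ := hA m' w (max d 4 + 2) hcop (by omega)
  obtain ⟨KC, hcore⟩ := hC m' d'
  refine ⟨((K₂ + 1 + 1) * (KA + 1) + 1) * (KC + 1), ?_⟩
  intro n s N X I _ G hX hs hN hn hI hG hiff
  -- the middle slice
  have hwt : ∀ x : Fin n → Bool, wt x = ones x := fun x => rfl
  have hIpos : 1 ≤ Fintype.card I := by
    have h1 : ∃ i, G i (fun _ => true) = true := by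
      rw [hiff]
      have : ones (fun _ : Fin n => true) = n := by simp [ones]
      rw [this]
      omega
    obtain ⟨i, -⟩ := h1
    exact Fintype.card_pos_iff.2 ⟨i⟩
  set h := (n + 1) / 2 with hh
  let σ := (Fintype.equivFin I).symm
  obtain ⟨i0, hi0⟩ := exists_large (n := n) hIpos
    (fun j => univ.filter fun x : Fin n → Bool => ones x = h ∧ G (σ j) x = true) (by
      intro x hx
      rw [hwt, ← hh] at hx
      obtain ⟨i, hi⟩ := (hiff x).2 (by omega)
      refine ⟨Fintype.equivFin I i, ?_⟩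
      rw [mem_filter]
      refine ⟨mem_univ _, hx, ?_⟩
      simp only [σ, Equiv.symm_apply_apply]
      exact hi)
  set T : Finset (Fin n → Bool) :=
    univ.filter fun x : Fin n → Bool => ones x = h ∧ G (σ i0) x = true with hT
  have hTd : 2 ^ n ≤ 2 ^ (2 * X) * T.card := by
    refine hi0.trans (Nat.mul_le_mul_right _ ?_)
    rw [two_mul, pow_add]
    exact Nat.mul_le_mul hI hn
  obtain ⟨C, c, F, hlev, hQ⟩ := hG (σ i0)
  -- the forms
  let L : Fin N → Fin w → Fin n → ZMod m' := fun j a v => (E (c j a v)).2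
  let cp : Fin N → Fin w → Fin n → ZMod (p ^ e) := fun j a v => (E (c j a v)).1
  have hsum : ∀ (j : Fin N) (a : Fin w) (x : Fin n → Bool),
      (∑ v, if x v = true then c j a v else 0) = E.symm (ev (cp j a) x, ev (L j a) x) := by
    intro j a x
    apply E.injective
    rw [RingEquiv.apply_symm_apply, map_sum]
    apply Prod.ext
    · rw [Prod.fst_sum]
      apply sum_congr rfl
      intro v _
      by_cases hv : x v = true
      · rw [if_pos hv, if_pos hv]
      · rw [if_neg hv, if_neg hv, map_zero]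
        rfl
    · rw [Prod.snd_sum]
      apply sum_congr rfl
      intro v _
      by_cases hv : x v = true
      · rw [if_pos hv, if_pos hv]
      · rw [if_neg hv, if_neg hv, map_zero]
        rfl
  let Φ : Fin N → (Fin w → ZMod m') → (Fin n → Bool) → Bool := fun j v x =>
    decide (F j (fun a => (C j a).Accepts p x) (fun a => E.symm (ev (cp j a) x, v a)))
  have hΦa : ∀ j v, Apx p (max d 4 + 2) (2 ^ (K₂ * X)) (Φ j v) := by
    intro j v
    refine hapx n s X hX hs hn (C j) (cp j)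
      (fun P u => F j P (fun a => E.symm (u a, v a))) _ (hlev j) fun x => ?_
    simp only [Φ, decide_eq_true_eq]
  have hΦt : ∀ j x, Φ j (vals (L j) x) x = true ↔
      F j (fun a => (C j a).Accepts p x) (fun a => ∑ v, if x v = true then c j a v else 0) := by
    intro j x
    simp only [Φ, decide_eq_true_eq, hsum]
    rfl
  have hX2 : 1 ≤ K₂ * X := Nat.mul_pos (by omega) hX
  obtain ⟨Γ, y, B, hst, hcell⟩ := hall (Fin n) (K₂ * X) N T L Φ hX2
    (hN.trans (Nat.pow_le_pow_right (by norm_num) (Nat.le_mul_of_pos_left _ (by omega))))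
    hΦa (by
      intro x hx j
      rw [hΦt]
      exact (hQ x).1 (mem_filter.1 hx).2.2 j) (by
      rw [Fintype.card_fin]
      exact hTd.trans (Nat.mul_le_mul_right _ (Nat.pow_le_pow_right (by norm_num)
        (Nat.mul_le_mul_right _ hK₂))))
  have hfin := hcore (Fin n) (pb KA (K₂ * X)) h Γ y B T (one_le_pb hX2) hst.cardΓ hst.apx (by
      intro x hx
      have h1 : G (σ i0) x = true := (hQ x).2 fun j => (hΦt j x).1 (hcell x hx j)
      have h2 : n ≤ 2 * ones x := (hiff x).1 ⟨_, h1⟩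
      omega) (fun x hx => (mem_filter.1 hx).2.1) hst.dense
  rw [Fintype.card_fin] at hfin
  -- the bound
  calc n ≤ pb KC (pb KA (K₂ * X)) := hfin
    _ ≤ pb KC (pb KA (pb (K₂ + 1) X)) := by
        refine pb_mono le_rfl (one_le_pb hX2) (pb_mono le_rfl hX2 (mul_le_pb K₂ hX))
    _ ≤ pb KC (pb ((K₂ + 1 + 1) * (KA + 1)) X) :=
        pb_mono le_rfl (one_le_pb (one_le_pb hX)) (pb_pb _ _ hX)
    _ ≤ pb (((K₂ + 1 + 1) * (KA + 1) + 1) * (KC + 1)) X := pb_pb _ _ hX

end Pool.Agent.MXC
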