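import Pool.Agent.MXC.Stmts

/-!
# Mixed clauses: module OrRate
-/

set_option autoImplicit false

namespace Pool.Agent.MXC

open Finset Pool.Agent.RS Pool.Agent.Helper21.LinSys Pool.Agent.QuadSys

theorem orRate_pow (r : ℕ) {a b : ℝ} (hb : 0 ≤ b) (hab : b ≤ a) :
    (r + 1) * b ^ r * (a - b) ≤ a ^ (r + 1) - b ^ (r + 1) ∧
      a ^ (r + 1) - b ^ (r + 1) ≤ (r + 1) * a ^ r * (a - b) := by
  have ha : 0 ≤ a := hb.trans hab
  induction r with
  | zero => simp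
  | succ r ih =>
    obtain ⟨h1, h2⟩ := ih
    have e : a ^ (r + 1 + 1) - b ^ (r + 1 + 1) =
        a * (a ^ (r + 1) - b ^ (r + 1)) + b ^ (r + 1) * (a - b) := by ring
    have hd : 0 ≤ a - b := sub_nonneg.2 hab
    have hbr : 0 ≤ b ^ r := pow_nonneg hb r
    have hpw : b ^ (r + 1) ≤ a ^ (r + 1) := pow_le_pow_left₀ hb hab _
    rw [e]
    push_cast
    constructor
    · have h3 : b * (((r : ℝ) + 1) * b ^ r * (a - b)) ≤ a * (a ^ (r + 1) - b ^ (r + 1)) := by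
        refine mul_le_mul hab h1 ?_ ha
        positivity
      have e2 : ((r : ℝ) + 1 + 1) * b ^ (r + 1) * (a - b) =
          b * (((r : ℝ) + 1) * b ^ r * (a - b)) + b ^ (r + 1) * (a - b) := by ring
      rw [e2]
      linarith
    · have h3 : a * (a ^ (r + 1) - b ^ (r + 1)) ≤ a * (((r : ℝ) + 1) * a ^ r * (a - b)) :=
        mul_le_mul_of_nonneg_left h2 ha
      have h4 : b ^ (r + 1) * (a - b) ≤ a ^ (r + 1) * (a - b) :=
        mul_le_mul_of_nonneg_right hpw hd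
      have e2 : ((r : ℝ) + 1 + 1) * a ^ (r + 1) * (a - b) =
          a * (((r : ℝ) + 1) * a ^ r * (a - b)) + a ^ (r + 1) * (a - b) := by ring
      rw [e2]
      linarith

theorem orRate_exp (n : ℕ) {x : ℝ} (hx0 : 0 ≤ x) (hx : ((n : ℝ) + 1) * x ≤ 1) :
    (1 : ℝ) / 3 ≤ (1 - x) ^ n := by
  rcases Nat.eq_zero_or_pos n with h | h
  · rw [h, pow_zero]
    norm_num
  · have hn : (0 : ℝ) < n := by exact_mod_cast h
    have h1 : (1 + 1 / (n : ℝ)) ^ n ≤ 3 := by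
      have h2 : 1 + 1 / (n : ℝ) ≤ Real.exp (1 / (n : ℝ)) := by
        have := Real.add_one_le_exp (1 / (n : ℝ))
        linarith
      have h3 : (1 + 1 / (n : ℝ)) ^ n ≤ Real.exp (1 / (n : ℝ)) ^ n :=
        pow_le_pow_left₀ (by positivity) h2 n
      have h4 : Real.exp (1 / (n : ℝ)) ^ n = Real.exp 1 := by
        rw [← Real.exp_nat_mul]
        congr 1
        field_simp
      have h5 := Real.exp_one_lt_d9
      linarith
    have h2 : (1 : ℝ) / (1 + 1 / (n : ℝ)) ≤ 1 - x := by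
      rw [div_le_iff₀ (by positivity)]
      have h3 : x ≤ 1 / ((n : ℝ) + 1) := by
        rw [le_div_iff₀ (by positivity)]
        linarith
      have h4 : (1 - 1 / ((n : ℝ) + 1)) * (1 + 1 / (n : ℝ)) = 1 := by
        field_simp
        ring
      have h5 : 0 ≤ 1 + 1 / (n : ℝ) := by positivity
      nlinarith
    have h3 : ((1 : ℝ) / (1 + 1 / (n : ℝ))) ^ n ≤ (1 - x) ^ n :=
      pow_le_pow_left₀ (by positivity) h2 n
    rw [div_pow, one_pow] at h3
    refine le_trans ?_ h3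
    have h4 : 0 < (1 + 1 / (n : ℝ)) ^ n := by positivity
    exact one_div_le_one_div_of_le h4 h1

theorem st_OrRate : St_OrRate := by
  intro rm h0 h1
  have hf1 : (⌊1 / rm⌋₊ : ℝ) ≤ 1 / rm := Nat.floor_le (by positivity)
  have hf2 : 1 / rm < (⌊1 / rm⌋₊ : ℝ) + 1 := Nat.lt_floor_add_one _
  have hf3 : 1 ≤ ⌊1 / rm⌋₊ := by
    rw [Nat.one_le_floor_iff]
    rw [le_div_iff₀ h0]
    linarith
  obtain ⟨n, hn⟩ : ∃ n, ⌊1 / rm⌋₊ = n + 1 := ⟨⌊1 / rm⌋₊ - 1, by omega⟩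
  rw [hn] at hf1 hf2
  push_cast at hf1 hf2
  have hle : ((n : ℝ) + 1) * rm ≤ 1 := by
    rw [le_div_iff₀ h0] at hf1
    linarith
  have hge : (1 : ℝ) / 2 ≤ ((n : ℝ) + 1) * rm := by
    rw [div_lt_iff₀ h0] at hf2
    have hn0 : (0 : ℝ) ≤ n := Nat.cast_nonneg n
    nlinarith
  refine ⟨n + 1, by omega, by push_cast; exact hle, ?_⟩
  intro x y hx hxy hy
  have hb : 0 ≤ 1 - y := by linarith
  have hab : 1 - y ≤ 1 - x := by linarith
  obtain ⟨h2, h3⟩ := orRate_pow n hb hab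
  have hd : (1 - x) - (1 - y) = y - x := by ring
  rw [hd] at h2 h3
  have hyx : 0 ≤ y - x := by linarith
  constructor
  · have h4 : (1 : ℝ) / 3 ≤ (1 - y) ^ n := by
      have h5 : (1 : ℝ) / 3 ≤ (1 - rm) ^ n := orRate_exp n h0.le hle
      refine h5.trans (pow_le_pow_left₀ (by linarith) (by linarith) n)
    have h5 : (1 : ℝ) / 6 ≤ rm * (((n : ℝ) + 1) * (1 - y) ^ n) := by
      have h6 : rm * (((n : ℝ) + 1) * (1 - y) ^ n) = (((n : ℝ) + 1) * rm) * (1 - y) ^ n := by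
        ring
      rw [h6]
      nlinarith
    have h6 : rm * (((n : ℝ) + 1) * (1 - y) ^ n * (y - x)) ≤
        rm * ((1 - x) ^ (n + 1) - (1 - y) ^ (n + 1)) := mul_le_mul_of_nonneg_left h2 h0.le
    have h7 : (1 : ℝ) / 6 * (y - x) ≤ rm * (((n : ℝ) + 1) * (1 - y) ^ n) * (y - x) :=
      mul_le_mul_of_nonneg_right h5 hyx
    nlinarith
  · have h4 : (1 - x) ^ n ≤ 1 := pow_le_one₀ (by linarith) (by linarith)
    have h5 : rm * ((1 - x) ^ (n + 1) - (1 - y) ^ (n + 1)) ≤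
        rm * (((n : ℝ) + 1) * (1 - x) ^ n * (y - x)) := mul_le_mul_of_nonneg_left h3 h0.le
    have h6 : rm * (((n : ℝ) + 1) * (1 - x) ^ n) ≤ 1 := by
      have h7 : rm * (((n : ℝ) + 1) * (1 - x) ^ n) = (((n : ℝ) + 1) * rm) * (1 - x) ^ n := by
        ring
      rw [h7]
      have h8 : 0 ≤ ((n : ℝ) + 1) * rm := by positivity
      nlinarith [pow_nonneg (show (0 : ℝ) ≤ 1 - x by linarith) n]
    have h7 : rm * (((n : ℝ) + 1) * (1 - x) ^ n) * (y - x) ≤ 1 * (y - x) :=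
      mul_le_mul_of_nonneg_right h6 hyx
    nlinarith

end Pool.Agent.MXC
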