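import Pool.Agent.MXC.Stmts

/-!
# Mixed clauses: module PPart
-/

set_option autoImplicit false

namespace Pool.Agent.MXC

open Finset Pool.Agent.RS Pool.Agent.Helper21.LinSys Pool.Agent.QuadSys

/-- Lucas: the digits are binomial coefficients -/
theorem PPart_lucas (p : ℕ) [Fact p.Prime] : ∀ (j t : ℕ), t.choose (p ^ j) % p = t / p ^ j % p
  | 0, t => by simp
  | j + 1, t => by
    have hp : 0 < p := (Fact.out : p.Prime).pos
    have h1 : t.choose (p ^ (j + 1)) ≡
        (t % p).choose (p ^ (j + 1) % p) * (t / p).choose (p ^ (j + 1) / p) [MOD p] :=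
      Choose.choose_modEq_choose_mod_mul_choose_div_nat
    have h2 : p ^ (j + 1) % p = 0 := by
      rw [pow_succ]
      exact Nat.mul_mod_left _ _
    have h3 : p ^ (j + 1) / p = p ^ j := by
      rw [pow_succ]
      exact Nat.mul_div_cancel _ hp
    rw [h2, h3, Nat.choose_zero_right, one_mul] at h1
    have h4 : t / p ^ (j + 1) = t / p / p ^ j := by
      rw [Nat.div_div_eq_div_mul, pow_succ']
    rw [h4, ← PPart_lucas p j (t / p)]
    exact h1

/-- residues modulo a power are determined by the digits -/
theorem PPart_digits (p e s t : ℕ) :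
    s % p ^ e = t % p ^ e ↔ ∀ j < e, s / p ^ j % p = t / p ^ j % p := by
  induction e with
  | zero => simp [Nat.mod_one]
  | succ e ih =>
    constructor
    · intro h j hj
      have h1 : s % p ^ (j + 1) = t % p ^ (j + 1) := by
        have hd : p ^ (j + 1) ∣ p ^ (e + 1) := pow_dvd_pow p hj
        rw [← Nat.mod_mod_of_dvd s hd, h, Nat.mod_mod_of_dvd t hd]
      rw [← Nat.mod_mul_right_div_self s, ← Nat.mod_mul_right_div_self t, ← pow_succ, h1]
    · intro h
      rw [Nat.mod_pow_succ, Nat.mod_pow_succ, (ih.2 fun j hj => h j (by omega)), h e (by omega)]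

/-- the number of true elements of the multiset of variables -/
theorem PPart_card {ι : Type} [Fintype ι] [DecidableEq ι] (c : ι → ℕ) (x : ι → Bool) :
    (univ.filter fun a : (Σ i : ι, Fin (c i)) => x a.1 = true).card =
      ∑ i, if x i = true then c i else 0 := by
  rw [Finset.card_filter, Fintype.sum_sigma]
  refine Finset.sum_congr rfl fun i _ => ?_
  show (∑ _ : Fin (c i), if x i = true then 1 else 0) = _
  by_cases hx : x i = true
  · simp [hx]
  · simp [hx]

theorem PPart_ev {ι : Type} [Fintype ι] [DecidableEq ι] {q : ℕ} [NeZero q] (c : ι → ZMod q)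
    (x : ι → Bool) (u : ZMod q) :
    ev c x = u ↔ (∑ i, if x i = true then (c i).val else 0) % q = u.val % q := by
  have h1 : ev c x = ((∑ i, if x i = true then (c i).val else 0 : ℕ) : ZMod q) := by
    unfold ev
    rw [Nat.cast_sum]
    refine Finset.sum_congr rfl fun i _ => ?_
    by_cases hx : x i = true
    · rw [if_pos hx, if_pos hx, ZMod.natCast_zmod_val]
    · rw [if_neg hx, if_neg hx, Nat.cast_zero]
  have h2 : u = ((u.val : ℕ) : ZMod q) := (ZMod.natCast_zmod_val u).symm
  constructor
  · intro h
    rw [h1, h2] at h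
    exact (ZMod.natCast_eq_natCast_iff _ _ _).1 h
  · intro h
    rw [h1, h2]
    exact (ZMod.natCast_eq_natCast_iff _ _ _).2 h

theorem PPart_count (e N q : ℕ) (hq : 1 ≤ q) (hN : 1 ≤ N) :
    e * ((N * q) ^ q + 1) + 1 ≤ pb (q * (2 * e + 1)) N := by
  unfold pb
  have h1 : 1 ≤ (N * q) ^ q := Nat.one_le_pow _ _ (Nat.mul_pos hN hq)
  have h2 : e * ((N * q) ^ q + 1) + 1 ≤ (N * q) ^ q * (2 * e + 1) := by nlinarith
  have h3 : 2 * e + 1 ≤ (2 * e + 1) ^ q := Nat.le_self_pow (by omega) _
  have h4 : (N * q) ^ q * (2 * e + 1) ≤ (q * (2 * e + 1) * N) ^ q := by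
    calc (N * q) ^ q * (2 * e + 1) ≤ (N * q) ^ q * (2 * e + 1) ^ q := Nat.mul_le_mul_left _ h3
      _ = (q * (2 * e + 1) * N) ^ q := by
        rw [← mul_pow]
        congr 1
        ring
  have h5 : (q * (2 * e + 1) * N) ^ q ≤ (q * (2 * e + 1) * N) ^ (q * (2 * e + 1)) := by
    refine Nat.pow_le_pow_right ?_ ?_
    · positivity
    · exact Nat.le_mul_of_pos_right _ (by omega)
  exact h2.trans (h4.trans h5)

theorem st_PPart (p : ℕ) [Fact p.Prime] (hB : ApxBasic p) (hG : ApxGate p) (_hM : ApxMore p) :
    St_PPart p := by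
  intro e
  have hp : p.Prime := Fact.out
  have hq : 1 ≤ p ^ e := Nat.one_le_pow _ _ hp.pos
  have : NeZero (p ^ e) := ⟨by omega⟩
  refine ⟨p ^ e * (2 * e + 1), ?_⟩
  intro ι _ _ c u g hg
  -- the digit gates
  have hdig : ∀ j : Fin e, Apx p 2 (((Fintype.card ι + 1) * p ^ e) ^ p ^ e + 1)
      (fun x : ι → Bool => decide
        ((∑ i, if x i = true then (c i).val else 0) / p ^ (j : ℕ) % p =
          u.val / p ^ (j : ℕ) % p)) := by
    intro j
    classical
    set J : Finset (Finset (Σ i : ι, Fin (c i).val)) :=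
      powersetCard (p ^ (j : ℕ)) univ with hJ
    have hand : ∀ T : J, Apx p 1 1 (fun x : ι → Bool => decide (∀ a ∈ T.1, x a.1 = true)) := by
      intro T
      have h := hG.all ι T.1 0 (fun _ => 0) (fun a x => xor false (x a.1.1))
        (fun a => hB.lit ι 0 a.1.1 false)
        (fun x => decide (∀ a ∈ T.1, x a.1 = true)) (by
          intro x
          rw [decide_eq_true_iff]
          constructor
          · intro h a
            rw [Bool.false_xor]
            exact h a.1 a.2
          · intro h a ha
            have := h ⟨a, ha⟩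
            rwa [Bool.false_xor] at this)
      simpa using h
    have hmod := hG.modc ι J 1 (fun _ => 1)
      (fun T x => decide (∀ a ∈ T.1, x a.1 = true)) (fun _ => 1)
      (fun r => decide (r = u.val / p ^ (j : ℕ) % p)) hand
    have hfun : (fun x : ι → Bool => decide
        ((∑ T : J, if (decide (∀ a ∈ T.1, x a.1 = true)) = true then 1 else 0) % p =
          u.val / p ^ (j : ℕ) % p)) =
        (fun x : ι → Bool => decide
        ((∑ i, if x i = true then (c i).val else 0) / p ^ (j : ℕ) % p =
          u.val / p ^ (j : ℕ) % p)) := by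
      funext x
      have hsum : (∑ T : J, if (decide (∀ a ∈ T.1, x a.1 = true)) = true then 1 else 0) =
          (∑ i, if x i = true then (c i).val else 0).choose (p ^ (j : ℕ)) := by
        rw [← PPart_card (fun i => (c i).val) x, ← Finset.card_powersetCard,
          Finset.sum_coe_sort J
            (fun T => if (decide (∀ a ∈ T, x a.1 = true)) = true then 1 else 0),
          ← Finset.card_filter]
        congr 1
        ext T
        rw [mem_filter, hJ, mem_powersetCard, mem_powersetCard, decide_eq_true_iff]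
        constructor
        · rintro ⟨⟨-, h2⟩, h3⟩
          exact ⟨fun a ha => mem_filter.2 ⟨mem_univ _, h3 a ha⟩, h2⟩
        · rintro ⟨h1, h2⟩
          exact ⟨⟨subset_univ _, h2⟩, fun a ha => (mem_filter.1 (h1 ha)).2⟩
      rw [hsum, PPart_lucas p]
    rw [hfun] at hmod
    refine hB.mono ι 2 2 _ _ _ le_rfl ?_ hmod
    -- the number of subsets
    have hcard : ∑ _T : J, 1 ≤ ((Fintype.card ι + 1) * p ^ e) ^ p ^ e := by
      rw [Finset.sum_const, smul_eq_mul, mul_one, Finset.card_univ, Fintype.card_coe, hJ,
        Finset.card_powersetCard]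
      have hU : (univ : Finset (Σ i : ι, Fin (c i).val)).card ≤ (Fintype.card ι + 1) * p ^ e := by
        rw [Finset.card_univ, Fintype.card_sigma]
        calc ∑ i : ι, Fintype.card (Fin (c i).val) ≤ ∑ _i : ι, p ^ e := by
              refine Finset.sum_le_sum fun i _ => ?_
              rw [Fintype.card_fin]
              exact (ZMod.val_lt (c i)).le
          _ = Fintype.card ι * p ^ e := by
              rw [Finset.sum_const, Finset.card_univ, smul_eq_mul]
          _ ≤ (Fintype.card ι + 1) * p ^ e := Nat.mul_le_mul_right _ (by omega)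
      refine (Nat.choose_le_pow _ _).trans ?_
      refine (Nat.pow_le_pow_left hU _).trans ?_
      refine Nat.pow_le_pow_right ?_ ?_
      · exact Nat.mul_pos (by omega) (by omega)
      · exact Nat.pow_le_pow_right hp.pos (by omega)
    omega
  have hall := hG.all ι (Fin e) 2 (fun _ => ((Fintype.card ι + 1) * p ^ e) ^ p ^ e + 1) _ hdig g (by
    intro x
    rw [hg x, PPart_ev, PPart_digits]
    constructor
    · intro h j
      exact decide_eq_true (h j j.2)
    · intro h j hj
      exact of_decide_eq_true (h ⟨j, hj⟩))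
  refine hB.mono ι 3 4 _ _ g (by omega) ?_ hall
  rw [Finset.sum_const, Finset.card_univ, Fintype.card_fin, smul_eq_mul]
  exact PPart_count e (Fintype.card ι + 1) (p ^ e) hq (by omega)

end Pool.Agent.MXC
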