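import Pool.Agent.MXC.Stmts

/-!
# Mixed clauses: module Phase
-/

set_option autoImplicit false

namespace Pool.Agent.MXC

open Finset Pool.Agent.RS Pool.Agent.Helper21.LinSys Pool.Agent.QuadSys

/-- the state after `i` steps -/
structure Phase_Inv (p : ℕ) [Fact p.Prime] {ι : Type} [Fintype ι] [DecidableEq ι] {m : ℕ}
    (w d X K D i : ℕ) (Γ : AddSubgroup (ι → ZMod m)) (y : ι → Bool) (B : (ι → Bool) → Bool)
    (T : Finset (ι → Bool)) (Γ' : AddSubgroup (ι → ZMod m)) (y' : ι → Bool)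
    (B' : (ι → Bool) → Bool) : Prop where
  le : Γ ≤ Γ'
  sub : cell Γ' y' B' ⊆ cell Γ y B
  card : Nat.card Γ' ≤ (m ^ w) ^ i * 2 ^ X
  apx : ∃ C : Fin i → (ι → Bool) → Bool, (∀ j, Apx p (d + 2) (2 ^ (K * X)) (C j)) ∧
    ∀ x, B' x = true ↔ B x = true ∧ ∀ j, C j x = true
  dense : 2 ^ Fintype.card ι ≤ 2 ^ ((K + 1) * X + 1 + i * D) * (T ∩ cell Γ' y' B').card

theorem Phase_stt {p : ℕ} [Fact p.Prime] (hB : ApxBasic p) (hG : ApxGate p) {ι : Type}
    [Fintype ι] [DecidableEq ι] {m w d X K D i : ℕ} {Γ : AddSubgroup (ι → ZMod m)}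
    {y : ι → Bool} {B : (ι → Bool) → Bool} {T : Finset (ι → Bool)}
    {Γ' : AddSubgroup (ι → ZMod m)} {y' : ι → Bool} {B' : (ι → Bool) → Bool}
    (hD : w * m + 1 ≤ D) (hA : Apx p d (2 ^ X) B)
    (h : Phase_Inv p w d X K D i Γ y B T Γ' y' B') :
    Stt p (d + 3) ((K + 1) * X + 1 + i * D) Γ' y' B' T := by
  refine ⟨?_, ?_, h.dense⟩
  · refine h.card.trans ?_
    have h1 : m ^ w ≤ 2 ^ D := by
      calc m ^ w ≤ (2 ^ m) ^ w := Nat.pow_le_pow_left Nat.lt_two_pow_self.le w
        _ = 2 ^ (w * m) := by rw [← pow_mul, mul_comm]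
        _ ≤ 2 ^ D := Nat.pow_le_pow_right (by norm_num) (by omega)
    calc (m ^ w) ^ i * 2 ^ X ≤ (2 ^ D) ^ i * 2 ^ X :=
          Nat.mul_le_mul_right _ (Nat.pow_le_pow_left h1 i)
      _ = 2 ^ (i * D + X) := by rw [← pow_mul, ← pow_add, mul_comm]
      _ ≤ _ := Nat.pow_le_pow_right (by norm_num) (by nlinarith)
  · obtain ⟨C, hC, hCB⟩ := h.apx
    have h1 := hG.all ι (Option (Fin i)) (d + 2)
      (fun o => Option.elim o (2 ^ X) (fun _ => 2 ^ (K * X)))
      (fun o => Option.elim o B C) (by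
        intro o
        cases o with
        | none => exact hB.mono ι d (d + 2) (2 ^ X) (2 ^ X) B (by omega) le_rfl hA
        | some j => exact hC j) B' (by
        intro x
        rw [hCB]
        constructor
        · rintro ⟨h2, h3⟩ o
          cases o with
          | none => exact h2
          | some j => exact h3 j
        · intro h2
          exact ⟨h2 none, fun j => h2 (some j)⟩)
    refine hB.mono ι (d + 2 + 1) (d + 3) _ _ B' le_rfl ?_ h1
    rw [Fintype.sum_option]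
    simp only [Option.elim, sum_const, card_univ, Fintype.card_fin, smul_eq_mul]
    have h2 : i + 1 ≤ 2 ^ i := Nat.lt_two_pow_self
    have h3 : 2 ^ X ≤ 2 ^ ((K + 1) * X) := Nat.pow_le_pow_right (by norm_num) (by nlinarith)
    have h4 : 2 ^ (K * X) ≤ 2 ^ ((K + 1) * X) :=
      Nat.pow_le_pow_right (by norm_num) (by nlinarith)
    have h5 : 1 ≤ 2 ^ ((K + 1) * X) := Nat.one_le_two_pow
    have h6 : i * 2 ^ (K * X) ≤ i * 2 ^ ((K + 1) * X) := Nat.mul_le_mul_left _ h4
    calc 2 ^ X + i * 2 ^ (K * X) + 1 ≤ 2 ^ ((K + 1) * X) + i * 2 ^ ((K + 1) * X) +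
          2 ^ ((K + 1) * X) := by omega
      _ = (i + 2) * 2 ^ ((K + 1) * X) := by ring
      _ ≤ (2 * 2 ^ i) * 2 ^ ((K + 1) * X) := Nat.mul_le_mul_right _ (by omega)
      _ = 2 ^ ((K + 1) * X + 1 + i) := by rw [pow_add, pow_add]; ring
      _ ≤ _ := Nat.pow_le_pow_right (by norm_num) (by
        have h7 : i * 1 ≤ i * D := Nat.mul_le_mul_left _ (by omega)
        omega)

theorem Phase_ratio (K X : ℕ) (hX : 1 ≤ X) :
    2 ^ X * K ^ ((K + 1) * X) < (K + 1) ^ ((K + 1) * X) := by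
  have h1 : 2 * K ^ (K + 1) < (K + 1) ^ (K + 1) := by
    have h2 := one_add_mul_le_pow (R := ℝ) (a := 1 / (K : ℝ)) (by
      have : (0 : ℝ) ≤ 1 / (K : ℝ) := by positivity
      linarith) (K + 1)
    rcases Nat.eq_zero_or_pos K with h | h
    · subst h
      norm_num
    · have hK : (0 : ℝ) < (K : ℝ) := by exact_mod_cast h
      have h3 : (1 + 1 / (K : ℝ)) ^ (K + 1) * (K : ℝ) ^ (K + 1) = ((K : ℝ) + 1) ^ (K + 1) := by
        rw [← mul_pow]
        congr 1
        field_simp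
      have h4 : (2 : ℝ) < 1 + ((K + 1 : ℕ) : ℝ) * (1 / (K : ℝ)) := by
        push_cast
        have : ((K : ℝ) + 1) * (1 / (K : ℝ)) = 1 + 1 / (K : ℝ) := by field_simp
        rw [this]
        have : (0 : ℝ) < 1 / (K : ℝ) := by positivity
        linarith
      have h5 : (2 : ℝ) * (K : ℝ) ^ (K + 1) < ((K : ℝ) + 1) ^ (K + 1) := by
        rw [← h3]
        exact mul_lt_mul_of_pos_right (h4.trans_le h2) (by positivity)
      exact_mod_cast h5
  have h6 := Nat.pow_lt_pow_left h1 (show X ≠ 0 by omega)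
  rw [mul_pow, ← pow_mul, ← pow_mul] at h6
  exact h6

theorem st_Phase (p : ℕ) [Fact p.Prime] (hB : ApxBasic p) (hG : ApxGate p) (hS : St_Step p) :
    St_Phase p := by
  intro m _ w d hmp hd
  obtain ⟨K₁, hK₁⟩ := hS m w d hmp hd
  -- constants
  set e : ℕ := (K₁ + 1) * (K₁ + w * m + 3) + K₁ + 4 with he
  refine ⟨(e + 3) * (K₁ + 1) + e + 3, ?_⟩
  intro ι _ _ X R N Γ y B T L Φ hst hX hN hR hΦ hT
  set D : ℕ := X + K₁ + w * m + 1 with hD
  set M : ℕ := (K₁ + 1) * X with hM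
  have hU : (K₁ + 1) * X + 1 + M * D + X + 1 ≤ pb (e + 2) X := by
    have h1 : (K₁ + 1) * X + 1 + M * D + X + 1 ≤ e * X ^ 2 := by
      have h2 : X ≤ X ^ 2 := by nlinarith
      have h3 : 1 ≤ X ^ 2 := Nat.one_le_pow _ _ hX
      have h4 : M * D ≤ (K₁ + 1) * (K₁ + w * m + 2) * X ^ 2 := by
        have h5 : D ≤ (K₁ + w * m + 2) * X := by
          rw [hD]
          nlinarith [Nat.zero_le (w * m), Nat.zero_le K₁]
        calc M * D ≤ ((K₁ + 1) * X) * ((K₁ + w * m + 2) * X) := Nat.mul_le_mul_left _ h5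
          _ = _ := by ring
      have h6 : (K₁ + 1) * X ≤ (K₁ + 1) * X ^ 2 := Nat.mul_le_mul_left _ h2
      calc (K₁ + 1) * X + 1 + M * D + X + 1 ≤ (K₁ + 1) * X ^ 2 + X ^ 2 +
            (K₁ + 1) * (K₁ + w * m + 2) * X ^ 2 + X ^ 2 + X ^ 2 := by omega
        _ = ((K₁ + 1) + (K₁ + 1) * (K₁ + w * m + 2) + 3) * X ^ 2 := by ring
        _ ≤ e * X ^ 2 := Nat.mul_le_mul_right _ (by rw [he]; nlinarith)
    refine h1.trans ?_
    unfold pb
    have h7 : 1 ≤ (e + 2) * X := Nat.mul_pos (by omega) hX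
    calc e * X ^ 2 ≤ ((e + 2) * X) ^ 2 := by
          rw [mul_pow]
          exact Nat.mul_le_mul_right _ (by nlinarith)
      _ ≤ ((e + 2) * X) ^ (e + 2) := Nat.pow_le_pow_right h7 (by omega)
  have hU2 : pb K₁ ((K₁ + 1) * X + 1 + M * D + X + 1) ≤ R := by
    refine le_trans ?_ hR
    refine (pb_mono le_rfl (by omega) hU).trans ?_
    refine (pb_pb (e + 2) K₁ hX).trans ?_
    refine pb_mono ?_ hX le_rfl
    have h1 : (e + 2 + 1) * (K₁ + 1) = (e + 3) * (K₁ + 1) := by ring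
    omega
  have hDw : w * m + 1 ≤ D := by rw [hD]; omega
  -- growth
  have key : ∀ i ≤ M, (∃ j ≤ M, ∃ Γ' y' B', Phase_Inv p w d X K₁ D j Γ y B T Γ' y' B' ∧
      ∀ c, Act X R Γ' (L c) → ∀ x ∈ cell Γ' y' B', Φ c (vals (L c) x) x = true) ∨
      ∃ Γ' y' B', Phase_Inv p w d X K₁ D i Γ y B T Γ' y' B' ∧
        (K₁ + 1) ^ i * (T ∩ cell Γ y B).card * (cell Γ' y' B').card ≤
          K₁ ^ i * (T ∩ cell Γ' y' B').card * (cell Γ y B).card := by
    intro i
    induction i with
    | zero =>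
      intro _
      right
      refine ⟨Γ, y, B, ⟨le_rfl, Subset.refl _, ?_, ?_, ?_⟩, ?_⟩
      · simpa using hst.cardΓ
      · exact ⟨fun j => j.elim0, fun j => j.elim0, fun x => by simp⟩
      · refine hst.dense.trans ?_
        exact Nat.mul_le_mul_right _ (Nat.pow_le_pow_right (by norm_num) (by nlinarith))
      · simp
    | succ i ih =>
      intro hi
      rcases ih (by omega) with h | ⟨Γ₁, y₁, B₁, hinv, hgr⟩
      · exact Or.inl h
      have hstt := Phase_stt hB hG hDw hst.apx hinv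
      have hbound : (K₁ + 1) * X + 1 + i * D + X + 1 ≤ (K₁ + 1) * X + 1 + M * D + X + 1 := by
        have : i * D ≤ M * D := Nat.mul_le_mul_right _ (by omega)
        omega
      obtain ⟨Γ₂, y₂, C, B₂, h1, h2, h3, h4, h5, h6, h7⟩ := hK₁ ι
        ((K₁ + 1) * X + 1 + i * D) X R N Γ₁ y₁ B₁ T L Φ hstt hX hN
        ((pb_mono le_rfl (by omega) hbound).trans hU2) hΦ hT
      have hinv2 : Phase_Inv p w d X K₁ D (i + 1) Γ y B T Γ₂ y₂ B₂ := by
        refine ⟨hinv.le.trans h1, h2.trans hinv.sub, ?_, ?_, ?_⟩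
        · refine h4.trans ?_
          calc m ^ w * Nat.card Γ₁ ≤ m ^ w * ((m ^ w) ^ i * 2 ^ X) :=
                Nat.mul_le_mul_left _ hinv.card
            _ = (m ^ w) ^ (i + 1) * 2 ^ X := by ring
        · obtain ⟨C', hC', hCB'⟩ := hinv.apx
          refine ⟨Fin.snoc (α := fun _ => (ι → Bool) → Bool) C' C, ?_, ?_⟩
          · intro j
            refine Fin.lastCases ?_ (fun j => ?_) j
            · rw [Fin.snoc_last]
              exact h5
            · rw [Fin.snoc_castSucc]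
              exact hC' j
          · intro x
            rw [h3, Bool.and_eq_true, hCB', Fin.forall_fin_succ']
            simp only [Fin.snoc_castSucc, Fin.snoc_last]
            tauto
        · refine h6.trans ?_
          refine Nat.mul_le_mul_right _ (Nat.pow_le_pow_right (by norm_num) ?_)
          rw [hD]
          nlinarith [Nat.zero_le (w * m)]
      rcases h7 with h7 | ⟨h7, h8⟩
      · right
        refine ⟨Γ₂, y₂, B₂, hinv2, ?_⟩
        have hpos : 0 < (T ∩ cell Γ₁ y₁ B₁).card := by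
          by_contra hcon
          have h9 : (T ∩ cell Γ₁ y₁ B₁).card = 0 := by omega
          have h10 := hinv.dense
          rw [h9, mul_zero] at h10
          have : 0 < 2 ^ Fintype.card ι := by positivity
          omega
        have hpos2 : 0 < (cell Γ₁ y₁ B₁).card :=
          lt_of_lt_of_le hpos (card_le_card inter_subset_right)
        have h11 := Nat.mul_le_mul hgr h7
        refine Nat.le_of_mul_le_mul_left (c := (T ∩ cell Γ₁ y₁ B₁).card * (cell Γ₁ y₁ B₁).card)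
          ?_ (Nat.mul_pos hpos hpos2)
        calc (T ∩ cell Γ₁ y₁ B₁).card * (cell Γ₁ y₁ B₁).card *
              ((K₁ + 1) ^ (i + 1) * (T ∩ cell Γ y B).card * (cell Γ₂ y₂ B₂).card)
            = (K₁ + 1) ^ i * (T ∩ cell Γ y B).card * (cell Γ₁ y₁ B₁).card *
              ((K₁ + 1) * (T ∩ cell Γ₁ y₁ B₁).card * (cell Γ₂ y₂ B₂).card) := by ring
          _ ≤ _ := h11
          _ = _ := by ring
      · left
        refine ⟨i + 1, hi, Γ₂, y₂, B₂, hinv2, fun c hc => h8 c ?_⟩
        rw [← h7]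
        exact hc
  rcases key M le_rfl with ⟨j, hj, Γ', y', B', hinv, hterm⟩ | ⟨Γ', y', B', hinv, hgr⟩
  · refine ⟨Γ', y', B', hinv.le, hinv.sub, ?_, hterm⟩
    have hstt := Phase_stt hB hG hDw hst.apx hinv
    have hle : (K₁ + 1) * X + 1 + j * D ≤ pb ((e + 3) * (K₁ + 1) + e + 3) X := by
      have h1 : j * D ≤ M * D := Nat.mul_le_mul_right _ hj
      have h2 : pb (e + 2) X ≤ pb ((e + 3) * (K₁ + 1) + e + 3) X :=
        pb_mono (by omega) hX le_rfl
      omega
    have h2 : 2 ^ ((K₁ + 1) * X + 1 + j * D) ≤ 2 ^ pb ((e + 3) * (K₁ + 1) + e + 3) X :=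
      Nat.pow_le_pow_right (by norm_num) hle
    exact ⟨hstt.cardΓ.trans h2, hB.mono ι _ _ _ _ B' le_rfl h2 hstt.apx,
      hstt.dense.trans (Nat.mul_le_mul_right _ h2)⟩
  · exfalso
    have hpos : 0 < (T ∩ cell Γ' y' B').card := by
      by_contra hcon
      have h9 : (T ∩ cell Γ' y' B').card = 0 := by omega
      have h10 := hinv.dense
      rw [h9, mul_zero] at h10
      have : 0 < 2 ^ Fintype.card ι := by positivity
      omega
    have hc : (T ∩ cell Γ' y' B').card ≤ (cell Γ' y' B').card := card_le_card inter_subset_right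
    have hpos2 : 0 < (cell Γ' y' B').card := lt_of_lt_of_le hpos hc
    have hc0 : (cell Γ y B).card ≤ 2 ^ Fintype.card ι := by
      have h1 : (cell Γ y B).card ≤ (univ : Finset (ι → Bool)).card := card_le_card (subset_univ _)
      rwa [card_univ, Fintype.card_fun, Fintype.card_bool] at h1
    have h1 : (K₁ + 1) ^ M * (T ∩ cell Γ y B).card ≤ K₁ ^ M * (cell Γ y B).card := by
      refine Nat.le_of_mul_le_mul_right (c := (cell Γ' y' B').card) ?_ hpos2
      calc (K₁ + 1) ^ M * (T ∩ cell Γ y B).card * (cell Γ' y' B').card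
          ≤ K₁ ^ M * (T ∩ cell Γ' y' B').card * (cell Γ y B).card := hgr
        _ ≤ K₁ ^ M * (cell Γ' y' B').card * (cell Γ y B).card :=
            Nat.mul_le_mul_right _ (Nat.mul_le_mul_left _ hc)
        _ = _ := by ring
    have hpos0 : 0 < (T ∩ cell Γ y B).card := by
      by_contra hcon
      have h9 : (T ∩ cell Γ y B).card = 0 := by omega
      have h10 := hst.dense
      rw [h9, mul_zero] at h10
      have : 0 < 2 ^ Fintype.card ι := by positivity
      omega
    have h2 : (K₁ + 1) ^ M * (T ∩ cell Γ y B).card ≤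
        2 ^ X * K₁ ^ M * (T ∩ cell Γ y B).card := by
      calc (K₁ + 1) ^ M * (T ∩ cell Γ y B).card ≤ K₁ ^ M * (cell Γ y B).card := h1
        _ ≤ K₁ ^ M * (2 ^ X * (T ∩ cell Γ y B).card) :=
            Nat.mul_le_mul_left _ (hc0.trans hst.dense)
        _ = _ := by ring
    have h3 := Nat.le_of_mul_le_mul_right h2 hpos0
    have h4 := Phase_ratio K₁ X hX
    rw [← hM] at h4
    omega

end Pool.Agent.MXC
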