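import Pool.Agent.MXC.Stmts

/-!
# Chebyshev's inequality for independent samples
-/

set_option autoImplicit false

namespace Pool.Agent.MXC

open Finset

theorem sample_split {Ω : Type} [Fintype Ω] (r : ℕ) (F : (Fin (r + 1) → Ω) → ℝ) :
    ∑ g, F g = ∑ a : Ω, ∑ g' : Fin r → Ω, F (Fin.cons a g') := by
  rw [← (Fin.consEquiv fun _ : Fin (r + 1) => Ω).sum_comp, Fintype.sum_prod_type]
  rfl

theorem sample_first {Ω : Type} [Fintype Ω] (h : Ω → ℝ) (h0 : ∑ a, h a = 0) (r : ℕ) :
    ∑ g : Fin r → Ω, ∑ i, h (g i) = 0 := by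
  rw [Finset.sum_comm]
  refine Finset.sum_eq_zero fun i _ => ?_
  induction r with
  | zero => exact absurd i.2 (by omega)
  | succ r ih =>
    rw [sample_split]
    rcases Fin.eq_zero_or_eq_succ i with hi | ⟨j, hj⟩
    · subst hi
      simp only [Fin.cons_zero, Finset.sum_const, ← Finset.smul_sum, h0, smul_zero]
    · subst hj
      simp only [Fin.cons_succ]
      refine Finset.sum_eq_zero fun a _ => ih j (mem_univ _)

theorem sample_second {Ω : Type} [Fintype Ω] (h : Ω → ℝ) (h0 : ∑ a, h a = 0) (r : ℕ) :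
    (Fintype.card Ω : ℝ) * ∑ g : Fin r → Ω, (∑ i, h (g i)) ^ 2 =
      r * (Fintype.card Ω : ℝ) ^ r * ∑ a, h a ^ 2 := by
  induction r with
  | zero => simp
  | succ r ih =>
    rw [sample_split]
    have h1 : ∀ a : Ω, ∑ g' : Fin r → Ω, (∑ i, h ((Fin.cons a g' : Fin (r + 1) → Ω) i)) ^ 2 =
        h a ^ 2 * (Fintype.card Ω : ℝ) ^ r + ∑ g' : Fin r → Ω, (∑ i, h (g' i)) ^ 2 := by
      intro a
      have h2 : ∀ g' : Fin r → Ω, (∑ i, h ((Fin.cons a g' : Fin (r + 1) → Ω) i)) ^ 2 =
          h a ^ 2 + 2 * h a * (∑ i, h (g' i)) + (∑ i, h (g' i)) ^ 2 := by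
        intro g'
        rw [Fin.sum_univ_succ]
        simp only [Fin.cons_zero, Fin.cons_succ]
        ring
      rw [Finset.sum_congr rfl fun g' _ => h2 g', Finset.sum_add_distrib,
        Finset.sum_add_distrib, Finset.sum_const, ← Finset.mul_sum, sample_first h h0,
        Finset.card_univ, Fintype.card_fun, Fintype.card_fin, nsmul_eq_mul]
      push_cast
      ring
    rw [Finset.sum_congr rfl fun a _ => h1 a, Finset.sum_add_distrib, ← Finset.sum_mul,
      Finset.sum_const, Finset.card_univ, nsmul_eq_mul, mul_add, ih]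
    push_cast
    ring

theorem st_Sample : St_Sample := by
  classical
  intro Ω _ _ _ A r κ hκ hr
  have hΩ : (0 : ℝ) < Fintype.card Ω := by exact_mod_cast Fintype.card_pos
  have hrR : (0 : ℝ) < r := by exact_mod_cast hr
  set q : ℝ := (A.card : ℝ) / (Fintype.card Ω : ℝ) with hq
  have hqA : q * Fintype.card Ω = A.card := by
    rw [hq]
    field_simp
  have hq0 : 0 ≤ q := by positivity
  let h : Ω → ℝ := fun a => (if a ∈ A then 1 else 0) - q
  have h0 : ∑ a, h a = 0 := by
    simp only [h, Finset.sum_sub_distrib, Finset.sum_const, Finset.card_univ, nsmul_eq_mul]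
    rw [← Finset.sum_filter, Finset.sum_const, nsmul_eq_mul, mul_one]
    have : (univ.filter fun a => a ∈ A) = A := by ext a; simp
    rw [this, ← hqA]
    ring
  have hsq : ∑ a, h a ^ 2 ≤ Fintype.card Ω / 4 := by
    have h1 : ∀ a, h a ^ 2 = (1 - 2 * q) * (if a ∈ A then 1 else 0) + q ^ 2 := by
      intro a
      simp only [h]
      by_cases ha : a ∈ A
      · rw [if_pos ha]; ring
      · rw [if_neg ha]; ring
    rw [Finset.sum_congr rfl fun a _ => h1 a, Finset.sum_add_distrib, ← Finset.mul_sum,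
      Finset.sum_const, Finset.card_univ, nsmul_eq_mul, ← Finset.sum_filter, Finset.sum_const,
      nsmul_eq_mul, mul_one]
    have : (univ.filter fun a => a ∈ A) = A := by ext a; simp
    rw [this, ← hqA]
    nlinarith [sq_nonneg (1 - 2 * q)]
  have h2 := sample_second h h0 r
  have hX : ∀ g : Fin r → Ω, ∑ i, h (g i) =
      ((univ.filter fun i => g i ∈ A).card : ℝ) - q * r := by
    intro g
    simp only [h, Finset.sum_sub_distrib, Finset.sum_const, Finset.card_univ, nsmul_eq_mul,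
      Fintype.card_fin]
    rw [← Finset.sum_filter, Finset.sum_const, nsmul_eq_mul, mul_one]
    ring
  set bad := univ.filter fun g : Fin r → Ω => κ * r ≤
      |((univ.filter fun i => g i ∈ A).card : ℝ) - q * r| with hbad
  have h3 : (bad.card : ℝ) * (κ * r) ^ 2 ≤ ∑ g : Fin r → Ω, (∑ i, h (g i)) ^ 2 := by
    calc (bad.card : ℝ) * (κ * r) ^ 2 = ∑ g ∈ bad, (κ * r) ^ 2 := by
          rw [Finset.sum_const, nsmul_eq_mul]
      _ ≤ ∑ g ∈ bad, (∑ i, h (g i)) ^ 2 := by
          refine Finset.sum_le_sum fun g hg => ?_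
          rw [hX, ← sq_abs (((univ.filter fun i => g i ∈ A).card : ℝ) - q * r)]
          exact pow_le_pow_left₀ (by positivity) (mem_filter.1 hg).2 2
      _ ≤ ∑ g : Fin r → Ω, (∑ i, h (g i)) ^ 2 :=
          Finset.sum_le_sum_of_subset_of_nonneg (Finset.subset_univ _)
            fun _ _ _ => sq_nonneg _
  have h4 : (Fintype.card Ω : ℝ) * ((bad.card : ℝ) * (κ * r) ^ 2) ≤
      r * (Fintype.card Ω : ℝ) ^ r * (Fintype.card Ω / 4) := by
    calc (Fintype.card Ω : ℝ) * ((bad.card : ℝ) * (κ * r) ^ 2)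
        ≤ (Fintype.card Ω : ℝ) * ∑ g : Fin r → Ω, (∑ i, h (g i)) ^ 2 :=
          mul_le_mul_of_nonneg_left h3 hΩ.le
      _ = r * (Fintype.card Ω : ℝ) ^ r * ∑ a, h a ^ 2 := h2
      _ ≤ _ := mul_le_mul_of_nonneg_left hsq (by positivity)
  have h5 : (Fintype.card Ω : ℝ) * r * ((bad.card : ℝ) * (4 * κ ^ 2 * r)) ≤
      (Fintype.card Ω : ℝ) * r * (Fintype.card Ω : ℝ) ^ r := by
    nlinarith
  exact le_of_mul_le_mul_left h5 (by positivity)

end Pool.Agent.MXC
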