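import Pool.Agent.MXC.Stmts

/-!
# Mixed clauses: module Sel
-/

set_option autoImplicit false

namespace Pool.Agent.MXC

open Finset Pool.Agent.RS Pool.Agent.Helper21.LinSys Pool.Agent.QuadSys

theorem st_Sel : St_Sel := by
  intro J s t x n ε hε0 hε1 hnn hT hX hN
  by_contra hcon
  push Not at hcon
  set T := ∑ j ∈ s, t j with hTdef
  set X := ∑ j ∈ s, x j with hXdef
  set N := ∑ j ∈ s, n j with hNdef
  have hle : ∀ j ∈ s, t j * (X * N) ≤ (1 - ε) * T * x j * N + ε * T * n j * X := by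
    intro j hj
    obtain ⟨h1, h2, h3⟩ := hnn j hj
    have ha : 0 ≤ (1 - ε) * T * x j :=
      mul_nonneg (mul_nonneg (by linarith) hT.le) h2
    have hb : 0 ≤ ε * T * n j := mul_nonneg (mul_nonneg hε0 hT.le) h3
    have ha' : 0 ≤ (1 - ε) * T * x j * N := mul_nonneg ha hN.le
    have hb' : 0 ≤ ε * T * n j * X := mul_nonneg hb hX.le
    rcases h1.eq_or_lt with h0 | h0
    · rw [← h0, zero_mul]
      exact add_nonneg ha' hb'
    · by_cases hc : (1 - ε) * T * x j ≤ t j * X
      · have h4 := (hcon j hj h0 hc).le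
        calc t j * (X * N) = t j * N * X := by ring
          _ ≤ ε * T * n j * X := mul_le_mul_of_nonneg_right h4 hX.le
          _ ≤ _ := le_add_of_nonneg_left ha'
      · have h4 := (not_le.1 hc).le
        calc t j * (X * N) = t j * X * N := by ring
          _ ≤ (1 - ε) * T * x j * N := mul_le_mul_of_nonneg_right h4 hN.le
          _ ≤ _ := le_add_of_nonneg_right hb'
  obtain ⟨j0, hj0, hpos⟩ : ∃ j ∈ s, 0 < t j := by
    by_contra hno
    push Not at hno
    exact absurd (Finset.sum_nonpos hno) (not_le.2 hT)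
  have hlt : t j0 * (X * N) < (1 - ε) * T * x j0 * N + ε * T * n j0 * X := by
    obtain ⟨h1, h2, h3⟩ := hnn j0 hj0
    have ha : 0 ≤ (1 - ε) * T * x j0 :=
      mul_nonneg (mul_nonneg (by linarith) hT.le) h2
    have hb : 0 ≤ ε * T * n j0 := mul_nonneg (mul_nonneg hε0 hT.le) h3
    have ha' : 0 ≤ (1 - ε) * T * x j0 * N := mul_nonneg ha hN.le
    have hb' : 0 ≤ ε * T * n j0 * X := mul_nonneg hb hX.le
    by_cases hc : (1 - ε) * T * x j0 ≤ t j0 * X
    · have h4 := hcon j0 hj0 hpos hc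
      calc t j0 * (X * N) = t j0 * N * X := by ring
        _ < ε * T * n j0 * X := mul_lt_mul_of_pos_right h4 hX
        _ ≤ _ := le_add_of_nonneg_left ha'
    · have h4 := not_le.1 hc
      calc t j0 * (X * N) = t j0 * X * N := by ring
        _ < (1 - ε) * T * x j0 * N := mul_lt_mul_of_pos_right h4 hN
        _ ≤ _ := le_add_of_nonneg_right hb'
  have hsum := Finset.sum_lt_sum hle ⟨j0, hj0, hlt⟩
  have e1 : ∑ j ∈ s, t j * (X * N) = T * (X * N) := by rw [← Finset.sum_mul]
  have e2 : ∑ j ∈ s, ((1 - ε) * T * x j * N + ε * T * n j * X) =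
      (1 - ε) * T * X * N + ε * T * N * X := by
    rw [Finset.sum_add_distrib, ← Finset.sum_mul, ← Finset.sum_mul, ← Finset.mul_sum,
      ← Finset.mul_sum]
  rw [e1, e2] at hsum
  have e3 : (1 - ε) * T * X * N + ε * T * N * X = T * (X * N) := by ring
  rw [e3] at hsum
  exact lt_irrefl _ hsum

end Pool.Agent.MXC
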