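import Pool.Agent.MXC.Stmts
import Pool.Agent.RS.Center

/-!
# Smolensky's bound for powers of a field element
-/

set_option autoImplicit false

namespace Pool.Agent.MXC

open Finset Pool.Agent.RS

theorem smol_half (N h : ℕ) (hh : 2 * h ≤ N + 1) :
    2 * ∑ i ∈ range h, N.choose i ≤ 2 ^ N := by
  have h1 : ∑ i ∈ range h, N.choose i = ∑ i ∈ (range h).image fun i => N - i, N.choose i := by
    rw [Finset.sum_image]
    · refine Finset.sum_congr rfl fun i hi => ?_
      rw [mem_range] at hi
      exact (Nat.choose_symm (by omega)).symm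
    · intro i hi j hj hij
      have h2 := mem_range.1 hi
      have h3 := mem_range.1 hj
      simp only at hij
      omega
  have hd : Disjoint (range h) ((range h).image fun i => N - i) := by
    rw [Finset.disjoint_left]
    intro i hi hi'
    rw [mem_image] at hi'
    obtain ⟨j, hj, rfl⟩ := hi'
    have h2 := mem_range.1 hi
    have h3 := mem_range.1 hj
    omega
  have hsub : range h ∪ (range h).image (fun i => N - i) ⊆ range (N + 1) := by
    intro i hi
    rw [mem_union, mem_image] at hi
    rw [mem_range]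
    rcases hi with hi | ⟨j, _, rfl⟩
    · have := mem_range.1 hi
      omega
    · omega
  calc 2 * ∑ i ∈ range h, N.choose i = ∑ i ∈ range h, N.choose i +
      ∑ i ∈ (range h).image fun i => N - i, N.choose i := by rw [← h1]; ring
    _ = ∑ i ∈ range h ∪ (range h).image (fun i => N - i), N.choose i :=
        (Finset.sum_union hd).symm
    _ ≤ ∑ i ∈ range (N + 1), N.choose i :=
        Finset.sum_le_sum_of_subset hsub
    _ = 2 ^ N := Nat.sum_range_choose N

theorem smol_mid (M J : ℕ) (hJ : 2 * J ^ 2 ≤ M) :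
    (2 * J + 1) * (2 * M).choose M ≤ 2 * 2 ^ (2 * M) := by
  have hJM : J ≤ M := by
    rcases Nat.eq_zero_or_pos J with h | h
    · omega
    · have : J ≤ 2 * J ^ 2 := by nlinarith
      omega
  have h1 : ∀ i ∈ Icc (M - J) (M + J), (2 * M).choose M ≤ 2 * (2 * M).choose i := by
    intro i hi
    rw [mem_Icc] at hi
    rcases Nat.le_total i M with h | h
    · have h2 := choose_half M (M - i) (by
        have : M - i ≤ J := by omega
        have := Nat.pow_le_pow_left this 2
        omega)
      rwa [show M - (M - i) = i by omega] at h2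
    · have h2 := choose_half M (i - M) (by
        have : i - M ≤ J := by omega
        have := Nat.pow_le_pow_left this 2
        omega)
      rw [show M - (i - M) = 2 * M - i by omega, Nat.choose_symm (by omega)] at h2
      exact h2
  have h2 : (Icc (M - J) (M + J)).card = 2 * J + 1 := by
    rw [Nat.card_Icc]
    omega
  calc (2 * J + 1) * (2 * M).choose M = ∑ i ∈ Icc (M - J) (M + J), (2 * M).choose M := by
        rw [Finset.sum_const, h2, smul_eq_mul]
    _ ≤ ∑ i ∈ Icc (M - J) (M + J), 2 * (2 * M).choose i := Finset.sum_le_sum h1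
    _ = 2 * ∑ i ∈ Icc (M - J) (M + J), (2 * M).choose i := (Finset.mul_sum _ _ _).symm
    _ ≤ 2 * ∑ i ∈ range (2 * M + 1), (2 * M).choose i := by
        refine Nat.mul_le_mul_left _ (Finset.sum_le_sum_of_subset ?_)
        intro i hi
        rw [mem_Icc] at hi
        rw [mem_range]
        omega
    _ = 2 * 2 ^ (2 * M) := by rw [Nat.sum_range_choose]

theorem smol_center (N D : ℕ) (h : 100 * (D + 1) ^ 2 ≤ N) :
    (10 * (D + 1) + 1) * N.choose (N / 2) ≤ 2 * 2 ^ N := by
  rcases Nat.even_or_odd' N with ⟨M, hM | hM⟩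
  · have h1 := smol_mid M (5 * (D + 1)) (by
      have : 2 * (5 * (D + 1)) ^ 2 = 50 * (D + 1) ^ 2 := by ring
      omega)
    rw [hM, show 2 * M / 2 = M by omega]
    rw [show 10 * (D + 1) + 1 = 2 * (5 * (D + 1)) + 1 by ring]
    exact h1
  · have h1 := smol_mid (M + 1) (5 * (D + 1)) (by
      have : 2 * (5 * (D + 1)) ^ 2 = 50 * (D + 1) ^ 2 := by ring
      omega)
    rw [hM, show (2 * M + 1) / 2 = M by omega]
    have h2 : (2 * (M + 1)).choose (M + 1) = 2 * (2 * M + 1).choose M := by
      have h3 : (2 * (M + 1)).choose (M + 1) =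
          (2 * M + 1).choose M + (2 * M + 1).choose (M + 1) := by
        rw [show 2 * (M + 1) = (2 * M + 1) + 1 by ring]
        exact Nat.choose_succ_succ' _ _
      have h4 : (2 * M + 1).choose (M + 1) = (2 * M + 1).choose M := by
        have := Nat.choose_symm (n := 2 * M + 1) (k := M) (by omega)
        rw [show 2 * M + 1 - M = M + 1 by omega] at this
        exact this
      omega
    rw [h2] at h1
    have h5 : 2 ^ (2 * (M + 1)) = 2 * 2 ^ (2 * M + 1) := by
      rw [show 2 * (M + 1) = (2 * M + 1) + 1 by ring, pow_succ]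
      ring
    rw [h5] at h1
    rw [show 10 * (D + 1) + 1 = 2 * (5 * (D + 1)) + 1 by ring]
    have h6 : 2 * ((2 * (5 * (D + 1)) + 1) * (2 * M + 1).choose M) ≤
        2 * (2 * 2 ^ (2 * M + 1)) := by
      calc 2 * ((2 * (5 * (D + 1)) + 1) * (2 * M + 1).choose M)
          = (2 * (5 * (D + 1)) + 1) * (2 * (2 * M + 1).choose M) := by ring
        _ ≤ 2 * (2 * 2 ^ (2 * M + 1)) := h1
    exact Nat.le_of_mul_le_mul_left h6 (by norm_num)

theorem smol_sum (N D : ℕ) (h : 100 * (D + 1) ^ 2 ≤ N) :
    10 * ∑ i ∈ range (N / 2 + D + 1), N.choose i ≤ 7 * 2 ^ N := by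
  have h1 := smol_half N ((N + 1) / 2) (by omega)
  have h2 := smol_center N D h
  have h3 : ∑ i ∈ range (N / 2 + D + 1), N.choose i ≤
      ∑ i ∈ range ((N + 1) / 2), N.choose i + (D + 1) * N.choose (N / 2) := by
    have hsplit : range (N / 2 + D + 1) ⊆
        range ((N + 1) / 2) ∪ Ico ((N + 1) / 2) (N / 2 + D + 1) := by
      intro i hi
      rw [mem_range] at hi
      rw [mem_union, mem_range, mem_Ico]
      omega
    refine (Finset.sum_le_sum_of_subset hsplit).trans ?_
    rw [Finset.sum_union (by
      rw [Finset.disjoint_left]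
      intro i hi hi'
      rw [mem_range] at hi
      rw [mem_Ico] at hi'
      omega)]
    refine Nat.add_le_add_left ?_ _
    refine (Finset.sum_le_card_nsmul _ _ (N.choose (N / 2)) fun i _ =>
      Nat.choose_le_middle i N).trans ?_
    rw [Nat.card_Ico, smul_eq_mul]
    exact Nat.mul_le_mul_right _ (by omega)
  have h4 : 10 * ((D + 1) * N.choose (N / 2)) ≤ 2 * 2 ^ N := by
    refine le_trans ?_ h2
    rw [← mul_assoc]
    exact Nat.mul_le_mul_right _ (by omega)
  omega

section dim

variable {F : Type} [Field F] {N : ℕ}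

theorem smol_lit_mem (a : F) (i : Fin N) :
    (fun z : Finset (Fin N) => if i ∈ z then a else 1) ∈ lowDeg F (Fin N) 1 := by
  have : (fun z : Finset (Fin N) => if i ∈ z then a else 1) =
      1 + (a - 1) • (fun z => if i ∈ z then (1 : F) else 0) := by
    funext z
    by_cases h : i ∈ z <;> simp [h]
  rw [this]
  exact Submodule.add_mem _ (one_mem_lowDeg 1) (Submodule.smul_mem _ _ (mem_lit i))

theorem smol_prod_lit (a : F) (S z : Finset (Fin N)) :
    (∏ i ∈ S, (fun z : Finset (Fin N) => if i ∈ z then a else 1)) z = a ^ (S ∩ z).card := by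
  rw [Finset.prod_apply, Finset.prod_ite, Finset.prod_const_one, mul_one, Finset.prod_const]
  congr 2

theorem smol_finrank (D : ℕ) :
    Module.finrank F (lowDeg F (Fin N) D) ≤ ∑ i ∈ range (D + 1), N.choose i := by
  classical
  have h1 : {f | ∃ S : Finset (Fin N), S.card ≤ D ∧ f = mono F S} =
      (((univ : Finset (Finset (Fin N))).filter fun S => S.card ≤ D).image (mono F) :
        Set (Finset (Fin N) → F)) := by
    ext f
    simp only [Set.mem_ofPred_eq, coe_image, coe_filter, mem_univ, true_and, Set.mem_image]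
    constructor
    · rintro ⟨S, hS, rfl⟩
      exact ⟨S, hS, rfl⟩
    · rintro ⟨S, hS, rfl⟩
      exact ⟨S, hS, rfl⟩
  unfold lowDeg
  rw [h1]
  refine (finrank_span_finset_le_card _).trans (card_image_le.trans ?_)
  have h2 : ((univ : Finset (Finset (Fin N))).filter fun S => S.card ≤ D).card =
      ∑ i ∈ range (D + 1), (((univ : Finset (Finset (Fin N))).filter
        fun S => S.card ≤ D).filter fun S => S.card = i).card := by
    refine Finset.card_eq_sum_card_fiberwise fun S hS => ?_
    have := (mem_filter.1 hS).2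
    exact mem_coe.2 (mem_range.2 (by omega))
  rw [h2]
  refine Finset.sum_le_sum fun i _ => ?_
  have h3 : (((univ : Finset (Finset (Fin N))).filter
      fun S => S.card ≤ D).filter fun S => S.card = i) ⊆ powersetCard i univ := by
    intro S hS
    rw [mem_filter] at hS
    rw [mem_powersetCard]
    exact ⟨subset_univ _, hS.2⟩
  have h4 := card_le_card h3
  rwa [card_powersetCard, card_univ, Fintype.card_fin] at h4

theorem smol_dim {D : ℕ} (ω : F) (h0 : ω ≠ 0) (h1 : ω ≠ 1) (P : Finset (Fin N) → F)
    (hP : P ∈ lowDeg F (Fin N) D) (A : Finset (Finset (Fin N)))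
    (hA : ∀ z ∈ A, P z = ω ^ z.card) :
    A.card ≤ ∑ i ∈ range (N / 2 + D + 1), N.choose i := by
  classical
  let W : Submodule F (Finset (Fin N) → F) :=
    { carrier := {f | ∃ g ∈ lowDeg F (Fin N) (N / 2 + D), ∀ z ∈ A, f z = g z}
      zero_mem' := ⟨0, Submodule.zero_mem _, fun _ _ => rfl⟩
      add_mem' := by
        rintro f f' ⟨g, hg, h⟩ ⟨g', hg', h'⟩
        exact ⟨g + g', Submodule.add_mem _ hg hg', fun z hz => by
          rw [Pi.add_apply, Pi.add_apply, h z hz, h' z hz]⟩
      smul_mem' := by
        rintro c f ⟨g, hg, h⟩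
        exact ⟨c • g, Submodule.smul_mem _ c hg, fun z hz => by
          rw [Pi.smul_apply, Pi.smul_apply, h z hz]⟩ }
  have hW : ∀ f, f ∈ W ↔ ∃ g ∈ lowDeg F (Fin N) (N / 2 + D), ∀ z ∈ A, f z = g z :=
    fun f => Iff.rfl
  -- products of the functions ω ^ x_i
  have c1 : ∀ S : Finset (Fin N),
      (∏ i ∈ S, (fun z : Finset (Fin N) => if i ∈ z then ω else 1)) ∈ W := by
    intro S
    rw [hW]
    by_cases hS : S.card ≤ N / 2
    · refine ⟨_, ?_, fun _ _ => rfl⟩
      have := prod_mem_lowDeg (F := F) (D := 1) S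
        (fun i (z : Finset (Fin N)) => if i ∈ z then ω else 1) fun i _ => smol_lit_mem ω i
      exact lowDeg_mono (by omega) this
    · refine ⟨P * ∏ i ∈ Sᶜ, (fun z : Finset (Fin N) => if i ∈ z then ω⁻¹ else 1), ?_, ?_⟩
      · have h2 := prod_mem_lowDeg (F := F) (D := 1) Sᶜ
          (fun i (z : Finset (Fin N)) => if i ∈ z then ω⁻¹ else 1)
          fun i _ => smol_lit_mem ω⁻¹ i
        have h3 := mul_mem_lowDeg hP h2
        refine lowDeg_mono ?_ h3
        rw [card_compl, Fintype.card_fin]
        omega
      · intro z hz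
        rw [Pi.mul_apply, smol_prod_lit, smol_prod_lit, hA z hz, inv_pow]
        have h4 : (S ∩ z).card + (Sᶜ ∩ z).card = z.card := by
          rw [← card_union_of_disjoint]
          · congr 1
            ext i
            simp only [mem_union, mem_inter, mem_compl]
            tauto
          · rw [Finset.disjoint_left]
            intro i hi hi'
            rw [mem_inter] at hi hi'
            exact (mem_compl.1 hi'.1) hi.1
        rw [← h4, pow_add, mul_assoc, mul_inv_cancel₀ (pow_ne_zero _ h0), mul_one]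
  have c2 : ∀ S : Finset (Fin N), mono F S ∈ W := by
    intro S
    have hω : ω - 1 ≠ 0 := sub_ne_zero.2 h1
    have h2 : mono F S = ((ω - 1)⁻¹) ^ S.card •
        ∏ i ∈ S, ((fun z : Finset (Fin N) => if i ∈ z then ω else 1) +
          (fun _ => (-1 : F))) := by
      funext z
      rw [Pi.smul_apply, Finset.prod_apply, smul_eq_mul, ← Finset.prod_const,
        ← Finset.prod_mul_distrib]
      unfold mono
      by_cases h : S ⊆ z
      · rw [if_pos h, Finset.prod_eq_one]
        intro i hi
        rw [Pi.add_apply, if_pos (h hi), ← sub_eq_add_neg, inv_mul_cancel₀ hω]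
      · rw [if_neg h]
        obtain ⟨i, hi, hiz⟩ := Finset.not_subset.1 h
        rw [Finset.prod_eq_zero hi]
        rw [Pi.add_apply, if_neg hiz]
        ring
    rw [h2, Finset.prod_add]
    refine Submodule.smul_mem _ _ (Submodule.sum_mem _ fun T _ => ?_)
    have h3 : (∏ _i ∈ S \ T, (fun _ => (-1 : F) : Finset (Fin N) → F)) =
        fun _ => (-1 : F) ^ (S \ T).card := by
      funext z
      rw [Finset.prod_apply, Finset.prod_const]
    have h4 : (∏ i ∈ T, (fun z : Finset (Fin N) => if i ∈ z then ω else 1)) *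
        (∏ _i ∈ S \ T, (fun _ => (-1 : F) : Finset (Fin N) → F)) =
        ((-1 : F) ^ (S \ T).card) •
          ∏ i ∈ T, (fun z : Finset (Fin N) => if i ∈ z then ω else 1) := by
      rw [h3]
      funext z
      simp only [Pi.mul_apply, Pi.smul_apply, smul_eq_mul]
      ring
    rw [h4]
    exact Submodule.smul_mem _ _ (c1 T)
  have c3 : lowDeg F (Fin N) N ≤ W := by
    refine Submodule.span_le.2 ?_
    rintro f ⟨S, _, rfl⟩
    exact c2 S
  have c4 : ∀ f, f ∈ W := by
    intro f
    have hd : ∀ z : Finset (Fin N), ∃ δ ∈ lowDeg F (Fin N) N, δ z = 1 ∧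
        ∀ y : Finset (Fin N), y.card ≤ N → y ≠ z → δ y = 0 := by
      intro z
      refine exists_delta N z ?_
      have := card_le_univ z
      rwa [Fintype.card_fin] at this
    choose δ hδ1 hδ2 hδ3 using hd
    have h2 : f = ∑ z, f z • δ z := by
      funext y
      rw [Finset.sum_apply, Finset.sum_eq_single y]
      · rw [Pi.smul_apply, hδ2, smul_eq_mul, mul_one]
      · intro z _ hz
        rw [Pi.smul_apply, hδ3 z y _ hz.symm, smul_zero]
        have := card_le_univ y
        rwa [Fintype.card_fin] at this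
      · intro h
        exact absurd (mem_univ y) h
    rw [h2]
    exact Submodule.sum_mem _ fun z _ => Submodule.smul_mem _ _ (c3 (hδ1 z))
  -- restriction to A
  let φ : lowDeg F (Fin N) (N / 2 + D) →ₗ[F] (A → F) :=
    { toFun := fun g z => (g : Finset (Fin N) → F) z
      map_add' := fun _ _ => rfl
      map_smul' := fun _ _ => rfl }
  have hφ : Function.Surjective φ := by
    intro a
    obtain ⟨g, hg, h⟩ := (hW _).1 (c4 fun z => if hz : z ∈ A then a ⟨z, hz⟩ else 0)
    refine ⟨⟨g, hg⟩, ?_⟩
    funext z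
    have h2 := h z z.2
    rw [dif_pos z.2] at h2
    exact h2.symm
  have h5 := LinearMap.finrank_le_finrank_of_surjective hφ
  rw [Module.finrank_fintype_fun_eq_card, Fintype.card_coe] at h5
  exact h5.trans (smol_finrank _)

end dim

theorem st_Smol : St_Smol := by
  intro F _ N D ω P A h0 h1 hP hN hA
  have h2 := smol_dim ω h0 h1 P hP A hA
  have h3 := smol_sum N D hN
  omega

end Pool.Agent.MXC
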