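import Pool.Agent.MXC.Stmts
import Pool.Agent.Helper21.LinSys.Tree

/-!
# Mixed clauses: module Step
-/

set_option autoImplicit false

namespace Pool.Agent.MXC

open Finset Pool.Agent.RS Pool.Agent.Helper21.LinSys Pool.Agent.QuadSys

section forms

variable {ι : Type} [Fintype ι] [DecidableEq ι] {m : ℕ}

theorem step_off_zero : off ∅ (0 : ι → ZMod m) = 0 := by
  unfold off
  rw [Finset.card_eq_zero, Finset.filter_eq_empty_iff]
  rintro i - ⟨-, h⟩
  exact h rfl

theorem step_off_neg (L : ι → ZMod m) : off ∅ (-L) = off ∅ L := by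
  unfold off
  congr 1
  ext i
  rw [Finset.mem_filter, Finset.mem_filter, Pi.neg_apply, neg_ne_zero]

theorem step_off_add (L L' : ι → ZMod m) : off ∅ (L + L') ≤ off ∅ L + off ∅ L' := by
  unfold off
  refine le_trans (Finset.card_le_card ?_) (Finset.card_union_le _ _)
  intro i hi
  rw [Finset.mem_filter] at hi
  rw [Finset.mem_union, Finset.mem_filter, Finset.mem_filter]
  by_cases h : L i = 0
  · right
    refine ⟨hi.1, hi.2.1, fun h' => hi.2.2 ?_⟩
    rw [Pi.add_apply, h, h', add_zero]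
  · left
    exact ⟨hi.1, hi.2.1, h⟩

omit [Fintype ι] [DecidableEq ι] in
theorem step_comb_zero {w : ℕ} (L : Fin w → ι → ZMod m) : comb 0 L = 0 := by
  funext i
  show ∑ a, (0 : Fin w → ZMod m) a * L a i = 0
  exact Finset.sum_eq_zero fun a _ => by rw [Pi.zero_apply, zero_mul]

omit [Fintype ι] [DecidableEq ι] in
theorem step_comb_neg {w : ℕ} (h : Fin w → ZMod m) (L : Fin w → ι → ZMod m) :
    comb (-h) L = -comb h L := by
  funext i
  show ∑ a, (-h) a * L a i = -∑ a, h a * L a i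
  rw [← Finset.sum_neg_distrib]
  exact Finset.sum_congr rfl fun a _ => by rw [Pi.neg_apply, neg_mul]

omit [Fintype ι] [DecidableEq ι] in
theorem step_comb_add {w : ℕ} (h h' : Fin w → ZMod m) (L : Fin w → ι → ZMod m) :
    comb (h + h') L = comb h L + comb h' L := by
  funext i
  show ∑ a, (h + h') a * L a i = ∑ a, h a * L a i + ∑ a, h' a * L a i
  rw [← Finset.sum_add_distrib]
  exact Finset.sum_congr rfl fun a _ => by rw [Pi.add_apply, add_mul]

omit [DecidableEq ι] in
theorem step_ev_comb {w : ℕ} (h : Fin w → ZMod m) (L : Fin w → ι → ZMod m) (x : ι → Bool) :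
    ev (comb h L) x = pair h (vals L x) := by
  unfold ev comb pair vals ev
  have : ∀ a, h a * ∑ i, (if x i = true then L a i else 0) =
      ∑ i, if x i = true then h a * L a i else 0 := by
    intro a
    rw [Finset.mul_sum]
    refine Finset.sum_congr rfl fun i _ => ?_
    split_ifs
    · rfl
    · exact mul_zero _
  rw [Finset.sum_congr rfl fun a _ => this a, Finset.sum_comm]
  refine Finset.sum_congr rfl fun i _ => ?_
  split_ifs
  · rfl
  · exact Finset.sum_const_zero.symm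

/-- The characters which are small modulo `Γ` form a subgroup, and the condition that `v` agrees
with them on the fibre is a junta. -/
theorem step_con (p : ℕ) [Fact p.Prime] (hM : ApxMore p) [NeZero m] {w : ℕ} (Y R : ℕ)
    (hY : 1 ≤ Y) (hYR : 2 * Y ≤ R) (Γ : AddSubgroup (ι → ZMod m)) (y : ι → Bool)
    (L : Fin w → ι → ZMod m) (hact : Act Y R Γ L) :
    ∃ (Kn : AddSubgroup (Fin w → ZMod m)) (con : (Fin w → ZMod m) → (ι → Bool) → Bool),
      (∀ h, h ∉ Kn → ∀ l ∈ Γ, R ≤ off ∅ (comb h L + l)) ∧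
      (∀ v, Apx p 2 (2 ^ (m ^ w * Y) + 1) (con v)) ∧
      ∀ v, ∀ x ∈ fibz Γ ∅ y y, (con v x = true ↔ ∀ h ∈ Kn, pair h (vals L x) = pair h v) := by
  classical
  let Kn : AddSubgroup (Fin w → ZMod m) :=
    { carrier := {h | ∃ l ∈ Γ, off ∅ (comb h L + l) < Y}
      zero_mem' := by
        refine ⟨0, Γ.zero_mem, ?_⟩
        rw [step_comb_zero, add_zero, step_off_zero]
        exact hY
      add_mem' := by
        rintro h h' ⟨l, hl, h1⟩ ⟨l', hl', h2⟩
        refine hact (h + h') ⟨l + l', Γ.add_mem hl hl', ?_⟩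
        have e : comb (h + h') L + (l + l') = (comb h L + l) + (comb h' L + l') := by
          rw [step_comb_add]; exact add_add_add_comm _ _ _ _
        rw [e]
        have := step_off_add (comb h L + l) (comb h' L + l')
        omega
      neg_mem' := by
        rintro h ⟨l, hl, h1⟩
        refine ⟨-l, Γ.neg_mem hl, ?_⟩
        have e : comb (-h) L + -l = -(comb h L + l) := by
          rw [step_comb_neg]; exact (neg_add _ _).symm
        rw [e, step_off_neg]
        exact h1 }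
  have hKn : ∀ h, h ∈ Kn ↔ ∃ l ∈ Γ, off ∅ (comb h L + l) < Y := fun h => Iff.rfl
  have hpick : ∀ h, h ∈ Kn → ∃ l ∈ Γ, off ∅ (comb h L + l) < Y := fun h hh => (hKn h).1 hh
  choose! pk hpk1 hpk2 using hpick
  refine ⟨Kn, fun v x => decide (∀ h ∈ Kn, ev (comb h L + pk h) x - ev (pk h) y = pair h v),
    ?_, ?_, ?_⟩
  · intro h hh l hl
    by_contra hlt
    push Not at hlt
    exact hh ((hKn h).2 (hact h ⟨l, hl, hlt⟩))
  · intro v
    let J : Finset ι := ((univ : Finset (Fin w → ZMod m)).filter fun h => h ∈ Kn).biUnion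
      fun h => univ.filter fun i => i ∉ (∅ : Finset ι) ∧ (comb h L + pk h) i ≠ 0
    have hJ : J.card ≤ m ^ w * Y := by
      refine Finset.card_biUnion_le.trans ?_
      refine (Finset.sum_le_card_nsmul _ _ Y ?_).trans ?_
      · intro h hh
        exact (hpk2 h (Finset.mem_filter.1 hh).2).le
      · rw [smul_eq_mul]
        refine Nat.mul_le_mul_right _ ((Finset.card_filter_le _ _).trans ?_)
        rw [Finset.card_univ, Fintype.card_fun, ZMod.card, Fintype.card_fin]
    have h1 := hM.junta ι J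
      (fun x => decide (∀ h ∈ Kn, ev (comb h L + pk h) x - ev (pk h) y = pair h v)) (by
        intro x x' hxx
        have : ∀ h ∈ Kn, ev (comb h L + pk h) x = ev (comb h L + pk h) x' := by
          intro h hh
          refine ev_congr fun i hi => hxx i ?_
          exact Finset.mem_biUnion.2 ⟨h, Finset.mem_filter.2 ⟨Finset.mem_univ _, hh⟩,
            Finset.mem_filter.2 ⟨Finset.mem_univ _, Finset.notMem_empty _, hi⟩⟩
        refine decide_eq_decide.2 ⟨fun H h hh => ?_, fun H h hh => ?_⟩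
        · rw [← this h hh]; exact H h hh
        · rw [this h hh]; exact H h hh)
    intro U _ _ φ hφ ℓ hℓ
    obtain ⟨P, E, hP, hE, hPE⟩ := h1 U φ hφ ℓ hℓ
    refine ⟨P, E, hP, hE.trans ?_, hPE⟩
    exact Nat.mul_le_mul_right _ (Nat.add_le_add_right (Nat.pow_le_pow_right (by norm_num) hJ) 1)
  · intro v x hx
    have hx2 := (mem_fibz.1 hx).2
    rw [decide_eq_true_eq]
    refine forall_congr' fun h => forall_congr' fun hh => ?_
    rw [ev_add, hx2 (pk h) (hpk1 h hh), add_sub_cancel_right, step_ev_comb]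

end forms

/-- The first true function of a family. -/
theorem step_idx (p : ℕ) [Fact p.Prime] (hB : ApxBasic p) (hG : ApxGate p) {ι : Type}
    (q D s : ℕ) (b : Fin q → (ι → Bool) → Bool) (hb : ∀ j, Apx p D s (b j)) :
    ∃ idx : (ι → Bool) → Option (Fin q),
      (∀ x, idx x = none ↔ ∀ j, b j x = false) ∧ (∀ x j, idx x = some j → b j x = true) ∧
      ∀ o, Apx p (D + 1) (q * s + 1) (fun x => decide (idx x = o)) := by
  classical
  let bs : (ι → Bool) → Finset (Fin q) := fun x => univ.filter fun j => b j x = true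
  let idx : (ι → Bool) → Option (Fin q) :=
    fun x => if h : (bs x).Nonempty then some ((bs x).min' h) else none
  have hmem : ∀ x j, j ∈ bs x ↔ b j x = true := fun x j =>
    ⟨fun h => (Finset.mem_filter.1 h).2, fun h => Finset.mem_filter.2 ⟨Finset.mem_univ _, h⟩⟩
  have hnone : ∀ x, idx x = none ↔ ∀ j, b j x = false := by
    intro x
    constructor
    · intro h j
      by_contra hj
      have hj' : b j x = true := by
        cases hbj : b j x
        · exact absurd hbj hj
        · rfl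
      have hne : (bs x).Nonempty := ⟨j, (hmem x j).2 hj'⟩
      have : idx x = some ((bs x).min' hne) := dif_pos hne
      rw [h] at this
      exact absurd this (Option.some_ne_none _).symm
    · intro h
      refine dif_neg ?_
      rintro ⟨j, hj⟩
      rw [hmem, h j] at hj
      exact Bool.noConfusion hj
  have hsome : ∀ x j, idx x = some j ↔ (b j x = true ∧ ∀ j' < j, b j' x = false) := by
    intro x j
    constructor
    · intro h
      have hne : (bs x).Nonempty := by
        by_contra hne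
        have : idx x = none := dif_neg hne
        rw [h] at this
        exact absurd this (Option.some_ne_none _)
      have h0 : idx x = some ((bs x).min' hne) := dif_pos hne
      rw [h] at h0
      have h1 : j = (bs x).min' hne := Option.some.inj h0
      have h2 : j ∈ bs x := by rw [h1]; exact Finset.min'_mem _ _
      refine ⟨(hmem x j).1 h2, fun j' hj' => ?_⟩
      by_contra hb'
      have hj'' : b j' x = true := by
        cases hbj : b j' x
        · exact absurd hbj hb'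
        · rfl
      have h4 := Finset.min'_le _ _ ((hmem x j').2 hj'')
      rw [← h1] at h4
      exact absurd hj' (not_lt.2 h4)
    · rintro ⟨h1, h2⟩
      have hj : j ∈ bs x := (hmem x j).2 h1
      have hne : (bs x).Nonempty := ⟨j, hj⟩
      have h0 : idx x = some ((bs x).min' hne) := dif_pos hne
      rw [h0]
      refine congrArg some (le_antisymm (Finset.min'_le _ _ hj) ?_)
      refine Finset.le_min' _ _ _ fun j' hj' => ?_
      by_contra hlt
      push Not at hlt
      have h3 := h2 j' hlt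
      rw [(hmem x j').1 hj'] at h3
      exact Bool.noConfusion h3
  refine ⟨idx, hnone, fun x j h => ((hsome x j).1 h).1, fun o => ?_⟩
  have hsum : ∑ _j : Fin q, s + 1 ≤ q * s + 1 := by
    rw [Finset.sum_const, Finset.card_univ, Fintype.card_fin, smul_eq_mul]
  have htrue : Apx p D s (fun _ : ι → Bool => true) :=
    hB.mono ι D D 0 s _ le_rfl (Nat.zero_le _) (hB.const ι D true)
  cases o with
  | none =>
    refine hB.mono ι (D + 1) (D + 1) _ _ _ le_rfl hsum
      (hG.all ι (Fin q) D (fun _ => s) (fun j x => !b j x) (fun j => hB.not ι D s _ (hb j))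
        _ ?_)
    intro x
    rw [decide_eq_true_eq, hnone]
    refine forall_congr' fun j => ?_
    cases b j x <;> decide
  | some j₀ =>
    refine hB.mono ι (D + 1) (D + 1) _ _ _ le_rfl hsum
      (hG.all ι (Fin q) D (fun _ => s)
        (fun j => if j < j₀ then (fun x => !b j x) else if j = j₀ then b j else fun _ => true)
        ?_ _ ?_)
    · intro j
      by_cases h1 : j < j₀
      · rw [if_pos h1]; exact hB.not ι D s _ (hb j)
      · rw [if_neg h1]
        by_cases h2 : j = j₀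
        · rw [if_pos h2]; exact hb j
        · rw [if_neg h2]; exact htrue
    · intro x
      rw [decide_eq_true_eq, hsome]
      constructor
      · rintro ⟨h1, h2⟩ j
        by_cases h3 : j < j₀
        · rw [if_pos h3]
          show (!b j x) = true
          rw [h2 j h3]; rfl
        · rw [if_neg h3]
          by_cases h4 : j = j₀
          · rw [if_pos h4, h4]; exact h1
          · rw [if_neg h4]
      · intro h
        refine ⟨?_, fun j' hj' => ?_⟩
        · have := h j₀
          rw [if_neg (lt_irrefl j₀), if_pos rfl] at this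
          exact this
        · have := h j'
          rw [if_pos hj'] at this
          have h5 : (!b j' x) = true := this
          cases hbj : b j' x
          · rfl
          · rw [hbj] at h5; exact Bool.noConfusion h5


/-- The total weight outside the distinguished parts. -/
theorem step_sum {P : Type} [Fintype P] [DecidableEq P] {q : ℕ} (v₀ : Fin q → P)
    (f : Option (Fin q × P) → ℝ) :
    (∑ o, Option.elim o (f none) (fun ju => if ju.2 = v₀ ju.1 then 0 else f (some ju))) +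
      ∑ j, f (some (j, v₀ j)) = ∑ o, f o := by
  rw [Fintype.sum_option, Fintype.sum_option]
  show (f none + ∑ ju : Fin q × P, (if ju.2 = v₀ ju.1 then 0 else f (some ju))) +
    ∑ j, f (some (j, v₀ j)) = _
  rw [add_assoc, Fintype.sum_prod_type, Fintype.sum_prod_type, ← Finset.sum_add_distrib]
  refine congrArg (fun z => f none + z) (Finset.sum_congr rfl fun j _ => ?_)
  show (∑ u, (if u = v₀ j then 0 else f (some (j, u)))) + f (some (j, v₀ j)) = _
  have h1 : f (some (j, v₀ j)) = ∑ u, if u = v₀ j then f (some (j, u)) else 0 := by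
    rw [Finset.sum_ite_eq' Finset.univ (v₀ j) (fun u => f (some (j, u))),
      if_pos (Finset.mem_univ _)]
  rw [h1, ← Finset.sum_add_distrib]
  refine Finset.sum_congr rfl fun u _ => ?_
  split_ifs
  · exact zero_add _
  · exact add_zero _

/-- Selection of a part: numbers. -/
theorem step_num (hS : St_Sel) {P : Type} [Fintype P] [DecidableEq P] {q : ℕ} (v₀ : Fin q → P)
    (t a : Option (Fin q × P) → ℕ) (M n X Y X' K : ℕ) (hM : Fintype.card P = M) (hM1 : 1 ≤ M)
    (hq : q ≤ 2 ^ Y * M) (hta : ∀ o, t o ≤ a o) (hd : 2 ^ n ≤ 2 ^ X * ∑ o, t o)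
    (hT : ∀ j, t (some (j, v₀ j)) = 0)
    (hbal : ∀ j, 2 ^ X' * ∑ u, a (some (j, u)) ≤
      2 ^ X' * (2 * M * a (some (j, v₀ j))) + 2 ^ n)
    (hX' : 2 ^ (X + Y) * (16 * M) ≤ 2 ^ X') (hK1 : 64 * M ≤ K) (hK2 : 128 * M ^ 3 ≤ 2 ^ K) :
    (∑ o, t o ≤ 2 * t none) ∨
    ∃ o, 0 < t o ∧ 2 ^ n ≤ 2 ^ (X + Y + K) * t o ∧
      (K + 1) * (∑ o, t o) * a o ≤ K * t o * ∑ o, a o := by
  by_cases hc : ∑ o, t o ≤ 2 * t none
  · exact Or.inl hc
  right
  push Not at hc
  set tR : Option (Fin q × P) → ℝ := fun o => (t o : ℝ) with htR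
  set aR : Option (Fin q × P) → ℝ := fun o => (a o : ℝ) with haR
  set τ : ℝ := ∑ o, tR o with hτ
  set α : ℝ := ∑ o, aR o with hα
  have hτc : ((∑ o, t o : ℕ) : ℝ) = τ := by rw [hτ, Nat.cast_sum]
  have hαc : ((∑ o, a o : ℕ) : ℝ) = α := by rw [hα, Nat.cast_sum]
  have ht0 : ∀ o, 0 ≤ tR o := fun o => Nat.cast_nonneg _
  have ha0 : ∀ o, 0 ≤ aR o := fun o => Nat.cast_nonneg _
  have htaR : ∀ o, tR o ≤ aR o := fun o => Nat.cast_le.2 (hta o)
  have hcR : 2 * tR none < τ := by
    rw [← hτc]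
    have : ((2 * t none : ℕ) : ℝ) < ((∑ o, t o : ℕ) : ℝ) := Nat.cast_lt.2 hc
    rwa [Nat.cast_mul, Nat.cast_ofNat] at this
  have hMR : (1 : ℝ) ≤ M := by exact_mod_cast hM1
  have hτα : τ ≤ α := Finset.sum_le_sum fun o _ => htaR o
  have hτ0 : 0 < τ := lt_of_le_of_lt (mul_nonneg (by norm_num) (ht0 none)) hcR
  have hα0 : 0 < α := lt_of_lt_of_le hτ0 hτα
  have hdR : (2 : ℝ) ^ n ≤ 2 ^ X * τ := by
    rw [← hτc]
    exact_mod_cast hd
  have hqR : (q : ℝ) ≤ 2 ^ Y * M := by exact_mod_cast hq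
  have hK1R : (64 : ℝ) * M ≤ K := by exact_mod_cast hK1
  have hK2R : (128 : ℝ) * M ^ 3 ≤ 2 ^ K := by exact_mod_cast hK2
  have hX'R : (2 : ℝ) ^ (X + Y) * (16 * M) ≤ 2 ^ X' := by exact_mod_cast hX'
  -- from real inequalities to natural numbers
  have hout : ∀ o, 0 < tR o → τ ≤ 64 * M * (2 * 2 ^ Y * M ^ 2) * tR o →
      ((K : ℝ) + 1) * τ * aR o ≤ K * tR o * α →
      ∃ o, 0 < t o ∧ 2 ^ n ≤ 2 ^ (X + Y + K) * t o ∧
        (K + 1) * (∑ o, t o) * a o ≤ K * t o * ∑ o, a o := by
    intro o h1 h2 h3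
    refine ⟨o, Nat.cast_pos.1 h1, ?_, ?_⟩
    · have h4 : (2 : ℝ) ^ n ≤ 2 ^ (X + Y + K) * tR o := by
        calc (2 : ℝ) ^ n ≤ 2 ^ X * τ := hdR
          _ ≤ 2 ^ X * (64 * M * (2 * 2 ^ Y * M ^ 2) * tR o) :=
              mul_le_mul_of_nonneg_left h2 (by positivity)
          _ = 2 ^ (X + Y) * tR o * (128 * M ^ 3) := by rw [pow_add]; ring
          _ ≤ 2 ^ (X + Y) * tR o * 2 ^ K :=
              mul_le_mul_of_nonneg_left hK2R (mul_nonneg (by positivity) (ht0 o))
          _ = 2 ^ (X + Y + K) * tR o := by rw [pow_add 2 (X + Y) K]; ring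
      have h5 : (2 : ℝ) ^ n ≤ 2 ^ (X + Y + K) * ((t o : ℕ) : ℝ) := h4
      exact_mod_cast h5
    · rw [← hτc, ← hαc] at h3
      have h5 : ((K : ℝ) + 1) * ((∑ o, t o : ℕ) : ℝ) * ((a o : ℕ) : ℝ) ≤
        K * ((t o : ℕ) : ℝ) * ((∑ o, a o : ℕ) : ℝ) := h3
      exact_mod_cast h5
  -- the parts
  have hsplit : ∀ f : Option (Fin q × P) → ℝ, ∑ o, f o = f none + ∑ ju, f (some ju) :=
    fun f => Fintype.sum_option f
  set τ₁ : ℝ := ∑ ju, tR (some ju) with hτ₁
  set α₁ : ℝ := ∑ ju, aR (some ju) with hα₁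
  have e1 : τ = tR none + τ₁ := hsplit tR
  have e2 : α = aR none + α₁ := hsplit aR
  by_cases hcI : 8 * α₁ ≤ α
  · have hτ₁0 : 0 < τ₁ := by
      have := ht0 none
      linarith
    have hτ₁α : τ₁ ≤ α₁ := Finset.sum_le_sum fun o _ => htaR _
    have hne : (Finset.univ : Finset (Fin q × P)).Nonempty := by
      by_contra h
      rw [Finset.not_nonempty_iff_eq_empty] at h
      rw [hτ₁, h, Finset.sum_empty] at hτ₁0
      exact lt_irrefl _ hτ₁0
    obtain ⟨ju, -, h1, h2, h3⟩ := hS (Fin q × P) Finset.univ (fun ju => tR (some ju))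
      (fun ju => aR (some ju)) (fun _ => 1) (1 / 4) (by norm_num) (by norm_num)
      (fun ju _ => ⟨ht0 _, ha0 _, zero_le_one⟩) hτ₁0 (lt_of_lt_of_le hτ₁0 hτ₁α)
      (Finset.sum_pos (fun _ _ => one_pos) hne)
    have h2' : (1 - 1 / 4) * τ₁ * aR (some ju) ≤ tR (some ju) * α₁ := h2
    have h3' : 1 / 4 * τ₁ * 1 ≤ tR (some ju) * ∑ _ju : Fin q × P, (1 : ℝ) := h3
    rw [Finset.sum_const, nsmul_eq_mul, mul_one, mul_one, Finset.card_univ, Fintype.card_prod,
      Fintype.card_fin, hM, Nat.cast_mul] at h3'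
    refine hout (some ju) h1 ?_ ?_
    · have h4 : tR (some ju) * (q * M) ≤ tR (some ju) * (2 ^ Y * M * M) :=
        mul_le_mul_of_nonneg_left (mul_le_mul_of_nonneg_right hqR (by positivity)) (ht0 _)
      have h5 : τ ≤ 8 * (tR (some ju) * (2 ^ Y * M * M)) := by linarith
      have h6 : 8 * (tR (some ju) * (2 ^ Y * M * M)) * 1 ≤
          8 * (tR (some ju) * (2 ^ Y * M * M)) * (16 * M) := by
        refine mul_le_mul_of_nonneg_left (by linarith) ?_
        have := ht0 (some ju)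
        positivity
      calc τ ≤ 8 * (tR (some ju) * (2 ^ Y * M * M)) * 1 := by linarith
        _ ≤ 8 * (tR (some ju) * (2 ^ Y * M * M)) * (16 * M) := h6
        _ = 64 * M * (2 * 2 ^ Y * M ^ 2) * tR (some ju) := by ring
    · have h4 : tR (some ju) * (8 * α₁) ≤ tR (some ju) * α :=
        mul_le_mul_of_nonneg_left hcI (ht0 _)
      have h5 : τ * aR (some ju) ≤ 2 * τ₁ * aR (some ju) :=
        mul_le_mul_of_nonneg_right (by linarith) (ha0 _)
      have h8 : 0 ≤ tR (some ju) * α := mul_nonneg (ht0 _) hα0.le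
      have h6 : 2 * (τ * aR (some ju)) ≤ tR (some ju) * α := by linarith
      have hK0 : (0 : ℝ) ≤ K := Nat.cast_nonneg _
      have hK1' : (1 : ℝ) ≤ K := by linarith
      have h7 : 0 ≤ τ * aR (some ju) := mul_nonneg hτ0.le (ha0 _)
      calc ((K : ℝ) + 1) * τ * aR (some ju) ≤ K * (2 * (τ * aR (some ju))) := by nlinarith
        _ ≤ K * (tR (some ju) * α) := mul_le_mul_of_nonneg_left h6 hK0
        _ = K * tR (some ju) * α := by ring
  · push Not at hcI
    set αW : ℝ := ∑ j, aR (some (j, v₀ j)) with hαW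
    have hbalR : α₁ ≤ 2 * M * αW + α / 16 := by
      have h1 : (2 : ℝ) ^ X' * α₁ ≤ 2 ^ X' * (2 * M * αW) + q * 2 ^ n := by
        have h2 : α₁ = ∑ j, ∑ u, aR (some (j, u)) := by
          rw [hα₁]
          exact Fintype.sum_prod_type _
        rw [h2, hαW, Finset.mul_sum, Finset.mul_sum, Finset.mul_sum]
        have h3 : (q : ℝ) * 2 ^ n = ∑ _j : Fin q, (2 : ℝ) ^ n := by
          rw [Finset.sum_const, nsmul_eq_mul, Finset.card_univ, Fintype.card_fin]
        rw [h3, ← Finset.sum_add_distrib]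
        refine Finset.sum_le_sum fun j _ => ?_
        have h4 := hbal j
        have h5 : (2 : ℝ) ^ X' * ∑ u, ((a (some (j, u)) : ℕ) : ℝ) ≤
            2 ^ X' * (2 * M * ((a (some (j, v₀ j)) : ℕ) : ℝ)) + 2 ^ n := by exact_mod_cast h4
        exact h5
      have h2 : (q : ℝ) * 2 ^ n ≤ 2 ^ X' * (α / 16) := by
        calc (q : ℝ) * 2 ^ n ≤ (2 ^ Y * M) * (2 ^ X * τ) :=
              mul_le_mul hqR hdR (by positivity) (by positivity)
          _ = (2 ^ (X + Y) * (16 * M)) * (τ / 16) := by rw [pow_add]; ring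
          _ ≤ 2 ^ X' * (α / 16) :=
              mul_le_mul hX'R (by linarith) (by positivity) (by positivity)
      have h3 : (2 : ℝ) ^ X' * α₁ ≤ 2 ^ X' * (2 * M * αW + α / 16) := by
        calc (2 : ℝ) ^ X' * α₁ ≤ 2 ^ X' * (2 * M * αW) + q * 2 ^ n := h1
          _ ≤ 2 ^ X' * (2 * M * αW) + 2 ^ X' * (α / 16) := by linarith
          _ = 2 ^ X' * (2 * M * αW + α / 16) := by ring
      exact le_of_mul_le_mul_left h3 (by positivity)
    have haW : α < 32 * M * αW := by linarith
    set ε : ℝ := 1 / (64 * M) with hε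
    have hεM : ε * (64 * M) = 1 := by rw [hε]; field_simp
    have hε0 : 0 < ε := by rw [hε]; positivity
    have hε1 : ε ≤ 1 / 64 := by
      rw [hε]
      exact one_div_le_one_div_of_le (by norm_num) (by linarith)
    have hεW : 2 * ε * α ≤ αW := by
      have h1 : 2 * ε * α ≤ 2 * ε * (32 * M * αW) :=
        mul_le_mul_of_nonneg_left haW.le (by linarith)
      calc 2 * ε * α ≤ 2 * ε * (32 * M * αW) := h1
        _ = (ε * (64 * M)) * αW := by ring
        _ = αW := by rw [hεM, one_mul]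
    set xR : Option (Fin q × P) → ℝ := fun o =>
      Option.elim o (aR none) (fun ju => if ju.2 = v₀ ju.1 then 0 else aR (some ju)) with hxR
    have hxsum : (∑ o, xR o) + αW = α := step_sum v₀ aR
    have hx0 : ∀ o, 0 ≤ xR o := by
      intro o
      cases o with
      | none => exact ha0 none
      | some ju =>
        show 0 ≤ (if ju.2 = v₀ ju.1 then 0 else aR (some ju))
        split_ifs
        · exact le_rfl
        · exact ha0 _
    have htx : ∀ o, tR o ≤ xR o := by
      intro o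
      cases o with
      | none => exact htaR none
      | some ju =>
        show tR (some ju) ≤ (if ju.2 = v₀ ju.1 then 0 else aR (some ju))
        split_ifs with h
        · have h1 : ju = (ju.1, v₀ ju.1) := by rw [← h]
          have h2 : t (some ju) = 0 := by rw [h1]; exact hT ju.1
          show ((t (some ju) : ℕ) : ℝ) ≤ 0
          rw [h2, Nat.cast_zero]
        · exact htaR _
    have hxa : ∀ o, 0 < tR o → xR o = aR o := by
      intro o ho
      cases o with
      | none => rfl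
      | some ju =>
        show (if ju.2 = v₀ ju.1 then 0 else aR (some ju)) = _
        split_ifs with h
        · exfalso
          have h1 : ju = (ju.1, v₀ ju.1) := by rw [← h]
          have h2 : t (some ju) = 0 := by rw [h1]; exact hT ju.1
          have h3 : (0 : ℝ) < ((t (some ju) : ℕ) : ℝ) := ho
          rw [h2, Nat.cast_zero] at h3
          exact lt_irrefl _ h3
        · rfl
    obtain ⟨o, -, h1, h2, h3⟩ := hS (Option (Fin q × P)) Finset.univ tR xR (fun _ => 1) ε
      hε0.le (by linarith) (fun o _ => ⟨ht0 _, hx0 _, zero_le_one⟩) hτ0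
      (lt_of_lt_of_le hτ0 (Finset.sum_le_sum fun o _ => htx o))
      (Finset.sum_pos (fun _ _ => one_pos) ⟨none, Finset.mem_univ _⟩)
    have h2' : (1 - ε) * τ * xR o ≤ tR o * ∑ o, xR o := h2
    have h3' : ε * τ * 1 ≤ tR o * ∑ _o : Option (Fin q × P), (1 : ℝ) := h3
    rw [Finset.sum_const, nsmul_eq_mul, mul_one, mul_one, Finset.card_univ, Fintype.card_option,
      Fintype.card_prod, Fintype.card_fin, hM, Nat.cast_add, Nat.cast_mul, Nat.cast_one] at h3'
    rw [hxa o h1] at h2'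
    refine hout o h1 ?_ ?_
    · have h4 : (q : ℝ) * M + 1 ≤ 2 * 2 ^ Y * M ^ 2 := by
        have h5 : (q : ℝ) * M ≤ 2 ^ Y * M * M := mul_le_mul_of_nonneg_right hqR (by positivity)
        have h6 : (1 : ℝ) ≤ 2 ^ Y := one_le_pow₀ (by norm_num)
        have h7 : (1 : ℝ) ≤ 2 ^ Y * M ^ 2 := one_le_mul_of_one_le_of_one_le h6 (one_le_pow₀ hMR)
        calc (q : ℝ) * M + 1 ≤ 2 ^ Y * M * M + 2 ^ Y * M ^ 2 := add_le_add h5 h7
          _ = 2 * 2 ^ Y * M ^ 2 := by ring
      have h5 : ε * τ ≤ tR o * (2 * 2 ^ Y * M ^ 2) :=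
        h3'.trans (mul_le_mul_of_nonneg_left h4 (ht0 _))
      calc τ = (ε * (64 * M)) * τ := by rw [hεM, one_mul]
        _ = 64 * M * (ε * τ) := by ring
        _ ≤ 64 * M * (tR o * (2 * 2 ^ Y * M ^ 2)) :=
            mul_le_mul_of_nonneg_left h5 (by positivity)
        _ = 64 * M * (2 * 2 ^ Y * M ^ 2) * tR o := by ring
    · have h4 : ∑ o, xR o ≤ (1 - 2 * ε) * α := by linarith
      have h5 : (1 - ε) * τ * aR o ≤ tR o * ((1 - 2 * ε) * α) :=
        h2'.trans (mul_le_mul_of_nonneg_left h4 (ht0 _))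
      have hKε : 1 ≤ K * ε := by
        calc 1 = 64 * M * ε := by rw [mul_comm]; exact hεM.symm
          _ ≤ K * ε := mul_le_mul_of_nonneg_right hK1R hε0.le
      have h6 : ((K : ℝ) + 1) * (1 - 2 * ε) ≤ (1 - ε) * K := by linarith
      have h7 : 0 ≤ tR o * α := mul_nonneg (ht0 _) hα0.le
      have hK0 : (0 : ℝ) ≤ K + 1 := by positivity
      have h8 : (1 - ε) * (((K : ℝ) + 1) * τ * aR o) ≤ (1 - ε) * (K * tR o * α) := by
        calc (1 - ε) * (((K : ℝ) + 1) * τ * aR o) = (K + 1) * ((1 - ε) * τ * aR o) := by ring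
          _ ≤ (K + 1) * (tR o * ((1 - 2 * ε) * α)) := mul_le_mul_of_nonneg_left h5 hK0
          _ = ((K + 1) * (1 - 2 * ε)) * (tR o * α) := by ring
          _ ≤ ((1 - ε) * K) * (tR o * α) := mul_le_mul_of_nonneg_right h6 h7
          _ = (1 - ε) * (K * tR o * α) := by ring
      exact le_of_mul_le_mul_left h8 (by linarith)

/-- Selection of a part. -/
theorem step_parts (hS : St_Sel) {α P : Type} [DecidableEq α] [Fintype P] [DecidableEq P]
    {q : ℕ} (v₀ : Fin q → P) (A T : Finset α) (part : α → Option (Fin q × P))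
    (M n X Y X' K : ℕ) (hM : Fintype.card P = M) (hM1 : 1 ≤ M)
    (hq : q ≤ 2 ^ Y * M) (hd : 2 ^ n ≤ 2 ^ X * (T ∩ A).card)
    (hT : ∀ x ∈ T ∩ A, ∀ j, part x ≠ some (j, v₀ j))
    (hbal : ∀ j, 2 ^ X' * (A.filter fun x => ∃ u, part x = some (j, u)).card ≤
      2 ^ X' * (2 * M * (A.filter fun x => part x = some (j, v₀ j)).card) + 2 ^ n)
    (hX' : 2 ^ (X + Y) * (16 * M) ≤ 2 ^ X') (hK1 : 64 * M ≤ K) (hK2 : 128 * M ^ 3 ≤ 2 ^ K) :
    ((T ∩ A).card ≤ 2 * (T ∩ A.filter fun x => part x = none).card) ∨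
    ∃ x₀ ∈ T ∩ A, 2 ^ n ≤ 2 ^ (X + Y + K) * (T ∩ A.filter fun x => part x = part x₀).card ∧
      (K + 1) * (T ∩ A).card * (A.filter fun x => part x = part x₀).card ≤
        K * (T ∩ A.filter fun x => part x = part x₀).card * A.card := by
  have hTA : ∀ o, T ∩ A.filter (fun x => part x = o) = (T ∩ A).filter fun x => part x = o := by
    intro o
    ext x
    rw [Finset.mem_inter, Finset.mem_filter, Finset.mem_filter, Finset.mem_inter, and_assoc]
  have hsa : ∑ o, (A.filter fun x => part x = o).card = A.card :=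
    (Finset.card_eq_sum_card_fiberwise (f := part) (t := Finset.univ)
      (fun x _ => Finset.mem_coe.2 (Finset.mem_univ _))).symm
  have hst : ∑ o, (T ∩ A.filter fun x => part x = o).card = (T ∩ A).card := by
    rw [Finset.card_eq_sum_card_fiberwise (f := part) (t := Finset.univ)
      (fun x _ => Finset.mem_coe.2 (Finset.mem_univ _))]
    exact Finset.sum_congr rfl fun o _ => by rw [hTA o]
  have hsu : ∀ j, ∑ u, (A.filter fun x => part x = some (j, u)).card =
      (A.filter fun x => ∃ u, part x = some (j, u)).card := by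
    intro j
    rw [← Finset.card_biUnion]
    · congr 1
      ext x
      rw [Finset.mem_biUnion, Finset.mem_filter]
      constructor
      · rintro ⟨u, -, hu⟩
        exact ⟨(Finset.mem_filter.1 hu).1, u, (Finset.mem_filter.1 hu).2⟩
      · rintro ⟨h1, u, hu⟩
        exact ⟨u, Finset.mem_univ _, Finset.mem_filter.2 ⟨h1, hu⟩⟩
    · intro u _ u' _ huu
      refine Finset.disjoint_left.2 ?_
      intro x hx hx'
      have h1 := (Finset.mem_filter.1 hx).2
      have h2 := (Finset.mem_filter.1 hx').2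
      rw [h1] at h2
      exact huu (congrArg Prod.snd (Option.some.inj h2))
  have h := step_num hS v₀ (fun o => (T ∩ A.filter fun x => part x = o).card)
    (fun o => (A.filter fun x => part x = o).card) M n X Y X' K hM hM1 hq
    (fun o => Finset.card_le_card Finset.inter_subset_right)
    (by rw [hst]; exact hd)
    (by
      intro j
      rw [Finset.card_eq_zero, Finset.eq_empty_iff_forall_notMem]
      intro x hx
      rw [hTA] at hx
      exact hT x (Finset.mem_filter.1 hx).1 j (Finset.mem_filter.1 hx).2)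
    (by
      intro j
      rw [hsu j]
      exact hbal j)
    hX' hK1 hK2
  rw [hst, hsa] at h
  rcases h with h | ⟨o, h1, h2, h3⟩
  · exact Or.inl h
  · right
    obtain ⟨x₀, hx₀⟩ := Finset.card_pos.1 h1
    rw [hTA] at hx₀
    have h4 := (Finset.mem_filter.1 hx₀).2
    refine ⟨x₀, (Finset.mem_filter.1 hx₀).1, ?_, ?_⟩
    · rw [h4]; exact h2
    · rw [h4]; exact h3

theorem step_and (p : ℕ) [Fact p.Prime] (hG : ApxGate p) {ι : Type} (D s s' : ℕ)
    (f g : (ι → Bool) → Bool) (hf : Apx p D s f) (hg : Apx p D s' g) :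
    Apx p (D + 1) (s + s' + 1) (fun x => f x && g x) := by
  have h1 := hG.all ι Bool D (fun b => if b = true then s else s')
    (fun b => if b = true then f else g) (by
      intro b
      cases b with
      | true => rw [if_pos rfl, if_pos rfl]; exact hf
      | false => rw [if_neg Bool.false_ne_true, if_neg Bool.false_ne_true]; exact hg)
    (fun x => f x && g x) (by
      intro x
      show (f x && g x) = true ↔ _
      rw [Bool.and_eq_true]
      constructor
      · rintro ⟨h1, h2⟩ b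
        cases b with
        | true => rw [if_pos rfl]; exact h1
        | false => rw [if_neg Bool.false_ne_true]; exact h2
      · intro h
        have h1 := h true
        have h2 := h false
        rw [if_pos rfl] at h1
        rw [if_neg Bool.false_ne_true] at h2
        exact ⟨h1, h2⟩)
  rw [Fintype.sum_bool, if_pos rfl, if_neg Bool.false_ne_true] at h1
  exact h1

/-- The bad pairs. -/
theorem step_bad (p : ℕ) [Fact p.Prime] (hB : ApxBasic p) (hG : ApxGate p) (hM : ApxMore p)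
    {ι : Type} [Fintype ι] [DecidableEq ι] {m : ℕ} [NeZero m] {w d : ℕ} (hd : 2 ≤ d)
    (Y R N : ℕ) (hY : 1 ≤ Y) (hYR : 2 * Y ≤ R) (hN : N ≤ 2 ^ Y)
    (Γ : AddSubgroup (ι → ZMod m)) (y : ι → Bool)
    (L : Fin N → Fin w → ι → ZMod m) (Φ : Fin N → (Fin w → ZMod m) → (ι → Bool) → Bool)
    (hΦ : ∀ c v, Apx p d (2 ^ Y) (Φ c v)) :
    ∃ (q : ℕ) (cj : Fin q → Fin N) (vj : Fin q → Fin w → ZMod m)
      (b : Fin q → (ι → Bool) → Bool) (Kn : Fin q → AddSubgroup (Fin w → ZMod m)),
      q ≤ 2 ^ Y * m ^ w ∧ (∀ j, Apx p (d + 1) (2 ^ (m ^ w * Y + 2)) (b j)) ∧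
      (∀ j x, b j x = true → Φ (cj j) (vj j) x = false) ∧
      (∀ j, ∀ h, h ∉ Kn j → ∀ l ∈ Γ, R ≤ off ∅ (comb h (L (cj j)) + l)) ∧
      (∀ j, ∀ x ∈ fibz Γ ∅ y y, b j x = true → ∀ h ∈ Kn j,
        pair h (vals (L (cj j)) x) = pair h (vj j)) ∧
      ∀ c, Act Y R Γ (L c) → ∀ x ∈ fibz Γ ∅ y y, (∀ j, b j x = false) →
        Φ c (vals (L c) x) x = true := by
  classical
  have hcon := fun c : {c : Fin N // Act Y R Γ (L c)} =>
    step_con p hM Y R hY hYR Γ y (L c.1) c.2
  choose Kn con h1 h2 h3 using hcon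
  let e : Fin (Fintype.card ({c : Fin N // Act Y R Γ (L c)} × (Fin w → ZMod m))) ≃
    {c : Fin N // Act Y R Γ (L c)} × (Fin w → ZMod m) := (Fintype.equivFin _).symm
  refine ⟨Fintype.card ({c : Fin N // Act Y R Γ (L c)} × (Fin w → ZMod m)),
    fun j => (e j).1.1, fun j => (e j).2,
    fun j x => !(Φ (e j).1.1 (e j).2 x) && con (e j).1 (e j).2 x, fun j => Kn (e j).1,
    ?_, ?_, ?_, ?_, ?_, ?_⟩
  · rw [Fintype.card_prod, Fintype.card_fun, ZMod.card, Fintype.card_fin]
    refine Nat.mul_le_mul_right _ (le_trans ?_ hN)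
    exact (Fintype.card_subtype_le _).trans (Fintype.card_fin N).le
  · intro j
    have h4 := step_and p hG d (2 ^ Y) (2 ^ (m ^ w * Y) + 1)
      (fun x => !(Φ (e j).1.1 (e j).2 x)) (con (e j).1 (e j).2)
      (hB.not ι d (2 ^ Y) _ (hΦ _ _)) (hB.mono ι 2 d _ _ _ hd le_rfl (h2 _ _))
    refine hB.mono ι (d + 1) (d + 1) _ _ _ le_rfl ?_ h4
    have hm1 : 1 ≤ m ^ w := Nat.one_le_pow _ _ (Nat.pos_of_ne_zero (NeZero.ne m))
    have hYm : Y ≤ m ^ w * Y := Nat.le_mul_of_pos_left _ hm1
    have e1 : 2 ^ Y ≤ 2 ^ (m ^ w * Y) := Nat.pow_le_pow_right (by norm_num) hYm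
    have e2 : 2 ^ 1 ≤ 2 ^ (m ^ w * Y) := Nat.pow_le_pow_right (by norm_num) (hY.trans hYm)
    have e3 : 2 ^ (m ^ w * Y + 2) = 2 ^ (m ^ w * Y) * 4 := by rw [pow_add]; rfl
    rw [e3]
    omega
  · intro j x h
    have h' : (!(Φ (e j).1.1 (e j).2 x) && con (e j).1 (e j).2 x) = true := h
    rw [Bool.and_eq_true] at h'
    cases hf : Φ (e j).1.1 (e j).2 x
    · rfl
    · rw [hf] at h'
      exact absurd h'.1 Bool.false_ne_true
  · intro j h hh l hl
    exact h1 (e j).1 h hh l hl
  · intro j x hx h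
    have h' : (!(Φ (e j).1.1 (e j).2 x) && con (e j).1 (e j).2 x) = true := h
    rw [Bool.and_eq_true] at h'
    exact (h3 (e j).1 (e j).2 x hx).1 h'.2
  · intro c hc x hx h
    have h5 := h (e.symm (⟨c, hc⟩, vals (L c) x))
    have h6 : (!(Φ (e (e.symm (⟨c, hc⟩, vals (L c) x))).1.1
      (e (e.symm (⟨c, hc⟩, vals (L c) x))).2 x) &&
      con (e (e.symm (⟨c, hc⟩, vals (L c) x))).1
        (e (e.symm (⟨c, hc⟩, vals (L c) x))).2 x) = false := h5
    rw [Equiv.apply_symm_apply] at h6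
    have h7 : con ⟨c, hc⟩ (vals (L c) x) x = true :=
      (h3 ⟨c, hc⟩ (vals (L c) x) x hx).2 fun h' _ => rfl
    have h8 : (!(Φ c (vals (L c) x) x) && con ⟨c, hc⟩ (vals (L c) x) x) = false := h6
    rw [h7, Bool.and_true] at h8
    cases hf : Φ c (vals (L c) x) x
    · rw [hf] at h8
      exact absurd h8.symm Bool.false_ne_true
    · rfl

/-- Sizes. -/
theorem step_size (M Y q : ℕ) (hY : 1 ≤ Y) (hq : q ≤ 2 ^ Y * M) :
    q * 2 ^ (M * Y + 2) + 1 ≤ 2 ^ ((2 * M + 3) * Y) := by
  have h1 : M + 1 ≤ 2 ^ M := Nat.lt_two_pow_self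
  have h2 : 1 ≤ 2 ^ Y * 2 ^ (M * Y + 2) := Nat.one_le_iff_ne_zero.2 (by positivity)
  calc q * 2 ^ (M * Y + 2) + 1 ≤ 2 ^ Y * M * 2 ^ (M * Y + 2) + 2 ^ Y * 2 ^ (M * Y + 2) :=
        Nat.add_le_add (Nat.mul_le_mul_right _ hq) h2
    _ = 2 ^ Y * 2 ^ (M * Y + 2) * (M + 1) := by ring
    _ ≤ 2 ^ Y * 2 ^ (M * Y + 2) * 2 ^ M := Nat.mul_le_mul_left _ h1
    _ = 2 ^ (Y + (M * Y + 2) + M) := by rw [← pow_add, ← pow_add]
    _ ≤ 2 ^ ((2 * M + 3) * Y) := by
        refine Nat.pow_le_pow_right (by norm_num) ?_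
        have : M ≤ M * Y := Nat.le_mul_of_pos_right _ hY
        nlinarith

theorem step_pb (KW a K X Y X' R : ℕ) (hX' : X' + 1 ≤ a * (X + Y + 1))
    (hK : (KW + 1) * a ≤ K) (ha : 1 ≤ a) (hR : pb K (X + Y + 1) ≤ R) : pb KW (X' + 1) ≤ R := by
  refine le_trans ?_ hR
  have h1 : pb KW (X' + 1) ≤ pb (KW + 1) (a * (X + Y + 1)) :=
    pb_mono (Nat.le_succ _) (Nat.le_add_left _ _) hX'
  refine h1.trans ?_
  unfold pb
  rw [← mul_assoc]
  have h2 : 1 ≤ K * (X + Y + 1) := by
    have : 1 ≤ (KW + 1) * a := Nat.one_le_iff_ne_zero.2 (by positivity)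
    exact Nat.one_le_iff_ne_zero.2 (Nat.mul_ne_zero (by omega) (by omega))
  calc ((KW + 1) * a * (X + Y + 1)) ^ (KW + 1) ≤ (K * (X + Y + 1)) ^ (KW + 1) :=
        Nat.pow_le_pow_left (Nat.mul_le_mul_right _ hK) _
    _ ≤ (K * (X + Y + 1)) ^ K := by
        refine Nat.pow_le_pow_right h2 (le_trans ?_ hK)
        exact Nat.le_mul_of_pos_right _ ha

theorem step_two (K X Y R : ℕ) (hK : 2 ≤ K) (hR : pb K (X + Y + 1) ≤ R) : 2 * Y ≤ R := by
  refine le_trans ?_ hR
  unfold pb
  calc 2 * Y ≤ K * (X + Y + 1) := Nat.mul_le_mul hK (by omega)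
    _ ≤ (K * (X + Y + 1)) ^ K := Nat.le_self_pow (by omega) _

section cells

variable {ι : Type} [Fintype ι] [DecidableEq ι] {m : ℕ}

theorem step_mem_cell {Γ : AddSubgroup (ι → ZMod m)} {y x : ι → Bool}
    {f : (ι → Bool) → Bool} : x ∈ cell Γ y f ↔ x ∈ fibz Γ ∅ y y ∧ f x = true := by
  unfold cell tr
  exact Finset.mem_filter

/-- The fibre of the larger group. -/
theorem step_fib_adj {w : ℕ} (Γ : AddSubgroup (ι → ZMod m)) (y y' x : ι → Bool)
    (l : Fin w → ι → ZMod m) (hy' : y' ∈ fibz Γ ∅ y y) :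
    x ∈ fibz (adj Γ l) ∅ y' y' ↔ x ∈ fibz Γ ∅ y y ∧ vals l x = vals l y' := by
  constructor
  · intro h
    refine ⟨fibz_self_subset (le_adj Γ l) (Finset.Subset.refl _) hy' h, ?_⟩
    funext a
    exact (mem_fibz.1 h).2 _ (mem_adj Γ l a)
  · rintro ⟨h1, h2⟩
    refine mem_fibz.2 ⟨fun i hi => absurd hi (Finset.notMem_empty _), ?_⟩
    refine adj_eq Γ l x y' ?_ fun j => congrFun h2 j
    intro l' hl'
    rw [(mem_fibz.1 h1).2 l' hl', (mem_fibz.1 hy').2 l' hl']

end cells

/-- The balance of one bad cell, from near-uniformity. -/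
theorem step_bal (p : ℕ) [Fact p.Prime] {m : ℕ} [NeZero m] {w d KW : ℕ}
    {ι : Type} [Fintype ι] [DecidableEq ι]
    (hKW : ∀ (f : (ι → Bool) → Bool) (X R : ℕ)
      (Γ : AddSubgroup (ι → ZMod m)) (y : ι → Bool)
      (Kn : AddSubgroup (Fin w → ZMod m)) (L : Fin w → ι → ZMod m) (v : Fin w → ZMod m),
      Nat.card Γ ≤ 2 ^ X → (∀ h, h ∉ Kn → ∀ l ∈ Γ, R ≤ off ∅ (comb h L + l)) →
      pb KW (X + 1) ≤ R → Apx p d (2 ^ X) f →
      (∀ x ∈ cell Γ y f, ∀ h ∈ Kn, pair h (vals L x) = pair h v) →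
      2 ^ Fintype.card ι ≤ 2 ^ X * (cell Γ y f).card →
      (cell Γ y f).card ≤ 2 * m ^ w * ((cell Γ y f).filter fun x => vals L x = v).card)
    (f : (ι → Bool) → Bool) (X R : ℕ)
    (Γ : AddSubgroup (ι → ZMod m)) (y : ι → Bool)
    (Kn : AddSubgroup (Fin w → ZMod m)) (L : Fin w → ι → ZMod m) (v : Fin w → ZMod m)
    (h1 : Nat.card Γ ≤ 2 ^ X) (h2 : ∀ h, h ∉ Kn → ∀ l ∈ Γ, R ≤ off ∅ (comb h L + l))
    (h3 : pb KW (X + 1) ≤ R) (h4 : Apx p d (2 ^ X) f)
    (h5 : ∀ x ∈ cell Γ y f, ∀ h ∈ Kn, pair h (vals L x) = pair h v)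
    (A W : Finset (ι → Bool)) (hA : A = cell Γ y f)
    (hW : ∀ x, x ∈ W ↔ x ∈ cell Γ y f ∧ vals L x = v) :
    2 ^ X * A.card ≤ 2 ^ X * (2 * m ^ w * W.card) + 2 ^ Fintype.card ι := by
  rw [hA]
  by_cases hc : 2 ^ Fintype.card ι ≤ 2 ^ X * (cell Γ y f).card
  · have h6 := hKW f X R Γ y Kn L v h1 h2 h3 h4 h5 hc
    have h7 : ((cell Γ y f).filter fun x => vals L x = v) = W := by
      ext x
      rw [Finset.mem_filter, hW]
    rw [h7] at h6
    exact (Nat.mul_le_mul_left _ h6).trans (Nat.le_add_right _ _)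
  · push Not at hc
    exact hc.le.trans (Nat.le_add_left _ _)

set_option maxHeartbeats 4000000 in
theorem st_Step (p : ℕ) [Fact p.Prime] (hB : ApxBasic p) (hG : ApxGate p) (hM : ApxMore p)
    (hW : St_Wlb p) (hS : St_Sel) : St_Step p := by
  classical
  intro m _ w d hcop hd
  obtain ⟨KW, hKW⟩ := hW m w (d + 4) hcop
  obtain ⟨M, hMd⟩ : ∃ M, M = m ^ w := ⟨_, rfl⟩
  have hM1 : 1 ≤ M := by
    rw [hMd]; exact Nat.one_le_pow _ _ (Nat.pos_of_ne_zero (NeZero.ne m))
  obtain ⟨K, hK⟩ : ∃ K, K = (KW + 1) * (18 * M + 6) + 128 * M ^ 3 + 64 * M + (2 * M + 3) :=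
    ⟨_, rfl⟩
  have hKa : (KW + 1) * (18 * M + 6) ≤ K := by rw [hK]; omega
  have hKb : 64 * M ≤ K := by rw [hK]; omega
  have hKc : 128 * M ^ 3 ≤ 2 ^ K := by
    refine le_trans ?_ Nat.lt_two_pow_self.le
    rw [hK]; omega
  have hKd : 2 * M + 3 ≤ K := by rw [hK]; omega
  refine ⟨K, ?_⟩
  intro ι _ _ X Y R N Γ y B T L Φ hSt hY hN hR hΦ hT
  obtain ⟨hcΓ, hBapx, hdens⟩ := hSt
  have hYR : 2 * Y ≤ R := step_two K X Y R (by omega) hR
  obtain ⟨q, cj, vj, b, Kn, hq, hbapx, hbΦ, hoff, hpair, hgood⟩ :=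
    step_bad p hB hG hM hd Y R N hY hYR hN Γ y L Φ hΦ
  obtain ⟨idx, hidn, hids, hidapx⟩ :=
    step_idx p hB hG q (d + 1) (2 ^ (m ^ w * Y + 2)) b hbapx
  rw [← hMd] at hq
  have hgapx : ∀ o, Apx p (d + 2) (2 ^ ((2 * M + 3) * Y)) (fun x => decide (idx x = o)) := by
    intro o
    refine hB.mono ι (d + 2) (d + 2) _ _ _ le_rfl ?_ (hidapx o)
    rw [← hMd]
    exact step_size M Y q hY hq
  obtain ⟨A, hA⟩ : ∃ A, A = cell Γ y B := ⟨_, rfl⟩
  rw [← hA] at hdens
  obtain ⟨part, hpart⟩ : ∃ part : (ι → Bool) → Option (Fin q × (Fin w → ZMod m)),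
      ∀ x, part x = (idx x).map fun j => (j, vals (L (cj j)) x) := ⟨_, fun _ => rfl⟩
  have hpn : ∀ x, part x = none ↔ idx x = none := by
    intro x
    rw [hpart]
    exact Option.map_eq_none_iff
  have hps : ∀ x j u, part x = some (j, u) ↔ idx x = some j ∧ vals (L (cj j)) x = u := by
    intro x j u
    rw [hpart, Option.map_eq_some_iff]
    constructor
    · rintro ⟨j', h1, h2⟩
      obtain ⟨rfl, rfl⟩ := Prod.mk.inj h2
      exact ⟨h1, rfl⟩
    · rintro ⟨h1, h2⟩
      exact ⟨j, h1, by rw [h2]⟩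
  have hmA : ∀ x, x ∈ A ↔ x ∈ fibz Γ ∅ y y ∧ B x = true := by
    intro x
    rw [hA]
    exact step_mem_cell
  -- `T` avoids the parts of the bad values
  have hTp : ∀ x ∈ T ∩ A, ∀ j, part x ≠ some (j, vj j) := by
    intro x hx j h
    obtain ⟨h1, h2⟩ := (hps x j (vj j)).1 h
    have h3 := hbΦ j x (hids x j h1)
    have h4 := hT x (Finset.mem_inter.1 hx).1 (cj j)
    rw [h2, h3] at h4
    exact Bool.false_ne_true h4
  -- balance of the parts
  have hbal : ∀ j, 2 ^ (X + (2 * M + 3) * Y + (16 * M + 2)) *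
      (A.filter fun x => ∃ u, part x = some (j, u)).card ≤
      2 ^ (X + (2 * M + 3) * Y + (16 * M + 2)) *
        (2 * M * (A.filter fun x => part x = some (j, vj j)).card) + 2 ^ Fintype.card ι := by
    intro j
    have hfm : ∀ x, x ∈ cell Γ y (fun x => B x && decide (idx x = some j)) ↔
        x ∈ A ∧ idx x = some j := by
      intro x
      rw [step_mem_cell, hmA, Bool.and_eq_true, decide_eq_true_eq, and_assoc]
    have h := step_bal p (hKW ι) (fun x => B x && decide (idx x = some j))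
      (X + (2 * M + 3) * Y + (16 * M + 2)) R Γ y (Kn j) (L (cj j)) (vj j) ?_ (hoff j) ?_ ?_ ?_
      (A.filter fun x => ∃ u, part x = some (j, u))
      (A.filter fun x => part x = some (j, vj j)) ?_ ?_
    · rw [← hMd] at h
      exact h
    · exact hcΓ.trans (Nat.pow_le_pow_right (by norm_num) (by omega))
    · refine step_pb KW (18 * M + 6) K X Y _ R ?_ hKa (by omega) hR
      have e1 : (2 * M + 3) * Y ≤ (18 * M + 6) * Y := Nat.mul_le_mul_right _ (by omega)
      have e2 : X ≤ (18 * M + 6) * X := Nat.le_mul_of_pos_left _ (by omega)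
      have e3 : (18 * M + 6) * (X + Y + 1) =
        (18 * M + 6) * X + (18 * M + 6) * Y + (18 * M + 6) := by ring
      rw [e3]
      omega
    · have h4 := step_and p hG (d + 3) (2 ^ X) (2 ^ ((2 * M + 3) * Y)) B
        (fun x => decide (idx x = some j)) hBapx
        (hB.mono ι (d + 2) (d + 3) _ _ _ (Nat.le_succ _) le_rfl (hgapx _))
      refine hB.mono ι (d + 4) (d + 4) _ _ _ le_rfl ?_ h4
      have e1 : 2 ^ X ≤ 2 ^ (X + (2 * M + 3) * Y) :=
        Nat.pow_le_pow_right (by norm_num) (Nat.le_add_right _ _)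
      have e2 : 2 ^ ((2 * M + 3) * Y) ≤ 2 ^ (X + (2 * M + 3) * Y) :=
        Nat.pow_le_pow_right (by norm_num) (Nat.le_add_left _ _)
      have e3 : 1 ≤ 2 ^ (X + (2 * M + 3) * Y) := Nat.one_le_two_pow
      have e4 : 2 ^ 2 ≤ 2 ^ (16 * M + 2) :=
        Nat.pow_le_pow_right (by norm_num) (Nat.le_add_left _ _)
      rw [pow_add 2 (X + (2 * M + 3) * Y) (16 * M + 2)]
      calc 2 ^ X + 2 ^ ((2 * M + 3) * Y) + 1 ≤ 2 ^ (X + (2 * M + 3) * Y) * 2 ^ 2 := by omega
        _ ≤ _ := Nat.mul_le_mul_left _ e4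
    · intro x hx
      obtain ⟨h1, h2⟩ := (hfm x).1 hx
      exact hpair j x ((hmA x).1 h1).1 (hids x j h2)
    · ext x
      rw [hfm, Finset.mem_filter]
      refine and_congr_right fun _ => ?_
      constructor
      · rintro ⟨u, hu⟩
        exact ((hps x j u).1 hu).1
      · intro h1
        exact ⟨_, (hps x j _).2 ⟨h1, rfl⟩⟩
    · intro x
      rw [hfm, Finset.mem_filter, hps, and_assoc]
  have hX' : 2 ^ (X + Y) * (16 * M) ≤ 2 ^ (X + (2 * M + 3) * Y + (16 * M + 2)) := by
    rw [pow_add 2 (X + (2 * M + 3) * Y) (16 * M + 2)]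
    refine Nat.mul_le_mul (Nat.pow_le_pow_right (by norm_num) ?_) ?_
    · have : Y ≤ (2 * M + 3) * Y := Nat.le_mul_of_pos_left _ (by omega)
      omega
    · calc 16 * M ≤ 16 * M + 2 := Nat.le_add_right _ _
        _ ≤ 2 ^ (16 * M + 2) := Nat.lt_two_pow_self.le
  have hcardP : Fintype.card (Fin w → ZMod m) = M := by
    rw [Fintype.card_fun, ZMod.card, Fintype.card_fin, hMd]
  -- output for the good part
  have hmul : Nat.card Γ ≤ M * Nat.card Γ := Nat.le_mul_of_pos_left _ hM1
  have hKY : 2 ^ ((2 * M + 3) * Y) ≤ 2 ^ (K * Y) :=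
    Nat.pow_le_pow_right (by norm_num) (Nat.mul_le_mul_right _ hKd)
  have hnone : cell Γ y (fun x => B x && decide (idx x = none)) =
      A.filter fun x => part x = none := by
    ext x
    rw [step_mem_cell, Finset.mem_filter, hmA, hpn, Bool.and_eq_true, decide_eq_true_eq,
      and_assoc]
  rw [← hA]
  rw [← hMd]
  rcases step_parts hS vj A T part M (Fintype.card ι) X Y
    (X + (2 * M + 3) * Y + (16 * M + 2)) K hcardP hM1 hq hdens hTp hbal hX' hKb hKc with
    h | ⟨x₀, hx₀, h1, h2⟩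
  · refine ⟨Γ, y, fun x => decide (idx x = none), fun x => B x && decide (idx x = none),
      le_rfl, ?_, fun _ => rfl, hmul, hB.mono ι (d + 2) (d + 2) _ _ _ le_rfl hKY (hgapx none),
      ?_, Or.inr ⟨rfl, ?_⟩⟩
    · rw [hnone]
      exact Finset.filter_subset _ _
    · rw [hnone]
      calc 2 ^ Fintype.card ι ≤ 2 ^ X * (T ∩ A).card := hdens
        _ ≤ 2 ^ X * (2 * (T ∩ A.filter fun x => part x = none).card) :=
            Nat.mul_le_mul_left _ h
        _ = 2 ^ (X + 1) * (T ∩ A.filter fun x => part x = none).card := by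
            rw [pow_succ, mul_assoc]
        _ ≤ 2 ^ (X + Y + K) * (T ∩ A.filter fun x => part x = none).card :=
            Nat.mul_le_mul_right _ (Nat.pow_le_pow_right (by norm_num) (by omega))
    · intro c hc x hx
      rw [hnone, Finset.mem_filter, hmA, hpn, hidn] at hx
      exact hgood c hc x hx.1.1 hx.2
  · obtain ⟨-, hx₀A⟩ := Finset.mem_inter.1 hx₀
    have hx₀F := ((hmA x₀).1 hx₀A).1
    cases hix : idx x₀ with
    | none =>
      rw [(hpn x₀).2 hix] at h1 h2
      refine ⟨Γ, y, fun x => decide (idx x = none), fun x => B x && decide (idx x = none),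
        le_rfl, ?_, fun _ => rfl, hmul,
        hB.mono ι (d + 2) (d + 2) _ _ _ le_rfl hKY (hgapx none), ?_, Or.inl ?_⟩
      · rw [hnone]
        exact Finset.filter_subset _ _
      · rw [hnone]; exact h1
      · rw [hnone]; exact h2
    | some j =>
      have hpx : part x₀ = some (j, vals (L (cj j)) x₀) := (hps x₀ j _).2 ⟨hix, rfl⟩
      rw [hpx] at h1 h2
      have hcell : cell (adj Γ (L (cj j))) x₀ (fun x => B x && decide (idx x = some j)) =
          A.filter fun x => part x = some (j, vals (L (cj j)) x₀) := by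
        ext x
        rw [step_mem_cell, Finset.mem_filter, hmA, hps, step_fib_adj Γ y x₀ x _ hx₀F,
          Bool.and_eq_true, decide_eq_true_eq]
        constructor
        · rintro ⟨⟨h3, h4⟩, h5, h6⟩
          exact ⟨⟨h3, h5⟩, h6, h4⟩
        · rintro ⟨⟨h3, h5⟩, h6, h4⟩
          exact ⟨⟨h3, h4⟩, h5, h6⟩
      refine ⟨adj Γ (L (cj j)), x₀, fun x => decide (idx x = some j),
        fun x => B x && decide (idx x = some j), le_adj _ _, ?_, fun _ => rfl, ?_,
        hB.mono ι (d + 2) (d + 2) _ _ _ le_rfl hKY (hgapx (some j)), ?_, Or.inl ?_⟩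
      · rw [hcell]
        exact Finset.filter_subset _ _
      · rw [mul_comm, hMd]
        exact card_adj_le _ _
      · rw [hcell]; exact h1
      · rw [hcell]; exact h2

end Pool.Agent.MXC
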