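import Pool.Agent.MXC.WlbCore

/-!
# Mixed clauses: module Wlb
-/

set_option autoImplicit false

namespace Pool.Agent.MXC

open Finset Pool.Agent.RS Pool.Agent.Helper21.LinSys Pool.Agent.QuadSys

/-- Functions with a polynomial bound. -/
def PBd (g : ℕ → ℕ) : Prop := ∃ C, ∀ u, 1 ≤ u → g u ≤ pb C u

theorem PBd.add {g h : ℕ → ℕ} (hg : PBd g) (hh : PBd h) : PBd fun u => g u + h u := by
  obtain ⟨C, hC⟩ := hg
  obtain ⟨D, hD⟩ := hh
  exact ⟨C + D + 2, fun u hu => (Nat.add_le_add (hC u hu) (hD u hu)).trans (pb_add_pb C D hu)⟩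

theorem PBd.mul {g h : ℕ → ℕ} (hg : PBd g) (hh : PBd h) : PBd fun u => g u * h u := by
  obtain ⟨C, hC⟩ := hg
  obtain ⟨D, hD⟩ := hh
  exact ⟨C + D, fun u hu => (Nat.mul_le_mul (hC u hu) (hD u hu)).trans (pb_mul_pb C D u)⟩

theorem PBd.const (c : ℕ) : PBd fun _ => c :=
  ⟨c + 1, fun _ hu => (Nat.le_mul_of_pos_right c hu).trans (mul_le_pb c hu)⟩

theorem PBd.id : PBd fun u => u :=
  ⟨2, fun u hu => (one_mul u).symm.le.trans (mul_le_pb 1 hu)⟩

theorem PBd.pb_comp (K : ℕ) {g : ℕ → ℕ} (hg : PBd g) (h1 : ∀ u, 1 ≤ u → 1 ≤ g u) :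
    PBd fun u => pb K (g u) := by
  obtain ⟨C, hC⟩ := hg
  exact ⟨(C + 1) * (K + 1), fun u hu =>
    (pb_mono le_rfl (h1 u hu) (hC u hu)).trans (pb_pb C K hu)⟩

theorem PBd.mono {g h : ℕ → ℕ} (hh : PBd h) (hgh : ∀ u, 1 ≤ u → g u ≤ h u) : PBd g := by
  obtain ⟨C, hC⟩ := hh
  exact ⟨C, fun u hu => (hgh u hu).trans (hC u hu)⟩

theorem rho_pow_le (m : ℕ) [NeZero m] (s : ℕ) : rho m ^ (m ^ 2 * s) * 2 ^ s ≤ 1 := by
  have hm : (0 : ℝ) < (m : ℝ) ^ 2 := by
    have : 0 < m := NeZero.pos m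
    positivity
  have h1 : rho m ^ (m ^ 2) = Real.exp (-2) := by
    unfold rho
    rw [← Real.exp_nat_mul]
    congr 1
    push_cast
    rw [mul_neg, mul_div_assoc', mul_comm, mul_div_assoc, div_self hm.ne', mul_one]
  have h2 : Real.exp (-2) * 2 ≤ 1 := by
    have h3 : (2 : ℝ) ≤ Real.exp 2 := by
      have := Real.add_one_le_exp (2 : ℝ)
      linarith
    rw [Real.exp_neg]
    rw [inv_mul_le_iff₀ (Real.exp_pos _)]
    linarith
  rw [pow_mul, h1, ← mul_pow]
  exact pow_le_one₀ (by positivity) h2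

theorem st_Wlb (p : ℕ) [Fact p.Prime] (hB : ApxBasic p) (hD : St_Dist p) : St_Wlb p := by
  classical
  intro m _ w d hcop
  have hm : 1 ≤ m := NeZero.pos m
  -- the constants for all possible orders
  have hD' : ∀ o : ℕ, ∃ K₀ K : ℕ, 2 ≤ o → Nat.Coprime o p →
      ∀ (ι : Type) [Fintype ι] [DecidableEq ι] (f : (ι → Bool) → Bool) (X N : ℕ)
      (Ω : Type) [Fintype Ω] [DecidableEq Ω] [Nonempty Ω]
      (φ : Ω → Finset (Fin (N + o)) → ι → Bool) (r : ℕ → ℝ) (rm : ℝ),
      Apx p d (2 ^ X) f → (∀ ω, SMap (φ ω)) →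
      (∀ z, K₀ * |((univ.filter fun ω => f (φ ω z) = true).card : ℝ) -
        r (z.card % o) * Fintype.card Ω| ≤ rm * Fintype.card Ω) →
      (∀ z, ((univ.filter fun ω => f (φ ω z) = true).card : ℝ) ≤ rm * Fintype.card Ω) →
      0 < rm → rm ≤ 1 → 1 ≤ 2 ^ X * rm → (∀ v < o, 0 ≤ r v ∧ r v ≤ rm) →
      pb K (X + 1) ≤ N → ∀ u < o, ∀ v < o, (4 : ℕ) * |r u - r v| ≤ rm := by
    intro o
    by_cases ho : 2 ≤ o ∧ Nat.Coprime o p
    · obtain ⟨K₀, K, h⟩ := hD d o 4 ho.1 ho.2 (by norm_num)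
      exact ⟨K₀, K, fun _ _ => h⟩
    · exact ⟨0, 0, fun h1 h2 => absurd ⟨h1, h2⟩ ho⟩
  choose K₀ K hK using hD'
  set K₁ := (range (m + 1)).sup K with hK₁
  set K₂ := (range (m + 1)).sup K₀ with hK₂
  -- the polynomial bound
  have hpoly : PBd fun u => ((pb K₁ (u + w * m) + m) *
      (m ^ 2 * (K₂ + (pb K₁ (u + w * m) + m) + 2 * (u + w * m) + 1))) * (u + w * m) + 1 := by
    have hX : PBd fun u => u + w * m := PBd.id.add (PBd.const _)
    have hN : PBd fun u => pb K₁ (u + w * m) + m :=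
      (PBd.pb_comp K₁ hX fun _ hu => by omega).add (PBd.const _)
    exact ((hN.mul ((PBd.const _).mul ((((PBd.const K₂).add hN).add
      ((PBd.const 2).mul hX)).add (PBd.const _)))).mul hX).add (PBd.const _)
  obtain ⟨C, hC⟩ := hpoly
  refine ⟨C, ?_⟩
  intro ι _ _ f X R Γ y Kn L v hΓ hoff hR hf hKn hdense
  set A := cell Γ y f with hA
  -- the most frequent value
  obtain ⟨v', -, hmax⟩ := Finset.exists_max_image (univ : Finset (Fin w → ZMod m))
    (fun u => (A.filter fun x => vals L x = u).card) ⟨0, Finset.mem_univ _⟩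
  have hcardw : Fintype.card (Fin w → ZMod m) = m ^ w := by
    rw [Fintype.card_fun, ZMod.card, Fintype.card_fin]
  have hAle : A.card ≤ m ^ w * (A.filter fun x => vals L x = v').card := by
    rw [Finset.card_eq_sum_card_fiberwise (f := fun x => vals L x) (t := univ)
      (s := A) fun _ _ => Finset.mem_coe.2 (Finset.mem_univ _)]
    refine (Finset.sum_le_sum fun u hu => hmax u hu).trans ?_
    rw [Finset.sum_const, Finset.card_univ, hcardw, smul_eq_mul]
  set X' := X + w * m with hX'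
  have hmw : m ^ w ≤ 2 ^ (w * m) := by
    rw [mul_comm, pow_mul]
    exact Nat.pow_le_pow_left (Nat.lt_two_pow_self (n := m)).le w
  have hbig : 2 ^ Fintype.card ι ≤ 2 ^ X' * (A.filter fun x => vals L x = v').card := by
    calc 2 ^ Fintype.card ι ≤ 2 ^ X * A.card := hdense
      _ ≤ 2 ^ X * (m ^ w * (A.filter fun x => vals L x = v').card) := Nat.mul_le_mul_left _ hAle
      _ ≤ 2 ^ X * (2 ^ (w * m) * (A.filter fun x => vals L x = v').card) :=
          Nat.mul_le_mul_left _ (Nat.mul_le_mul_right _ hmw)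
      _ = 2 ^ X' * (A.filter fun x => vals L x = v').card := by rw [hX', pow_add, mul_assoc]
  by_cases hvv : v = v'
  · rw [hvv]
    calc A.card ≤ m ^ w * (A.filter fun x => vals L x = v').card := hAle
      _ ≤ 2 * (m ^ w * (A.filter fun x => vals L x = v').card) := by omega
      _ = _ := (mul_assoc _ _ _).symm
  set q := v - v' with hq
  have hq0 : q ≠ 0 := sub_ne_zero.2 hvv
  have hpos : 0 < (A.filter fun x => vals L x = v').card := by
    rcases Nat.eq_zero_or_pos (A.filter fun x => vals L x = v').card with h | h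
    · rw [h, mul_zero] at hbig
      exact absurd hbig (not_le.2 (by positivity))
    · exact h
  have hqKn : ∀ h ∈ Kn, pair h q = 0 := by
    intro h hh
    obtain ⟨x, hx⟩ := Finset.card_pos.1 hpos
    rw [Finset.mem_filter] at hx
    have h1 := hKn x hx.1 h hh
    rw [hx.2] at h1
    have h2 : pair h q = pair h v - pair h v' := by
      rw [hq]
      unfold pair
      rw [← Finset.sum_sub_distrib]
      exact Finset.sum_congr rfl fun a _ => mul_sub _ _ _
    rw [h2, h1, sub_self]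
  -- the order of `q`
  have hom : addOrderOf q ∣ m := by
    apply addOrderOf_dvd_of_nsmul_eq_zero
    funext a
    rw [Pi.smul_apply, nsmul_eq_mul, ZMod.natCast_self, zero_mul, Pi.zero_apply]
  have hom' : addOrderOf q ≤ m := Nat.le_of_dvd hm hom
  have ho2 : 2 ≤ addOrderOf q := by
    have h1 : addOrderOf q ≠ 0 := fun h => by
      rw [h] at hom
      have := Nat.eq_zero_of_zero_dvd hom
      omega
    have h2 : addOrderOf q ≠ 1 := fun h => hq0 (AddMonoid.addOrderOf_eq_one_iff.1 h)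
    omega
  have hocop : Nat.Coprime (addOrderOf q) p := Nat.Coprime.coprime_dvd_left hom hcop
  have hmem : addOrderOf q ∈ range (m + 1) := Finset.mem_range.2 (by omega)
  have hK₁le : K (addOrderOf q) ≤ K₁ := Finset.le_sup hmem
  have hK₂le : K₀ (addOrderOf q) ≤ K₂ := Finset.le_sup hmem
  set N := pb K₁ (X' + 1) with hN
  set t := m ^ 2 * (K₂ + (N + m) + 2 * (X' + 1) + 1) with ht
  have hcore := wlb_core p d (K₀ (addOrderOf q)) (K (addOrderOf q)) X' N t R f Γ y L v' q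
    (hK (addOrderOf q) ho2 hocop) ho2 ?_ ?_ ?_ ?_ ?_ ?_ (fun u => hmax u (Finset.mem_univ _)) hbig
  · have h1 : v' + q = v := by rw [hq]; exact add_sub_cancel _ _
    rw [h1] at hcore
    calc A.card ≤ m ^ w * (A.filter fun x => vals L x = v').card := hAle
      _ ≤ m ^ w * (2 * (A.filter fun x => vals L x = v).card) := Nat.mul_le_mul_left _ hcore
      _ = _ := by ring
  · calc Nat.card Γ * m ^ w ≤ 2 ^ X * 2 ^ (w * m) := Nat.mul_le_mul hΓ hmw
      _ = 2 ^ X' := by rw [hX', pow_add]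
  · intro h hh l hl
    exact hoff h (fun hc => hh (hqKn h hc)) l hl
  · have h1 := hC (X + 1) (by omega)
    beta_reduce at h1
    have h2 : X + 1 + w * m = X' + 1 := by omega
    rw [h2, ← hN, ← ht] at h1
    have h3 : (N + addOrderOf q) * t * X' ≤ (N + m) * t * (X' + 1) :=
      Nat.mul_le_mul (Nat.mul_le_mul_right _ (by omega)) (by omega)
    omega
  · exact pb_mono hK₁le (by omega) le_rfl
  · -- smallness
    have h1 := rho_pow_le m (K₂ + (N + m) + 2 * (X' + 1) + 1)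
    rw [← ht] at h1
    have hrho : 0 ≤ rho m ^ t := pow_nonneg (rho_pos m).le _
    have h2 : ((K₀ (addOrderOf q) : ℝ) + 1) ≤ 2 ^ (K₂ + 1) := by
      have h3 : K₀ (addOrderOf q) + 1 ≤ 2 ^ (K₂ + 1) :=
        (Nat.add_le_add_right hK₂le 1).trans (Nat.lt_two_pow_self (n := K₂ + 1)).le
      exact_mod_cast h3
    have h3 : ((N + addOrderOf q : ℕ) : ℝ) ≤ 2 ^ (N + m) := by
      have h4 : N + addOrderOf q ≤ 2 ^ (N + m) :=
        (Nat.add_le_add_left hom' N).trans (Nat.lt_two_pow_self (n := N + m)).le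
      exact_mod_cast h4
    calc ((K₀ (addOrderOf q) : ℝ) + 1) * ((N + addOrderOf q : ℕ) *
          (2 ^ X' * (2 * rho m ^ t))) * 2 ^ X'
        ≤ 2 ^ (K₂ + 1) * (2 ^ (N + m) * (2 ^ X' * (2 * rho m ^ t))) * 2 ^ X' := by
          gcongr
      _ = rho m ^ t * 2 ^ (K₂ + (N + m) + 2 * (X' + 1)) := by
          have : K₂ + (N + m) + 2 * (X' + 1) = (K₂ + 1) + (N + m) + X' + 1 + X' := by ring
          rw [this]
          simp only [pow_add]
          ring
      _ ≤ rho m ^ t * 2 ^ (K₂ + (N + m) + 2 * (X' + 1) + 1) :=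
          mul_le_mul_of_nonneg_left (pow_le_pow_right₀ (by norm_num) (by omega)) hrho
      _ ≤ 1 := h1
  · exact hB.mono ι d d (2 ^ X) (2 ^ X') f le_rfl (Nat.pow_le_pow_right (by norm_num) (by omega))
      hf

end Pool.Agent.MXC
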