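import Pool.Agent.MXC.Main
import Pool.Agent.MXC.One
import Pool.Agent.MXC.CoreA
import Pool.Agent.MXC.All
import Pool.Agent.MXC.Phase
import Pool.Agent.MXC.Step
import Pool.Agent.MXC.Sel
import Pool.Agent.MXC.Wlb
import Pool.Agent.MXC.Dist
import Pool.Agent.MXC.Smol
import Pool.Agent.MXC.OrRate
import Pool.Agent.MXC.Gap
import Pool.Agent.MXC.Sample
import Pool.Agent.MXC.PPart
import Pool.Agent.MXC.ApxMore
import Pool.Agent.MXC.ApxGate
import Pool.Agent.MXC.ApxBasic

/-!
# Mixed clauses: the assembled theorem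
-/

set_option autoImplicit false

namespace Pool.Agent.MXC

theorem st_Dist' (p : ℕ) [Fact p.Prime] : St_Dist p :=
  st_Dist p (st_ApxBasic p) (st_ApxGate p) st_Smol st_OrRate st_Gap st_Sample

theorem st_Wlb' (p : ℕ) [Fact p.Prime] : St_Wlb p :=
  st_Wlb p (st_ApxBasic p) (st_Dist' p)

theorem st_ApxMore' (p : ℕ) [Fact p.Prime] : ApxMore p :=
  st_ApxMore p (st_ApxBasic p) (st_ApxGate p)

theorem st_Step' (p : ℕ) [Fact p.Prime] : St_Step p :=
  st_Step p (st_ApxBasic p) (st_ApxGate p) (st_ApxMore' p) (st_Wlb' p) st_Sel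

theorem st_All' (p : ℕ) [Fact p.Prime] : St_All p :=
  st_All p (st_ApxBasic p) (st_Phase p (st_ApxBasic p) (st_ApxGate p) (st_Step' p))

theorem st_One' (p : ℕ) [Fact p.Prime] : St_One p :=
  st_One p (st_ApxBasic p) (st_ApxMore' p)
    (st_PPart p (st_ApxBasic p) (st_ApxGate p) (st_ApxMore' p)) (st_All' p)
    (st_CoreA p (st_ApxBasic p))

theorem main_theorem (p : ℕ) [Fact p.Prime] : St_Main p := st_Main p (st_One' p)

end Pool.Agent.MXC
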