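import Pool.Agent.MXC.Stmts

/-!
# Mixed clauses: guessing the values of the special gates
-/

set_option autoImplicit false

namespace Pool.Agent.MXC

open Finset Pool.Agent.RS

/-- `Q` and its negation are both `OR`s of `s` functions, each of which is an `AND` of `s` mixed
clauses. (`AND`s and `OR`s of `s` clauses and decision lists of length `s` have this form.) -/
def TwoSided (p m w d n s : ℕ) (Q : (Fin n → Bool) → Bool) : Prop :=
  ∀ v : Bool, ∃ A : Fin s → (Fin n → Bool) → Bool, (∀ e, MixedAnd p m w d n s s (A e)) ∧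
    ∀ x, Q x = v ↔ ∃ e, A e x = true

/-- On the points `x` at which the gates `P i` of smaller level have given values `b i`, the gate
`P j` equals a gate `TwoSided`, which may depend on `b`. -/
def Nested (p m w d n s k : ℕ) (lev : Fin k → ℕ) (P : Fin k → (Fin n → Bool) → Bool) : Prop :=
  ∀ (j : Fin k) (b : Fin k → Bool), ∃ Q, TwoSided p m w d n s Q ∧
    ∀ x, (∀ i, lev i < lev j → P i x = b i) → P j x = Q x

/-- `MixedAnd` with an arbitrary finite index type. -/
theorem mixedAnd_of_fintype {p m w d n s N : ℕ} {J : Type} [Fintype J]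
    (hN : Fintype.card J = N) (Q : (Fin n → Bool) → Bool)
    (C : J → Fin w → Circuit (Fin n) s) (c : J → Fin w → Fin n → ZMod m)
    (F : J → (Fin w → Prop) → (Fin w → ZMod m) → Prop)
    (hC : ∀ i a, (C i a).level (C i a).out + 1 ≤ d)
    (hQ : ∀ x, Q x = true ↔ ∀ i, F i (fun a => (C i a).Accepts p x)
      (fun a => ∑ v, if x v = true then c i a v else 0)) :
    MixedAnd p m w d n s N Q := by
  classical
  subst hN
  let e := (Fintype.equivFin J).symm
  refine ⟨fun i => C (e i), fun i => c (e i), fun i => F (e i), fun i a => hC _ _, fun x => ?_⟩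
  rw [hQ x]
  refine ⟨fun h i => h (e i), fun h j => ?_⟩
  have h1 := h (e.symm j)
  simp only [Equiv.apply_symm_apply] at h1
  exact h1

/-- The values of the special gates are guessed. -/
theorem guess {p m w d n k s t : ℕ} (lev : Fin t → Fin k → ℕ)
    (P : Fin t → Fin k → (Fin n → Bool) → Bool)
    (C : Fin t → (Fin k → Bool) → Circuit (Fin n) s)
    (hS : ∀ i, Nested p m w d n s k (lev i) (P i))
    (hC : ∀ i b, (C i b).level (C i b).out + 1 ≤ d) :
    ∃ G : Fin t × (Fin k → Bool) × (Fin k → Fin s) → (Fin n → Bool) → Bool,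
      (∀ q, MixedAnd p m (w + 1) d n s (k * s + 1) (G q)) ∧
      ∀ x, (∃ q, G q x = true) ↔ ∃ i, (C i fun j => P i j x).Accepts p x := by
  classical
  choose Q hQ hPQ using hS
  choose A hA hAQ using hQ
  choose Cc cc Fc hCl hAF using hA
  let Gp : Fin t × (Fin k → Bool) × (Fin k → Fin s) → (Fin n → Bool) → Prop := fun q x =>
    (C q.1 q.2.1).Accepts p x ∧ ∀ j : Fin k, A q.1 j q.2.1 (q.2.1 j) (q.2.2 j) x = true
  refine ⟨fun q x => decide (Gp q x), fun q => ?_, fun x => ?_⟩
  · refine mixedAnd_of_fintype (J := Option (Fin k × Fin s)) (by simp) _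
      (fun jc => match jc with
        | none => fun _ => C q.1 q.2.1
        | some (j, c) => Fin.cons (C q.1 q.2.1) (Cc q.1 j q.2.1 (q.2.1 j) (q.2.2 j) c))
      (fun jc => match jc with
        | none => fun _ _ => 0
        | some (j, c) => Fin.cons (fun _ => 0) (cc q.1 j q.2.1 (q.2.1 j) (q.2.2 j) c))
      (fun jc => match jc with
        | none => fun a _ => a 0
        | some (j, c) => fun a v => Fc q.1 j q.2.1 (q.2.1 j) (q.2.2 j) c
            (fun i => a i.succ) (fun i => v i.succ)) ?_ ?_
    · rintro (_ | ⟨j, c⟩) a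
      · exact hC _ _
      · refine Fin.cases ?_ (fun a => ?_) a
        · exact hC _ _
        · exact hCl _ _ _ _ _ _ _
    · intro x
      rw [decide_eq_true_eq]
      constructor
      · rintro ⟨h1, h2⟩ (_ | ⟨j, c⟩)
        · exact h1
        · exact (hAF _ _ _ _ _ x).1 (h2 j) c
      · intro h
        exact ⟨h none, fun j => (hAF _ _ _ _ _ x).2 fun c => h (some (j, c))⟩
  · constructor
    · rintro ⟨⟨i, b, e⟩, hq⟩
      rw [decide_eq_true_eq] at hq
      obtain ⟨h1, h2⟩ := hq
      have hP : ∀ (r : ℕ) (j : Fin k), lev i j < r → P i j x = b j := by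
        intro r
        induction r with
        | zero => intro j hj; omega
        | succ r ih =>
          intro j hj
          rw [hPQ i j b x fun i' hi' => ih i' (by omega), hAQ i j b (b j) x]
          exact ⟨e j, h2 j⟩
      refine ⟨i, ?_⟩
      have h4 : (fun j => P i j x) = b := funext fun j => hP (lev i j + 1) j (by omega)
      rw [h4]
      exact h1
    · rintro ⟨i, hi⟩
      have h3 : ∀ j, ∃ e, A i j (fun j => P i j x) (P i j x) e x = true := fun j =>
        (hAQ i j (fun j => P i j x) (P i j x) x).1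
          (hPQ i j (fun j => P i j x) x fun _ _ => rfl).symm
      choose e he using h3
      refine ⟨(i, fun j => P i j x, e), ?_⟩
      rw [decide_eq_true_eq]
      exact ⟨hi, he⟩

/-- The number of guesses. -/
theorem card_guess (k s t : ℕ) :
    Fintype.card (Fin t × (Fin k → Bool) × (Fin k → Fin s)) = t * (2 ^ k * s ^ k) := by
  simp

end Pool.Agent.MXC
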