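import Pool.Agent.MXC.Stmts
import Pool.Agent.QuadSys.Majority

/-!
# Mixed clauses: module Main

The values of the gates are guessed, together with a false clause for each gate which is
guessed to be false.
-/

set_option autoImplicit false

namespace Pool.Agent.MXC

open Finset Pool.Agent.RS Pool.Agent.Helper21.LinSys Pool.Agent.QuadSys

/-- `MixedAnd` with an arbitrary finite index type. -/
theorem mixedAnd_of {p m w d n s : ℕ} {J : Type} [Fintype J] (Q : (Fin n → Bool) → Bool)
    (C : J → Fin w → Circuit (Fin n) s) (c : J → Fin w → Fin n → ZMod m)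
    (F : J → (Fin w → Prop) → (Fin w → ZMod m) → Prop)
    (hC : ∀ i a, (C i a).level (C i a).out + 1 ≤ d)
    (hQ : ∀ x, Q x = true ↔ ∀ i, F i (fun a => (C i a).Accepts p x)
      (fun a => ∑ v, if x v = true then c i a v else 0)) :
    MixedAnd p m w d n s (Fintype.card J) Q := by
  classical
  let e := (Fintype.equivFin J).symm
  refine ⟨fun i => C (e i), fun i => c (e i), fun i => F (e i), fun i a => hC _ _, fun x => ?_⟩
  rw [hQ x]
  refine ⟨fun h i => h (e i), fun h j => ?_⟩
  have h1 := h (e.symm j)
  simp only [Equiv.apply_symm_apply] at h1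
  exact h1

/-- The integer form of the bound. -/
theorem main_nat (p : ℕ) [Fact p.Prime] (hO : St_One p) (m w d : ℕ) (hm : 2 ≤ m) :
    ∃ K : ℕ, ∀ n k s t : ℕ, 1 ≤ k → 1 ≤ s → 1 ≤ t →
      ∀ (lev : Fin t → Fin k → ℕ) (P : Fin t → Fin k → (Fin n → Bool) → Bool)
        (C : Fin t → (Fin k → Bool) → Circuit (Fin n) s),
        (∀ i, Special p m w d n s k (lev i) (P i)) →
        (∀ i b, (C i b).level (C i b).out + 1 ≤ d) →
        (∀ x : Fin n → Bool, (∃ i, (C i fun j => P i j x).Accepts p x) ↔
          n ≤ 2 * (univ.filter fun i => x i = true).card) →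
        n ≤ pb K ((k + 2) * (Nat.clog 2 (s + t + n) + 1)) := by
  classical
  obtain ⟨K, hK⟩ := hO m (w + 1) d hm
  refine ⟨K, ?_⟩
  intro n k s t hk hs ht lev P C hS hlevel hmaj
  have : Nonempty (Fin s) := ⟨⟨0, hs⟩⟩
  choose Q hQ hPQ using hS
  choose Cc cc Fc hCl hQF using hQ
  -- the condition that clause `c` of `Q i j b` holds
  let cl : ∀ (i : Fin t) (j : Fin k) (b : Fin k → Bool) (c : Fin s) (x : Fin n → Bool), Prop :=
    fun i j b c x => Fc i j b c (fun a => (Cc i j b c a).Accepts p x)
      (fun a => ∑ v, if x v = true then cc i j b c a v else 0)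
  have hQcl : ∀ i j b x, Q i j b x = true ↔ ∀ c, cl i j b c x := fun i j b x => hQF i j b x
  let I := Fin t × (Fin k → Bool) × (Fin k → Fin s)
  let J := Option (Fin k × Fin s)
  let Gp : I → (Fin n → Bool) → Prop := fun q x =>
    (C q.1 q.2.1).Accepts p x ∧ ∀ (j : Fin k) (c : Fin s),
      (q.2.1 j = true → cl q.1 j q.2.1 c x) ∧ (q.2.1 j = false → ¬ cl q.1 j q.2.1 (q.2.2 j) x)
  let G : I → (Fin n → Bool) → Bool := fun q x => decide (Gp q x)
  have hG : ∀ q x, G q x = true ↔ Gp q x := fun q x => by simp [G]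
  set L := Nat.clog 2 (s + t + n) with hL
  set X := (k + 2) * (L + 1) with hX
  have h2L : s + t + n ≤ 2 ^ L := Nat.le_pow_clog (by norm_num) _
  have hXe : X = L * k + k + 2 * L + 2 := by rw [hX]; ring
  have hk2 : k + 1 ≤ 2 ^ k := Nat.lt_two_pow_self
  have hJ : Fintype.card J = k * s + 1 := by simp [J]
  have hI : Fintype.card I = t * (2 ^ k * s ^ k) := by simp [I]
  have hLX : 2 ^ L ≤ 2 ^ X := Nat.pow_le_pow_right (by norm_num) (by omega)
  refine hK n s (Fintype.card J) X I G (by omega) (by omega) ?_ (by omega) ?_ ?_ ?_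
  · rw [hJ]
    calc k * s + 1 ≤ (k + 1) * s := by nlinarith
      _ ≤ 2 ^ k * 2 ^ L := Nat.mul_le_mul hk2 (by omega)
      _ = 2 ^ (k + L) := (pow_add _ _ _).symm
      _ ≤ 2 ^ X := Nat.pow_le_pow_right (by norm_num) (by rw [hXe]; omega)
  · rw [hI]
    calc t * (2 ^ k * s ^ k) ≤ 2 ^ L * (2 ^ k * (2 ^ L) ^ k) :=
          Nat.mul_le_mul (by omega)
            (Nat.mul_le_mul_left _ (Nat.pow_le_pow_left (by omega) _))
      _ = 2 ^ (L + (k + L * k)) := by rw [← pow_mul, ← pow_add, ← pow_add]
      _ ≤ 2 ^ X := Nat.pow_le_pow_right (by norm_num) (by rw [hXe]; omega)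
  · intro q
    refine mixedAnd_of (J := J) (G q)
      (fun jc => match jc with
        | none => fun _ => C q.1 q.2.1
        | some (j, c) => Fin.cons (C q.1 q.2.1)
            (Cc q.1 j q.2.1 (if q.2.1 j = true then c else q.2.2 j)))
      (fun jc => match jc with
        | none => fun _ _ => 0
        | some (j, c) => Fin.cons (fun _ => 0)
            (cc q.1 j q.2.1 (if q.2.1 j = true then c else q.2.2 j)))
      (fun jc => match jc with
        | none => fun a _ => a 0
        | some (j, c) => fun a v =>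
            (q.2.1 j = true ↔ Fc q.1 j q.2.1 (if q.2.1 j = true then c else q.2.2 j)
              (fun i => a i.succ) (fun i => v i.succ))) ?_ ?_
    · rintro (_ | ⟨j, c⟩) a
      · exact hlevel _ _
      · refine Fin.cases ?_ (fun a => ?_) a
        · exact hlevel _ _
        · exact hCl _ _ _ _ _
    · intro x
      rw [hG]
      constructor
      · rintro ⟨h1, h2⟩ (_ | ⟨j, c⟩)
        · exact h1
        · rcases Bool.eq_false_or_eq_true (q.2.1 j) with hb | hb
          · simp only [hb, if_true, true_iff]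
            exact (h2 j c).1 hb
          · simp only [hb, Bool.false_eq_true, if_false, false_iff]
            exact (h2 j c).2 hb
      · intro h
        refine ⟨h none, fun j c => ⟨fun hb => ?_, fun hb => ?_⟩⟩
        · have := h (some (j, c))
          simp only [hb, if_true, true_iff] at this
          exact this
        · have := h (some (j, c))
          simp only [hb, Bool.false_eq_true, if_false, false_iff] at this
          exact this
  · intro x
    rw [show ones x = (univ.filter fun i => x i = true).card from rfl, ← hmaj x]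
    constructor
    · rintro ⟨⟨i, b, e⟩, hq⟩
      rw [hG] at hq
      obtain ⟨h1, h2⟩ := hq
      have hP : ∀ (r : ℕ) (j : Fin k), lev i j < r → P i j x = b j := by
        intro r
        induction r with
        | zero => intro j hj; omega
        | succ r ih =>
          intro j hj
          have h3 := hPQ i j b x fun i' hi' => ih i' (by omega)
          rw [h3]
          rcases Bool.eq_false_or_eq_true (b j) with hb | hb
          · rw [hb, hQcl]
            exact fun c => (h2 j c).1 hb
          · rw [hb, Bool.eq_false_iff, Ne, hQcl]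
            exact fun hall => (h2 j (e j)).2 hb (hall _)
      refine ⟨i, ?_⟩
      have h4 : (fun j => P i j x) = b := funext fun j => hP (lev i j + 1) j (by omega)
      rw [h4]
      exact h1
    · rintro ⟨i, hi⟩
      have h3 : ∀ j, P i j x = Q i j (fun j => P i j x) x := fun j =>
        hPQ i j (fun j => P i j x) x fun _ _ => rfl
      have h4 : ∀ j, ∃ c, P i j x = false → ¬ cl i j (fun j => P i j x) c x := by
        intro j
        rcases Bool.eq_false_or_eq_true (P i j x) with hb | hb
        · exact ⟨⟨0, hs⟩, fun h => by rw [hb] at h; exact absurd h (by simp)⟩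
        · have h5 : ¬ Q i j (fun j => P i j x) x = true := by rw [← h3 j, hb]; simp
          rw [hQcl] at h5
          push Not at h5
          obtain ⟨c, hc⟩ := h5
          exact ⟨c, fun _ => hc⟩
      choose e he using h4
      refine ⟨(i, fun j => P i j x, e), ?_⟩
      rw [hG]
      refine ⟨hi, fun j c => ⟨fun hb => ?_, fun hb => he j hb⟩⟩
      have h5 : Q i j (fun j => P i j x) x = true := by rw [← h3 j]; exact hb
      rw [hQcl] at h5
      exact h5 c

theorem st_Main (p : ℕ) [Fact p.Prime] (hO : St_One p) : St_Main p := by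
  intro m w d hm
  obtain ⟨K, hK⟩ := main_nat p hO m w d hm
  refine ⟨2 * (9 * K + 1), ?_⟩
  intro n k s t hk lev P C hS hlevel hmaj
  rcases Nat.eq_zero_or_pos n with rfl | hn
  · have h : Even (2 * (9 * K + 1)) := even_two_mul _
    have := h.pow_nonneg (((2 * (9 * K + 1) : ℕ) : ℝ) * k * Real.log (s + t + (0 : ℕ)))
    simpa using this
  obtain ⟨i, -⟩ := (hmaj fun _ => true).2 (by simp; omega)
  have ht : 1 ≤ t := by have := i.2; omega
  have hs : 1 ≤ s := by have := (C i fun _ => true).out.2; omega
  have h1 := hK n k s t hk hs ht lev P C hS hlevel hmaj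
  set L := Nat.clog 2 (s + t + n) with hL
  have hLlg : (L : ℝ) ≤ 3 * Real.log (s + t + n) := by
    have := clog_le_log (N := s + t + n) (by omega)
    push_cast at this
    exact this
  set lg := Real.log (s + t + n) with hlg
  have hsR : (1 : ℝ) ≤ s := by exact_mod_cast hs
  have htR : (1 : ℝ) ≤ t := by exact_mod_cast ht
  have hnR : (1 : ℝ) ≤ n := by exact_mod_cast hn
  have hkR : (1 : ℝ) ≤ k := by exact_mod_cast hk
  have hL1 : (1 : ℝ) ≤ L := by
    have : 1 ≤ L := Nat.clog_pos (by norm_num) (by omega)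
    exact_mod_cast this
  have hlg1 : 1 ≤ lg := by
    rw [hlg, Real.le_log_iff_exp_le (by linarith)]
    have := Real.exp_one_lt_d9
    linarith
  have h2 : (n : ℝ) ≤ (K * ((k + 2) * (L + 1))) ^ K := by
    unfold pb at h1
    exact_mod_cast h1
  have hKk : (0 : ℝ) ≤ K := Nat.cast_nonneg _
  have hkl : (1 : ℝ) ≤ k * lg := one_le_mul_of_one_le_of_one_le hkR hlg1
  have h4 : ((k : ℝ) + 2) * (L + 1) ≤ 18 * (k * lg) := by
    calc ((k : ℝ) + 2) * (L + 1) ≤ (3 * k) * (2 * L) := by
          apply mul_le_mul <;> nlinarith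
      _ = 6 * k * L := by ring
      _ ≤ 6 * k * (3 * lg) := by
          apply mul_le_mul_of_nonneg_left hLlg; positivity
      _ = _ := by ring
  have h3 : (K : ℝ) * ((k + 2) * (L + 1)) ≤ (2 * (9 * K + 1) : ℕ) * k * lg := by
    push_cast
    calc (K : ℝ) * ((k + 2) * (L + 1)) ≤ K * (18 * (k * lg)) :=
          mul_le_mul_of_nonneg_left h4 hKk
      _ ≤ _ := by nlinarith
  have h5 : (1 : ℝ) ≤ (2 * (9 * K + 1) : ℕ) * k * lg := by
    push_cast
    nlinarith
  calc (n : ℝ) ≤ (K * ((k + 2) * (L + 1))) ^ K := h2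
    _ ≤ ((2 * (9 * K + 1) : ℕ) * k * lg) ^ K := pow_le_pow_left₀ (by positivity) h3 K
    _ ≤ ((2 * (9 * K + 1) : ℕ) * k * lg) ^ (2 * (9 * K + 1)) :=
        pow_le_pow_right₀ h5 (by omega)

end Pool.Agent.MXC
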