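import Pool.Agent.MXC.OneAvg
import Pool.Agent.MXC.Guess
import Pool.Agent.MXC.Final
import Pool.Agent.QuadSys.Majority

/-!
# Mixed clauses: the main theorem for the middle layer
-/

set_option autoImplicit false

namespace Pool.Agent.MXC

open Finset Pool.Agent.RS Pool.Agent.Helper21.LinSys Pool.Agent.QuadSys

theorem st_OneAvg' (p : ℕ) [Fact p.Prime] : St_OneAvg p :=
  st_OneAvg p (st_ApxBasic p) (st_ApxMore' p)
    (st_PPart p (st_ApxBasic p) (st_ApxGate p) (st_ApxMore' p)) (st_All' p)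
    (st_CoreA p (st_ApxBasic p))

/-- the numerical conversion -/
theorem pb_le_log (K : ℕ) {k N : ℕ} (hN : 3 ≤ N) :
    ((pb K ((k + 2) * (Nat.clog 2 N + 1)) : ℕ) : ℝ) ≤
      (((12 * K + 1 : ℕ) : ℝ) * ((k : ℝ) + 1) * Real.log N) ^ (12 * K + 1) := by
  set L := Nat.clog 2 N with hL
  have hLlg : (L : ℝ) ≤ 3 * Real.log N := clog_le_log hN
  set lg := Real.log N with hlg
  have hN3 : (3 : ℝ) ≤ N := by exact_mod_cast hN
  have hL1 : (1 : ℝ) ≤ L := by
    have : 1 ≤ L := Nat.clog_pos (by norm_num) (by omega)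
    exact_mod_cast this
  have hlg1 : 1 ≤ lg := by
    rw [hlg, Real.le_log_iff_exp_le (by linarith)]
    have := Real.exp_one_lt_d9
    linarith
  have hKk : (0 : ℝ) ≤ K := Nat.cast_nonneg _
  have hk0 : (0 : ℝ) ≤ k := Nat.cast_nonneg _
  have hkl : (1 : ℝ) ≤ (k + 1) * lg :=
    one_le_mul_of_one_le_of_one_le (by linarith) hlg1
  have h4 : ((k : ℝ) + 2) * (L + 1) ≤ 12 * ((k + 1) * lg) := by
    calc ((k : ℝ) + 2) * (L + 1) ≤ (2 * (k + 1)) * (2 * L) := by
          apply mul_le_mul <;> nlinarith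
      _ = 4 * (k + 1) * L := by ring
      _ ≤ 4 * (k + 1) * (3 * lg) := by
          apply mul_le_mul_of_nonneg_left hLlg; positivity
      _ = _ := by ring
  have h3 : (K : ℝ) * ((k + 2) * (L + 1)) ≤ ((12 * K + 1 : ℕ) : ℝ) * ((k : ℝ) + 1) * lg := by
    push_cast
    calc (K : ℝ) * ((k + 2) * (L + 1)) ≤ K * (12 * ((k + 1) * lg)) :=
          mul_le_mul_of_nonneg_left h4 hKk
      _ ≤ _ := by nlinarith
  have h5 : (1 : ℝ) ≤ ((12 * K + 1 : ℕ) : ℝ) * ((k : ℝ) + 1) * lg := by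
    push_cast
    nlinarith
  unfold pb
  push_cast
  push_cast at h3 h5
  calc ((K : ℝ) * ((k + 2) * (L + 1))) ^ K
      ≤ ((12 * K + 1) * (k + 1) * lg) ^ K := pow_le_pow_left₀ (by positivity) h3 K
    _ ≤ _ := pow_le_pow_right₀ h5 (by omega)

theorem main_avg (p : ℕ) [Fact p.Prime] (m w d : ℕ) (hm : 2 ≤ m) :
    ∃ K : ℕ, ∀ (n k s t r : ℕ) (lev : Fin t → Fin k → ℕ)
      (P : Fin t → Fin k → (Fin n → Bool) → Bool)
      (C : Fin t → (Fin k → Bool) → Circuit (Fin n) s) (A : Finset (Fin n → Bool)),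
      (∀ i, Nested p m w d n s k (lev i) (P i)) →
      (∀ i b, (C i b).level (C i b).out + 1 ≤ d) →
      (∀ i x, (C i fun j => P i j x).Accepts p x →
        n ≤ 2 * (univ.filter fun v => x v = true).card) →
      (∀ x ∈ A, (univ.filter fun v => x v = true).card = (n + 1) / 2 ∧
        ∃ i, (C i fun j => P i j x).Accepts p x) →
      n.choose ((n + 1) / 2) ≤ r * A.card →
      (n : ℝ) ≤ (K * (k + 1) * Real.log (s + t + r + n)) ^ K := by
  classical
  obtain ⟨K, hK⟩ := st_OneAvg' p m (w + 1) d hm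
  refine ⟨12 * K + 1, ?_⟩
  intro n k s t r lev P C A hS hlevel hrej hA hacc
  have hch : 0 < n.choose ((n + 1) / 2) := Nat.choose_pos (by omega)
  have hr : 1 ≤ r := by
    rcases Nat.eq_zero_or_pos r with h0 | h0
    · rw [h0, zero_mul] at hacc
      omega
    · exact h0
  have hA0 : A.Nonempty := by
    rw [Finset.nonempty_iff_ne_empty]
    intro h0
    rw [h0, card_empty, mul_zero] at hacc
    omega
  obtain ⟨x0, hx0⟩ := hA0
  obtain ⟨-, i0, -⟩ := hA x0 hx0
  have ht : 1 ≤ t := by have := i0.2; omega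
  have hs : 1 ≤ s := by have := (C i0 fun _ => true).out.2; omega
  obtain ⟨G, hG, hGC⟩ := guess lev P C hS hlevel
  set L := Nat.clog 2 (s + t + r + n) with hL
  have h2L : s + t + r + n ≤ 2 ^ L := Nat.le_pow_clog (by norm_num) _
  set X := (k + 2) * (L + 1) with hX
  have hXe : X = L * k + k + 2 * L + 2 := by rw [hX]; ring
  have hk2 : k + 1 ≤ 2 ^ k := Nat.lt_two_pow_self
  have hLX : 2 ^ L ≤ 2 ^ X := Nat.pow_le_pow_right (by norm_num) (by omega)
  have hmain : n ≤ pb K X := by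
    refine hK n s (k * s + 1) X _ G (by omega) (by omega) ?_ (by omega) ?_ hG ?_ ?_
    · calc k * s + 1 ≤ (k + 1) * s := by nlinarith
        _ ≤ 2 ^ k * 2 ^ L := Nat.mul_le_mul hk2 (by omega)
        _ = 2 ^ (k + L) := (pow_add _ _ _).symm
        _ ≤ 2 ^ X := Nat.pow_le_pow_right (by norm_num) (by rw [hXe]; omega)
    · rw [card_guess]
      calc t * (2 ^ k * s ^ k) ≤ 2 ^ L * (2 ^ k * (2 ^ L) ^ k) :=
            Nat.mul_le_mul (by omega)
              (Nat.mul_le_mul_left _ (Nat.pow_le_pow_left (by omega) _))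
        _ = 2 ^ (L + (k + L * k)) := by rw [← pow_mul, ← pow_add, ← pow_add]
        _ ≤ 2 ^ X := Nat.pow_le_pow_right (by norm_num) (by rw [hXe]; omega)
    · intro q x hq
      obtain ⟨i, hi⟩ := (hGC x).1 ⟨q, hq⟩
      exact hrej i x hi
    · have hAU : A ⊆ (univ.filter fun x : Fin n → Bool =>
          ones x = (n + 1) / 2 ∧ ∃ q, G q x = true) := by
        intro x hx
        obtain ⟨h1, h2⟩ := hA x hx
        exact mem_filter.2 ⟨mem_univ _, h1, (hGC x).2 h2⟩
      have hslice : (univ.filter fun x : Fin n → Bool => ones x = (n + 1) / 2).card =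
          n.choose ((n + 1) / 2) := card_slice n _
      rw [hslice]
      refine le_trans hacc (Nat.mul_le_mul ?_ (Finset.card_le_card hAU))
      omega
  have h1 := pb_le_log K (k := k) (N := s + t + r + n) (by omega)
  refine le_trans (by exact_mod_cast hmain) (h1.trans (le_of_eq ?_))
  push_cast
  rfl

end Pool.Agent.MXC
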