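import Pool.Agent.MXC.OneModAvg
import Pool.Agent.MXC.MainAvg

/-!
# Mixed clauses: separation of residues of the number of ones
-/

set_option autoImplicit false

namespace Pool.Agent.MXC

open Finset Pool.Agent.RS Pool.Agent.Helper21.LinSys Pool.Agent.QuadSys

theorem st_OneModAvg' (p : ℕ) [Fact p.Prime] : St_OneModAvg p :=
  st_OneModAvg p (st_ApxBasic p) (st_ApxMore' p)
    (st_PPart p (st_ApxBasic p) (st_ApxGate p) (st_ApxMore' p)) (st_All' p) (st_Wlb' p)

theorem main_mod_avg (p : ℕ) [Fact p.Prime] (m w d u v : ℕ) (hm : 2 ≤ m) (hu : 1 ≤ u)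
    (hv : 1 ≤ v) (hvp : Nat.Coprime v p) (hvm : Nat.Coprime v m) (hvu : Nat.Coprime v u) :
    ∃ K : ℕ, ∀ (n k s t r a b : ℕ) (lev : Fin t → Fin k → ℕ)
      (P : Fin t → Fin k → (Fin n → Bool) → Bool)
      (C : Fin t → (Fin k → Bool) → Circuit (Fin n) s) (A : Finset (Fin n → Bool)),
      (∀ i, Nested p m w d n s k (lev i) (P i)) →
      (∀ i b, (C i b).level (C i b).out + 1 ≤ d) → a % u = b % u →
      (∀ i x, (C i fun j => P i j x).Accepts p x →
        (univ.filter fun j => x j = true).card % (u * v) ≠ b % (u * v)) →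
      (∀ x ∈ A, (univ.filter fun j => x j = true).card % (u * v) = a % (u * v) ∧
        ∃ i, (C i fun j => P i j x).Accepts p x) →
      (univ.filter fun x : Fin n → Bool =>
        (univ.filter fun j => x j = true).card % (u * v) = a % (u * v)).card ≤ r * A.card →
      (n : ℝ) ≤ (K * (k + 1) * Real.log (s + t + r + n + 2)) ^ K := by
  classical
  obtain ⟨K, hK⟩ := st_OneModAvg' p m (w + 1) d u v hm (by omega) hu hv hvp hvm hvu
  refine ⟨12 * K + 1 + 2 * (u * v), ?_⟩
  intro n k s t r a b lev P C A hS hlevel hab hrej hA hacc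
  set K' : ℕ := 12 * K + 1 + 2 * (u * v) with hK'
  have hr0 : 0 < u * v := Nat.mul_pos hu hv
  set lg := Real.log (s + t + r + n + 2) with hlg
  have hs0 : (0 : ℝ) ≤ s := Nat.cast_nonneg _
  have ht0 : (0 : ℝ) ≤ t := Nat.cast_nonneg _
  have hn0 : (0 : ℝ) ≤ n := Nat.cast_nonneg _
  have hr00 : (0 : ℝ) ≤ r := Nat.cast_nonneg _
  have hk0 : (0 : ℝ) ≤ k := Nat.cast_nonneg _
  have hlg2 : Real.log 2 ≤ lg := Real.log_le_log (by norm_num) (by linarith)
  have hlog2 : (0.69 : ℝ) < Real.log 2 := by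
    have := Real.log_two_gt_d9
    linarith
  have hlg1 : (1 : ℝ) / 2 ≤ lg := by linarith
  have hK'2 : ((u * v : ℕ) : ℝ) * 2 ≤ K' := by
    have : (u * v) * 2 ≤ K' := by rw [hK']; omega
    exact_mod_cast this
  have huv1 : (1 : ℝ) ≤ ((u * v : ℕ) : ℝ) := by exact_mod_cast hr0
  have hkl : (1 : ℝ) / 2 ≤ (k + 1) * lg := by nlinarith
  have hbase0 : ((u * v : ℕ) : ℝ) ≤ K' * (k + 1) * lg := by
    calc ((u * v : ℕ) : ℝ) ≤ K' * (1 / 2) := by linarith
      _ ≤ K' * ((k + 1) * lg) := mul_le_mul_of_nonneg_left hkl (by linarith)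
      _ = _ := by ring
  have hbase : (1 : ℝ) ≤ K' * (k + 1) * lg := huv1.trans hbase0
  rcases A.eq_empty_or_nonempty with hA0 | hA0
  · -- then there are no points with `a` ones modulo `u * v`
    have hnr : n < u * v := by
      by_contra hge
      push Not at hge
      have h1 := count_mod hr0 n (by omega) a
      have h2 : (univ.filter fun x : Fin n → Bool => ones x % (u * v) = a % (u * v)).card ≤
          r * A.card := hacc
      rw [hA0, card_empty, mul_zero] at h2
      have h3 := Nat.mul_le_mul_left (2 ^ (u * v)) h2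
      rw [mul_zero] at h3
      have : 0 < 2 ^ n := by positivity
      omega
    have h1 : (n : ℝ) ≤ ((u * v : ℕ) : ℝ) := by exact_mod_cast hnr.le
    refine (h1.trans hbase0).trans ?_
    calc (K' : ℝ) * (k + 1) * lg = (K' * (k + 1) * lg) ^ 1 := (pow_one _).symm
      _ ≤ (K' * (k + 1) * lg) ^ K' := pow_le_pow_right₀ hbase (by rw [hK']; omega)
  obtain ⟨x0, hx0⟩ := hA0
  obtain ⟨hx01, i0, -⟩ := hA x0 hx0
  have ht : 1 ≤ t := by have := i0.2; omega
  have hs : 1 ≤ s := by have := (C i0 fun _ => true).out.2; omega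
  obtain ⟨G, hG, hGC⟩ := guess lev P C hS hlevel
  set L := Nat.clog 2 (s + t + r + n + 2) with hL
  have h2L : s + t + r + n + 2 ≤ 2 ^ L := Nat.le_pow_clog (by norm_num) _
  set X := (k + 2) * (L + 1) with hX
  have hXe : X = L * k + k + 2 * L + 2 := by rw [hX]; ring
  have hk2 : k + 1 ≤ 2 ^ k := Nat.lt_two_pow_self
  have hLX : 2 ^ L ≤ 2 ^ X := Nat.pow_le_pow_right (by norm_num) (by omega)
  have hmain : n ≤ pb K X := by
    refine hK n s (k * s + 1) X _ G a b (C i0 fun _ => true) (hlevel _ _) (by omega) (by omega)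
      ?_ (by omega) ?_ hG hab ?_ ?_
    · calc k * s + 1 ≤ (k + 1) * s := by nlinarith
        _ ≤ 2 ^ k * 2 ^ L := Nat.mul_le_mul hk2 (by omega)
        _ = 2 ^ (k + L) := (pow_add _ _ _).symm
        _ ≤ 2 ^ X := Nat.pow_le_pow_right (by norm_num) (by rw [hXe]; omega)
    · rw [card_guess]
      calc t * (2 ^ k * s ^ k) ≤ 2 ^ L * (2 ^ k * (2 ^ L) ^ k) :=
            Nat.mul_le_mul (by omega)
              (Nat.mul_le_mul_left _ (Nat.pow_le_pow_left (by omega) _))
        _ = 2 ^ (L + (k + L * k)) := by rw [← pow_mul, ← pow_add, ← pow_add]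
        _ ≤ 2 ^ X := Nat.pow_le_pow_right (by norm_num) (by rw [hXe]; omega)
    · intro q x hq
      obtain ⟨i, hi⟩ := (hGC x).1 ⟨q, hq⟩
      exact hrej i x hi
    · have hAU : A ⊆ (univ.filter fun x : Fin n → Bool =>
          ones x % (u * v) = a % (u * v) ∧ ∃ q, G q x = true) := by
        intro x hx
        obtain ⟨h1, h2⟩ := hA x hx
        exact mem_filter.2 ⟨mem_univ _, h1, (hGC x).2 h2⟩
      refine le_trans hacc (Nat.mul_le_mul ?_ (Finset.card_le_card hAU))
      omega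
  have h1 := pb_le_log K (k := k) (N := s + t + r + n + 2) (by omega)
  have h2 : (n : ℝ) ≤ (((12 * K + 1 : ℕ) : ℝ) * ((k : ℝ) + 1) * lg) ^ (12 * K + 1) := by
    refine le_trans (by exact_mod_cast hmain) (h1.trans (le_of_eq ?_))
    rw [hlg]
    push_cast
    rfl
  have h3 : ((12 * K + 1 : ℕ) : ℝ) ≤ K' := by
    have : 12 * K + 1 ≤ K' := by rw [hK']; omega
    exact_mod_cast this
  calc (n : ℝ) ≤ (((12 * K + 1 : ℕ) : ℝ) * ((k : ℝ) + 1) * lg) ^ (12 * K + 1) := h2
    _ ≤ (K' * (k + 1) * lg) ^ (12 * K + 1) := by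
        refine pow_le_pow_left₀ (by positivity) ?_ _
        have h4 : (0 : ℝ) ≤ (k + 1) * lg := by linarith
        calc ((12 * K + 1 : ℕ) : ℝ) * ((k : ℝ) + 1) * lg =
            ((12 * K + 1 : ℕ) : ℝ) * ((k + 1) * lg) := by ring
          _ ≤ K' * ((k + 1) * lg) := mul_le_mul_of_nonneg_right h3 h4
          _ = _ := by ring
    _ ≤ (K' * (k + 1) * lg) ^ K' := pow_le_pow_right₀ hbase (by rw [hK']; omega)

end Pool.Agent.MXC
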