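import Pool.Agent.MXC.Conv

/-!
# An `OR` of few `AND`s of mixed clauses which rejects all points below the middle layer accepts
only few points of the middle layer
-/

set_option autoImplicit false

namespace Pool.Agent.MXC

open Finset Pool.Agent.RS Pool.Agent.Helper21.LinSys Pool.Agent.QuadSys

/-- an `OR` of few `AND`s of mixed clauses is not even on average a threshold function -/
def St_OneAvg (p : ℕ) [Fact p.Prime] : Prop :=
  ∀ m w d : ℕ, 2 ≤ m → ∃ K : ℕ, ∀ (n s N X : ℕ) (I : Type) [Fintype I]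
    (G : I → (Fin n → Bool) → Bool), 1 ≤ X → s ≤ 2 ^ X → N ≤ 2 ^ X → n + 1 ≤ 2 ^ X →
    Fintype.card I ≤ 2 ^ X → (∀ i, MixedAnd p m w d n s N (G i)) →
    (∀ i x, G i x = true → n ≤ 2 * ones x) →
    (univ.filter fun x : Fin n → Bool => ones x = (n + 1) / 2).card ≤
      2 ^ X * (univ.filter fun x : Fin n → Bool =>
        ones x = (n + 1) / 2 ∧ ∃ i, G i x = true).card → n ≤ pb K X

theorem st_OneAvg (p : ℕ) [Fact p.Prime] (hB : ApxBasic p) (hM : ApxMore p) (hP : St_PPart p)
    (hA : St_All p) (hC : St_CoreA p) : St_OneAvg p := by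
  classical
  intro m w d hm
  obtain ⟨m', w', d₁, K₁, hm'0, hcop, -, hd₁, hconv⟩ := mixed_conv p hB hM hP m w d hm
  have hm' : NeZero m' := ⟨by omega⟩
  obtain ⟨d', KA, hall⟩ := hA m' w' d₁ hcop hd₁
  obtain ⟨KC, hcore⟩ := hC m' d'
  set K₂ := K₁ + 3 with hK₂
  refine ⟨((K₂ + 1 + 1) * (KA + 1) + 1) * (KC + 1), ?_⟩
  intro n s N X I _ G hX hs hN hn hI hG hrej hacc
  set h := (n + 1) / 2 with hh
  -- the middle slice
  have hslice : (univ.filter fun x : Fin n → Bool => ones x = h).card = n.choose h :=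
    card_slice n h
  have hmid := two_pow_le_middle n
  set T : I → Finset (Fin n → Bool) :=
    fun i => univ.filter fun x : Fin n → Bool => ones x = h ∧ G i x = true with hT
  set U : Finset (Fin n → Bool) :=
    univ.filter fun x : Fin n → Bool => ones x = h ∧ ∃ i, G i x = true with hU
  have hU0 : 0 < U.card := by
    rcases Nat.eq_zero_or_pos U.card with h0 | h0
    · rw [h0, mul_zero, hslice] at hacc
      have h1 : 0 < n.choose h := Nat.choose_pos (by omega)
      omega
    · exact h0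
  have hUT : U.card ≤ ∑ i, (T i).card := by
    refine (Finset.card_le_card (t := Finset.univ.biUnion T) ?_).trans Finset.card_biUnion_le
    intro x hx
    obtain ⟨hx1, i, hi⟩ := (mem_filter.1 hx).2
    exact Finset.mem_biUnion.2 ⟨i, mem_univ _, mem_filter.2 ⟨mem_univ _, hx1, hi⟩⟩
  obtain ⟨i0, hi0⟩ : ∃ i, U.card ≤ 2 ^ X * (T i).card := by
    by_contra hcon
    push Not at hcon
    have hne : (univ : Finset I).Nonempty := by
      rw [Finset.univ_nonempty_iff]
      by_contra hemp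
      rw [not_nonempty_iff] at hemp
      rw [Finset.univ_eq_empty, Finset.sum_empty] at hUT
      omega
    have h4 : ∑ i : I, (2 ^ X * (T i).card) < ∑ _i : I, U.card :=
      Finset.sum_lt_sum_of_nonempty hne fun i _ => hcon i
    rw [← Finset.mul_sum, Finset.sum_const, Finset.card_univ, smul_eq_mul] at h4
    have h5 : Fintype.card I * U.card ≤ 2 ^ X * ∑ i, (T i).card := Nat.mul_le_mul hI hUT
    omega
  have hTd : 2 ^ n ≤ 2 ^ (3 * X) * (T i0).card := by
    calc 2 ^ n ≤ (n + 1) * n.choose h := hmid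
      _ ≤ 2 ^ X * (2 ^ X * (2 ^ X * (T i0).card)) := by
          rw [← hslice]
          exact Nat.mul_le_mul hn (hacc.trans (Nat.mul_le_mul_left _ hi0))
      _ = 2 ^ (3 * X) * (T i0).card := by
          rw [show 3 * X = X + X + X by ring, pow_add, pow_add]
          ring
  obtain ⟨L, Φ, hΦa, hΦt⟩ := hconv n s N X (G i0) hX hs hn (hG i0)
  have hX2 : 1 ≤ K₂ * X := Nat.mul_pos (by omega) hX
  have hK1X : K₁ * X ≤ K₂ * X := Nat.mul_le_mul_right _ (by omega)
  obtain ⟨Γ, y, B, hst, hcell⟩ := hall (Fin n) (K₂ * X) N (T i0) L Φ hX2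
    (hN.trans (Nat.pow_le_pow_right (by norm_num) (Nat.le_mul_of_pos_left _ (by omega))))
    (fun c v => hB.mono _ _ _ _ _ _ le_rfl (Nat.pow_le_pow_right (by norm_num) hK1X) (hΦa c v))
    (by
      intro x hx j
      exact (hΦt x).1 (mem_filter.1 hx).2.2 j) (by
      rw [Fintype.card_fin]
      exact hTd.trans (Nat.mul_le_mul_right _ (Nat.pow_le_pow_right (by norm_num)
        (Nat.mul_le_mul_right _ (by omega)))))
  have hfin := hcore (Fin n) (pb KA (K₂ * X)) h Γ y B (T i0) (one_le_pb hX2) hst.cardΓ hst.apx (by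
      intro x hx
      have h1 : G i0 x = true := (hΦt x).2 fun j => hcell x hx j
      have h2 : n ≤ 2 * ones x := hrej _ _ h1
      omega) (fun x hx => (mem_filter.1 hx).2.1) hst.dense
  rw [Fintype.card_fin] at hfin
  -- the bound
  calc n ≤ pb KC (pb KA (K₂ * X)) := hfin
    _ ≤ pb KC (pb KA (pb (K₂ + 1) X)) := by
        refine pb_mono le_rfl (one_le_pb hX2) (pb_mono le_rfl hX2 (mul_le_pb K₂ hX))
    _ ≤ pb KC (pb ((K₂ + 1 + 1) * (KA + 1)) X) :=
        pb_mono le_rfl (one_le_pb (one_le_pb hX)) (pb_pb _ _ hX)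
    _ ≤ pb (((K₂ + 1 + 1) * (KA + 1) + 1) * (KC + 1)) X := pb_pb _ _ hX

end Pool.Agent.MXC
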