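import Pool.Agent.MXC.CellMod
import Pool.Agent.MXC.Conv

/-!
# An `OR` of few `AND`s of mixed clauses does not count modulo `r`
-/

set_option autoImplicit false

namespace Pool.Agent.MXC

open Finset Pool.Agent.RS Pool.Agent.Helper21.LinSys Pool.Agent.QuadSys

theorem ones_cons {n : ℕ} (b : Bool) (x : Fin n → Bool) :
    ones (Fin.cons b x : Fin (n + 1) → Bool) = (if b = true then 1 else 0) + ones x := by
  unfold ones
  rw [Finset.card_filter, Finset.card_filter, Fin.sum_univ_succ]
  simp

theorem card_mod_succ (n r a : ℕ) :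
    (univ.filter fun x : Fin (n + 1) → Bool => ones x % r = (a + 1) % r).card =
      (univ.filter fun x : Fin n → Bool => ones x % r = (a + 1) % r).card +
      (univ.filter fun x : Fin n → Bool => (1 + ones x) % r = (a + 1) % r).card := by
  classical
  rw [Finset.card_filter, Finset.card_filter, Finset.card_filter]
  have e1 : ∑ x : Fin (n + 1) → Bool, (if ones x % r = (a + 1) % r then 1 else 0) =
      ∑ b : Bool, ∑ x : Fin n → Bool,
        if ones (Fin.cons b x : Fin (n + 1) → Bool) % r = (a + 1) % r then 1 else 0 := by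
    rw [← Fintype.sum_prod_type']
    exact (Fintype.sum_equiv (Fin.consEquiv fun _ => Bool) _ _ fun z => rfl).symm
  rw [e1, Fintype.sum_bool, add_comm]
  simp only [ones_cons]
  simp

theorem count_mod {r : ℕ} (hr : 0 < r) : ∀ n, r ≤ n + 1 → ∀ a : ℕ,
    2 ^ n ≤ 2 ^ r * (univ.filter fun x : Fin n → Bool => ones x % r = a % r).card := by
  classical
  intro n hn
  induction n, (show r - 1 ≤ n by omega) using Nat.le_induction with
  | base =>
    intro a
    have h1 : 0 < (univ.filter fun x : Fin (r - 1) → Bool => ones x % r = a % r).card := by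
      rw [card_pos]
      refine ⟨fun i => decide ((i : ℕ) < a % r), mem_filter.2 ⟨mem_univ _, ?_⟩⟩
      have hlt : a % r < r := Nat.mod_lt _ hr
      have h2 : ones (fun i : Fin (r - 1) => decide ((i : ℕ) < a % r)) = a % r := by
        unfold ones
        have h3 : (univ.filter fun i : Fin (r - 1) => decide ((i : ℕ) < a % r) = true).card =
            (range (a % r)).card := by
          refine card_bij (fun j _ => (j : ℕ)) (fun j hj => ?_) (fun j _ j' _ h => Fin.ext h) ?_
          · exact mem_range.2 (by simpa using (mem_filter.1 hj).2)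
          · intro b hb
            have hb' := mem_range.1 hb
            exact ⟨⟨b, by omega⟩, mem_filter.2 ⟨mem_univ _, by simpa using hb'⟩, rfl⟩
        rw [h3, card_range]
      rw [h2, Nat.mod_mod]
    calc 2 ^ (r - 1) ≤ 2 ^ r := Nat.pow_le_pow_right (by norm_num) (by omega)
      _ ≤ _ := Nat.le_mul_of_pos_right _ h1
  | succ n hle ih =>
    intro a
    have hn' : r ≤ n + 1 := by omega
    -- a representative which is a successor
    have ha : ∃ b : ℕ, (b + 1) % r = a % r := ⟨a + r - 1, by
      have : a + r - 1 + 1 = a + r := by omega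
      rw [this, Nat.add_mod_right]⟩
    obtain ⟨b, hb⟩ := ha
    rw [← hb, card_mod_succ, mul_add, pow_succ, mul_two]
    have h2 : (univ.filter fun x : Fin n → Bool => (1 + ones x) % r = (b + 1) % r) =
        univ.filter fun x : Fin n → Bool => ones x % r = b % r := by
      ext x
      simp only [mem_filter, mem_univ, true_and]
      rw [add_comm 1]
      constructor
      · intro h
        exact Nat.ModEq.add_right_cancel' 1 h
      · intro h
        exact Nat.ModEq.add_right 1 h
    rw [h2]
    exact Nat.add_le_add (ih hn' (b + 1)) (ih hn' b)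

/-- One of few sets that cover a large set is large. -/
theorem exists_dense {α I : Type} [Fintype I] [DecidableEq α] {S : Finset α} {T : I → Finset α}
    (h : ∀ x ∈ S, ∃ i, x ∈ T i) (hS : S.Nonempty) :
    ∃ i, S.card ≤ Fintype.card I * (T i).card := by
  classical
  by_contra hcon
  push Not at hcon
  obtain ⟨x, hx⟩ := hS
  obtain ⟨i₀, -⟩ := h x hx
  have h1 : S ⊆ univ.biUnion T := fun x hx => by
    obtain ⟨i, hi⟩ := h x hx
    exact mem_biUnion.2 ⟨i, mem_univ _, hi⟩
  have h2 : S.card ≤ ∑ i, (T i).card := (card_le_card h1).trans card_biUnion_le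
  have h3 : ∑ i : I, Fintype.card I * (T i).card < ∑ _i : I, S.card :=
    Finset.sum_lt_sum_of_nonempty ⟨i₀, mem_univ _⟩ fun i _ => hcon i
  rw [← Finset.mul_sum, Finset.sum_const, card_univ, smul_eq_mul] at h3
  have h4 : 0 < Fintype.card I := Fintype.card_pos_iff.2 ⟨i₀⟩
  have h5 := Nat.lt_of_mul_lt_mul_left h3
  omega

/-- `MixedAnd` with an arbitrary finite index type. -/
theorem mixedAnd_of' {p m w d n s : ℕ} {J : Type} [Fintype J] (Q : (Fin n → Bool) → Bool)
    (C : J → Fin w → Circuit (Fin n) s) (c : J → Fin w → Fin n → ZMod m)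
    (F : J → (Fin w → Prop) → (Fin w → ZMod m) → Prop)
    (hC : ∀ i a, (C i a).level (C i a).out + 1 ≤ d)
    (hQ : ∀ x, Q x = true ↔ ∀ i, F i (fun a => (C i a).Accepts p x)
      (fun a => ∑ v, if x v = true then c i a v else 0)) :
    MixedAnd p m w d n s (Fintype.card J) Q := by
  classical
  let e := (Fintype.equivFin J).symm
  refine ⟨fun i => C (e i), fun i => c (e i), fun i => F (e i), fun i a => hC _ _, fun x => ?_⟩
  rw [hQ x]
  refine ⟨fun h i => h (e i), fun h j => ?_⟩
  have h1 := h (e.symm j)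
  simp only [Equiv.apply_symm_apply] at h1
  exact h1

/-- Adding the clause which says that the number of ones is `a` modulo `u`. -/
theorem MixedAnd.residue {p m w d n s N : ℕ} (hm : 0 < m) {u : ℕ} (hu : 0 < u) (a : ℕ)
    (hw : 0 < w) (C₀ : Circuit (Fin n) s) (hC₀ : C₀.level C₀.out + 1 ≤ d)
    {Q : (Fin n → Bool) → Bool} (hQ : MixedAnd p m w d n s N Q) :
    MixedAnd p (m * u) w d n s (N + 1)
      (fun x => Q x && decide (ones x % u = a % u)) := by
  classical
  obtain ⟨C, c, F, hC, hF⟩ := hQ
  have h := mixedAnd_of' (p := p) (m := m * u) (w := w) (d := d) (n := n) (s := s)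
    (J := Option (Fin N)) (fun x => Q x && decide (ones x % u = a % u))
    (fun i => match i with
      | none => fun _ => C₀
      | some i => C i)
    (fun i => match i with
      | none => fun _ _ => (m : ZMod (m * u))
      | some i => fun b v => up m u (c i b v))
    (fun i => match i with
      | none => fun _ v => v ⟨0, hw⟩ = (a : ZMod (m * u)) * m
      | some i => fun P v => ∃ v' : Fin w → ZMod m, (∀ b, up m u (v' b) = v b) ∧ F i P v')
    (by
      rintro (_ | i) b
      · exact hC₀
      · exact hC i b)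
    (by
      intro x
      have hmu : ((ones x : ZMod (m * u)) * m = (a : ZMod (m * u)) * m) ↔
          ones x % u = a % u := by
        have h1 : ((ones x : ZMod (m * u)) * m = (a : ZMod (m * u)) * m) ↔
            ((ones x * m : ℕ) : ZMod (m * u)) = ((a * m : ℕ) : ZMod (m * u)) := by
          push_cast
          exact Iff.rfl
        rw [h1, ZMod.natCast_eq_natCast_iff, mul_comm m u]
        constructor
        · intro h2
          exact Nat.ModEq.mul_right_cancel' hm.ne' h2
        · intro h2
          exact Nat.ModEq.mul_right' m h2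
      have hsum : (∑ v, if x v = true then (m : ZMod (m * u)) else 0) =
          (ones x : ZMod (m * u)) * m := ev_const _ x
      have hup : ∀ (i : Fin N) (b : Fin w), (∑ v, if x v = true then up m u (c i b v) else 0) =
          up m u (∑ v, if x v = true then c i b v else 0) := by
        intro i b
        rw [map_sum]
        refine Finset.sum_congr rfl fun v _ => ?_
        by_cases hv : x v = true
        · rw [if_pos hv, if_pos hv]
        · rw [if_neg hv, if_neg hv, map_zero]
      rw [Bool.and_eq_true, decide_eq_true_eq, hF x]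
      constructor
      · rintro ⟨h1, h2⟩ (_ | i)
        · exact hsum.trans (hmu.2 h2)
        · exact ⟨_, fun b => (hup i b).symm, h1 i⟩
      · intro h
        refine ⟨fun i => ?_, hmu.1 (hsum.symm.trans (h none))⟩
        obtain ⟨v', hv', hFv⟩ := h (some i)
        have h3 : v' = fun b => ∑ v, if x v = true then c i b v else 0 := by
          funext b
          exact up_injective m u hu ((hv' b).trans (hup i b))
        rwa [h3] at hFv)
  rwa [Fintype.card_option, Fintype.card_fin] at h

/-- An `OR` of few `AND`s of mixed clauses is not a function of the number of ones modulo `u * v`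
which takes different values on a residue class modulo `u`, if `v` is prime to `p`, `m`
and `u`. -/
def St_OneMod (p : ℕ) [Fact p.Prime] : Prop :=
  ∀ m w d u v : ℕ, 2 ≤ m → 1 ≤ w → 1 ≤ u → 1 ≤ v → Nat.Coprime v p → Nat.Coprime v m →
    Nat.Coprime v u → ∃ K : ℕ, ∀ (n s N X : ℕ) (I : Type) [Fintype I]
    (G : I → (Fin n → Bool) → Bool) (g : ℕ → Bool) (a b : ℕ) (C₀ : Circuit (Fin n) s),
    C₀.level C₀.out + 1 ≤ d → 1 ≤ X → s ≤ 2 ^ X → N ≤ 2 ^ X → n + 1 ≤ 2 ^ X →
    Fintype.card I ≤ 2 ^ X → (∀ i, MixedAnd p m w d n s N (G i)) →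
    (∀ k, g (k % (u * v)) = g k) → a % u = b % u → g a = true → g b = false →
    (∀ x, (∃ i, G i x = true) ↔ g (ones x) = true) → n ≤ pb K X

theorem st_OneMod (p : ℕ) [Fact p.Prime] (hB : ApxBasic p) (hM : ApxMore p) (hP : St_PPart p)
    (hA : St_All p) (hW : St_Wlb p) : St_OneMod p := by
  classical
  intro m w d u v hm hw hu hv hvp hvm hvu
  set r := u * v with hr
  have hr0 : 0 < r := Nat.mul_pos hu hv
  obtain ⟨m', w', d', K₂, hm'0, hcop, hm'm, hd', hconv⟩ := mixed_conv p hB hM hP (m * u) w d
    (hm.trans (Nat.le_mul_of_pos_right _ hu))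
  have : NeZero m' := ⟨by omega⟩
  obtain ⟨d'', KA, hall⟩ := hA m' w' d' hcop hd'
  obtain ⟨KC, hcell⟩ := cell_mod p hW m' v d'' hcop hv hvp
    (Nat.Coprime.coprime_dvd_right hm'm (Nat.Coprime.mul_right hvm hvu))
  -- the parameter passed to `hall` is `X' = (K₂ + r + 2) * X`
  refine ⟨((K₂ + r + 3 + 1) * (KA + 1 + 1 + 2) + 1) * (KC + 1) + r, ?_⟩
  intro n s N X I _ G g a b C₀ hC₀ hX hs hN hn hI hG hg hab ha hb hiff
  set K := ((K₂ + r + 3 + 1) * (KA + 1 + 1 + 2) + 1) * (KC + 1) + r with hK
  by_cases hrn : r ≤ n + 1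
  swap
  · have h1 : K * X ≤ pb K X := by
      unfold pb
      have hK1 : 1 ≤ K := by
        rw [hK]
        exact hr0.trans_le (Nat.le_add_left _ _)
      calc K * X = (K * X) ^ 1 := (pow_one _).symm
        _ ≤ (K * X) ^ K := Nat.pow_le_pow_right (Nat.mul_pos hK1 hX) hK1
    have h2 : r ≤ K := by rw [hK]; omega
    have h3 : K ≤ K * X := Nat.le_mul_of_pos_right _ hX
    omega
  -- the accepted points with `a` ones modulo `r`
  set S : Finset (Fin n → Bool) := univ.filter fun x => ones x % r = a % r with hS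
  have hScard : 2 ^ n ≤ 2 ^ r * S.card := count_mod hr0 n hrn a
  have hSne : S.Nonempty := by
    rw [← card_pos]
    rcases Nat.eq_zero_or_pos S.card with h0 | h0
    · rw [h0, mul_zero] at hScard
      have : 0 < 2 ^ n := by positivity
      omega
    · exact h0
  let T : I → Finset (Fin n → Bool) := fun i => S.filter fun x => G i x = true
  obtain ⟨i, hi⟩ := exists_dense (S := S) (T := T) (by
    intro x hx
    have hx' : ones x % r = a % r := (mem_filter.1 hx).2
    obtain ⟨i, hi⟩ := (hiff x).2 (by rw [← hg, hx', hg]; exact ha)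
    exact ⟨i, mem_filter.2 ⟨hx, hi⟩⟩) hSne
  have hN' : N + 1 ≤ 2 ^ (X + 1) := by
    rw [pow_succ]
    have : 1 ≤ 2 ^ X := Nat.one_le_pow _ _ (by norm_num)
    omega
  obtain ⟨L, Φ, hΦ, hGΦ⟩ := hconv n s (N + 1) X _ hX hs hn
    ((hG i).residue (by omega) hu a hw C₀ hC₀)
  set X' := (K₂ + r + 2) * X with hX'
  have hXX' : X + 1 ≤ X' := by
    rw [hX']
    nlinarith
  have hrX : r + X ≤ X' := by rw [hX']; nlinarith
  have hK₂X : K₂ * X ≤ X' := by rw [hX']; exact Nat.mul_le_mul_right _ (by omega)
  have hX'1 : 1 ≤ X' := by omega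
  obtain ⟨Γ, y, B, hst, hcl⟩ := hall (Fin n) X' (N + 1) (T i) L Φ hX'1
    (hN'.trans (Nat.pow_le_pow_right (by norm_num) hXX'))
    (fun c v => hB.mono _ _ _ _ _ _ le_rfl (Nat.pow_le_pow_right (by norm_num) hK₂X) (hΦ c v))
    (fun x hx c => (hGΦ x).1 (by
      have h1 := mem_filter.1 hx
      have h2 : ones x % r = a % r := (mem_filter.1 h1.1).2
      rw [Bool.and_eq_true, decide_eq_true_eq]
      refine ⟨h1.2, ?_⟩
      have h3 := congrArg (fun t => t % u) h2
      simp only [hr, Nat.mod_mul_right_mod] at h3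
      exact h3) c) (by
      rw [Fintype.card_fin]
      calc 2 ^ n ≤ 2 ^ r * S.card := hScard
        _ ≤ 2 ^ r * (2 ^ X * (T i).card) :=
          Nat.mul_le_mul_left _ (hi.trans (Nat.mul_le_mul_right _ hI))
        _ = 2 ^ (r + X) * (T i).card := by rw [pow_add]; ring
        _ ≤ 2 ^ X' * (T i).card :=
          Nat.mul_le_mul_right _ (Nat.pow_le_pow_right (by norm_num) hrX))
  -- otherwise the cell contains a point with `b` ones modulo `r`
  have hlt : n < pb KC (pb KA X' + 1) := by
    by_contra hge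
    push Not at hge
    obtain ⟨x, hx, hxb⟩ := hcell (Fin n) B (pb KA X') Γ y hst.cardΓ hst.apx
      (hst.dense.trans (Nat.mul_le_mul_left _ (card_le_card inter_subset_right)))
      (by rw [Fintype.card_fin]; exact hge) b
    have h1 := (hGΦ x).2 fun c => hcl x hx c
    rw [Bool.and_eq_true, decide_eq_true_eq] at h1
    have h2 := (hiff x).1 ⟨i, h1.1⟩
    have h3 : ones x ≡ b [MOD u * v] := by
      rw [← Nat.modEq_and_modEq_iff_modEq_mul (Nat.Coprime.symm hvu)]
      exact ⟨h1.2.trans hab, hxb⟩
    have h4 : g (ones x) = g b := by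
      rw [← hg (ones x), ← hg b]
      exact congrArg g h3
    rw [h4, hb] at h2
    exact absurd h2 (by simp)
  have e1 : X' ≤ pb (K₂ + r + 3) X := mul_le_pb (K₂ + r + 2) hX
  have hpX : 1 ≤ pb (K₂ + r + 3) X := one_le_pb hX
  have e2 : pb KA X' + 1 ≤ pb (KA + 1 + 2) (pb (K₂ + r + 3) X) := by
    have e3 : pb KA X' ≤ pb KA (pb (K₂ + r + 3) X) := pb_mono le_rfl hX'1 e1
    have e4 : 1 ≤ pb 1 (pb (K₂ + r + 3) X) := one_le_pb hpX
    have e5 := pb_add_pb KA 1 hpX
    omega
  calc n ≤ pb KC (pb KA X' + 1) := hlt.le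
    _ ≤ pb KC (pb (KA + 1 + 2) (pb (K₂ + r + 3) X)) := pb_mono le_rfl (by omega) e2
    _ ≤ pb KC (pb ((K₂ + r + 3 + 1) * (KA + 1 + 2 + 1)) X) :=
        pb_mono le_rfl (one_le_pb hpX) (pb_pb _ _ hX)
    _ ≤ pb (((K₂ + r + 3 + 1) * (KA + 1 + 2 + 1) + 1) * (KC + 1)) X := pb_pb _ _ hX
    _ ≤ pb K X := pb_mono (by
        rw [hK]
        have : KA + 1 + 1 + 2 = KA + 1 + 2 + 1 := by ring
        rw [this]
        omega) hX le_rfl

end Pool.Agent.MXC
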