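import Pool.Agent.MXC.OneMod

/-!
# An `OR` of few `AND`s of mixed clauses does not separate residues modulo `r`, even on average
-/

set_option autoImplicit false

namespace Pool.Agent.MXC

open Finset Pool.Agent.RS Pool.Agent.Helper21.LinSys Pool.Agent.QuadSys

/-- If an `OR` of few `AND`s of mixed clauses rejects all points whose number of ones is `b`
modulo `u * v` then it accepts few points whose number of ones is `a` modulo `u * v`, if `a` and
`b` agree modulo `u` and `v` is prime to `p`, `m` and `u`. -/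
def St_OneModAvg (p : ℕ) [Fact p.Prime] : Prop :=
  ∀ m w d u v : ℕ, 2 ≤ m → 1 ≤ w → 1 ≤ u → 1 ≤ v → Nat.Coprime v p → Nat.Coprime v m →
    Nat.Coprime v u → ∃ K : ℕ, ∀ (n s N X : ℕ) (I : Type) [Fintype I]
    (G : I → (Fin n → Bool) → Bool) (a b : ℕ) (C₀ : Circuit (Fin n) s),
    C₀.level C₀.out + 1 ≤ d → 1 ≤ X → s ≤ 2 ^ X → N ≤ 2 ^ X → n + 1 ≤ 2 ^ X →
    Fintype.card I ≤ 2 ^ X → (∀ i, MixedAnd p m w d n s N (G i)) → a % u = b % u →
    (∀ i x, G i x = true → ones x % (u * v) ≠ b % (u * v)) →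
    (univ.filter fun x : Fin n → Bool => ones x % (u * v) = a % (u * v)).card ≤
      2 ^ X * (univ.filter fun x : Fin n → Bool =>
        ones x % (u * v) = a % (u * v) ∧ ∃ i, G i x = true).card → n ≤ pb K X

theorem st_OneModAvg (p : ℕ) [Fact p.Prime] (hB : ApxBasic p) (hM : ApxMore p)
    (hP : St_PPart p) (hA : St_All p) (hW : St_Wlb p) : St_OneModAvg p := by
  classical
  intro m w d u v hm hw hu hv hvp hvm hvu
  set r := u * v with hr
  have hr0 : 0 < r := Nat.mul_pos hu hv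
  obtain ⟨m', w', d', K₂, hm'0, hcop, hm'm, hd', hconv⟩ := mixed_conv p hB hM hP (m * u) w d
    (hm.trans (Nat.le_mul_of_pos_right _ hu))
  have : NeZero m' := ⟨by omega⟩
  obtain ⟨d'', KA, hall⟩ := hA m' w' d' hcop hd'
  obtain ⟨KC, hcell⟩ := cell_mod p hW m' v d'' hcop hv hvp
    (Nat.Coprime.coprime_dvd_right hm'm (Nat.Coprime.mul_right hvm hvu))
  -- the parameter passed to `hall` is `X' = (K₂ + r + 3) * X`
  refine ⟨((K₂ + r + 4 + 1) * (KA + 1 + 1 + 2) + 1) * (KC + 1) + r, ?_⟩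
  intro n s N X I _ G a b C₀ hC₀ hX hs hN hn hI hG hab hrej hacc
  set K := ((K₂ + r + 4 + 1) * (KA + 1 + 1 + 2) + 1) * (KC + 1) + r with hK
  by_cases hrn : r ≤ n + 1
  swap
  · have h1 : K * X ≤ pb K X := by
      unfold pb
      have hK1 : 1 ≤ K := by
        rw [hK]
        exact hr0.trans_le (Nat.le_add_left _ _)
      calc K * X = (K * X) ^ 1 := (pow_one _).symm
        _ ≤ (K * X) ^ K := Nat.pow_le_pow_right (Nat.mul_pos hK1 hX) hK1
    have h2 : r ≤ K := by rw [hK]; omega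
    have h3 : K ≤ K * X := Nat.le_mul_of_pos_right _ hX
    omega
  -- the accepted points with `a` ones modulo `r`
  set S : Finset (Fin n → Bool) := univ.filter fun x => ones x % r = a % r ∧
    ∃ i, G i x = true with hS
  have hScard : 2 ^ n ≤ 2 ^ r * (2 ^ X * S.card) :=
    (count_mod hr0 n hrn a).trans (Nat.mul_le_mul_left _ hacc)
  have hSne : S.Nonempty := by
    rw [← card_pos]
    rcases Nat.eq_zero_or_pos S.card with h0 | h0
    · rw [h0, mul_zero, mul_zero] at hScard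
      have : 0 < 2 ^ n := by positivity
      omega
    · exact h0
  let T : I → Finset (Fin n → Bool) := fun i => S.filter fun x => G i x = true
  obtain ⟨i, hi⟩ := exists_dense (S := S) (T := T) (by
    intro x hx
    obtain ⟨i, hi⟩ := (mem_filter.1 hx).2.2
    exact ⟨i, mem_filter.2 ⟨hx, hi⟩⟩) hSne
  have hN' : N + 1 ≤ 2 ^ (X + 1) := by
    rw [pow_succ]
    have : 1 ≤ 2 ^ X := Nat.one_le_pow _ _ (by norm_num)
    omega
  obtain ⟨L, Φ, hΦ, hGΦ⟩ := hconv n s (N + 1) X _ hX hs hn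
    ((hG i).residue (by omega) hu a hw C₀ hC₀)
  set X' := (K₂ + r + 3) * X with hX'
  have hXX' : X + 1 ≤ X' := by
    rw [hX']
    nlinarith
  have hrX : r + (X + X) ≤ X' := by rw [hX']; nlinarith
  have hK₂X : K₂ * X ≤ X' := by rw [hX']; exact Nat.mul_le_mul_right _ (by omega)
  have hX'1 : 1 ≤ X' := by omega
  obtain ⟨Γ, y, B, hst, hcl⟩ := hall (Fin n) X' (N + 1) (T i) L Φ hX'1
    (hN'.trans (Nat.pow_le_pow_right (by norm_num) hXX'))
    (fun c v => hB.mono _ _ _ _ _ _ le_rfl (Nat.pow_le_pow_right (by norm_num) hK₂X) (hΦ c v))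
    (fun x hx c => (hGΦ x).1 (by
      have h1 := mem_filter.1 hx
      have h2 : ones x % r = a % r := (mem_filter.1 h1.1).2.1
      rw [Bool.and_eq_true, decide_eq_true_eq]
      refine ⟨h1.2, ?_⟩
      have h3 := congrArg (fun t => t % u) h2
      simp only [hr, Nat.mod_mul_right_mod] at h3
      exact h3) c) (by
      rw [Fintype.card_fin]
      calc 2 ^ n ≤ 2 ^ r * (2 ^ X * S.card) := hScard
        _ ≤ 2 ^ r * (2 ^ X * (2 ^ X * (T i).card)) :=
          Nat.mul_le_mul_left _ (Nat.mul_le_mul_left _ (hi.trans (Nat.mul_le_mul_right _ hI)))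
        _ = 2 ^ (r + (X + X)) * (T i).card := by rw [pow_add, pow_add]; ring
        _ ≤ 2 ^ X' * (T i).card :=
          Nat.mul_le_mul_right _ (Nat.pow_le_pow_right (by norm_num) hrX))
  -- otherwise the cell contains a point with `b` ones modulo `r`
  have hlt : n < pb KC (pb KA X' + 1) := by
    by_contra hge
    push Not at hge
    obtain ⟨x, hx, hxb⟩ := hcell (Fin n) B (pb KA X') Γ y hst.cardΓ hst.apx
      (hst.dense.trans (Nat.mul_le_mul_left _ (card_le_card inter_subset_right)))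
      (by rw [Fintype.card_fin]; exact hge) b
    have h1 := (hGΦ x).2 fun c => hcl x hx c
    rw [Bool.and_eq_true, decide_eq_true_eq] at h1
    have h3 : ones x ≡ b [MOD u * v] := by
      rw [← Nat.modEq_and_modEq_iff_modEq_mul (Nat.Coprime.symm hvu)]
      exact ⟨h1.2.trans hab, hxb⟩
    exact hrej i x h1.1 h3
  have e1 : X' ≤ pb (K₂ + r + 4) X := mul_le_pb (K₂ + r + 3) hX
  have hpX : 1 ≤ pb (K₂ + r + 4) X := one_le_pb hX
  have e2 : pb KA X' + 1 ≤ pb (KA + 1 + 2) (pb (K₂ + r + 4) X) := by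
    have e3 : pb KA X' ≤ pb KA (pb (K₂ + r + 4) X) := pb_mono le_rfl hX'1 e1
    have e4 : 1 ≤ pb 1 (pb (K₂ + r + 4) X) := one_le_pb hpX
    have e5 := pb_add_pb KA 1 hpX
    omega
  calc n ≤ pb KC (pb KA X' + 1) := hlt.le
    _ ≤ pb KC (pb (KA + 1 + 2) (pb (K₂ + r + 4) X)) := pb_mono le_rfl (by omega) e2
    _ ≤ pb KC (pb ((K₂ + r + 4 + 1) * (KA + 1 + 2 + 1)) X) :=
        pb_mono le_rfl (one_le_pb hpX) (pb_pb _ _ hX)
    _ ≤ pb (((K₂ + r + 4 + 1) * (KA + 1 + 2 + 1) + 1) * (KC + 1)) X := pb_pb _ _ hX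
    _ ≤ pb K X := pb_mono (by
        rw [hK]
        have : KA + 1 + 1 + 2 = KA + 1 + 2 + 1 := by ring
        rw [this]
        omega) hX le_rfl

end Pool.Agent.MXC
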