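import Mathlib

/-!
# A permutation which translates a colouring
-/

set_option autoImplicit false

namespace Pool.Agent.MXC

open Finset

/-- If the colours `a` and `τ a` are always used almost equally often, then there is a
permutation which changes almost all colours by `τ`. -/
theorem exists_perm {α A : Type} [Fintype α] [DecidableEq α] [Fintype A] [DecidableEq A]
    (c : α → A) (τ : Equiv.Perm A) (E : ℝ) (hE : 0 ≤ E)
    (h : ∀ a, ((univ.filter fun u => c u = a).card : ℝ) ≤
      (univ.filter fun u => c u = τ a).card + E) :
    ∃ φ : Equiv.Perm α, ((univ.filter fun u => c (φ u) ≠ τ (c u)).card : ℝ) ≤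
      Fintype.card A * E := by
  classical
  obtain ⟨φ, -, hφ⟩ := Finset.exists_max_image (univ : Finset (Equiv.Perm α))
    (fun φ => (univ.filter fun u => c (φ u) = τ (c u)).card) ⟨1, Finset.mem_univ _⟩
  refine ⟨φ, ?_⟩
  -- the exceptional points of colour `a`
  have hkey : ∀ a, ((univ.filter fun u => c (φ u) ≠ τ (c u) ∧ c u = a).card : ℝ) ≤ E := by
    intro a
    by_cases hex : ∃ u, c (φ u) ≠ τ (c u) ∧ c u = a
    · obtain ⟨u, hu1, hu2⟩ := hex
      -- all points that are mapped to the colour `τ a` have colour `a`
      have hall : ∀ u', c (φ u') = τ a → c u' = a := by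
        intro u' hu'
        by_contra hne
        have huu : u ≠ u' := fun hc => hne (by rw [← hc]; exact hu2)
        have h1 := hφ (φ * Equiv.swap u u') (Finset.mem_univ _)
        have h2 : (univ.filter fun w => c (φ w) = τ (c w)) ⊂
            (univ.filter fun w => c ((φ * Equiv.swap u u') w) = τ (c w)) := by
          rw [Finset.ssubset_iff_of_subset]
          · refine ⟨u, ?_, ?_⟩
            · rw [Finset.mem_filter]
              refine ⟨Finset.mem_univ _, ?_⟩
              rw [Equiv.Perm.mul_apply, Equiv.swap_apply_left, hu', hu2]
            · rw [Finset.mem_filter]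
              exact fun hc => hu1 hc.2
          · intro w hw
            rw [Finset.mem_filter] at hw ⊢
            refine ⟨Finset.mem_univ _, ?_⟩
            have hwu : w ≠ u := fun hc => hu1 (by rw [← hc]; exact hw.2)
            have hwu' : w ≠ u' := by
              intro hc
              have := hw.2
              rw [hc, hu'] at this
              exact hne (τ.injective this).symm
            rw [Equiv.Perm.mul_apply, Equiv.swap_apply_of_ne_of_ne hwu hwu']
            exact hw.2
        exact absurd (Finset.card_lt_card h2) (not_lt.2 h1)
      have h3 : (univ.filter fun u => c u = τ a).card =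
          (univ.filter fun u => c (φ u) = τ a).card := by
        refine Finset.card_bij' (fun w _ => φ.symm w) (fun w _ => φ w) ?_ ?_ ?_ ?_
        · intro w hw
          rw [Finset.mem_filter] at hw ⊢
          exact ⟨Finset.mem_univ _, by rw [Equiv.apply_symm_apply]; exact hw.2⟩
        · intro w hw
          rw [Finset.mem_filter] at hw ⊢
          exact ⟨Finset.mem_univ _, hw.2⟩
        · intro w _
          exact Equiv.apply_symm_apply _ _
        · intro w _
          exact Equiv.symm_apply_apply _ _
      have h4 : (univ.filter fun u => c (φ u) ≠ τ (c u) ∧ c u = a).card +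
          (univ.filter fun u => c u = τ a).card ≤ (univ.filter fun u => c u = a).card := by
        rw [h3, ← Finset.card_union_of_disjoint]
        · refine Finset.card_le_card fun w hw => ?_
          rw [Finset.mem_union, Finset.mem_filter, Finset.mem_filter] at hw
          rw [Finset.mem_filter]
          rcases hw with hw | hw
          · exact ⟨Finset.mem_univ _, hw.2.2⟩
          · exact ⟨Finset.mem_univ _, hall w hw.2⟩
        · rw [Finset.disjoint_left]
          intro w hw hw'
          rw [Finset.mem_filter] at hw hw'
          exact hw.2.1 (by rw [hw'.2, hw.2.2])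
      have h5 : ((univ.filter fun u => c (φ u) ≠ τ (c u) ∧ c u = a).card : ℝ) +
          (univ.filter fun u => c u = τ a).card ≤ (univ.filter fun u => c u = a).card := by
        exact_mod_cast h4
      have h6 := h a
      linarith
    · push Not at hex
      have : (univ.filter fun u => c (φ u) ≠ τ (c u) ∧ c u = a) = ∅ := by
        rw [Finset.filter_eq_empty_iff]
        intro u _ hu
        exact hex u hu.1 hu.2
      rw [this]
      simpa using hE
  have h7 : (univ.filter fun u => c (φ u) ≠ τ (c u)).card =
      ∑ a, (univ.filter fun u => c (φ u) ≠ τ (c u) ∧ c u = a).card := by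
    rw [Finset.card_eq_sum_card_fiberwise (f := c) (t := univ) fun _ _ => Finset.mem_coe.2
      (Finset.mem_univ _)]
    refine Finset.sum_congr rfl fun a _ => ?_
    rw [Finset.filter_filter]
  rw [h7]
  push_cast
  refine (Finset.sum_le_sum fun a _ => hkey a).trans ?_
  rw [Finset.sum_const, nsmul_eq_mul, Finset.card_univ]

end Pool.Agent.MXC
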