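import Pool.Agent.MXC.Shift
import Pool.Agent.MXC.Defs

/-!
# The sampler: independent shifts on disjoint blocks
-/

set_option autoImplicit false

namespace Pool.Agent.MXC

open Finset Pool.Agent.Helper21.LinSys

variable {ι : Type} [Fintype ι] [DecidableEq ι] {N : ℕ}

/-- The block `j` of a colouring of some coordinates. -/
abbrev Blk (col : ι → Option (Fin N)) (j : Fin N) : Type := {i : ι // col i = some j}

/-- Restriction of a point to the block `j`. -/
def res (col : ι → Option (Fin N)) (j : Fin N) (x : ι → Bool) : Blk col j → Bool := fun i => x i.1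

/-- Apply the permutations `φ j` on the blocks `j ∈ z`. -/
noncomputable def samp (col : ι → Option (Fin N)) (φ : ∀ j, Equiv.Perm (Blk col j → Bool))
    (x : ι → Bool) (z : Finset (Fin N)) : ι → Bool := fun i =>
  if h : ∃ j, col i = some j ∧ j ∈ z then φ h.choose (res col h.choose x) ⟨i, h.choose_spec.1⟩
  else x i

omit [Fintype ι] [DecidableEq ι] in
theorem samp_none (col : ι → Option (Fin N)) (φ : ∀ j, Equiv.Perm (Blk col j → Bool))
    (x : ι → Bool) (z : Finset (Fin N)) (i : ι) (h : col i = none) : samp col φ x z i = x i := by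
  unfold samp
  rw [dif_neg]
  rintro ⟨j, hj, -⟩
  rw [h] at hj
  exact absurd hj (by simp)

omit [Fintype ι] [DecidableEq ι] in
theorem samp_some (col : ι → Option (Fin N)) (φ : ∀ j, Equiv.Perm (Blk col j → Bool))
    (x : ι → Bool) (z : Finset (Fin N)) (i : ι) (j : Fin N) (h : col i = some j) :
    samp col φ x z i = if j ∈ z then φ j (res col j x) ⟨i, h⟩ else x i := by
  unfold samp
  by_cases hj : j ∈ z
  · have hex : ∃ j, col i = some j ∧ j ∈ z := ⟨j, h, hj⟩
    rw [dif_pos hex, if_pos hj]
    have key : ∀ (j' : Fin N) (h' : col i = some j'), j' = j →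
        φ j' (res col j' x) ⟨i, h'⟩ = φ j (res col j x) ⟨i, h⟩ := by
      rintro j' h' rfl
      rfl
    exact key _ _ (Option.some.inj (hex.choose_spec.1.symm.trans h))
  · rw [if_neg hj, dif_neg]
    rintro ⟨j', hj', hz⟩
    have : j' = j := Option.some.inj (hj'.symm.trans h)
    exact hj (this ▸ hz)

omit [Fintype ι] [DecidableEq ι] in
theorem samp_smap (col : ι → Option (Fin N)) (φ : ∀ j, Equiv.Perm (Blk col j → Bool))
    (x : ι → Bool) : SMap (samp col φ x) := by
  intro i
  rcases hi : col i with _ | j
  · exact Or.inl ⟨x i, fun z => samp_none col φ x z i hi⟩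
  · by_cases h : φ j (res col j x) ⟨i, hi⟩ = x i
    · refine Or.inl ⟨x i, fun z => ?_⟩
      rw [samp_some col φ x z i j hi, h]
      exact ite_self _
    · refine Or.inr ⟨j, x i, fun z => ?_⟩
      rw [samp_some col φ x z i j hi]
      by_cases hz : j ∈ z
      · rw [if_pos hz, decide_eq_true hz]
        revert h
        cases φ j (res col j x) ⟨i, hi⟩ <;> cases x i <;> simp
      · rw [if_neg hz, decide_eq_false hz]
        simp

omit [Fintype ι] [DecidableEq ι] in
theorem samp_injective (col : ι → Option (Fin N)) (φ : ∀ j, Equiv.Perm (Blk col j → Bool))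
    (z : Finset (Fin N)) : Function.Injective fun x => samp col φ x z := by
  intro x x' hxx
  have hi : ∀ i, samp col φ x z i = samp col φ x' z i := fun i => congrFun hxx i
  have hblk : ∀ j, res col j x = res col j x' := by
    intro j
    by_cases hj : j ∈ z
    · apply (φ j).injective
      funext i
      have h1 := hi i.1
      rw [samp_some col φ x z i.1 j i.2, samp_some col φ x' z i.1 j i.2, if_pos hj,
        if_pos hj] at h1
      exact h1
    · funext i
      have h1 := hi i.1
      rw [samp_some col φ x z i.1 j i.2, samp_some col φ x' z i.1 j i.2, if_neg hj,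
        if_neg hj] at h1
      exact h1
  funext i
  rcases h : col i with _ | j
  · have h1 := hi i
    rw [samp_none col φ x z i h, samp_none col φ x' z i h] at h1
    exact h1
  · exact congrFun (hblk j) ⟨i, h⟩

omit [DecidableEq ι] in
theorem ev_col {m : ℕ} (col : ι → Option (Fin N)) (a : ι → ZMod m) (x : ι → Bool) :
    ev a x = (∑ i ∈ univ.filter (fun i => col i = none), if x i = true then a i else 0) +
      ∑ j, ev (fun i : Blk col j => a i.1) (res col j x) := by
  unfold ev
  rw [← Finset.sum_fiberwise univ col (fun i => if x i = true then a i else 0),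
    Fintype.sum_option]
  congr 1
  refine Finset.sum_congr rfl fun j _ => ?_
  rw [Finset.sum_subtype (univ.filter fun i => col i = some j) (p := fun i => col i = some j)
    (fun i => by simp)]
  rfl

/-- The restriction of forms to the block `j`. -/
def resHom {m : ℕ} (col : ι → Option (Fin N)) (j : Fin N) :
    (ι → ZMod m) →+ (Blk col j → ZMod m) where
  toFun a := fun i => a i.1
  map_zero' := rfl
  map_add' _ _ := rfl

variable {G : Type} [AddCommGroup G] {m : ℕ}

omit [DecidableEq ι] in
theorem ev_samp (col : ι → Option (Fin N)) (φ : ∀ j, Equiv.Perm (Blk col j → Bool))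
    (x : ι → Bool) (z : Finset (Fin N)) (F : G →+ (ι → ZMod m)) (T : G →+ ZMod m) (g : G)
    (h : ∀ j, ev ((resHom col j).comp F g) (φ j (res col j x)) =
      ev ((resHom col j).comp F g) (res col j x) + T g) :
    ev (F g) (samp col φ x z) = ev (F g) x + z.card • T g := by
  rw [ev_col col (F g) (samp col φ x z), ev_col col (F g) x]
  have h1 : (∑ i ∈ univ.filter (fun i => col i = none),
      if samp col φ x z i = true then F g i else 0) =
      ∑ i ∈ univ.filter (fun i => col i = none), if x i = true then F g i else 0 := by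
    refine Finset.sum_congr rfl fun i hi => ?_
    rw [samp_none col φ x z i (Finset.mem_filter.1 hi).2]
  have h2 : ∀ j, ev (fun i : Blk col j => F g i.1) (res col j (samp col φ x z)) =
      ev (fun i : Blk col j => F g i.1) (res col j x) + if j ∈ z then T g else 0 := by
    intro j
    by_cases hj : j ∈ z
    · rw [if_pos hj]
      have h3 : res col j (samp col φ x z) = φ j (res col j x) := by
        funext i
        exact (samp_some col φ x z i.1 j i.2).trans (if_pos hj)
      rw [h3]
      exact h j
    · rw [if_neg hj, add_zero]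
      have h3 : res col j (samp col φ x z) = res col j x := by
        funext i
        exact (samp_some col φ x z i.1 j i.2).trans (if_neg hj)
      rw [h3]
  rw [h1, Finset.sum_congr rfl fun j _ => h2 j, Finset.sum_add_distrib, Finset.sum_ite_mem,
    Finset.univ_inter, Finset.sum_const]
  ring

theorem card_res (p : ι → Prop) [DecidablePred p] (B : Finset ({i // p i} → Bool)) :
    (univ.filter fun x : ι → Bool => (fun i : {i // p i} => x i.1) ∈ B).card *
      2 ^ Fintype.card {i // p i} = B.card * 2 ^ Fintype.card ι := by
  have h1 : (univ.filter fun x : ι → Bool => (fun i : {i // p i} => x i.1) ∈ B).card =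
      (B ×ˢ (univ : Finset ({i // ¬ p i} → Bool))).card := by
    refine Finset.card_bij' (fun x _ => Equiv.piEquivPiSubtypeProd p (fun _ => Bool) x)
      (fun u _ => (Equiv.piEquivPiSubtypeProd p (fun _ => Bool)).symm u) ?_ ?_ ?_ ?_
    · intro x hx
      rw [Finset.mem_filter] at hx
      rw [Finset.mem_product]
      exact ⟨hx.2, Finset.mem_univ _⟩
    · intro u hu
      rw [Finset.mem_product] at hu
      rw [Finset.mem_filter]
      refine ⟨Finset.mem_univ _, ?_⟩
      have h2 := (Equiv.piEquivPiSubtypeProd p (fun _ => Bool)).apply_symm_apply u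
      have h3 := congrArg Prod.fst h2
      change (fun i : {i // p i} =>
        (Equiv.piEquivPiSubtypeProd p (fun _ => Bool)).symm u i.1) = u.1 at h3
      rw [h3]
      exact hu.1
    · intro x _
      exact Equiv.symm_apply_apply _ _
    · intro u _
      exact Equiv.apply_symm_apply _ _
  have h2 : Fintype.card {i // p i} + Fintype.card {i // ¬ p i} = Fintype.card ι := by
    rw [← Fintype.card_sum]
    exact Fintype.card_congr (Equiv.sumCompl p)
  rw [h1, Finset.card_product, Finset.card_univ, Fintype.card_fun, Fintype.card_bool, mul_assoc,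
    ← pow_add, add_comm, h2]

/-- counting with a bijection which respects a condition outside a bad set -/
theorem card_transport {α : Type} [Fintype α] [DecidableEq α] (P Q : α → Prop)
    [DecidablePred P] [DecidablePred Q] (f : α → Bool) (σ : α → α)
    (hσ : Function.Injective σ) (Bad : Finset α) (h : ∀ x, x ∉ Bad → (P x ↔ Q (σ x))) :
    |((univ.filter fun x => P x ∧ f (σ x) = true).card : ℝ) -
      (univ.filter fun x => Q x ∧ f x = true).card| ≤ Bad.card := by
  have hbij : Function.Bijective σ := Finite.injective_iff_bijective.1 hσ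
  have h1 : (univ.filter fun x => Q x ∧ f x = true).card =
      (univ.filter fun x => Q (σ x) ∧ f (σ x) = true).card := by
    rw [← Finset.card_image_of_injective
      (univ.filter fun x => Q (σ x) ∧ f (σ x) = true) hσ]
    congr 1
    ext x
    rw [Finset.mem_image, Finset.mem_filter]
    constructor
    · rintro ⟨-, hx⟩
      obtain ⟨y, rfl⟩ := hbij.2 x
      exact ⟨y, Finset.mem_filter.2 ⟨Finset.mem_univ _, hx⟩, rfl⟩
    · rintro ⟨y, hy, rfl⟩
      exact ⟨Finset.mem_univ _, (Finset.mem_filter.1 hy).2⟩
  have h2 : (univ.filter fun x => P x ∧ f (σ x) = true).card ≤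
      (univ.filter fun x => Q (σ x) ∧ f (σ x) = true).card + Bad.card := by
    refine (Finset.card_le_card fun x hx => ?_).trans (Finset.card_union_le _ _)
    rw [Finset.mem_filter] at hx
    rw [Finset.mem_union, Finset.mem_filter]
    by_cases hb : x ∈ Bad
    · exact Or.inr hb
    · exact Or.inl ⟨Finset.mem_univ _, (h x hb).1 hx.2.1, hx.2.2⟩
  have h3 : (univ.filter fun x => Q (σ x) ∧ f (σ x) = true).card ≤
      (univ.filter fun x => P x ∧ f (σ x) = true).card + Bad.card := by
    refine (Finset.card_le_card fun x hx => ?_).trans (Finset.card_union_le _ _)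
    rw [Finset.mem_filter] at hx
    rw [Finset.mem_union, Finset.mem_filter]
    by_cases hb : x ∈ Bad
    · exact Or.inr hb
    · exact Or.inl ⟨Finset.mem_univ _, (h x hb).2 hx.2.1, hx.2.2⟩
  have h2' : ((univ.filter fun x => P x ∧ f (σ x) = true).card : ℝ) ≤
      (univ.filter fun x => Q (σ x) ∧ f (σ x) = true).card + Bad.card := by exact_mod_cast h2
  have h3' : ((univ.filter fun x => Q (σ x) ∧ f (σ x) = true).card : ℝ) ≤
      (univ.filter fun x => P x ∧ f (σ x) = true).card + Bad.card := by exact_mod_cast h3
  rw [h1, abs_le]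
  constructor <;> linarith

open Classical in
/-- The sampler: for every point `x` outside a small bad set, the values of all forms change by
`|z|` times the translation. -/
theorem exists_sampler [Fintype G] [NeZero m] (F : G →+ (ι → ZMod m)) (T : G →+ ZMod m)
    (t : ℕ) (col : ι → Option (Fin N))
    (hcol : ∀ j g, T g ≠ 0 → t ≤ (univ.filter fun i => col i = some j ∧ F g i ≠ 0).card) :
    ∃ (φ : (ι → Bool) → Finset (Fin N) → ι → Bool) (Bad : Finset (ι → Bool)),
      (∀ x, SMap (φ x)) ∧ (∀ z, Function.Injective fun x => φ x z) ∧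
      (∀ x, x ∉ Bad → ∀ z g, ev (F g) (φ x z) = ev (F g) x + z.card • T g) ∧
      (Bad.card : ℝ) ≤ N * (Fintype.card G * (2 * (2 ^ Fintype.card ι * rho m ^ t))) := by
  have hloc : ∀ j : Fin N, ∃ φ : Equiv.Perm (Blk col j → Bool),
      ((univ.filter fun u => ¬ ∀ g, ev ((resHom col j).comp F g) (φ u) =
        ev ((resHom col j).comp F g) u + T g).card : ℝ) ≤
        Fintype.card G * (2 * (2 ^ Fintype.card (Blk col j) * rho m ^ t)) := by
    intro j
    refine exists_shift ((resHom col j).comp F) T t fun g hg => (hcol j g hg).trans ?_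
    have h1 : (univ.filter fun i => col i = some j ∧ F g i ≠ 0) =
        (univ.filter fun i : Blk col j => (resHom col j).comp F g i ≠ 0).map
          (Function.Embedding.subtype _) := by
      ext i
      rw [Finset.mem_filter, Finset.mem_map]
      constructor
      · rintro ⟨-, hi, hi'⟩
        exact ⟨⟨i, hi⟩, Finset.mem_filter.2 ⟨Finset.mem_univ _, hi'⟩, rfl⟩
      · rintro ⟨i', hi', rfl⟩
        exact ⟨Finset.mem_univ _, i'.2, (Finset.mem_filter.1 hi').2⟩
    rw [h1, Finset.card_map]
  choose φ hφ using hloc
  set B : ∀ j, Finset (Blk col j → Bool) := fun j => univ.filter fun u =>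
    ¬ ∀ g, ev ((resHom col j).comp F g) (φ j u) = ev ((resHom col j).comp F g) u + T g with hB
  refine ⟨samp col φ, univ.biUnion fun j => univ.filter fun x : ι → Bool => res col j x ∈ B j,
    samp_smap col φ, samp_injective col φ, ?_, ?_⟩
  · intro x hx z g
    refine ev_samp col φ x z F T g fun j => ?_
    by_contra hne
    apply hx
    rw [Finset.mem_biUnion]
    refine ⟨j, Finset.mem_univ _, Finset.mem_filter.2 ⟨Finset.mem_univ _, ?_⟩⟩
    rw [hB]
    exact Finset.mem_filter.2 ⟨Finset.mem_univ _, fun h => hne (h g)⟩
  · have h1 : ∀ j : Fin N, ((univ.filter fun x : ι → Bool => res col j x ∈ B j).card : ℝ) ≤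
        Fintype.card G * (2 * (2 ^ Fintype.card ι * rho m ^ t)) := by
      intro j
      have h2 := card_res (fun i => col i = some j) (B j)
      have h3 : ((univ.filter fun x : ι → Bool => res col j x ∈ B j).card : ℝ) *
          2 ^ Fintype.card (Blk col j) = (B j).card * 2 ^ Fintype.card ι := by
        exact_mod_cast h2
      have h4 : (0 : ℝ) < 2 ^ Fintype.card (Blk col j) := by positivity
      rw [← mul_le_mul_iff_of_pos_right h4, h3]
      calc ((B j).card : ℝ) * 2 ^ Fintype.card ι ≤
          (Fintype.card G * (2 * (2 ^ Fintype.card (Blk col j) * rho m ^ t))) *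
            2 ^ Fintype.card ι := mul_le_mul_of_nonneg_right (hφ j) (by positivity)
        _ = _ := by ring
    have h5 := Finset.card_biUnion_le (s := (univ : Finset (Fin N)))
      (t := fun j => univ.filter fun x : ι → Bool => res col j x ∈ B j)
    have h6 : ((univ.biUnion fun j => univ.filter fun x : ι → Bool => res col j x ∈ B j).card : ℝ)
        ≤ ∑ j : Fin N, ((univ.filter fun x : ι → Bool => res col j x ∈ B j).card : ℝ) := by
      exact_mod_cast h5
    refine h6.trans ((Finset.sum_le_sum fun j _ => h1 j).trans ?_)
    rw [Finset.sum_const, nsmul_eq_mul, Finset.card_univ, Fintype.card_fin]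

end Pool.Agent.MXC
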