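import Pool.Agent.MXC.Perm
import Pool.Agent.Helper21.LinSys.Size

/-!
# A permutation of a cube which shifts the values of a group of linear forms
-/

set_option autoImplicit false

namespace Pool.Agent.MXC

open Finset Pool.Agent.Helper21.LinSys

variable {V G : Type} [Fintype V] [DecidableEq V] [AddCommGroup G] [Fintype G] {m : ℕ}
  [NeZero m]

/-- The character `g ↦ e(F g (u))` of `G`. -/
noncomputable def chi (F : G →+ (V → ZMod m)) (u : V → Bool) : AddChar G ℂ :=
  ZMod.stdAddChar.compAddMonoidHom ((evHom u).comp F)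

omit [DecidableEq V] [Fintype G] in
theorem chi_apply (F : G →+ (V → ZMod m)) (u : V → Bool) (g : G) :
    chi F u g = (ZMod.stdAddChar (ev (F g) u) : ℂ) := rfl

/-- The character `g ↦ e(T g)`. -/
noncomputable def chT (T : G →+ ZMod m) : AddChar G ℂ := ZMod.stdAddChar.compAddMonoidHom T

omit [Fintype G] in
theorem chT_apply (T : G →+ ZMod m) (g : G) : chT T g = (ZMod.stdAddChar (T g) : ℂ) := rfl

omit [DecidableEq V] [Fintype G] in
theorem chi_eq_add (F : G →+ (V → ZMod m)) (T : G →+ ZMod m) (u u' : V → Bool) :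
    chi F u' = chi F u + chT T ↔ ∀ g, ev (F g) u' = ev (F g) u + T g := by
  constructor
  · intro h g
    have h1 : chi F u' g = (chi F u + chT T) g := by rw [h]
    rw [AddChar.add_apply, chi_apply, chi_apply, chT_apply, ← AddChar.map_add_eq_mul] at h1
    exact ZMod.injective_stdAddChar h1
  · intro h
    ext g
    rw [AddChar.add_apply, chi_apply, chi_apply, chT_apply, ← AddChar.map_add_eq_mul, h g]

open Classical in
theorem card_chi (F : G →+ (V → ZMod m)) (a : AddChar G ℂ) :
    (Fintype.card G : ℂ) * (univ.filter fun u => chi F u = a).card =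
      ∑ g, a (-g) * ∑ u : V → Bool, (ZMod.stdAddChar (ev (F g) u) : ℂ) := by
  have h1 : ∀ u : V → Bool, ∑ g, a (-g) * (ZMod.stdAddChar (ev (F g) u) : ℂ) =
      if chi F u = a then (Fintype.card G : ℂ) else 0 := by
    intro u
    have h2 := AddChar.sum_eq_ite (R := ℂ) (chi F u - a)
    have h3 : (chi F u - a = 0) ↔ chi F u = a := sub_eq_zero
    simp only [h3] at h2
    rw [← h2]
    refine Finset.sum_congr rfl fun g _ => ?_
    rw [AddChar.sub_apply, chi_apply, mul_comm]
  have h4 : ∑ g, a (-g) * ∑ u : V → Bool, (ZMod.stdAddChar (ev (F g) u) : ℂ) =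
      ∑ u : V → Bool, ∑ g, a (-g) * (ZMod.stdAddChar (ev (F g) u) : ℂ) := by
    rw [Finset.sum_comm]
    exact Finset.sum_congr rfl fun g _ => Finset.mul_sum _ _ _
  rw [h4, Finset.sum_congr rfl fun u _ => h1 u, ← Finset.sum_filter, Finset.sum_const,
    nsmul_eq_mul, mul_comm]

theorem norm_sum_univ_le (a : V → ZMod m) (r : ℕ)
    (hr : r ≤ (univ.filter fun i => a i ≠ 0).card) :
    ‖∑ x : V → Bool, (ZMod.stdAddChar (ev a x) : ℂ)‖ ≤ 2 ^ Fintype.card V * rho m ^ r := by
  have h := norm_sum_cube_le a ∅ (fun _ => false) r (by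
    refine hr.trans (Finset.card_le_card fun i hi => ?_)
    rw [Finset.mem_filter] at hi ⊢
    exact ⟨hi.1, Finset.notMem_empty _, hi.2⟩)
  have h2 : cube (∅ : Finset V) (fun _ => false) = univ := by
    ext x
    simp [mem_cube]
  rw [h2, Finset.compl_empty, Finset.card_univ] at h
  exact h

open Classical in
theorem card_chi_le (F : G →+ (V → ZMod m)) (T : G →+ ZMod m) (t : ℕ)
    (ht : ∀ g, T g ≠ 0 → t ≤ (univ.filter fun i => F g i ≠ 0).card) (a : AddChar G ℂ) :
    ((univ.filter fun u => chi F u = a).card : ℝ) ≤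
      (univ.filter fun u => chi F u = a + chT T).card +
        2 * (2 ^ Fintype.card V * rho m ^ t) := by
  have hG : (0 : ℝ) < Fintype.card G := by exact_mod_cast Fintype.card_pos
  have h1 : (Fintype.card G : ℂ) * (((univ.filter fun u => chi F u = a).card : ℂ) -
      (univ.filter fun u => chi F u = a + chT T).card) =
      ∑ g, (a (-g) - (a + chT T) (-g)) *
        ∑ u : V → Bool, (ZMod.stdAddChar (ev (F g) u) : ℂ) := by
    rw [mul_sub, card_chi, card_chi, ← Finset.sum_sub_distrib]
    exact Finset.sum_congr rfl fun g _ => (sub_mul _ _ _).symm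
  have h2 : ∀ g, ‖(a (-g) - (a + chT T) (-g)) *
        ∑ u : V → Bool, (ZMod.stdAddChar (ev (F g) u) : ℂ)‖ ≤
        2 * (2 ^ Fintype.card V * rho m ^ t) := by
    intro g
    by_cases hg : T g = 0
    · have h3 : a (-g) - (a + chT T) (-g) = 0 := by
        rw [AddChar.add_apply, chT_apply, map_neg T, hg, neg_zero, AddChar.map_zero_eq_one,
          mul_one, sub_self]
      rw [h3, zero_mul, norm_zero]
      have := rho_pos m
      positivity
    · rw [norm_mul]
      refine mul_le_mul ?_ (norm_sum_univ_le (F g) t (ht g hg)) (norm_nonneg _) (by norm_num)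
      refine (norm_sub_le _ _).trans ?_
      rw [AddChar.norm_apply, AddChar.norm_apply]
      norm_num
  have h3 : ‖(Fintype.card G : ℂ) * (((univ.filter fun u => chi F u = a).card : ℂ) -
      (univ.filter fun u => chi F u = a + chT T).card)‖ ≤
      Fintype.card G * (2 * (2 ^ Fintype.card V * rho m ^ t)) := by
    rw [h1]
    refine (norm_sum_le _ _).trans ((Finset.sum_le_sum fun g _ => h2 g).trans ?_)
    rw [Finset.sum_const, nsmul_eq_mul, Finset.card_univ]
  have h4 : (Fintype.card G : ℂ) * (((univ.filter fun u => chi F u = a).card : ℂ) -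
      (univ.filter fun u => chi F u = a + chT T).card) =
      (((Fintype.card G : ℝ) * (((univ.filter fun u => chi F u = a).card : ℝ) -
      (univ.filter fun u => chi F u = a + chT T).card) : ℝ) : ℂ) := by
    push_cast
    ring
  rw [h4, Complex.norm_real, Real.norm_eq_abs, abs_mul, abs_of_pos hG] at h3
  have h5 := le_of_mul_le_mul_left h3 hG
  have h6 := (abs_le.1 h5).2
  linarith

open Classical in
/-- A permutation of the cube which changes the values of all forms `F g` by `T g`, up to a
small number of points. -/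
theorem exists_shift (F : G →+ (V → ZMod m)) (T : G →+ ZMod m) (t : ℕ)
    (ht : ∀ g, T g ≠ 0 → t ≤ (univ.filter fun i => F g i ≠ 0).card) :
    ∃ φ : Equiv.Perm (V → Bool),
      ((univ.filter fun u => ¬ ∀ g, ev (F g) (φ u) = ev (F g) u + T g).card : ℝ) ≤
        Fintype.card G * (2 * (2 ^ Fintype.card V * rho m ^ t)) := by
  have hrho := rho_pos m
  obtain ⟨φ, hφ⟩ := exists_perm (chi F) (Equiv.addRight (chT T))
    (2 * (2 ^ Fintype.card V * rho m ^ t)) (by positivity) fun a => by
      have h := card_chi_le F T t ht a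
      rw [Equiv.coe_addRight]
      exact h
  refine ⟨φ, ?_⟩
  rw [AddChar.card_eq] at hφ
  refine le_trans (le_of_eq ?_) hφ
  congr 2
  ext u
  rw [Finset.mem_filter, Finset.mem_filter, Equiv.coe_addRight, Ne, chi_eq_add]

end Pool.Agent.MXC
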