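import Pool.Agent.MXC.Defs

/-!
# Mixed clauses: statements of the modules

Paper: `/team-store/MXC_paper.md`. Every `St_X` is proved in its own file `X.lean` as
`theorem st_X : St_X` (possibly from other `St_Y`).
-/

set_option autoImplicit false

namespace Pool.Agent.MXC

open Finset Pool.Agent.RS Pool.Agent.Helper21.LinSys Pool.Agent.QuadSys

noncomputable section

/-! ## Block A: closure properties of `Apx` -/

structure ApxBasic (p : ℕ) [Fact p.Prime] : Prop where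
  const : ∀ (ι : Type) (d : ℕ) (b : Bool), Apx p d 0 (fun _ : ι → Bool => b)
  lit : ∀ (ι : Type) (d : ℕ) (i : ι) (b : Bool), Apx p d 0 (fun x : ι → Bool => xor b (x i))
  mono : ∀ (ι : Type) (d d' s s' : ℕ) (f : (ι → Bool) → Bool), d ≤ d' → s ≤ s' →
    Apx p d s f → Apx p d' s' f
  not : ∀ (ι : Type) (d s : ℕ) (f : (ι → Bool) → Bool), Apx p d s f →
    Apx p d s fun x => !f x
  comp : ∀ (κ ι : Type) (d s : ℕ) (f : (ι → Bool) → Bool) (ψ : (κ → Bool) → ι → Bool),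
    CMap ψ → Apx p d s f → Apx p d s fun y => f (ψ y)

structure ApxGate (p : ℕ) [Fact p.Prime] : Prop where
  all : ∀ (ι J : Type) [Fintype J] (d : ℕ) (s : J → ℕ) (f : J → (ι → Bool) → Bool),
    (∀ j, Apx p d (s j) (f j)) →
    ∀ g : (ι → Bool) → Bool, (∀ x, g x = true ↔ ∀ j, f j x = true) →
      Apx p (d + 1) (∑ j, s j + 1) g
  any : ∀ (ι J : Type) [Fintype J] (d : ℕ) (s : J → ℕ) (f : J → (ι → Bool) → Bool),
    (∀ j, Apx p d (s j) (f j)) →
    ∀ g : (ι → Bool) → Bool, (∀ x, g x = true ↔ ∃ j, f j x = true) →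
      Apx p (d + 1) (∑ j, s j + 1) g
  modc : ∀ (ι J : Type) [Fintype J] (d : ℕ) (s : J → ℕ) (f : J → (ι → Bool) → Bool)
    (c : J → ℕ) (A : ℕ → Bool), (∀ j, Apx p d (s j) (f j)) →
      Apx p (d + 1) (∑ j, s j + 1)
        (fun x => A ((∑ j, if f j x = true then c j else 0) % p))

structure ApxMore (p : ℕ) [Fact p.Prime] : Prop where
  circuit : ∀ (ι : Type) [Fintype ι] [DecidableEq ι] (d s : ℕ) (C : Circuit ι s),
    C.level C.out + 1 ≤ d → ∀ g : (ι → Bool) → Bool, (∀ x, g x = true ↔ C.Accepts p x) →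
      Apx p d s g
  junta : ∀ (ι : Type) [DecidableEq ι] (J : Finset ι) (f : (ι → Bool) → Bool),
    (∀ x y, (∀ i ∈ J, x i = y i) → f x = f y) → Apx p 2 (2 ^ J.card + 1) f
  fn : ∀ (ι J : Type) [Fintype J] [DecidableEq J] (d s : ℕ) (f : J → (ι → Bool) → Bool)
    (F : (J → Bool) → Bool), (∀ j, Apx p d s (f j)) →
      Apx p (d + 2) (2 ^ Fintype.card J * (Fintype.card J * s + 1) + 1)
        (fun x => F fun j => f j x)

/-- sums modulo a power of `p` -/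
def St_PPart (p : ℕ) [Fact p.Prime] : Prop :=
  ∀ e : ℕ, ∃ K : ℕ, ∀ (ι : Type) [Fintype ι] [DecidableEq ι] (c : ι → ZMod (p ^ e))
    (u : ZMod (p ^ e)) (g : (ι → Bool) → Bool), (∀ x, g x = true ↔ ev c x = u) →
      Apx p 4 (pb K (Fintype.card ι + 1)) g

/-! ## Block B: relative near-uniformity of linear forms -/

/-- Smolensky's bound -/
def St_Smol : Prop :=
  ∀ (F : Type) [Field F] (N D : ℕ) (ω : F) (P : Finset (Fin N) → F)
    (A : Finset (Finset (Fin N))), ω ≠ 0 → ω ≠ 1 → P ∈ lowDeg F (Fin N) D →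
    100 * (D + 1) ^ 2 ≤ N → (∀ z ∈ A, P z = ω ^ z.card) → 10 * A.card ≤ 7 * 2 ^ N

/-- rates of an OR of `⌊1 / rm⌋` samples -/
def St_OrRate : Prop :=
  ∀ rm : ℝ, 0 < rm → rm ≤ 1 → ∃ r₀ : ℕ, 1 ≤ r₀ ∧ r₀ * rm ≤ 1 ∧
    ∀ x y : ℝ, 0 ≤ x → x ≤ y → y ≤ rm →
      y - x ≤ 6 * rm * ((1 - x) ^ r₀ - (1 - y) ^ r₀) ∧
      rm * ((1 - x) ^ r₀ - (1 - y) ^ r₀) ≤ y - x

/-- a threshold in a gap -/
def St_Gap : Prop :=
  ∀ (o : ℕ) (g : Fin o → ℝ) (δ : ℝ), 0 < δ → (∃ i j, δ ≤ g i - g j) →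
    ∃ θ : ℝ, (∀ i, g i + δ / (2 * o) ≤ θ ∨ θ + δ / (2 * o) ≤ g i) ∧
      (∃ i, g i + δ / (2 * o) ≤ θ) ∧ ∃ i, θ + δ / (2 * o) ≤ g i

/-- Chebyshev's inequality for independent samples -/
def St_Sample : Prop :=
  ∀ (Ω : Type) [Fintype Ω] [DecidableEq Ω] [Nonempty Ω] (A : Finset Ω) (r₁ : ℕ) (κ : ℝ),
    0 < κ → 1 ≤ r₁ →
    ((univ.filter fun g : Fin r₁ → Ω => κ * r₁ ≤
      |((univ.filter fun i => g i ∈ A).card : ℝ) -
        (A.card : ℝ) / (Fintype.card Ω : ℝ) * r₁|).card : ℝ) * (4 * κ ^ 2 * r₁) ≤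
      (Fintype.card Ω : ℝ) ^ r₁

/-- Sampling plus Smolensky: acceptance rates of an `Apx` function under random cube maps which
almost depend only on the number of ones modulo `o` are almost constant. -/
def St_Dist (p : ℕ) [Fact p.Prime] : Prop :=
  ∀ d o W : ℕ, 2 ≤ o → Nat.Coprime o p → 1 ≤ W → ∃ K₀ K : ℕ,
    ∀ (ι : Type) [Fintype ι] [DecidableEq ι] (f : (ι → Bool) → Bool) (X N : ℕ)
      (Ω : Type) [Fintype Ω] [DecidableEq Ω] [Nonempty Ω]
      (φ : Ω → Finset (Fin (N + o)) → ι → Bool) (r : ℕ → ℝ) (rm : ℝ),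
      Apx p d (2 ^ X) f → (∀ ω, SMap (φ ω)) →
      (∀ z, K₀ * |((univ.filter fun ω => f (φ ω z) = true).card : ℝ) -
        r (z.card % o) * Fintype.card Ω| ≤ rm * Fintype.card Ω) →
      (∀ z, ((univ.filter fun ω => f (φ ω z) = true).card : ℝ) ≤ rm * Fintype.card Ω) →
      0 < rm → rm ≤ 1 → 1 ≤ 2 ^ X * rm → (∀ v < o, 0 ≤ r v ∧ r v ≤ rm) →
      pb K (X + 1) ≤ N → ∀ u < o, ∀ v < o, W * |r u - r v| ≤ rm

/-- Relative near-uniformity on a cell: if all characters outside `Kn` give forms of large support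
modulo `Γ`, and the characters in `Kn` are constant on the cell with the values given by `v`, then
the values `v` of the forms are taken with at least half of the expected frequency. -/
def St_Wlb (p : ℕ) [Fact p.Prime] : Prop :=
  ∀ (m : ℕ) [NeZero m] (w d : ℕ), Nat.Coprime m p → ∃ K : ℕ,
    ∀ (ι : Type) [Fintype ι] [DecidableEq ι] (f : (ι → Bool) → Bool) (X R : ℕ)
      (Γ : AddSubgroup (ι → ZMod m)) (y : ι → Bool)
      (Kn : AddSubgroup (Fin w → ZMod m)) (L : Fin w → ι → ZMod m) (v : Fin w → ZMod m),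
      Nat.card Γ ≤ 2 ^ X → (∀ h, h ∉ Kn → ∀ l ∈ Γ, R ≤ off ∅ (comb h L + l)) →
      pb K (X + 1) ≤ R → Apx p d (2 ^ X) f →
      (∀ x ∈ cell Γ y f, ∀ h ∈ Kn, pair h (vals L x) = pair h v) →
      2 ^ Fintype.card ι ≤ 2 ^ X * (cell Γ y f).card →
      (cell Γ y f).card ≤ 2 * m ^ w * ((cell Γ y f).filter fun x => vals L x = v).card

/-! ## Block D: the path -/

/-- selection of a part which is good with respect to two weights -/
def St_Sel : Prop :=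
  ∀ (J : Type) (s : Finset J) (t x n : J → ℝ) (ε : ℝ), 0 ≤ ε → ε ≤ 1 →
    (∀ j ∈ s, 0 ≤ t j ∧ 0 ≤ x j ∧ 0 ≤ n j) → 0 < ∑ j ∈ s, t j → 0 < ∑ j ∈ s, x j →
    0 < ∑ j ∈ s, n j →
    ∃ j ∈ s, 0 < t j ∧ (1 - ε) * (∑ j ∈ s, t j) * x j ≤ t j * ∑ j ∈ s, x j ∧
      ε * (∑ j ∈ s, t j) * n j ≤ t j * ∑ j ∈ s, n j

/-- One step, for a gate with clauses `c : Fin N` which is true on `T`. The parameters `X` (current
state) and `Y` (clauses, and the bound for small supports) are kept apart. Either the density of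
`T` increases, or all active clauses are true on the new cell. -/
def St_Step (p : ℕ) [Fact p.Prime] : Prop :=
  ∀ (m : ℕ) [NeZero m] (w d : ℕ), Nat.Coprime m p → 2 ≤ d → ∃ K : ℕ,
    ∀ (ι : Type) [Fintype ι] [DecidableEq ι] (X Y R N : ℕ)
      (Γ : AddSubgroup (ι → ZMod m)) (y : ι → Bool)
      (B : (ι → Bool) → Bool) (T : Finset (ι → Bool))
      (L : Fin N → Fin w → ι → ZMod m) (Φ : Fin N → (Fin w → ZMod m) → (ι → Bool) → Bool),
      Stt p (d + 3) X Γ y B T → 1 ≤ Y → N ≤ 2 ^ Y → pb K (X + Y + 1) ≤ R →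
      (∀ c v, Apx p d (2 ^ Y) (Φ c v)) → (∀ x ∈ T, ∀ c, Φ c (vals (L c) x) x = true) →
      ∃ (Γ' : AddSubgroup (ι → ZMod m)) (y' : ι → Bool) (B₁ B' : (ι → Bool) → Bool),
        Γ ≤ Γ' ∧ cell Γ' y' B' ⊆ cell Γ y B ∧ (∀ x, B' x = (B x && B₁ x)) ∧
        Nat.card Γ' ≤ m ^ w * Nat.card Γ ∧ Apx p (d + 2) (2 ^ (K * Y)) B₁ ∧
        2 ^ Fintype.card ι ≤ 2 ^ (X + Y + K) * (T ∩ cell Γ' y' B').card ∧
        (((K + 1) * (T ∩ cell Γ y B).card * (cell Γ' y' B').card ≤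
            K * (T ∩ cell Γ' y' B').card * (cell Γ y B).card) ∨
          (Γ' = Γ ∧ ∀ c, Act Y R Γ (L c) → ∀ x ∈ cell Γ' y' B', Φ c (vals (L c) x) x = true))

/-- One phase: all active clauses are true on the new cell. -/
def St_Phase (p : ℕ) [Fact p.Prime] : Prop :=
  ∀ (m : ℕ) [NeZero m] (w d : ℕ), Nat.Coprime m p → 2 ≤ d → ∃ K : ℕ,
    ∀ (ι : Type) [Fintype ι] [DecidableEq ι] (X R N : ℕ)
      (Γ : AddSubgroup (ι → ZMod m)) (y : ι → Bool)
      (B : (ι → Bool) → Bool) (T : Finset (ι → Bool))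
      (L : Fin N → Fin w → ι → ZMod m) (Φ : Fin N → (Fin w → ZMod m) → (ι → Bool) → Bool),
      Stt p d X Γ y B T → 1 ≤ X → N ≤ 2 ^ X → pb K X ≤ R →
      (∀ c v, Apx p d (2 ^ X) (Φ c v)) → (∀ x ∈ T, ∀ c, Φ c (vals (L c) x) x = true) →
      ∃ (Γ' : AddSubgroup (ι → ZMod m)) (y' : ι → Bool) (B' : (ι → Bool) → Bool),
        Γ ≤ Γ' ∧ cell Γ' y' B' ⊆ cell Γ y B ∧ Stt p (d + 3) (pb K X) Γ' y' B' T ∧
        ∀ c, Act X R Γ' (L c) → ∀ x ∈ cell Γ' y' B', Φ c (vals (L c) x) x = true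

/-- All clauses are true on a large cell. -/
def St_All (p : ℕ) [Fact p.Prime] : Prop :=
  ∀ (m : ℕ) [NeZero m] (w d : ℕ), Nat.Coprime m p → 2 ≤ d → ∃ d' K : ℕ,
    ∀ (ι : Type) [Fintype ι] [DecidableEq ι] (X N : ℕ) (T : Finset (ι → Bool))
      (L : Fin N → Fin w → ι → ZMod m) (Φ : Fin N → (Fin w → ZMod m) → (ι → Bool) → Bool),
      1 ≤ X → N ≤ 2 ^ X → (∀ c v, Apx p d (2 ^ X) (Φ c v)) →
      (∀ x ∈ T, ∀ c, Φ c (vals (L c) x) x = true) → 2 ^ Fintype.card ι ≤ 2 ^ X * T.card →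
      ∃ (Γ' : AddSubgroup (ι → ZMod m)) (y' : ι → Bool) (B' : (ι → Bool) → Bool),
        Stt p d' (pb K X) Γ' y' B' T ∧ ∀ x ∈ cell Γ' y' B', ∀ c, Φ c (vals (L c) x) x = true

/-! ## Block F: the end -/

/-- The one-sided Razborov-Smolensky bound on a fibre, for functions with approximations. -/
def St_CoreA (p : ℕ) [Fact p.Prime] : Prop :=
  ∀ (m : ℕ) [NeZero m] (d : ℕ), ∃ K : ℕ,
    ∀ (ι : Type) [Fintype ι] [DecidableEq ι] (X h : ℕ)
      (Γ : AddSubgroup (ι → ZMod m)) (y : ι → Bool)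
      (f : (ι → Bool) → Bool) (T : Finset (ι → Bool)), 1 ≤ X → Nat.card Γ ≤ 2 ^ X →
      Apx p d (2 ^ X) f → (∀ x ∈ cell Γ y f, h ≤ ones x) → (∀ x ∈ T, ones x = h) →
      2 ^ Fintype.card ι ≤ 2 ^ X * (T ∩ cell Γ y f).card → Fintype.card ι ≤ pb K X

/-! ## The theorem -/

/-- `Q` is an `AND` of `N` clauses; a clause is an arbitrary function of `w` circuits of depth at
most `d` with `s` gates `AND`, `OR`, `NOR`, `MOD_p`, and of `w` linear sums modulo `m`. -/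
def MixedAnd (p m w d n s N : ℕ) (Q : (Fin n → Bool) → Bool) : Prop :=
  ∃ (C : Fin N → Fin w → Circuit (Fin n) s) (c : Fin N → Fin w → Fin n → ZMod m)
    (F : Fin N → (Fin w → Prop) → (Fin w → ZMod m) → Prop),
    (∀ i a, (C i a).level (C i a).out + 1 ≤ d) ∧
    ∀ x, Q x = true ↔ ∀ i, F i (fun a => (C i a).Accepts p x)
      (fun a => ∑ v, if x v = true then c i a v else 0)

/-- an `OR` of few `AND`s of mixed clauses is not the majority function -/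
def St_One (p : ℕ) [Fact p.Prime] : Prop :=
  ∀ m w d : ℕ, 2 ≤ m → ∃ K : ℕ, ∀ (n s N X : ℕ) (I : Type) [Fintype I]
    (G : I → (Fin n → Bool) → Bool), 1 ≤ X → s ≤ 2 ^ X → N ≤ 2 ^ X → n + 1 ≤ 2 ^ X →
    Fintype.card I ≤ 2 ^ X → (∀ i, MixedAnd p m w d n s N (G i)) →
    (∀ x, (∃ i, G i x = true) ↔ n ≤ 2 * ones x) → n ≤ pb K X

/-- The gates `P j`, `j : Fin k`, have levels `lev j`; on the points at which the gates of
smaller level have given values `b`, the gate `P j` is an `AND` of `s` mixed clauses. -/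
def Special (p m w d n s k : ℕ) (lev : Fin k → ℕ) (P : Fin k → (Fin n → Bool) → Bool) : Prop :=
  ∀ (j : Fin k) (b : Fin k → Bool), ∃ Q, MixedAnd p m w d n s s Q ∧
    ∀ x, (∀ i, lev i < lev j → P i x = b i) → P j x = Q x

/-- the main theorem -/
def St_Main (p : ℕ) [Fact p.Prime] : Prop :=
  ∀ m w d : ℕ, 2 ≤ m → ∃ K : ℕ, ∀ n k s t : ℕ, 1 ≤ k →
    ∀ (lev : Fin t → Fin k → ℕ) (P : Fin t → Fin k → (Fin n → Bool) → Bool)
      (C : Fin t → (Fin k → Bool) → Circuit (Fin n) s),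
      (∀ i, Special p m w d n s k (lev i) (P i)) →
      (∀ i b, (C i b).level (C i b).out + 1 ≤ d) →
      (∀ x : Fin n → Bool, (∃ i, (C i fun j => P i j x).Accepts p x) ↔
        n ≤ 2 * (univ.filter fun i => x i = true).card) →
      (n : ℝ) ≤ (K * k * Real.log (s + t + n)) ^ K

end

end Pool.Agent.MXC
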