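import Pool.Agent.MXC.Sampler
import Pool.Agent.MXC.Block
import Pool.Agent.MXC.Stmts

/-!
# Mixed clauses: the core of module Wlb
-/

set_option autoImplicit false

namespace Pool.Agent.MXC

open Finset Pool.Agent.RS Pool.Agent.Helper21.LinSys Pool.Agent.QuadSys

variable {ι : Type} [Fintype ι] [DecidableEq ι] {m w : ℕ}

omit [DecidableEq ι] in
theorem pair_vals_eq (h : Fin w → ZMod m) (L : Fin w → ι → ZMod m) (x : ι → Bool) :
    pair h (vals L x) = ev (comb h L) x := by
  unfold pair vals ev comb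
  have h1 : ∀ a : Fin w, h a * ∑ i, (if x i = true then L a i else 0) =
      ∑ i, if x i = true then h a * L a i else 0 := by
    intro a
    rw [Finset.mul_sum]
    refine Finset.sum_congr rfl fun i _ => ?_
    by_cases hx : x i = true
    · rw [if_pos hx, if_pos hx]
    · rw [if_neg hx, if_neg hx, mul_zero]
  rw [Finset.sum_congr rfl fun a _ => h1 a, Finset.sum_comm]
  refine Finset.sum_congr rfl fun i _ => ?_
  by_cases hx : x i = true
  · rw [if_pos hx]
    exact Finset.sum_congr rfl fun a _ => if_pos hx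
  · rw [if_neg hx]
    exact Finset.sum_eq_zero fun a _ => if_neg hx

/-- The forms `comb h L + l`. -/
def frm (Γ : AddSubgroup (ι → ZMod m)) (L : Fin w → ι → ZMod m) :
    (Γ × (Fin w → ZMod m)) →+ (ι → ZMod m) where
  toFun g := comb g.2 L + (g.1 : ι → ZMod m)
  map_zero' := by
    funext i
    simp [comb]
  map_add' g g' := by
    funext i
    simp only [comb, Prod.snd_add, Prod.fst_add, Pi.add_apply, AddSubgroup.coe_add, add_mul,
      Finset.sum_add_distrib]
    ring

/-- The pairing with `q`. -/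
def prh (Γ : AddSubgroup (ι → ZMod m)) (q : Fin w → ZMod m) :
    (Γ × (Fin w → ZMod m)) →+ ZMod m where
  toFun g := pair g.2 q
  map_zero' := by simp [pair]
  map_add' g g' := by
    simp only [pair, Prod.snd_add, Pi.add_apply, add_mul, Finset.sum_add_distrib]

omit [Fintype ι] [DecidableEq ι] in
theorem pair_single (q : Fin w → ZMod m) (a : Fin w) : pair (Pi.single a 1) q = q a := by
  unfold pair
  rw [Finset.sum_eq_single a]
  · rw [Pi.single_eq_same, one_mul]
  · intro b _ hb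
    rw [Pi.single_eq_of_ne hb, zero_mul]
  · intro hc
    exact absurd (Finset.mem_univ a) hc

omit [Fintype ι] [DecidableEq ι] in
theorem comb_single (L : Fin w → ι → ZMod m) (a : Fin w) :
    comb (Pi.single a 1) L = L a := by
  funext i
  exact pair_single (fun a => L a i) a

open Classical in
/-- The core: one step from the most frequent value to the value `v`. -/
theorem wlb_core [NeZero m] (p : ℕ) [Fact p.Prime] (d K₀ K X' N t R : ℕ)
    (f : (ι → Bool) → Bool) (Γ : AddSubgroup (ι → ZMod m)) (y : ι → Bool)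
    (L : Fin w → ι → ZMod m) (v' q : Fin w → ZMod m)
    (hD : ∀ (ι : Type) [Fintype ι] [DecidableEq ι] (f : (ι → Bool) → Bool) (X N : ℕ)
      (Ω : Type) [Fintype Ω] [DecidableEq Ω] [Nonempty Ω]
      (φ : Ω → Finset (Fin (N + addOrderOf q)) → ι → Bool) (r : ℕ → ℝ) (rm : ℝ),
      Apx p d (2 ^ X) f → (∀ ω, SMap (φ ω)) →
      (∀ z, K₀ * |((univ.filter fun ω => f (φ ω z) = true).card : ℝ) -
        r (z.card % addOrderOf q) * Fintype.card Ω| ≤ rm * Fintype.card Ω) →
      (∀ z, ((univ.filter fun ω => f (φ ω z) = true).card : ℝ) ≤ rm * Fintype.card Ω) →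
      0 < rm → rm ≤ 1 → 1 ≤ 2 ^ X * rm → (∀ v < addOrderOf q, 0 ≤ r v ∧ r v ≤ rm) →
      pb K (X + 1) ≤ N → ∀ u < addOrderOf q, ∀ v < addOrderOf q, (4 : ℕ) * |r u - r v| ≤ rm)
    (ho : 2 ≤ addOrderOf q)
    (hΓ : Nat.card Γ * m ^ w ≤ 2 ^ X')
    (hR : ∀ h, pair h q ≠ 0 → ∀ l ∈ Γ, R ≤ off ∅ (comb h L + l))
    (hNtR : (N + addOrderOf q) * t * X' < R) (hN : pb K (X' + 1) ≤ N)
    (hsmall : ((K₀ : ℝ) + 1) * ((N + addOrderOf q : ℕ) * (2 ^ X' * (2 * rho m ^ t))) *
      2 ^ X' ≤ 1)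
    (hf : Apx p d (2 ^ X') f)
    (hmax : ∀ u, ((cell Γ y f).filter fun x => vals L x = u).card ≤
      ((cell Γ y f).filter fun x => vals L x = v').card)
    (hbig : 2 ^ Fintype.card ι ≤
      2 ^ X' * ((cell Γ y f).filter fun x => vals L x = v').card) :
    ((cell Γ y f).filter fun x => vals L x = v').card ≤
      2 * ((cell Γ y f).filter fun x => vals L x = v' + q).card := by
  set o := addOrderOf q with ho_def
  have hcard : Nat.card (Γ × (Fin w → ZMod m)) ≤ 2 ^ X' := by
    rw [Nat.card_prod]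
    have : Nat.card (Fin w → ZMod m) = m ^ w := by
      rw [Nat.card_eq_fintype_card, Fintype.card_fun, ZMod.card, Fintype.card_fin]
    rw [this]
    exact hΓ
  have : Fintype (Γ × (Fin w → ZMod m)) := Fintype.ofFinite _
  obtain ⟨col, hcol⟩ := exists_col (frm Γ L) (fun g => prh Γ q g ≠ 0) R X' (N + o) t hcard
    (fun g hg => by
      have h1 := hR g.2 hg g.1 g.1.2
      unfold off at h1
      refine h1.trans (Finset.card_le_card fun i hi => ?_)
      rw [Finset.mem_filter] at hi ⊢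
      exact ⟨hi.1, hi.2.2⟩) hNtR
  obtain ⟨φ, Bad, hφ1, hφ2, hφ3, hBad⟩ := exists_sampler (frm Γ L) (prh Γ q) t col hcol
  -- the size of the bad set
  set β : (Fin w → ZMod m) → ℕ := fun u => ((cell Γ y f).filter fun x => vals L x = u).card
    with hβ
  have hrho := rho_pos m
  have hBadle : ((K₀ : ℝ) + 1) * Bad.card ≤ β v' := by
    have h1 : (Fintype.card (Γ × (Fin w → ZMod m)) : ℝ) ≤ 2 ^ X' := by
      rw [← Nat.card_eq_fintype_card]
      exact_mod_cast hcard
    have h2 : (Bad.card : ℝ) ≤ ((N + o : ℕ) * (2 ^ X' * (2 * rho m ^ t))) *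
        2 ^ Fintype.card ι := by
      refine hBad.trans ?_
      have h3 : ((N + o : ℕ) : ℝ) * (Fintype.card (Γ × (Fin w → ZMod m)) *
          (2 * (2 ^ Fintype.card ι * rho m ^ t))) ≤
          ((N + o : ℕ) : ℝ) * (2 ^ X' * (2 * (2 ^ Fintype.card ι * rho m ^ t))) := by
        refine mul_le_mul_of_nonneg_left ?_ (Nat.cast_nonneg _)
        exact mul_le_mul_of_nonneg_right h1 (by positivity)
      refine h3.trans (le_of_eq ?_)
      ring
    have h4 : (2 : ℝ) ^ Fintype.card ι ≤ 2 ^ X' * β v' := by exact_mod_cast hbig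
    have h5 : 0 ≤ ((K₀ : ℝ) + 1) * ((N + o : ℕ) * (2 ^ X' * (2 * rho m ^ t))) := by positivity
    calc ((K₀ : ℝ) + 1) * Bad.card ≤ ((K₀ : ℝ) + 1) *
          (((N + o : ℕ) * (2 ^ X' * (2 * rho m ^ t))) * 2 ^ Fintype.card ι) :=
          mul_le_mul_of_nonneg_left h2 (by positivity)
      _ = (((K₀ : ℝ) + 1) * ((N + o : ℕ) * (2 ^ X' * (2 * rho m ^ t)))) *
          2 ^ Fintype.card ι := by ring
      _ ≤ (((K₀ : ℝ) + 1) * ((N + o : ℕ) * (2 ^ X' * (2 * rho m ^ t)))) *
          (2 ^ X' * β v') := mul_le_mul_of_nonneg_left h4 h5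
      _ = ((((K₀ : ℝ) + 1) * ((N + o : ℕ) * (2 ^ X' * (2 * rho m ^ t)))) * 2 ^ X') *
          β v' := by ring
      _ ≤ 1 * β v' := mul_le_mul_of_nonneg_right hsmall (Nat.cast_nonneg _)
      _ = β v' := one_mul _
  have hβpos : 0 < β v' := by
    rcases Nat.eq_zero_or_pos (β v') with h | h
    · have h' : ((cell Γ y f).filter fun x => vals L x = v').card = 0 := h
      rw [h', mul_zero] at hbig
      exact absurd hbig (not_le.2 (by positivity))
    · exact h
  -- the sample space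
  set ΩF : Finset (ι → Bool) := (fibz Γ ∅ y y).filter fun x => vals L x = v' with hΩF
  have hβΩ : β v' ≤ ΩF.card := by
    refine Finset.card_le_card fun x hx => ?_
    rw [Finset.mem_filter] at hx ⊢
    unfold cell tr at hx
    rw [Finset.mem_filter] at hx
    exact ⟨hx.1.1, hx.2⟩
  have hΩpos : 0 < ΩF.card := hβpos.trans_le hβΩ
  have : Nonempty ΩF := by
    obtain ⟨x, hx⟩ := Finset.card_pos.1 hΩpos
    exact ⟨⟨x, hx⟩⟩
  have hcardΩ : Fintype.card ΩF = ΩF.card := Fintype.card_coe _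
  -- counting
  have hcnt : ∀ z : Finset (Fin (N + o)),
      (univ.filter fun ω : ΩF => f (φ ω.1 z) = true).card =
      (univ.filter fun x : ι → Bool => x ∈ ΩF ∧ f (φ x z) = true).card := by
    intro z
    rw [← Finset.card_map (Function.Embedding.subtype _)]
    congr 1
    ext x
    rw [Finset.mem_map, Finset.mem_filter]
    constructor
    · rintro ⟨ω, hω, rfl⟩
      exact ⟨Finset.mem_univ _, ω.2, (Finset.mem_filter.1 hω).2⟩
    · rintro ⟨-, hx1, hx2⟩
      exact ⟨⟨x, hx1⟩, Finset.mem_filter.2 ⟨Finset.mem_univ _, hx2⟩, rfl⟩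
  have hQ : ∀ k : ℕ, (univ.filter fun x : ι → Bool =>
      (x ∈ fibz Γ ∅ y y ∧ vals L x = v' + k • q) ∧ f x = true).card = β (v' + k • q) := by
    intro k
    rw [hβ]
    congr 1
    ext x
    rw [Finset.mem_filter, Finset.mem_filter]
    unfold cell tr
    rw [Finset.mem_filter]
    constructor
    · rintro ⟨-, ⟨h1, h2⟩, h3⟩
      exact ⟨⟨h1, h3⟩, h2⟩
    · rintro ⟨⟨h1, h3⟩, h2⟩
      exact ⟨Finset.mem_univ _, ⟨h1, h2⟩, h3⟩
  have hshift : ∀ z : Finset (Fin (N + o)), ∀ x, x ∉ Bad → (x ∈ ΩF ↔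
      (φ x z ∈ fibz Γ ∅ y y ∧ vals L (φ x z) = v' + z.card • q)) := by
    intro z x hx
    have h1 : ∀ l ∈ Γ, ev l (φ x z) = ev l x := by
      intro l hl
      have h2 := hφ3 x hx z (⟨l, hl⟩, 0)
      have h3 : frm Γ L (⟨l, hl⟩, 0) = l := by
        funext i
        simp [frm, comb]
      have h4 : prh Γ q (⟨l, hl⟩, 0) = 0 := by simp [prh, pair]
      rw [h3, h4, nsmul_zero, add_zero] at h2
      exact h2
    have h2 : vals L (φ x z) = vals L x + z.card • q := by
      funext a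
      have h2 := hφ3 x hx z (0, Pi.single a 1)
      have h3 : frm Γ L (0, Pi.single a 1) = L a := by
        change comb (Pi.single a 1) L + ((0 : Γ) : ι → ZMod m) = L a
        rw [comb_single, AddSubgroup.coe_zero, add_zero]
      have h4 : prh Γ q (0, Pi.single a 1) = q a := pair_single q a
      rw [h3, h4] at h2
      exact h2
    rw [hΩF, Finset.mem_filter, mem_fibz, mem_fibz, h2, add_left_inj]
    refine and_congr_left fun _ => ?_
    refine and_congr ?_ ?_
    · simp
    · exact forall_congr' fun l => forall_congr' fun hl => by rw [h1 l hl]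
  have htrans : ∀ z : Finset (Fin (N + o)),
      |((univ.filter fun ω : ΩF => f (φ ω.1 z) = true).card : ℝ) - β (v' + z.card • q)| ≤
        Bad.card := by
    intro z
    rw [hcnt z, ← hQ z.card]
    exact card_transport (fun x => x ∈ ΩF)
      (fun x => x ∈ fibz Γ ∅ y y ∧ vals L x = v' + z.card • q) f (fun x => φ x z) (hφ2 z) Bad
      (hshift z)
  -- the rates
  have hΩR : (0 : ℝ) < ΩF.card := by exact_mod_cast hΩpos
  set r : ℕ → ℝ := fun k => (β (v' + k • q) : ℝ) / ΩF.card with hr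
  set r₀ : ℝ := (β v' : ℝ) / ΩF.card with hr₀
  have hr₀pos : 0 < r₀ := div_pos (by exact_mod_cast hβpos) hΩR
  have hr₀le : r₀ ≤ 1 := by
    rw [hr₀, div_le_one hΩR]
    exact_mod_cast hβΩ
  have hrle : ∀ k, r k ≤ r₀ := by
    intro k
    rw [hr, hr₀]
    exact div_le_div_of_nonneg_right (by exact_mod_cast hmax _) hΩR.le
  have hr₀Ω : r₀ * ΩF.card = β v' := div_mul_cancel₀ _ hΩR.ne'
  have hrΩ : ∀ k, r k * ΩF.card = β (v' + k • q) := fun k => div_mul_cancel₀ _ hΩR.ne'
  have hBad1 : (K₀ : ℝ) * Bad.card ≤ β v' := by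
    have : (0 : ℝ) ≤ Bad.card := Nat.cast_nonneg _
    linarith
  have hBad2 : (Bad.card : ℝ) ≤ β v' := by
    have : (0 : ℝ) ≤ (K₀ : ℝ) * Bad.card := by positivity
    linarith
  set rm : ℝ := min 1 (2 * r₀) with hrm
  have hrm0 : r₀ ≤ rm := le_min hr₀le (by linarith)
  have hrm1 : rm ≤ 1 := min_le_left _ _
  have hrm2 : rm ≤ 2 * r₀ := min_le_right _ _
  have hmain := hD ι f X' N ΩF (fun ω => φ ω.1) r rm hf (fun ω => hφ1 ω.1) ?_ ?_
    (hr₀pos.trans_le hrm0) hrm1 ?_ ?_ hN 0 (by omega) 1 (by omega)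
  · have h1 : r 0 = r₀ := by
      rw [hr, hr₀]
      simp
    have h2 : r 1 * ΩF.card = β (v' + q) := by
      rw [hrΩ 1, one_nsmul]
    rw [h1] at hmain
    push_cast at hmain
    have h3 := le_abs_self (r₀ - r 1)
    have h4 : r₀ ≤ 2 * r 1 := by linarith
    have h5 : (β v' : ℝ) ≤ 2 * β (v' + q) := by
      rw [← hr₀Ω, ← h2]
      nlinarith
    exact_mod_cast h5
  · intro z
    rw [hcardΩ, hrΩ]
    have h1 : (z.card % o) • q = z.card • q := mod_addOrderOf_nsmul q z.card
    rw [h1]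
    calc (K₀ : ℝ) * |((univ.filter fun ω : ΩF => f (φ ω.1 z) = true).card : ℝ) -
          β (v' + z.card • q)| ≤ K₀ * Bad.card :=
          mul_le_mul_of_nonneg_left (htrans z) (Nat.cast_nonneg _)
      _ ≤ β v' := hBad1
      _ = r₀ * ΩF.card := hr₀Ω.symm
      _ ≤ rm * ΩF.card := mul_le_mul_of_nonneg_right hrm0 hΩR.le
  · intro z
    rw [hcardΩ]
    rcases min_cases 1 (2 * r₀) with h | h
    · rw [hrm, h.1, one_mul]
      have h1 : (univ.filter fun ω : ΩF => f (φ ω.1 z) = true).card ≤ Fintype.card ΩF :=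
        Finset.card_le_univ _
      rw [hcardΩ] at h1
      exact_mod_cast h1
    · rw [hrm, h.1, mul_assoc, hr₀Ω]
      have h1 := htrans z
      have h2 : (β (v' + z.card • q) : ℝ) ≤ β v' := by exact_mod_cast hmax _
      have h3 := (abs_le.1 h1).2
      linarith
  · have h1 : (2 : ℝ) ^ Fintype.card ι ≤ 2 ^ X' * β v' := by exact_mod_cast hbig
    have h2 : (ΩF.card : ℝ) ≤ 2 ^ Fintype.card ι := by
      have h3 : ΩF.card ≤ Fintype.card (ι → Bool) := Finset.card_le_univ _
      rw [Fintype.card_fun, Fintype.card_bool] at h3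
      exact_mod_cast h3
    have h3 : (1 : ℝ) ≤ 2 ^ X' * r₀ := by
      rw [hr₀, ← mul_div_assoc, le_div_iff₀ hΩR]
      linarith
    refine h3.trans (mul_le_mul_of_nonneg_left hrm0 (by positivity))
  · intro k _
    exact ⟨div_nonneg (Nat.cast_nonneg _) hΩR.le, (hrle k).trans hrm0⟩

end Pool.Agent.MXC
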